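import Pool.Agent.Lib.H70A.M2

/-!
# H70A chunk M4: Berge's lemma for finite modifications

PROOF. Induction on the number of elements of `cov N \ cov M` (finite: contained in `df M N`; the same
for `cov M \ cov N`), for all `N`. The set is nonempty since it has more elements than the other one.
Choose `x` in it and apply `sd`: `M'`, `N'`, `y`.
* First alternative: `M'` with `z := x`, `z' := y` is as wanted (for `M' w = M w ∨ M' w = N w` use the
  pointwise statement of `sd`).
* Second alternative: `cov N' \ cov M = (cov N \ cov M) \ {x}` and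
  `cov M \ cov N' = (cov M \ cov N) \ {y}`, both smaller by exactly one. Induction for `N'`
  (`df M N'` finite). The resulting `M''` satisfies `M'' w = M w ∨ M'' w = N' w`, and
  `N' w ∈ {N w, M w}`; `z, z' ∈ cov N' \ cov M ⊆ cov N`.
-/

namespace Pool.Agent.H70A

universe u

variable {V : Type u}

theorem berge {G : SimpleGraph V} {M N : V → V} (hM : IsM G M) (hN : IsM G N)
    (hf : (df M N).Finite) (hc : (cov M \ cov N).ncard < (cov N \ cov M).ncard) :
    ∃ (M' : V → V) (z z' : V), z ≠ z' ∧ z ∉ cov M ∧ z' ∉ cov M ∧ z ∈ cov N ∧ z' ∈ cov N ∧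
      IsM G M' ∧ (df M M').Finite ∧ (∀ x, x ∈ cov M' ↔ x ∈ cov M ∨ x = z ∨ x = z') ∧
      ∀ w, M' w = M w ∨ M' w = N w := by
  induction h : (cov N \ cov M).ncard using Nat.strong_induction_on generalizing N with
  | _ n ih =>
  have hf1 : (cov N \ cov M).Finite := hf.subset (by
    rintro z ⟨hz, hz'⟩
    rw [notMem_cov] at hz'
    rw [mem_df, hz']
    exact fun e => hz e.symm)
  have hf2 : (cov M \ cov N).Finite := hf.subset (by
    rintro z ⟨hz, hz'⟩
    rw [notMem_cov] at hz'
    rw [mem_df, hz']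
    exact hz)
  have hne : (cov N \ cov M).Nonempty := by
    by_contra he
    rw [Set.not_nonempty_iff_eq_empty] at he
    rw [he, Set.ncard_empty] at hc
    omega
  obtain ⟨x, hx, hx'⟩ := hne
  obtain ⟨M', N', y, hM', hN', hMf, hNf, hyx, hpt, h1 | h2⟩ := sd hM hN hf hx hx'
  · obtain ⟨hy1, hy2, hy3, _⟩ := h1
    refine ⟨M', x, y, hyx.symm, hx', hy2, hx, hy1, hM', hMf, hy3, fun w => ?_⟩
    rcases hpt w with h | h
    · exact Or.inl h.1
    · exact Or.inr h.1
  · obtain ⟨hy1, hy2, _, hy4⟩ := h2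
    have e1 : cov N' \ cov M = (cov N \ cov M) \ {x} := by
      ext z
      simp only [Set.mem_sdiff, Set.mem_singleton_iff, hy4]
      constructor
      · rintro ⟨⟨h | h, h'⟩, h3⟩
        · exact ⟨⟨h, h3⟩, h'⟩
        · exact absurd (h ▸ hy1) h3
      · rintro ⟨⟨h, h'⟩, h3⟩
        exact ⟨⟨Or.inl h, h3⟩, h'⟩
    have e2 : cov M \ cov N' = (cov M \ cov N) \ {y} := by
      ext z
      simp only [Set.mem_sdiff, Set.mem_singleton_iff, hy4]
      constructor
      · rintro ⟨h, h'⟩
        have hzx : z ≠ x := fun e => hx' (e ▸ h)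
        exact ⟨⟨h, fun h3 => h' ⟨Or.inl h3, hzx⟩⟩, fun h3 => h' ⟨Or.inr h3, hzx⟩⟩
      · rintro ⟨⟨h, h'⟩, h3⟩
        refine ⟨h, ?_⟩
        rintro ⟨h4 | h4, _⟩
        · exact h' h4
        · exact h3 h4
    have c1 := Set.ncard_sdiff_singleton_add_one (show x ∈ cov N \ cov M from ⟨hx, hx'⟩) hf1
    have c2 := Set.ncard_sdiff_singleton_add_one (show y ∈ cov M \ cov N from ⟨hy1, hy2⟩) hf2
    rw [← e1] at c1
    rw [← e2] at c2
    obtain ⟨M'', z, z', hzz, k1, k2, k3, k4, k5, k6, k7, k8⟩ :=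
      ih (cov N' \ cov M).ncard (by omega) hN' (df_finite_trans hf hNf) (by omega) rfl
    have hcov : ∀ w, w ∈ cov N' → w ∉ cov M → w ∈ cov N := by
      intro w hw hw'
      rcases ((hy4 w).1 hw).1 with h | h
      · exact h
      · exact absurd (h ▸ hy1) hw'
    refine ⟨M'', z, z', hzz, k1, k2, hcov z k3 k1, hcov z' k4 k2, k5, k6, k7, fun w => ?_⟩
    rcases k8 w with h | h
    · exact Or.inl h
    · rcases hpt w with h' | h'
      · exact Or.inr (h.trans h'.2)
      · exact Or.inl (h.trans h'.2)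

end Pool.Agent.H70A
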