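import Pool.Agent.Lib.H70A.Z4
import Pool.Agent.Lib.H70A.M4
import Pool.Agent.Lib.StrongMax.StarGood

/-!
# H70A chunk Z5: strongly maximal matchings

PROOF. Let `M` be as in `exists_noaug` and `F = {e | ∃ x, M x ≠ x ∧ e = s(x, M x)}`. `F ⊆ G.edgeSet`, `HFree` of
`pathGraph 3` by `p3_free_iff`. Let `I` be another `pathGraph 3`-free set of edges of `G`; let `N x` be the
`I`-partner of `x` (if there is one, and `x` otherwise): an involution, `IsM G N`.
Every `e = s(x, y) ∈ I \ F` meets an edge of `F \ I`: one of `x, y` is covered by `M` (otherwise `ad M x y` is an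
augmentation); say `M x ≠ x`; then `s(x, M x) ∈ F`, not in `I` (`I` has only the edge `e` at `x`, and `e ∉ F`). Choose
such an edge `f e ∈ F \ I` meeting `e`. Each edge of `F \ I` meets at most two edges of `I` (one at each end),
so `f` is at most two-to-one.
* If `F \ I` is infinite: `#(I \ F) ≤ 2 * #(F \ I) = #(F \ I)` (e.g. the injection of `I \ F` into the set of pairs
  (edge of `F \ I`, end vertex of it), or `Cardinal.mk_le_of_...` with finite fibres).
* If `F \ I` is finite: `I \ F` is finite, so `df M N` is finite. If `#(I \ F) > #(F \ I)`, then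
  `(cov M \ cov N).ncard < (cov N \ cov M).ncard` (count: `cov M` is the disjoint union of the ends of the edges of
  `F ∩ I` and of `F \ I`, similarly `cov N`; so with the finite sets `A` = ends of `F \ I` (`2 * #(F \ I)` elements)
  and `B` = ends of `I \ F` (`2 * #(I \ F)` elements): `cov M \ cov N = A \ B`, `cov N \ cov M = B \ A`), and `berge`
  contradicts the choice of `M`.
-/

namespace Pool.Agent.H70A

open Cardinal Pool.Agent.StrongMax

universe u

variable {V : Type u}

/-- The edges of a matching. -/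
def z5_ed (M : V → V) : Set (Sym2 V) := {e | ∃ x, M x ≠ x ∧ e = s(x, M x)}

theorem z5_mem {G : SimpleGraph V} {M : V → V} (hM : IsM G M) {x y : V} :
    s(x, y) ∈ z5_ed M ↔ x ≠ y ∧ M x = y := by
  constructor
  · rintro ⟨z, hz, h⟩
    rcases Sym2.eq_iff.1 h with ⟨h1, h2⟩ | ⟨h1, h2⟩
    · subst h1
      exact ⟨fun h => hz (h2.symm.trans h.symm), h2.symm⟩
    · subst h2
      refine ⟨fun h => hz (h1.symm.trans h), ?_⟩
      rw [h1, hM.inv]
  · rintro ⟨h1, h2⟩
    subst h2
    exact ⟨x, fun h => h1 h.symm, rfl⟩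

theorem z5_sub {G : SimpleGraph V} {M : V → V} (hM : IsM G M) : z5_ed M ⊆ G.edgeSet := by
  rintro e ⟨x, hx, rfl⟩
  exact hM.adj x hx

theorem z5_free {G : SimpleGraph V} {M : V → V} (hM : IsM G M) :
    HFree (SimpleGraph.pathGraph 3) (z5_ed M) := by
  rw [p3_free_iff]
  intro x a b _ _ ha hb
  rw [z5_mem hM] at ha hb
  exact ha.2.symm.trans hb.2

theorem z5_of {G : SimpleGraph V} {I : Set (Sym2 V)} (hI : I ⊆ G.edgeSet)
    (hf : HFree (SimpleGraph.pathGraph 3) I) : ∃ N, IsM G N ∧ z5_ed N = I := by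
  classical
  rw [p3_free_iff] at hf
  have hne : ∀ x y, s(x, y) ∈ I → x ≠ y := by
    intro x y h
    have : G.Adj x y := hI h
    exact this.ne
  let N : V → V := fun x => if h : ∃ y, s(x, y) ∈ I then h.choose else x
  have hN1 : ∀ x y, s(x, y) ∈ I → N x = y := by
    intro x y h
    have hex : ∃ y, s(x, y) ∈ I := ⟨y, h⟩
    have h1 : N x = hex.choose := dif_pos hex
    rw [h1]
    exact hf x _ _ (hne _ _ hex.choose_spec) (hne _ _ h) hex.choose_spec h
  have hN2 : ∀ x, N x ≠ x → s(x, N x) ∈ I := by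
    intro x h
    by_cases hex : ∃ y, s(x, y) ∈ I
    · have h1 : N x = hex.choose := dif_pos hex
      rw [h1]
      exact hex.choose_spec
    · exact absurd (dif_neg hex) h
  have hM : IsM G N := by
    refine ⟨fun x => ?_, fun x hx => hI (hN2 x hx)⟩
    by_cases h : N x = x
    · rw [h, h]
    · refine hN1 _ _ ?_
      rw [Sym2.eq_swap]
      exact hN2 x h
  refine ⟨N, hM, ?_⟩
  ext e
  constructor
  · rintro ⟨x, hx, rfl⟩
    exact hN2 x hx
  · intro he
    induction e with
    | _ x y =>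
      rw [z5_mem hM]
      exact ⟨hne _ _ he, hN1 _ _ he⟩

theorem z5_ncard {G : SimpleGraph V} {M N : V → V} (hM : IsM G M) (hN : IsM G N)
    (hf : (z5_ed M \ z5_ed N).Finite) :
    {x | M x ≠ x ∧ M x ≠ N x}.Finite ∧
      {x | M x ≠ x ∧ M x ≠ N x}.ncard = 2 * (z5_ed M \ z5_ed N).ncard := by
  classical
  have hmem : ∀ x, M x ≠ x → (s(x, M x) ∈ z5_ed M \ z5_ed N ↔ M x ≠ N x) := by
    intro x hx
    rw [Set.mem_sdiff, z5_mem hM, z5_mem hN]
    constructor
    · rintro ⟨_, h⟩ h'
      exact h ⟨fun e => hx e.symm, h'.symm⟩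
    · intro h
      exact ⟨⟨fun e => hx e.symm, rfl⟩, fun h' => h h'.2.symm⟩
  have hA : {x | M x ≠ x ∧ M x ≠ N x}.Finite := by
    refine Set.Finite.subset (hf.biUnion (t := fun e => {x | x ∈ e}) ?_) ?_
    · intro e _
      induction e with
      | _ y z =>
        refine Set.Finite.subset (Set.toFinite {y, z}) ?_
        intro x hx
        exact Sym2.mem_iff.1 hx
    · rintro x ⟨hx, hx'⟩
      simp only [Set.mem_iUnion]
      exact ⟨s(x, M x), (hmem x hx).2 hx', Sym2.mem_mk_left _ _⟩
  refine ⟨hA, ?_⟩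
  rw [Set.ncard_eq_toFinset_card _ hA, Set.ncard_eq_toFinset_card _ hf]
  rw [Finset.card_eq_sum_card_fiberwise (f := fun x => s(x, M x)) (t := hf.toFinset)]
  · rw [Finset.sum_congr rfl (g := fun _ => 2)]
    · rw [Finset.sum_const, smul_eq_mul, mul_comm]
    · intro e he
      rw [Set.Finite.mem_toFinset] at he
      obtain ⟨x, hx, rfl⟩ := he.1
      have hx' := (hmem x hx).1 he
      have : (hA.toFinset.filter (fun y => s(y, M y) = s(x, M x))) = {x, M x} := by
        ext y
        rw [Finset.mem_filter, Set.Finite.mem_toFinset, Finset.mem_insert, Finset.mem_singleton]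
        constructor
        · rintro ⟨_, h⟩
          rcases Sym2.eq_iff.1 h with h | h
          · exact Or.inl h.1
          · exact Or.inr h.1
        · rintro (rfl | rfl)
          · exact ⟨⟨hx, hx'⟩, rfl⟩
          · refine ⟨⟨?_, ?_⟩, ?_⟩
            · rw [hM.inv]
              exact fun h => hx h.symm
            · rw [hM.inv]
              intro h
              apply hx'
              have := congrArg N h
              rw [hN.inv] at this
              exact this.symm
            · rw [hM.inv, Sym2.eq_swap]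
      rw [this]
      exact Finset.card_pair (fun h => hx h.symm)
  · intro x hx
    rw [Finset.mem_coe, Set.Finite.mem_toFinset] at hx
    rw [Finset.mem_coe, Set.Finite.mem_toFinset]
    exact (hmem x hx.1).2 hx.2

/-- Every graph has a strongly maximal matching (Aharoni 1988). -/
theorem exists_sm (V : Type u) (G : SimpleGraph V) :
    ∃ F : Set (Sym2 V), StronglyMaximal (SimpleGraph.pathGraph 3) G F := by
  classical
  obtain ⟨M, hM, hno⟩ := exists_noaug G
  refine ⟨z5_ed M, z5_sub hM, z5_free hM, ?_⟩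
  intro I hI hIf
  obtain ⟨N, hN, rfl⟩ := z5_of hI hIf
  -- every edge of `N` not in `M` meets an edge of `M` not in `N`
  have htouch : ∀ e ∈ z5_ed N \ z5_ed M, ∃ e' ∈ z5_ed M \ z5_ed N, ∃ x ∈ e', x ∈ e := by
    rintro e ⟨⟨x, hx, rfl⟩, heM⟩
    have hadj := hN.adj x hx
    have hone : ∀ y, y ∈ s(x, N x) → M y ≠ y →
        ∃ e' ∈ z5_ed M \ z5_ed N, ∃ z ∈ e', z ∈ s(x, N x) := by
      intro y hy hMy
      refine ⟨s(y, M y), ⟨⟨y, hMy, rfl⟩, ?_⟩, y, Sym2.mem_mk_left _ _, hy⟩
      rw [z5_mem hN]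
      rintro ⟨_, h2⟩
      apply heM
      rw [z5_mem hM]
      refine ⟨hadj.ne, ?_⟩
      rcases Sym2.mem_iff.1 hy with rfl | rfl
      · exact h2.symm
      · rw [hN.inv] at h2
        have := hM.inv (N x)
        rw [← h2] at this
        exact this
    by_cases h1 : M x = x
    · by_cases h2 : M (N x) = N x
      · exfalso
        refine hno (ad M x (N x)) x (N x) (ad_isM hM hadj (notMem_cov.2 h1) (notMem_cov.2 h2)) ?_ hadj.ne
          (notMem_cov.2 h1) (notMem_cov.2 h2) ?_
        · exact (Set.toFinite {x, N x}).subset (df_ad M x (N x))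
        · intro y
          rw [mem_cov_ad hadj.ne]
      · exact hone (N x) (Sym2.mem_mk_right _ _) h2
    · exact hone x (Sym2.mem_mk_left _ _) h1
  have hsub : z5_ed N \ z5_ed M ⊆ ⋃ e' ∈ z5_ed M \ z5_ed N, ⋃ x ∈ {x | x ∈ e'}, {s(x, N x)} := by
    intro e he
    obtain ⟨e', he', x, hx, hxe⟩ := htouch e he
    simp only [Set.mem_iUnion]
    refine ⟨e', he', x, hx, ?_⟩
    obtain ⟨y, hy, rfl⟩ := he.1
    rw [Set.mem_singleton_iff]
    rcases Sym2.mem_iff.1 hxe with rfl | rfl
    · rfl
    · rw [hN.inv, Sym2.eq_swap]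
  have hfin : ∀ e' : Sym2 V, (⋃ x ∈ {x | x ∈ e'}, {s(x, N x)}).Finite := by
    intro e'
    have h2 : {x | x ∈ e'}.Finite := by
      induction e' with
      | _ y z =>
        refine Set.Finite.subset (Set.toFinite {y, z}) ?_
        intro x hx
        exact Sym2.mem_iff.1 hx
    exact Set.Finite.biUnion h2 (fun x _ => Set.finite_singleton _)
  by_cases hfFI : (z5_ed M \ z5_ed N).Finite
  · have hfIF : (z5_ed N \ z5_ed M).Finite := (hfFI.biUnion (fun e' _ => hfin e')).subset hsub
    obtain ⟨hAf, hA⟩ := z5_ncard hM hN hfFI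
    obtain ⟨hBf, hB⟩ := z5_ncard hN hM hfIF
    have hdf : (df M N).Finite := by
      refine (hAf.union hBf).subset ?_
      intro x hx
      rw [mem_df] at hx
      by_cases h : M x = x
      · refine Or.inr ⟨fun h' => hx (h.trans h'.symm), fun h' => hx h'.symm⟩
      · exact Or.inl ⟨h, hx⟩
    have hmain : (z5_ed N \ z5_ed M).ncard ≤ (z5_ed M \ z5_ed N).ncard := by
      by_contra hcon
      push Not at hcon
      have e1 : {x | M x ≠ x ∧ M x ≠ N x} \ {x | N x ≠ x ∧ N x ≠ M x} = cov M \ cov N := by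
        ext x
        simp only [Set.mem_sdiff, Set.mem_setOf_eq, mem_cov]
        constructor
        · rintro ⟨⟨h1, h2⟩, h3⟩
          refine ⟨h1, fun h4 => h3 ⟨h4, fun h5 => h2 h5.symm⟩⟩
        · rintro ⟨h1, h2⟩
          have h3 : N x = x := by
            by_contra h
            exact h2 h
          refine ⟨⟨h1, fun h => h1 (h.trans h3)⟩, fun h => h2 h.1⟩
      have e2 : {x | N x ≠ x ∧ N x ≠ M x} \ {x | M x ≠ x ∧ M x ≠ N x} = cov N \ cov M := by
        ext x
        simp only [Set.mem_sdiff, Set.mem_setOf_eq, mem_cov]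
        constructor
        · rintro ⟨⟨h1, h2⟩, h3⟩
          refine ⟨h1, fun h4 => h3 ⟨h4, fun h5 => h2 h5.symm⟩⟩
        · rintro ⟨h1, h2⟩
          have h3 : M x = x := by
            by_contra h
            exact h2 h
          refine ⟨⟨h1, fun h => h1 (h.trans h3)⟩, fun h => h2 h.1⟩
      have hlt : (cov M \ cov N).ncard < (cov N \ cov M).ncard := by
        rw [← e1, ← e2, ← Set.ncard_lt_ncard_iff_ncard_sdiff_lt_ncard_sdiff hAf hBf]
        omega
      obtain ⟨M', z, z', hzz, hz, hz', _, _, hM', hf', hc', _⟩ := berge hM hN hdf hlt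
      exact hno M' z z' hM' hf' hzz hz hz' hc'
    have := hfIF.to_subtype
    have := hfFI.to_subtype
    rw [← Nat.cast_card, ← Nat.cast_card]
    exact_mod_cast hmain
  · have hinf : ℵ₀ ≤ #(↥(z5_ed M \ z5_ed N)) :=
      Cardinal.infinite_iff.1 (Set.infinite_coe_iff.2 hfFI)
    calc #(↥(z5_ed N \ z5_ed M))
        ≤ #(↥(⋃ e' ∈ z5_ed M \ z5_ed N, ⋃ x ∈ {x | x ∈ e'}, {s(x, N x)})) :=
          Cardinal.mk_le_mk_of_subset hsub
      _ ≤ #(↥(z5_ed M \ z5_ed N)) * ℵ₀ := by
          refine (Cardinal.mk_biUnion_le (fun e' : Sym2 V => ⋃ x ∈ {x | x ∈ e'}, {s(x, N x)})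
            (z5_ed M \ z5_ed N)).trans ?_
          refine mul_le_mul' le_rfl (ciSup_le' (fun e' => ?_))
          have h1 := (hfin e'.1).to_subtype
          exact Cardinal.mk_le_aleph0
      _ = #(↥(z5_ed M \ z5_ed N)) := Cardinal.mul_eq_left hinf hinf Cardinal.aleph0_ne_zero

end Pool.Agent.H70A
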