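import Pool.Agent.Lib.H70A.N0

/-!
# H70A module B: reduction of a slab to the virtual graph. Definitions.

`i < j` stages of a nice system, `S` at most one vertex, `Rm = U i ∪ X_i ∪ S` is removed, the slab is
`Sl = U j \ Rm`. `wn` is a wave of the virtual graph on the slab with a hole `h`.
-/

namespace Pool.Agent.H70A

open Cardinal Order

universe u

variable {ι : Type u} [LinearOrder ι] [WellFoundedLT ι] [SuccOrder ι] [NoMaxOrder ι] {V : Type u}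

/-- The removed vertices. -/
def Rm (U : ι → Set V) (w : ι → Wv V) (i : ι) (S : Set V) : Set V := U i ∪ (w i).X ∪ S

/-- The slab. -/
def Sl (U : ι → Set V) (w : ι → Wv V) (i j : ι) (S : Set V) : Set V := U j \ Rm U w i S

/-- The ends of the virtual (not real) edges used by `wn`. -/
def Vt (G : SimpleGraph V) (wn : Wv V) : Set V := {x | wn.F x ≠ x ∧ ¬ G.Adj x (wn.F x)}

/-- The basic situation. -/
structure BS (G : SimpleGraph V) (O : Set V) (U : ι → Set V) (w : ι → Wv V) (i j : ι) (S : Set V)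
    (wn : Wv V) (h : V) : Prop where
  ns : NSys G O U w
  hij : i < j
  S1 : S ⊆ U j
  S2 : ∀ x ∈ S, x ∉ U i ∧ x ∉ (w i).X
  S3 : S.Subsingleton
  wave : IsWave (GV G O U w j) (OV G O U w j) (Sl U w i j S)ᶜ wn
  hD : h ∈ wn.D
  hF : wn.F h = h

/-- Stages `de x` and witnesses `Nw (de x)` for the virtual edges `{x, wn.F x}`. -/
structure BW (G : SimpleGraph V) (U : ι → Set V) (w : ι → Wv V) (i j : ι)
    (wn : Wv V) (de : V → ι) (Nw : ι → V → V) : Prop where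
  dge : ∀ x ∈ Vt G wn, j ≤ de x
  dF : ∀ x ∈ Vt G wn, de (wn.F x) = de x
  dinj : ∀ x ∈ Vt G wn, ∀ y ∈ Vt G wn, de x = de y → y = x ∨ y = wn.F x
  wit : ∀ x ∈ Vt G wn, VrtW G (w (de x)) x (wn.F x) (Nw (de x))
  loc : ∀ x ∈ Vt G wn, df (w (de x)).F (Nw (de x)) ⊆ U (succ (de x))
  tr : ∀ x ∈ Vt G wn, ∀ z ∈ (w i).X, Nw (de x) z ∈ (w i).X

/-- The vertices changed by the witness of `x`. -/
def Dm (w : ι → Wv V) (de : V → ι) (Nw : ι → V → V) (x : V) : Set V :=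
  df (w (de x)).F (Nw (de x))

/-- The base matching `Bh`. -/
structure BhP (G : SimpleGraph V) (U : ι → Set V) (w : ι → Wv V) (j : ι) (wn : Wv V)
    (de : V → ι) (Nw : ι → V → V) (Bh : V → V) : Prop where
  isM : IsM G Bh
  eqj : ∀ z ∈ (w j).X, Bh z = (w j).F z
  eqD : ∀ x ∈ Vt G wn, ∀ z ∈ Dm w de Nw x, z ∉ U j → Bh z = (w (de x)).F z
  sup : ∀ z, Bh z ≠ z → z ∈ (w j).X ∨ ∃ x ∈ Vt G wn, z ∈ Dm w de Nw x ∧ z ∉ U j

/-- The realised matching `Mh`. -/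
structure MhP (G : SimpleGraph V) (U : ι → Set V) (w : ι → Wv V) (i j : ι) (S : Set V)
    (wn : Wv V) (de : V → ι) (Nw : ι → V → V) (Mh : V → V) : Prop where
  isM : IsM G Mh
  m1 : ∀ z ∈ Sl U w i j S, z ∉ Vt G wn → Mh z = wn.F z
  m2 : ∀ x ∈ Vt G wn, ∀ z ∈ Dm w de Nw x, z ∉ (w i).X → Mh z = Nw (de x) z
  m3 : ∀ z ∈ (w j).X, z ∉ (w i).X → (∀ x ∈ Vt G wn, z ∉ Dm w de Nw x) → Mh z = (w j).F z
  m4 : ∀ z, Mh z ≠ z → z ∈ Sl U w i j S ∨ (∃ x ∈ Vt G wn, z ∈ Dm w de Nw x ∧ z ∉ (w i).X) ∨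
    (z ∈ (w j).X ∧ z ∉ (w i).X)

/-- `x` is clean: `M'` agrees with `Mh` on the witness of `x`. -/
def Cln (w : ι → Wv V) (de : V → ι) (Nw : ι → V → V) (Mh M' : V → V) (x : V) : Prop :=
  ∀ z ∈ Dm w de Nw x, M' z = Mh z

/-- `z` lies in the witness of a clean `x`. -/
def clz (G : SimpleGraph V) (w : ι → Wv V) (wn : Wv V) (de : V → ι) (Nw : ι → V → V)
    (Mh M' : V → V) (z : V) : Prop :=
  ∃ x ∈ Vt G wn, Cln w de Nw Mh M' x ∧ z ∈ Dm w de Nw x

open Classical in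
/-- The part of `M'` outside `U j`, undone on clean witnesses. -/
noncomputable def M1 (G : SimpleGraph V) (U : ι → Set V) (w : ι → Wv V) (i j : ι) (wn : Wv V)
    (de : V → ι) (Nw : ι → V → V) (Bh Mh M' : V → V) : V → V := fun z =>
  if z ∈ (w i).X ∨ clz G w wn de Nw Mh M' z then Bh z
  else if z ∈ U j ∧ M' z ∈ U j then z else M' z

/-- All vertices of `U j` matched by `M'` outside `U j`, not clean. -/
def Out (G : SimpleGraph V) (U : ι → Set V) (w : ι → Wv V) (i j : ι) (S : Set V) (wn : Wv V)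
    (de : V → ι) (Nw : ι → V → V) (Mh M' : V → V) : Set V :=
  {y | y ∈ Sl U w i j S ∧ ¬ clz G w wn de Nw Mh M' y ∧ M' y ∉ U j}

end Pool.Agent.H70A
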