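import Pool.Agent.Lib.H70A.P0

/-!
# H70A chunk P1: bodies of different stages are equal or separated

PROOF of `sep`. Let `i ≤ j`, `k ∈ (w i).K`, `k' ∈ (w j).K`, `x ∈ k`, `y ∈ k'`, `x = y` or adjacent. Note
`y ∉ U j` and `U i ⊆ U j`.
* `k` disjoint from `U j`: `k ∈ (Res (w i) (U j)).K ⊆ (w j).K` (`coh`). `x = y`: `KK`. Adjacent: `Kadj` in
  `w j`: `y ∈ k` (then `KK`), `y ∈ (w j).A` (contradiction with `KA`), `y ∈ U j` (no).
* `k` meets `U j`: every `z ∈ k \ U j` is in `(Res (w i) (U j)).Q ⊆ (w j).Q`. `x = y`: `y ∈ (w j).Q`,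
  contradiction with `KQ`. Adjacent: `Kadj` in `w i`: `y ∈ k`: again `y ∈ (w j).Q`; `y ∈ (w i).A`: then
  `y ∈ (w i).A \ U j ⊆ (w j).A`, contradiction with `KA`; `y ∈ U i ⊆ U j`: no.
`sep'` is the symmetric form (no assumption on `i, j`).
PROOF of `F_eq`. `i ≤ j`, `x ∈ (w i).X`, `x ∉ U j`: `x ∈ (Res (w i) (U j)).X`, `coh` gives
`(w j).F x = (Res (w i) (U j)).F x = (w i).F x`. `A_le`, `X_le`: the same for the sets.
-/

namespace Pool.Agent.H70A

open Cardinal Order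

universe u

variable {ι : Type u} [LinearOrder ι] [WellFoundedLT ι] [SuccOrder ι] [NoMaxOrder ι] {V : Type u}
  {G : SimpleGraph V} {O : Set V} {U : ι → Set V} {w : ι → Wv V}

theorem p1_resX {i j : ι} {x : V} (hx : x ∈ (w i).X) (hx' : x ∉ U j) :
    x ∈ (Res (w i) (U j)).X := by
  rw [Wv.mem_X] at hx ⊢
  rcases hx with hx | hx | ⟨k, hk, hx⟩
  · exact Or.inl ⟨hx, hx'⟩
  · exact Or.inr (Or.inl ⟨hx', Or.inl hx⟩)
  · by_cases hd : Disjoint k (U j)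
    · exact Or.inr (Or.inr ⟨k, ⟨hk, hd⟩, hx⟩)
    · exact Or.inr (Or.inl ⟨hx', Or.inr ⟨k, hk, hx, hd⟩⟩)

theorem sep (hS : Sys G O U w) {i j : ι} (hij : i ≤ j) {k k' : Set V} (hk : k ∈ (w i).K)
    (hk' : k' ∈ (w j).K) {x y : V} (hx : x ∈ k) (hy : y ∈ k') (h : x = y ∨ G.Adj x y) : k = k' := by
  have hwi := hS.wave i
  have hwj := hS.wave j
  have hc := hS.coh i j hij
  have hyU : y ∉ U j := hwj.disjU y (IsWave.body_subset_X hk' hy)
  have hUU : U i ⊆ U j := hS.chn.mono i j hij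
  by_cases hd : Disjoint k (U j)
  · have hkj : k ∈ (w j).K := hc.K ⟨hk, hd⟩
    rcases h with rfl | h
    · exact hwj.KK k hkj k' hk' x hx hy
    · rcases hwj.Kadj k hkj x hx y h with h1 | h1 | h1
      · exact hwj.KK k hkj k' hk' y h1 hy
      · exact absurd h1 (hwj.KA k' hk' y hy)
      · exact absurd h1 hyU
  · have hq : ∀ z ∈ k, z ∉ U j → z ∈ (w j).Q := fun z hz hzU =>
      hc.Q ⟨hzU, Or.inr ⟨k, hk, hz, hd⟩⟩
    exfalso
    rcases h with rfl | h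
    · exact hwj.KQ k' hk' x hy (hq x hx hyU)
    · rcases hwi.Kadj k hk x hx y h with h1 | h1 | h1
      · exact hwj.KQ k' hk' y hy (hq y h1 hyU)
      · exact hwj.KA k' hk' y hy (hc.A ⟨h1, hyU⟩)
      · exact hyU (hUU h1)

theorem sep' (hS : Sys G O U w) {i j : ι} {k k' : Set V} (hk : k ∈ (w i).K)
    (hk' : k' ∈ (w j).K) {x y : V} (hx : x ∈ k) (hy : y ∈ k') (h : x = y ∨ G.Adj x y) : k = k' := by
  rcases le_total i j with hij | hij
  · exact sep hS hij hk hk' hx hy h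
  · exact (sep hS hij hk' hk hy hx (h.imp Eq.symm fun e => e.symm)).symm

theorem F_eq (hS : Sys G O U w) {i j : ι} (hij : i ≤ j) {x : V} (hx : x ∈ (w i).X)
    (hx' : x ∉ U j) : (w j).F x = (w i).F x := by
  rw [(hS.coh i j hij).F x (p1_resX hx hx')]
  simp [Res, hx']

theorem A_le (hS : Sys G O U w) {i j : ι} (hij : i ≤ j) {x : V} (hx : x ∈ (w i).A)
    (hx' : x ∉ U j) : x ∈ (w j).A :=
  (hS.coh i j hij).A ⟨hx, hx'⟩

theorem X_le (hS : Sys G O U w) {i j : ι} (hij : i ≤ j) {x : V} (hx : x ∈ (w i).X)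
    (hx' : x ∉ U j) : x ∈ (w j).X :=
  (hS.coh i j hij).X (p1_resX hx hx')

end Pool.Agent.H70A
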