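import Pool.Agent.Lib.H70A.W0

/-!
# H70A chunk W12: restrictions of waves

PROOFS.
* `res_isWave`. `w.F` maps `U'` into `U'` and (involution) its complement into itself. If a body `k`
  meets `U'`, its root is in `U'` (`rho_spec`, `ClU`, uniqueness of roots). Checks: `supX`: `x ∉ U'`,
  `x ∈ w.X`. `Am`: `a ∉ U'` is matched to the root of some body `k` (`A_apply`), which is not in `U'`, so `k`
  is disjoint from `U'`. `Qm`: `x ∈ w.Q \ U'` clear; `x ∈ k \ U'` with `k` meeting `U'`: `x` is not the root, so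
  `w.F x ∈ k`, not in `U'`, `≠ x`. `Qadj`, `Kadj`: clear. `KQ`: by `KK`, `KQ`. `root`: same root `r ∉ U'`;
  `w.F r ∈ w.A` is not in `U'`. `crit`: the same `N` (`F` is unchanged on `k`).
* `res_mono`. `A`: clear. `K`: `k ∈ w.K` disjoint from `U''` is disjoint from `U'`, so in `w'.K`. `Q`:
  `x ∉ U''`, `x ∈ w.Q`: then `x ∈ (Res w U').Q ⊆ w'.Q`; `x ∈ k ∈ w.K`, `k` meets `U''`: if `k` meets `U'`, again
  `x ∈ (Res w U').Q ⊆ w'.Q`; otherwise `k ∈ w'.K` meets `U''`. `F`: `x ∈ (Res w U'').X` implies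
  `x ∉ U''` and `x ∈ (Res w U').X`.
* `res_X`: `(Res w U').X = w.X \ U'`.
-/

namespace Pool.Agent.H70A

universe u

variable {V : Type u} {G : SimpleGraph V} {O U : Set V}

theorem res_X (w : Wv V) (U' : Set V) : (Res w U').X = w.X \ U' := by
  ext x
  rw [Set.mem_sdiff, Wv.mem_X, Wv.mem_X]
  constructor
  · rintro (h | h | ⟨k, hk, hx⟩)
    · exact ⟨Or.inl h.1, h.2⟩
    · refine ⟨?_, h.1⟩
      rcases h.2 with h2 | ⟨k, hk, hx, _⟩
      · exact Or.inr (Or.inl h2)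
      · exact Or.inr (Or.inr ⟨k, hk, hx⟩)
    · exact ⟨Or.inr (Or.inr ⟨k, hk.1, hx⟩), fun hU => Set.disjoint_left.1 hk.2 hx hU⟩
  · rintro ⟨h | h | ⟨k, hk, hx⟩, hU⟩
    · exact Or.inl ⟨h, hU⟩
    · exact Or.inr (Or.inl ⟨hU, Or.inl h⟩)
    · by_cases hd : Disjoint k U'
      · exact Or.inr (Or.inr ⟨k, ⟨hk, hd⟩, hx⟩)
      · exact Or.inr (Or.inl ⟨hU, Or.inr ⟨k, hk, hx, hd⟩⟩)

theorem w12_F {w : Wv V} {U' : Set V} {x : V} (hx : x ∉ U') : (Res w U').F x = w.F x := by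
  simp only [Res, if_neg hx]

theorem w12_F' {w : Wv V} {U' : Set V} {x : V} (hx : x ∈ U') : (Res w U').F x = x := by
  simp only [Res, if_pos hx]

theorem res_isWave {w : Wv V} (hw : IsWave G O U w) {U' : Set V} (hU : U ⊆ U')
    (hc : ClU w U') : IsWave G O U' (Res w U') := by
  have F0 : ∀ x, x ∉ U' → w.F x ∉ U' := fun x hx h => hx (by rw [← hw.isM.inv x]; exact hc.1 _ h)
  have rt : ∀ k ∈ w.K, ∀ r, w.IsRt k r → r ∉ U' → Disjoint k U' := by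
    intro k hk r hr hrU
    rw [Set.disjoint_left]
    intro y hy hyU
    refine hrU ?_
    rw [hw.rt_unique hk hr (rho_spec hw hk hy)]
    exact hc.2 y hyU
  refine ⟨⟨fun x => ?_, fun x hx => ?_⟩, ?_, ?_, ?_, ?_, ?_, ?_, ?_, ?_, ?_, ?_, ?_, ?_, ?_⟩
  · by_cases h : x ∈ U'
    · rw [w12_F' h, w12_F' h]
    · rw [w12_F h, w12_F (F0 x h), hw.isM.inv]
  · by_cases h : x ∈ U'
    · exact absurd (w12_F' h) hx
    · rw [w12_F h] at hx ⊢
      exact hw.isM.adj x hx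
  · intro x hx
    rw [res_X]
    by_cases h : x ∈ U'
    · exact absurd (w12_F' h) hx
    · rw [w12_F h] at hx
      exact ⟨hw.supX x hx, h⟩
  · intro x hx
    rw [res_X] at hx
    exact hx.2
  · rintro x hx ⟨_, h | ⟨k, hk, hxk, _⟩⟩
    · exact hw.AQ x hx.1 h
    · exact hw.KA k hk x hxk hx.1
  · intro k hk x hx h
    exact hw.KA k hk.1 x hx h.1
  · rintro k hk x hx ⟨_, h | ⟨k', hk', hxk, hd⟩⟩
    · exact hw.KQ k hk.1 x hx h
    · rw [hw.KK k' hk' k hk.1 x hxk hx] at hd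
      exact hd hk.2
  · intro k hk k' hk' x hx hx'
    exact hw.KK k hk.1 k' hk'.1 x hx hx'
  · intro k hk x hx y hy
    by_cases hyU : y ∈ U'
    · exact Or.inr (Or.inr hyU)
    · rcases hw.Kadj k hk.1 x hx y hy with h | h | h
      · exact Or.inl h
      · exact Or.inr (Or.inl ⟨h, hyU⟩)
      · exact Or.inr (Or.inr (hU h))
  · rintro x ⟨hxU, hx⟩ y hy
    by_cases hyU : y ∈ U'
    · exact Or.inr (Or.inr hyU)
    · rcases hx with hx | ⟨k, hk, hx, hd⟩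
      · rcases hw.Qadj x hx y hy with h | h | h
        · exact Or.inl ⟨hyU, Or.inl h⟩
        · exact Or.inr (Or.inl ⟨h, hyU⟩)
        · exact Or.inr (Or.inr (hU h))
      · rcases hw.Kadj k hk x hx y hy with h | h | h
        · exact Or.inl ⟨hyU, Or.inr ⟨k, hk, h, hd⟩⟩
        · exact Or.inr (Or.inl ⟨h, hyU⟩)
        · exact Or.inr (Or.inr (hU h))
  · rintro x ⟨hxU, hx⟩
    rw [w12_F hxU]
    rcases hx with hx | ⟨k, hk, hx, hd⟩
    · exact ⟨⟨F0 x hxU, Or.inl (hw.Qm x hx).1⟩, (hw.Qm x hx).2⟩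
    · obtain ⟨r, hr, _⟩ := hw.exists_rt hk
      have hrU : r ∈ U' := by
        by_contra h
        exact hd (rt k hk r hr h)
      have hne : x ≠ r := fun h => hxU (by rw [h]; exact hrU)
      obtain ⟨h1, h2⟩ := hw.body_apply hk hr hx hne
      exact ⟨⟨F0 x hxU, Or.inr ⟨k, hk, h1, hd⟩⟩, h2⟩
  · intro a ha
    rw [w12_F ha.2]
    obtain ⟨k, hk, hr, _⟩ := hw.A_apply ha.1
    exact ⟨k, ⟨hk, rt k hk _ hr (F0 a ha.2)⟩, hr.1⟩
  · intro k hk x hx
    exact hw.KO k hk.1 x hx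
  · intro k hk
    obtain ⟨r, hr, h1, h2⟩ := hw.root k hk.1
    have hout : ∀ x ∈ k, x ∉ U' := fun x hx => Set.disjoint_left.1 hk.2 hx
    refine ⟨r, hr, fun x hx hne => ?_, ?_⟩
    · rw [w12_F (hout x hx)]
      exact h1 x hx hne
    · rw [w12_F (hout r hr)]
      rcases h2 with h2 | h2
      · exact Or.inl ⟨h2, F0 r (hout r hr)⟩
      · exact Or.inr h2
  · intro k hk x hx
    obtain ⟨N, h1, h2, h3, h4, h5⟩ := hw.crit k hk.1 x hx
    refine ⟨N, h1, h2, h3, h4, h5.subset ?_⟩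
    rintro y ⟨hy, hne⟩
    refine ⟨hy, ?_⟩
    rw [w12_F (Set.disjoint_left.1 hk.2 hy)] at hne
    exact hne

theorem res_mono {w w' : Wv V} {U' U'' : Set V} (h : Le (Res w U') w') (hU : U' ⊆ U'') :
    Le (Res w U'') (Res w' U'') := by
  have hK : ∀ k ∈ w.K, Disjoint k U' → k ∈ w'.K := fun k hk hd => h.K ⟨hk, hd⟩
  refine ⟨?_, ?_, ?_, ?_⟩
  · rintro x ⟨hx, hxU⟩
    exact ⟨h.A ⟨hx, fun hh => hxU (hU hh)⟩, hxU⟩
  · rintro k ⟨hk, hd⟩
    exact ⟨hK k hk (hd.mono_right hU), hd⟩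
  · rintro x ⟨hxU, hx⟩
    have hxU' : x ∉ U' := fun hh => hxU (hU hh)
    refine ⟨hxU, ?_⟩
    rcases hx with hx | ⟨k, hk, hx, hd⟩
    · exact Or.inl (h.Q ⟨hxU', Or.inl hx⟩)
    · by_cases hd' : Disjoint k U'
      · exact Or.inr ⟨k, hK k hk hd', hx, hd⟩
      · exact Or.inl (h.Q ⟨hxU', Or.inr ⟨k, hk, hx, hd'⟩⟩)
  · intro x hx
    rw [res_X] at hx
    have hxU' : x ∉ U' := fun hh => hx.2 (hU hh)
    rw [w12_F hx.2, w12_F hx.2]
    rw [h.F x (by rw [res_X]; exact ⟨hx.1, hxU'⟩), w12_F hxU']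

end Pool.Agent.H70A
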