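import Pool.Agent.Lib.H70A.W3

/-!
# H70A chunk W4: consequences of the counting lemma

PROOFS.
* `block`: `h ∈ k ∈ w.K`, `w.F h = h`; `count` (2) gives `x ∈ k` with `N x = x`, contradiction.
* `transp`: `w` has no hole. By `count` (1), `N a ∈ w.D` for `a ∈ w.A`. For `x ∈ k ∈ w.K`: `N x ≠ x`, so
  by `Kadj` `N x ∈ k`, `N x ∈ A`, or `N x ∈ U` (then `x = N (N x) = N x`, impossible). For `x ∈ w.Q` with
  `N x ≠ x`: by `Qadj` `N x ∈ Q ∨ N x ∈ A ∨ N x ∈ U`. Hence `N` maps `w.X` into itself, and (involution)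
  also its complement.
-/

namespace Pool.Agent.H70A

universe u

variable {V : Type u} {G : SimpleGraph V} {O U : Set V} {w : Wv V}

/-- A matching cannot cover a hole by a finite modification. -/
theorem block (hw : IsWave G O U w) {h : V} (hh : h ∈ w.D) (hF : w.F h = h) {N : V → V}
    (hN : IsM G N) (hU : ∀ x ∈ U, N x = x) (hf : {x | x ∈ w.D ∧ N x ≠ w.F x}.Finite)
    (hc : ∀ x ∈ w.D, N x ≠ x) : False := by
  obtain ⟨k, hk, hhk⟩ := hh
  obtain ⟨x, hx, hNx⟩ := (count hw hN hU hf (fun k hk _ x hx => hc x ⟨k, hk, hx⟩)).2 k hk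
    ⟨h, hhk, hF⟩
  exact hc x ⟨k, hk, hx⟩ hNx

theorem transp (hw : IsWave G O U w) {N : V → V} (hN : IsM G N) (hU : ∀ x ∈ U, N x = x)
    (hf : {x | x ∈ w.D ∧ N x ≠ w.F x}.Finite) (hc : ∀ x ∈ w.D, N x ≠ x) :
    (∀ x ∈ w.X, N x ∈ w.X) ∧ ∀ x, x ∉ w.X → N x ∉ w.X := by
  have key : ∀ x ∈ w.X, N x ∈ w.X := by
    intro x hx
    by_cases hNx : N x = x
    · rw [hNx]; exact hx
    have hadj := hN.adj x hNx
    have hNU : N x ∉ U := by
      intro h
      have := hU _ h
      rw [hN.inv] at this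
      exact hNx this.symm
    rcases Wv.mem_X.1 hx with h | h | ⟨k, hk, h⟩
    · obtain ⟨k, hk, -, h2⟩ := (count hw hN hU hf (fun k hk _ x hx => hc x ⟨k, hk, hx⟩)).1 x h
      exact IsWave.body_subset_X hk h2
    · rcases hw.Qadj x h _ hadj with h1 | h1 | h1
      · exact IsWave.Q_subset_X h1
      · exact IsWave.A_subset_X h1
      · exact absurd h1 hNU
    · rcases hw.Kadj k hk x h _ hadj with h1 | h1 | h1
      · exact IsWave.body_subset_X hk h1
      · exact IsWave.A_subset_X h1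
      · exact absurd h1 hNU
  refine ⟨key, fun x hx h => hx ?_⟩
  have := key _ h
  rwa [hN.inv] at this

end Pool.Agent.H70A
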