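import Pool.Agent.Lib.H70A.B0
import Pool.Agent.Lib.H70A.W4
import Pool.Agent.Lib.H70A.W12
import Pool.Agent.Lib.H70A.P1

/-!
# H70A chunk B1: witnesses do not connect `X_i` with its complement

PROOF of `res_isWave'`. `Res w U'` is a wave of `(G, O, U')` (`res_isWave`). A neighbour `y` of a vertex of a
body `k ∈ w.K` is in `k`, `w.A` or `U`, hence not in `Z` (which is disjoint from `U` and `w.X`); the same for
neighbours of `w.Q`. So in `Kadj`, `Qadj` the alternative `y ∈ U'` gives `y ∈ U' \ Z`. `disjU` is weaker. All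
other axioms do not involve `U'`.
PROOF of `wit_transp`. `i < m`, `d, d' ∈ U m`, outside `U i ∪ (w i).X`, `cov N = cov (w m).F + d + d'`. Let
`z ∈ (w i).X`. If `z ∈ U m`: `z ∉ cov (w m).F` (`fix_U`), `z ≠ d, d'`, so `N z = z`. Otherwise apply
`transp` to `Res (w i) (U m)` as a wave of `(G, O, U m \ {d, d'})`: it is hole-free; `N` fixes `U m \ {d, d'}`;
the vertices `x` of its bodies with `N x ≠ (Res ..).F x` lie in `df (w m).F N` (`F_eq`: `(w i).F x = (w m).F x` for
`x ∈ (w i).X \ U m`); they are covered by `N` because they are in `(w m).X` (`X_le`) and `HF (w m)`. So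
`N z ∈ (Res (w i) (U m)).X = (w i).X \ U m`.
-/

namespace Pool.Agent.H70A

open Cardinal Order

universe u

variable {ι : Type u} [LinearOrder ι] [WellFoundedLT ι] [SuccOrder ι] [NoMaxOrder ι] {V : Type u}
  {G : SimpleGraph V} {O : Set V}

theorem res_isWave' {U : Set V} {w : Wv V} (hw : IsWave G O U w) {U' Z : Set V} (hU : U ⊆ U')
    (hc : ClU w U') (hZ : ∀ z ∈ Z, z ∉ U ∧ z ∉ w.X) : IsWave G O (U' \ Z) (Res w U') := by
  have h := res_isWave hw hU hc
  have hKw : ∀ k ∈ (Res w U').K, k ∈ w.K := fun k hk => hk.1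
  have hnb : ∀ x, x ∈ w.Q ∨ x ∈ w.D → ∀ y, G.Adj x y → y ∉ Z := by
    rintro x (hx | ⟨k, hk, hx⟩) y hy hyZ
    · rcases hw.Qadj x hx y hy with h1 | h1 | h1
      · exact (hZ y hyZ).2 (IsWave.Q_subset_X h1)
      · exact (hZ y hyZ).2 (IsWave.A_subset_X h1)
      · exact (hZ y hyZ).1 h1
    · rcases hw.Kadj k hk x hx y hy with h1 | h1 | h1
      · exact (hZ y hyZ).2 (IsWave.body_subset_X hk h1)
      · exact (hZ y hyZ).2 (IsWave.A_subset_X h1)
      · exact (hZ y hyZ).1 h1
  exact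
    { isM := h.isM
      supX := h.supX
      disjU := fun x hx hx' => h.disjU x hx hx'.1
      AQ := h.AQ
      KA := h.KA
      KQ := h.KQ
      KK := h.KK
      Kadj := by
        intro k hk x hx y hy
        rcases h.Kadj k hk x hx y hy with h1 | h1 | h1
        · exact Or.inl h1
        · exact Or.inr (Or.inl h1)
        · exact Or.inr (Or.inr ⟨h1, hnb x (Or.inr ⟨k, hKw k hk, hx⟩) y hy⟩)
      Qadj := by
        intro x hx y hy
        rcases h.Qadj x hx y hy with h1 | h1 | h1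
        · exact Or.inl h1
        · exact Or.inr (Or.inl h1)
        · refine Or.inr (Or.inr ⟨h1, hnb x ?_ y hy⟩)
          rcases hx.2 with h2 | ⟨k, hk, hxk, -⟩
          · exact Or.inl h2
          · exact Or.inr ⟨k, hk, hxk⟩
      Qm := h.Qm
      Am := h.Am
      KO := h.KO
      root := h.root
      crit := h.crit }

theorem wit_transp {U : ι → Set V} {w : ι → Wv V} (hN : NSys G O U w) {i m : ι} (him : i < m)
    {d d' : V} (hd : d ∈ U m ∧ d ∉ U i ∧ d ∉ (w i).X) (hd' : d' ∈ U m ∧ d' ∉ U i ∧ d' ∉ (w i).X)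
    {N : V → V} (hv : VrtW G (w m) d d' N) : ∀ z ∈ (w i).X, N z ∈ (w i).X := by
  obtain ⟨hNM, hfin, hcov⟩ := hv
  have hwi := hN.sys.wave i
  have hwm := hN.sys.wave m
  have hUm : ∀ z ∈ U m, z ≠ d → z ≠ d' → N z = z := by
    intro z hz h1 h2
    rw [← notMem_cov, hcov]
    rintro (h | h | h)
    · exact h (hwm.fix_U hz)
    · exact h1 h
    · exact h2 h
  have hres : IsWave G O (U m \ {d, d'}) (Res (w i) (U m)) := by
    refine res_isWave' hwi (hN.sys.chn.mono i m him.le) (hN.sys.clo i m him) ?_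
    rintro z (rfl | rfl)
    · exact ⟨hd.2.1, hd.2.2⟩
    · exact ⟨hd'.2.1, hd'.2.2⟩
  intro z hz
  by_cases hzU : z ∈ U m
  · rw [hUm z hzU (fun h => hd.2.2 (h ▸ hz)) (fun h => hd'.2.2 (h ▸ hz))]
    exact hz
  · have hD : ∀ x ∈ (Res (w i) (U m)).D, x ∈ (w i).X ∧ x ∉ U m := by
      rintro x ⟨k, hk, hx⟩
      exact ⟨IsWave.body_subset_X hk.1 hx, Set.disjoint_left.1 hk.2 hx⟩
    have h1 := (transp hres hNM (fun x hx => hUm x hx.1 (fun h => hx.2 (Or.inl h))
      (fun h => hx.2 (Or.inr h))) (hfin.subset (by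
        rintro x ⟨hx, hne⟩
        obtain ⟨h2, h3⟩ := hD x hx
        rw [mem_df, F_eq hN.sys him.le h2 h3]
        rw [w12_F h3] at hne
        exact fun h => hne h.symm)) (by
        intro x hx
        obtain ⟨h2, h3⟩ := hD x hx
        have h4 : (w m).F x ≠ x := hN.hf m x (X_le hN.sys him.le h2 h3)
        exact (hcov x).2 (Or.inl h4))).1 z (by rw [res_X]; exact ⟨hz, hzU⟩)
    rw [res_X] at h1
    exact h1.1

end Pool.Agent.H70A
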