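import Pool.Agent.Lib.H70A.M0

/-!
# H70A chunk M5: unions of compatible matchings

PROOF. `F x := if h : ∃ j, f j x ≠ x then f h.choose x else x`. By compatibility `F x = f j x` whenever
`f j x ≠ x`. Involution: if `f j x ≠ x`, then `f j (f j x) = x ≠ f j x`, so `F (f j x) = x`.
`cov_iUnion`: choose the matchings; if `f i x ≠ x` and `f j x ≠ x` then `x ∈ Y i` and `x ∈ Y j`, so
`i = j`.
-/

namespace Pool.Agent.H70A

universe u v

variable {V : Type u}

theorem union_isM {G : SimpleGraph V} {J : Type v} (f : J → V → V) (hf : ∀ j, IsM G (f j))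
    (hc : ∀ i j x, f i x ≠ x → f j x ≠ x → f i x = f j x) :
    ∃ F : V → V, IsM G F ∧ (∀ j x, f j x ≠ x → F x = f j x) ∧
      ∀ x, F x ≠ x → ∃ j, f j x ≠ x ∧ F x = f j x := by
  classical
  let F : V → V := fun x => if h : ∃ j, f j x ≠ x then f h.choose x else x
  have hF : ∀ j x, f j x ≠ x → F x = f j x := by
    intro j x hx
    have h : ∃ j, f j x ≠ x := ⟨j, hx⟩
    have e : F x = f h.choose x := dif_pos h
    rw [e]
    exact hc _ _ _ h.choose_spec hx
  have hF' : ∀ x, F x ≠ x → ∃ j, f j x ≠ x ∧ F x = f j x := by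
    intro x hx
    by_cases h : ∃ j, f j x ≠ x
    · obtain ⟨j, hj⟩ := h
      exact ⟨j, hj, hF j x hj⟩
    · exact absurd (dif_neg h) hx
  refine ⟨F, ⟨fun x => ?_, fun x hx => ?_⟩, hF, hF'⟩
  · by_cases hx : F x = x
    · rw [hx, hx]
    · obtain ⟨j, h1, h2⟩ := hF' x hx
      rw [h2]
      have h3 : f j (f j x) ≠ f j x := by
        rw [(hf j).inv]
        exact fun e => h1 e.symm
      rw [hF j _ h3, (hf j).inv]
  · obtain ⟨j, h1, h2⟩ := hF' x hx
    rw [h2]
    exact (hf j).adj x h1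

theorem cov_iUnion {G : SimpleGraph V} {O : Set V} {J : Type v} (Y : J → Set V)
    (hY : ∀ j, Cov G O (Y j)) (hd : ∀ i j x, x ∈ Y i → x ∈ Y j → i = j) : Cov G O (⋃ j, Y j) := by
  choose f h1 h2 h3 using hY
  obtain ⟨F, hF, hF1, hF2⟩ := union_isM f h1 (fun i j x hi hj => by
    have := hd i j x (h2 i x hi) (h2 j x hj)
    subst this
    rfl)
  refine ⟨F, hF, fun x hx => ?_, fun x hx hO => ?_⟩
  · obtain ⟨j, hj, _⟩ := hF2 x hx
    exact Set.mem_iUnion.2 ⟨j, h2 j x hj⟩
  · obtain ⟨j, hj⟩ := Set.mem_iUnion.1 hx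
    have h4 := h3 j x hj hO
    rw [mem_cov] at h4 ⊢
    rw [hF1 j x h4]
    exact h4

theorem cov_union {G : SimpleGraph V} {O Y Z : Set V} (hY : Cov G O Y) (hZ : Cov G O Z)
    (hd : Disjoint Y Z) : Cov G O (Y ∪ Z) := by
  have h := cov_iUnion (G := G) (O := O) (fun b : Bool => if b then Y else Z)
    (by intro b; cases b <;> simpa) (by
      intro i j x hi hj
      have hd' := Set.disjoint_left.1 hd
      cases i <;> cases j <;> simp at hi hj ⊢
      · exact hd' hj hi
      · exact hd' hi hj)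
  have e : (⋃ b : Bool, if b = true then Y else Z) = Y ∪ Z := by
    ext x
    simp
    tauto
  rwa [← e]

end Pool.Agent.H70A
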