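import Pool.Agent.Lib.H70A.W5

/-!
# H70A chunk W6: composition of waves, maximal waves

PROOFS.
* `comp`: `w'' = ⟨w.A ∪ w'.A, w.K ∪ w'.K, w.Q ∪ w'.Q, F⟩`, `F x = w.F x` for `x ∈ w.X`, `F x = w'.F x`
  otherwise (`w.X`, `w'.X` are disjoint, each closed under its matching: `sw_isM` or directly).
  Adjacency: a neighbour `y` of `x ∈ k ∈ w'.K` is in `k`, in `w'.A`, or in `U ∪ w.X`; in the last case,
  if `y ∈ w.X \ U`: `y ∈ w.A` is fine; `y ∈ k₁ ∈ w.K` would give (by `Kadj` for `y`)
  `x ∈ k₁ ∨ x ∈ w.A ∨ x ∈ U`, all impossible (`x ∈ w'.X` is not in `U ∪ w.X`); `y ∈ w.Q` similarly.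
  The same for `x ∈ w'.Q`.
* `exists_max`: Zorn (`zorn_le_nonempty₀`-type statement for the transitive relation `Le`, e.g.
  `exists_maximal_of_chains_bounded`) on the waves extending `w`; chains are bounded by `chain_union`
  (nonempty chains; the empty chain by `w`). If a maximal `m` is not `Solid G O (U ∪ m.X)`, let
  `w₁` be a wave of `(G, O, U ∪ m.X)` with `w₁.X ≠ ∅`; `comp` gives `m'' ≥ m` with
  `w₁.X ⊆ m''.X`; maximality gives `Le m'' m`, so `w₁.X ⊆ m.X`, contradicting `disjU`.
* `exists_max_chain`: `chain_union`, then `exists_max`.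
-/

namespace Pool.Agent.H70A

universe u v

variable {V : Type u} {G : SimpleGraph V} {O U : Set V}

theorem comp {w w' : Wv V} (hw : IsWave G O U w) (hw' : IsWave G O (U ∪ w.X) w') :
    ∃ w'' : Wv V, IsWave G O U w'' ∧ Le w w'' ∧ w'.X ⊆ w''.X ∧ w''.X ⊆ w.X ∪ w'.X := by
  have hd : ∀ x ∈ w'.X, x ∉ w.X := fun x hx h => hw'.disjU x hx (Or.inr h)
  have hdU : ∀ x ∈ w'.X, x ∉ U := fun x hx h => hw'.disjU x hx (Or.inl h)
  have hsw : IsM G (sw w.X w'.F w.F) := by
    refine sw_isM hw'.isM hw.isM (fun x hx => ?_) (fun x hx => hw.map_X hx)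
    rw [hw'.fix_U (Or.inr hx)]
    exact hx
  -- the adjacency
  have hadj : ∀ x ∈ w'.X, ∀ y, G.Adj x y → y ∈ w.X → y ∈ w.A := by
    intro x hx y hy hyX
    rw [Wv.mem_X, Wv.mem_D] at hyX
    rcases hyX with h | h | ⟨k, hk, h⟩
    · exact h
    · exfalso
      rcases hw.Qadj y h x hy.symm with h1 | h1 | h1
      · exact hd x hx (IsWave.Q_subset_X h1)
      · exact hd x hx (IsWave.A_subset_X h1)
      · exact hdU x hx h1
    · exfalso
      rcases hw.Kadj k hk y h x hy.symm with h1 | h1 | h1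
      · exact hd x hx (IsWave.body_subset_X hk h1)
      · exact hd x hx (IsWave.A_subset_X h1)
      · exact hdU x hx h1
  let w'' : Wv V := ⟨w.A ∪ w'.A, w.K ∪ w'.K, w.Q ∪ w'.Q, sw w.X w'.F w.F⟩
  have hF1 : ∀ x ∈ w.X, w''.F x = w.F x := fun x hx => sw_mem hx
  have hF2 : ∀ x ∈ w'.X, w''.F x = w'.F x := fun x hx => sw_notMem (hd x hx)
  have hX : ∀ x, x ∈ w''.X ↔ x ∈ w.X ∨ x ∈ w'.X := by
    intro x
    simp only [Wv.mem_X, Wv.mem_D]
    constructor
    · rintro ((h | h) | (h | h) | ⟨k, hk | hk, h⟩)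
      · exact Or.inl (Or.inl h)
      · exact Or.inr (Or.inl h)
      · exact Or.inl (Or.inr (Or.inl h))
      · exact Or.inr (Or.inr (Or.inl h))
      · exact Or.inl (Or.inr (Or.inr ⟨k, hk, h⟩))
      · exact Or.inr (Or.inr (Or.inr ⟨k, hk, h⟩))
    · rintro ((h | h | ⟨k, hk, h⟩) | (h | h | ⟨k, hk, h⟩))
      · exact Or.inl (Or.inl h)
      · exact Or.inr (Or.inl (Or.inl h))
      · exact Or.inr (Or.inr ⟨k, Or.inl hk, h⟩)
      · exact Or.inl (Or.inr h)
      · exact Or.inr (Or.inl (Or.inr h))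
      · exact Or.inr (Or.inr ⟨k, Or.inr hk, h⟩)
  refine ⟨w'', ?_, ⟨Set.subset_union_left, Set.subset_union_left, Set.subset_union_left, hF1⟩,
    fun x hx => (hX x).2 (Or.inr hx), fun x hx => (hX x).1 hx⟩
  exact
    { isM := hsw
      supX := by
        intro x hx
        by_cases h : x ∈ w.X
        · exact (hX x).2 (Or.inl h)
        · refine (hX x).2 (Or.inr (hw'.supX x ?_))
          rw [← sw_notMem (M := w'.F) (N := w.F) h]
          exact hx
      disjU := by
        intro x hx
        rcases (hX x).1 hx with h | h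
        · exact hw.disjU x h
        · exact hdU x h
      AQ := by
        rintro x (hx | hx) (hx' | hx')
        · exact hw.AQ x hx hx'
        · exact hd x (IsWave.Q_subset_X hx') (IsWave.A_subset_X hx)
        · exact hd x (IsWave.A_subset_X hx) (IsWave.Q_subset_X hx')
        · exact hw'.AQ x hx hx'
      KA := by
        rintro k (hk | hk) x hx (hx' | hx')
        · exact hw.KA k hk x hx hx'
        · exact hd x (IsWave.A_subset_X hx') (IsWave.body_subset_X hk hx)
        · exact hd x (IsWave.body_subset_X hk hx) (IsWave.A_subset_X hx')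
        · exact hw'.KA k hk x hx hx'
      KQ := by
        rintro k (hk | hk) x hx (hx' | hx')
        · exact hw.KQ k hk x hx hx'
        · exact hd x (IsWave.Q_subset_X hx') (IsWave.body_subset_X hk hx)
        · exact hd x (IsWave.body_subset_X hk hx) (IsWave.Q_subset_X hx')
        · exact hw'.KQ k hk x hx hx'
      KK := by
        rintro k (hk | hk) k' (hk' | hk') x hx hx'
        · exact hw.KK k hk k' hk' x hx hx'
        · exact absurd (IsWave.body_subset_X hk hx) (hd x (IsWave.body_subset_X hk' hx'))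
        · exact absurd (IsWave.body_subset_X hk' hx') (hd x (IsWave.body_subset_X hk hx))
        · exact hw'.KK k hk k' hk' x hx hx'
      Kadj := by
        rintro k (hk | hk) x hx y hy
        · rcases hw.Kadj k hk x hx y hy with h | h | h
          · exact Or.inl h
          · exact Or.inr (Or.inl (Or.inl h))
          · exact Or.inr (Or.inr h)
        · rcases hw'.Kadj k hk x hx y hy with h | h | h | h
          · exact Or.inl h
          · exact Or.inr (Or.inl (Or.inr h))
          · exact Or.inr (Or.inr h)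
          · exact Or.inr (Or.inl (Or.inl (hadj x (IsWave.body_subset_X hk hx) y hy h)))
      Qadj := by
        rintro x (hx | hx) y hy
        · rcases hw.Qadj x hx y hy with h | h | h
          · exact Or.inl (Or.inl h)
          · exact Or.inr (Or.inl (Or.inl h))
          · exact Or.inr (Or.inr h)
        · rcases hw'.Qadj x hx y hy with h | h | h | h
          · exact Or.inl (Or.inr h)
          · exact Or.inr (Or.inl (Or.inr h))
          · exact Or.inr (Or.inr h)
          · exact Or.inr (Or.inl (Or.inl (hadj x (IsWave.Q_subset_X hx) y hy h)))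
      Qm := by
        rintro x (hx | hx)
        · rw [hF1 x (IsWave.Q_subset_X hx)]
          exact ⟨Or.inl (hw.Qm x hx).1, (hw.Qm x hx).2⟩
        · rw [hF2 x (IsWave.Q_subset_X hx)]
          exact ⟨Or.inr (hw'.Qm x hx).1, (hw'.Qm x hx).2⟩
      Am := by
        rintro x (hx | hx)
        · rw [hF1 x (IsWave.A_subset_X hx)]
          obtain ⟨k, hk, hk'⟩ := hw.Am x hx
          exact ⟨k, Or.inl hk, hk'⟩
        · rw [hF2 x (IsWave.A_subset_X hx)]
          obtain ⟨k, hk, hk'⟩ := hw'.Am x hx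
          exact ⟨k, Or.inr hk, hk'⟩
      KO := by
        rintro k (hk | hk) x hx
        · exact hw.KO k hk x hx
        · exact hw'.KO k hk x hx
      root := by
        rintro k (hk | hk)
        · obtain ⟨r, hr, h1, h2⟩ := hw.root k hk
          refine ⟨r, hr, fun x hx hne => ?_, ?_⟩
          · rw [hF1 x (IsWave.body_subset_X hk hx)]
            exact h1 x hx hne
          · rw [hF1 r (IsWave.body_subset_X hk hr)]
            exact h2.imp Or.inl id
        · obtain ⟨r, hr, h1, h2⟩ := hw'.root k hk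
          refine ⟨r, hr, fun x hx hne => ?_, ?_⟩
          · rw [hF2 x (IsWave.body_subset_X hk hx)]
            exact h1 x hx hne
          · rw [hF2 r (IsWave.body_subset_X hk hr)]
            exact h2.imp Or.inr id
      crit := by
        rintro k (hk | hk) x hx
        · obtain ⟨N, hN, hNx, h2, h3, h4⟩ := hw.crit k hk x hx
          refine ⟨N, hN, hNx, h2, h3, h4.subset ?_⟩
          rintro y ⟨hy, hne⟩
          exact ⟨hy, by rw [← hF1 y (IsWave.body_subset_X hk hy)]; exact hne⟩
        · obtain ⟨N, hN, hNx, h2, h3, h4⟩ := hw'.crit k hk x hx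
          refine ⟨N, hN, hNx, h2, h3, h4.subset ?_⟩
          rintro y ⟨hy, hne⟩
          exact ⟨hy, by rw [← hF2 y (IsWave.body_subset_X hk hy)]; exact hne⟩ }

theorem exists_max {w : Wv V} (hw : IsWave G O U w) :
    ∃ w' : Wv V, Le w w' ∧ IsWave G O U w' ∧ Solid G O (U ∪ w'.X) := by
  obtain ⟨⟨m, hm, hwm⟩, hmax⟩ := exists_maximal_of_chains_bounded
    (α := {m : Wv V // IsWave G O U m ∧ Le w m}) (r := fun a b => Le a.1 b.1) (by
      intro c hc
      by_cases hne : c.Nonempty
      · obtain ⟨a₀, ha₀⟩ := hne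
        obtain ⟨w', hw', hle, -⟩ := chain_union (fun j : c => j.1.1) (fun j => j.1.2.1) (by
          intro i j
          by_cases h : i = j
          · exact Or.inl (by rw [h]; exact Le.refl _)
          · exact hc i.2 j.2 (fun e => h (Subtype.ext e)))
        exact ⟨⟨w', hw', a₀.2.2.trans (hle ⟨a₀, ha₀⟩)⟩, fun a ha => hle ⟨a, ha⟩⟩
      · exact ⟨⟨w, hw, Le.refl w⟩, fun a ha => absurd ⟨a, ha⟩ hne⟩)
    (fun h1 h2 => h1.trans h2)
  refine ⟨m, hwm, hm, fun w₁ hw₁ => ?_⟩
  obtain ⟨m'', hm'', hle, hX, -⟩ := comp hm hw₁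
  have h1 : Le m'' m := hmax ⟨m'', hm'', hwm.trans hle⟩ hle
  rw [Set.eq_empty_iff_forall_notMem]
  intro x hx
  exact hw₁.disjU x hx (Or.inr (h1.X (hX hx)))

theorem exists_max_chain {J : Type v} (w : J → Wv V) (hw : ∀ j, IsWave G O U (w j))
    (hc : ∀ i j, Le (w i) (w j) ∨ Le (w j) (w i)) :
    ∃ w' : Wv V, IsWave G O U w' ∧ Solid G O (U ∪ w'.X) ∧ ∀ j, Le (w j) w' := by
  obtain ⟨w₀, hw₀, hle, -⟩ := chain_union w hw hc
  obtain ⟨w', hle', hw', hs⟩ := exists_max hw₀
  exact ⟨w', hw', hs, fun j => (hle j).trans hle'⟩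

end Pool.Agent.H70A
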