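import Pool.Agent.Lib.H70A.B9
import Pool.Agent.Lib.H70A.W6
import Pool.Agent.Lib.H70A.M5

/-!
# H70A chunk B10: the slab theorem

PROOF of `gv_hf`: a hole `x` of `wn` (`x ∈ wn.X`, `wn.F x = x`) is in `wn.D` (`Qm`, `A_apply`); `bs_false`.
PROOF of `bsharp`. `exists_max wave_empty` for `(GV, OV, Slᶜ)`: a wave `wn`, `Solid GV OV (Slᶜ ∪ wn.X)`; `HF wn` by
`gv_hf`, so `wn.F` covers exactly `wn.X ⊆ Sl`. The complement of `Slᶜ ∪ wn.X` is `Sl \ wn.X ⊆ U j`, of cardinality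
`< #ι`; `PMlt` gives `Cov GV OV (Sl \ wn.X)`. `cov_union` with `Cov GV OV wn.X`:
`Cov GV OV Sl`.
-/

namespace Pool.Agent.H70A

open Cardinal Order

universe u

variable {ι : Type u} [LinearOrder ι] [WellFoundedLT ι] [SuccOrder ι] [NoMaxOrder ι] {V : Type u}
  {G : SimpleGraph V} {O : Set V} {U : ι → Set V} {w : ι → Wv V} {i j : ι} {S : Set V}

/-- Solid graphs with fewer than `κ` vertices are coverable. -/
def PMlt (V : Type u) (κ : Cardinal.{u}) : Prop :=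
  ∀ (G : SimpleGraph V) (O U : Set V), #(Uᶜ : Set V) < κ → Solid G O U → Cov G O Uᶜ

theorem gv_hf (hι : RegIdx ι) (hN : NSys G O U w) (hij : i < j) (hS1 : S ⊆ U j)
    (hS2 : ∀ x ∈ S, x ∉ U i ∧ x ∉ (w i).X) (hS3 : S.Subsingleton) {wn : Wv V}
    (hw : IsWave (GV G O U w j) (OV G O U w j) (Sl U w i j S)ᶜ wn) : HF wn := by
  intro x hx hF
  have hD : x ∈ wn.D := by
    rcases Wv.mem_X.1 hx with h1 | h1 | h1
    · obtain ⟨_, _, _, h2⟩ := hw.A_apply h1
      exact absurd hF h2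
    · exact absurd hF (hw.Qm x h1).2
    · exact h1
  exact bs_false hι ⟨hN, hij, hS1, hS2, hS3, hw, hD, hF⟩

theorem bsharp (hι : RegIdx ι) (hPM : PMlt V #ι) (hN : NSys G O U w) (hij : i < j)
    (hS1 : S ⊆ U j) (hS2 : ∀ x ∈ S, x ∉ U i ∧ x ∉ (w i).X) (hS3 : S.Subsingleton) :
    Cov (GV G O U w j) (OV G O U w j) (Sl U w i j S) := by
  obtain ⟨wn, -, hw, hsol⟩ := exists_max (wave_empty (G := GV G O U w j) (O := OV G O U w j)
    (U := (Sl U w i j S)ᶜ))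
  have hHF := gv_hf hι hN hij hS1 hS2 hS3 hw
  have hsub : wn.X ⊆ Sl U w i j S := fun x hx => not_not.1 (hw.disjU x hx)
  have h1 : Cov (GV G O U w j) (OV G O U w j) wn.X :=
    ⟨wn.F, hw.isM, fun x hx => hw.supX x hx, fun x hx _ => hHF x hx⟩
  have h2 : Cov (GV G O U w j) (OV G O U w j) ((Sl U w i j S)ᶜ ∪ wn.X)ᶜ := by
    refine hPM _ _ _ (lt_of_le_of_lt (mk_le_mk_of_subset ?_) (hN.sys.chn.small j)) hsol
    intro x hx
    by_contra h3
    exact hx (Or.inl fun h4 => h3 h4.1)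
  have h3 := cov_union h1 h2 (Set.disjoint_left.2 fun x hx hx' => hx' (Or.inr hx))
  have h4 : wn.X ∪ ((Sl U w i j S)ᶜ ∪ wn.X)ᶜ = Sl U w i j S := by
    ext x
    constructor
    · rintro (h | h)
      · exact hsub h
      · by_contra h5
        exact h (Or.inl h5)
    · intro h
      by_cases h5 : x ∈ wn.X
      · exact Or.inl h5
      · exact Or.inr fun h6 => h6.elim (fun h7 => h7 h) h5
  rwa [h4] at h3

end Pool.Agent.H70A
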