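import Pool.Agent.Lib.H70A.C2

/-!
# H70A chunk C4: injective choices

PROOFS.
* `inj_choice`. Well-founded recursion along `φ`: `e x` = some element of `Sp x` above a strict upper
  bound `b` of the small set `{e y | φ y < φ x}` (small: `φ` injects `{y | φ y < φ x}` into
  `Iio (φ x)`). (Use the well-founded relation `fun y x => φ y < φ x` on `X`, `InvImage.wf`.) For `x ≠ y`
  we have `φ x < φ y` or `φ y < φ x`, so `e x ≠ e y`.
* `inj_of_union`: `#(⋃ i, U i) ≤ sum ≤ #ι * #ι = #ι`, so there is an injection.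
-/

namespace Pool.Agent.H70A

open Cardinal Order

universe u

variable {ι : Type u} [LinearOrder ι] [WellFoundedLT ι] [SuccOrder ι] [NoMaxOrder ι] {V : Type u}

theorem c4_exists (hι : RegIdx ι) {X : Type u} (φ : X → ι) (hφ : Function.Injective φ)
    (Sp : X → Set ι) (hS : ∀ x b, ∃ i ∈ Sp x, b < i) (x : X) (e : ∀ y, φ y < φ x → ι) :
    ∃ i ∈ Sp x, ∀ y (hy : φ y < φ x), e y hy < i := by
  obtain ⟨b, hb⟩ := hι.bdd (Set.range fun z : {y : X // φ y < φ x} => e z z.2) (by
    refine mk_range_le.trans_lt (lt_of_le_of_lt ?_ (hι.small (φ x)))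
    exact mk_le_of_injective (f := fun z : {y : X // φ y < φ x} => (⟨φ z, z.2⟩ : Set.Iio (φ x)))
      fun z w h => Subtype.ext (hφ (congrArg Subtype.val h)))
  obtain ⟨i, hi, hbi⟩ := hS x b
  exact ⟨i, hi, fun y hy => (hb _ ⟨⟨y, hy⟩, rfl⟩).trans hbi⟩

theorem inj_choice (hι : RegIdx ι) {X : Type u} (φ : X → ι) (hφ : Function.Injective φ)
    (Sp : X → Set ι) (hS : ∀ x b, ∃ i ∈ Sp x, b < i) :
    ∃ e : X → ι, Function.Injective e ∧ ∀ x, e x ∈ Sp x := by
  have wf : WellFounded (fun y x : X => φ y < φ x) := InvImage.wf φ wellFounded_lt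
  let e : X → ι := wf.fix fun x rec => (c4_exists hι φ hφ Sp hS x rec).choose
  have he : ∀ x, e x = (c4_exists hι φ hφ Sp hS x fun y _ => e y).choose := fun x => wf.fix_eq _ x
  have h1 : ∀ x, e x ∈ Sp x ∧ ∀ y, φ y < φ x → e y < e x := by
    intro x
    have h2 := (c4_exists hι φ hφ Sp hS x fun y _ => e y).choose_spec
    rw [← he x] at h2
    exact h2
  refine ⟨e, ?_, fun x => (h1 x).1⟩
  intro x y hxy
  by_contra hne
  rcases lt_or_gt_of_ne (fun h => hne (hφ h)) with h | h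
  · exact ((h1 y).2 x h).ne hxy
  · exact ((h1 x).2 y h).ne' hxy

theorem inj_of_union (hι : RegIdx ι) {U : ι → Set V} (hU : Chn U) :
    ∃ φ : (⋃ i, U i : Set V) → ι, Function.Injective φ := by
  have h1 : #(⋃ i, U i : Set V) ≤ #ι := by
    refine mk_iUnion_le_sum_mk.trans ?_
    refine (sum_le_sum _ (fun _ => #ι) fun i => (hU.small i).le).trans ?_
    rw [sum_const, lift_id]
    exact (mul_eq_self hι.reg.aleph0_le).le
  obtain ⟨f⟩ := h1
  exact ⟨f, f.injective⟩

end Pool.Agent.H70A
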