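import Pool.Agent.Lib.H70A.B1
import Pool.Agent.Lib.H70A.C4

/-!
# H70A chunk B2: stages and witnesses for the virtual edges

PROOFS.
* `vt_facts`: `x ∈ Vt`: `wn.F x ≠ x`, so `x, wn.F x ∈ wn.X` are in the slab (`disjU`, `map_X`); `wn.F x ∈ Vt`;
  the adjacency in `GV` gives `Vrt G (w j) x (wn.F x)` and one end not in `OV`.
* `exists_BW`: `Vt ⊆ U j`; with `φ` from `inj_of_union` restricted to the subtype `Vt` and `inj_choice` with
  `Sp x = Set.Ioi j` (`NoMaxOrder` and linearity give the hypothesis: above `max j b`) choose an injective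
  `e` on `Vt` with `j < e x`. `de x := min (e x) (e (wn.F x))` on `Vt` (arbitrary elsewhere). `dF` clear. `dinj`:
  `de x = de y` means `e a = e b` for some `a ∈ {x, wn.F x}`, `b ∈ {y, wn.F y}`, so `a = b` and
  `y ∈ {x, wn.F x}`. For `x ∈ Vt`: `Vrt G (w (de x)) x (wn.F x)`: `rob2` (`j ≤ de x`), applied to the end not
  in `OV` (`Vrt.symm`); by `wit2` there is a witness inside `U (succ (de x))`. For each stage `m` in the
  image choose one `x` with `de x = m` and let `Nw m` be its witness (it is also one for `wn.F x` by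
  `VrtW.symm`). `tr`: `wit_transp` (`i < j ≤ de x`).
-/

namespace Pool.Agent.H70A

open Cardinal Order

universe u

variable {ι : Type u} [LinearOrder ι] [WellFoundedLT ι] [SuccOrder ι] [NoMaxOrder ι] {V : Type u}
  {G : SimpleGraph V} {O : Set V} {U : ι → Set V} {w : ι → Wv V} {i j : ι} {S : Set V}
  {wn : Wv V} {h : V}

theorem vt_facts (hB : BS G O U w i j S wn h) {x : V} (hx : x ∈ Vt G wn) :
    x ∈ Sl U w i j S ∧ wn.F x ∈ Sl U w i j S ∧ wn.F x ∈ Vt G wn ∧ Vrt G (w j) x (wn.F x) ∧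
      (x ∉ OV G O U w j ∨ wn.F x ∉ OV G O U w j) := by
  obtain ⟨h1, h2⟩ := hx
  have hw := hB.wave
  have hX : x ∈ wn.X := hw.supX x h1
  have hX' : wn.F x ∈ wn.X := hw.map_X hX
  have hs : x ∈ Sl U w i j S := not_not.1 (hw.disjU x hX)
  have hs' : wn.F x ∈ Sl U w i j S := not_not.1 (hw.disjU _ hX')
  have hadj := hw.isM.adj x h1
  refine ⟨hs, hs', ⟨?_, ?_⟩, ?_⟩
  · rw [hw.isM.inv]
    exact h1.symm
  · rw [hw.isM.inv]
    exact fun h => h2 h.symm
  · rcases hadj with h | ⟨h3, -, -, h4⟩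
    · exact absurd h h2
    · exact ⟨h3, h4⟩

theorem exists_BW (hι : RegIdx ι) (hB : BS G O U w i j S wn h) :
    ∃ (de : V → ι) (Nw : ι → V → V), BW G U w i j wn de Nw := by
  classical
  have hU := hB.ns.sys.chn
  have hw := hB.wave
  obtain ⟨φ, hφ⟩ := inj_of_union hι hU
  have hVU : ∀ x ∈ Vt G wn, x ∈ U j := fun x hx => (vt_facts hB hx).1.1
  obtain ⟨e, he, hej⟩ := inj_choice hι (X := Vt G wn)
    (fun x => φ ⟨x.1, Set.mem_iUnion.2 ⟨j, hVU x.1 x.2⟩⟩)
    (fun x y hxy => Subtype.ext (by simpa using congrArg Subtype.val (hφ hxy)))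
    (fun _ => Set.Ioi j) (fun _ b => by
      obtain ⟨c, hc⟩ := exists_gt (max j b)
      exact ⟨c, (le_max_left j b).trans_lt hc, (le_max_right j b).trans_lt hc⟩)
  let E : V → ι := fun x => if h : x ∈ Vt G wn then e ⟨x, h⟩ else j
  have hE : ∀ x (h : x ∈ Vt G wn), E x = e ⟨x, h⟩ := fun x h => dif_pos h
  have hEj : ∀ x ∈ Vt G wn, j < E x := fun x h => by rw [hE x h]; exact hej _
  have hEinj : ∀ x ∈ Vt G wn, ∀ y ∈ Vt G wn, E x = E y → x = y := by
    intro x hx y hy hxy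
    rw [hE x hx, hE y hy] at hxy
    exact congrArg Subtype.val (he hxy)
  have hF : ∀ x ∈ Vt G wn, wn.F x ∈ Vt G wn := fun x hx => (vt_facts hB hx).2.2.1
  let de : V → ι := fun x => min (E x) (E (wn.F x))
  have hdge : ∀ x ∈ Vt G wn, j ≤ de x := fun x hx => le_min (hEj x hx).le (hEj _ (hF x hx)).le
  have hdF : ∀ x ∈ Vt G wn, de (wn.F x) = de x := by
    intro x _
    change min (E (wn.F x)) (E (wn.F (wn.F x))) = min (E x) (E (wn.F x))
    rw [hw.isM.inv, min_comm]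
  have hdinj : ∀ x ∈ Vt G wn, ∀ y ∈ Vt G wn, de x = de y → y = x ∨ y = wn.F x := by
    intro x hx y hy hxy
    change min (E x) (E (wn.F x)) = min (E y) (E (wn.F y)) at hxy
    have key : ∀ z, z = x ∨ z = wn.F x → z = y ∨ z = wn.F y → y = x ∨ y = wn.F x := by
      rintro z (rfl | rfl) (h | h)
      · exact Or.inl h.symm
      · exact Or.inr (by rw [h, hw.isM.inv])
      · exact Or.inr h.symm
      · exact Or.inl (hw.isM.inj h).symm
    rcases min_choice (E x) (E (wn.F x)) with h1 | h1 <;>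
      rcases min_choice (E y) (E (wn.F y)) with h2 | h2 <;> rw [h1, h2] at hxy
    · exact key x (Or.inl rfl) (Or.inl (hEinj _ hx _ hy hxy))
    · exact key x (Or.inl rfl) (Or.inr (hEinj _ hx _ (hF y hy) hxy))
    · exact key (wn.F x) (Or.inr rfl) (Or.inl (hEinj _ (hF x hx) _ hy hxy))
    · exact key (wn.F x) (Or.inr rfl) (Or.inr (hEinj _ (hF x hx) _ (hF y hy) hxy))
  have hwit : ∀ x ∈ Vt G wn, ∃ N, VrtW G (w (de x)) x (wn.F x) N ∧
      df (w (de x)).F N ⊆ U (succ (de x)) := by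
    intro x hx
    obtain ⟨h1, h2, -, h3, h4⟩ := vt_facts hB hx
    have hmem : ∀ z ∈ Sl U w i j S, z ∈ U (de x) := fun z hz =>
      hU.mono j (de x) (hdge x hx) hz.1
    refine hB.ns.wit2 (de x) x (hmem x h1) (wn.F x) (hmem _ h2) ?_
    rcases h4 with h4 | h4
    · exact hB.ns.rob2 j (de x) (hdge x hx) x h1.1 (wn.F x) h2.1 (fun h => h4 (Or.inl h))
        (fun h => h4 (Or.inr h)) h3
    · exact (hB.ns.rob2 j (de x) (hdge x hx) (wn.F x) h2.1 x h1.1 (fun h => h4 (Or.inl h))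
        (fun h => h4 (Or.inr h)) h3.symm).symm
  let Nw : ι → V → V := fun m =>
    if h : ∃ x, x ∈ Vt G wn ∧ de x = m then (hwit h.choose h.choose_spec.1).choose else fun z => z
  have hNw : ∀ x ∈ Vt G wn, VrtW G (w (de x)) x (wn.F x) (Nw (de x)) ∧
      df (w (de x)).F (Nw (de x)) ⊆ U (succ (de x)) := by
    intro x hx
    have h : ∃ x', x' ∈ Vt G wn ∧ de x' = de x := ⟨x, hx, rfl⟩
    have h1 : Nw (de x) = (hwit h.choose h.choose_spec.1).choose := dif_pos h
    have h2 := (hwit h.choose h.choose_spec.1).choose_spec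
    rw [← h1, h.choose_spec.2] at h2
    refine ⟨?_, h2.2⟩
    rcases hdinj _ h.choose_spec.1 x hx h.choose_spec.2 with h3 | h3
    · have h4 := h2.1
      rw [← h3] at h4
      exact h4
    · have h4 := h2.1
      have h5 : h.choose = wn.F x := (hw.isM.eq_iff.1 h3.symm)
      rw [← h3, h5] at h4
      exact h4.symm
  refine ⟨de, Nw, hdge, hdF, hdinj, fun x hx => (hNw x hx).1, fun x hx => (hNw x hx).2, ?_⟩
  intro x hx
  obtain ⟨h1, h2, -⟩ := vt_facts hB hx
  have hsl : ∀ z ∈ Sl U w i j S, z ∈ U (de x) ∧ z ∉ U i ∧ z ∉ (w i).X := fun z hz =>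
    ⟨hU.mono j (de x) (hdge x hx) hz.1, fun h => hz.2 (Or.inl (Or.inl h)),
      fun h => hz.2 (Or.inl (Or.inr h))⟩
  exact wit_transp hB.ns (hB.hij.trans_le (hdge x hx)) (hsl x h1) (hsl _ h2) (hNw x hx).1

end Pool.Agent.H70A
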