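import Pool.Agent.Lib.H70A.B2

/-!
# H70A chunk B3: the sets `Dm x`

PROOFS. `x ∈ Vt`, `m = de x ≥ j`, `F_m = (w m).F`, `N = Nw m`, `cov N = cov F_m + x + wn.F x`. `U j ⊆ U m`.
* `dm_self`: `x ∈ cov N`, `F_m x = x` (`x ∈ U j ⊆ U m`).
* `dm_U`: `z ∈ Dm x`, `z ∈ U m`: `F_m z = z`, so `z ∈ cov N \ cov F_m = {x, wn.F x}`. In particular for
  `z ∈ U j`.
* `dm_F`: `z ∈ Dm x`, `z ∉ U j`: then `z ∉ U m` (by `dm_U`, `x, wn.F x ∈ U j`), and `F_m z ≠ z`, because otherwise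
  `z ∈ cov N \ cov F_m`.
* `dm_closed`: `IsM.df_left`, `IsM.df_right`.
* `dm_disj`: let `z ∈ Dm x ∩ Dm y` and `de x < de y`. `z ∈ U (succ (de x)) ⊆ U (de y)`, so `z ∈ {y, wn.F y} ⊆ U j`,
  so `z ∈ {x, wn.F x}` by `dm_U`; hence `de z = de x` and `de z = de y` (`dF`): contradiction. So
  `de x = de y`.
* `nw_out`: `N x ∉ U j`: otherwise `N x ∈ Dm x ∩ U j ⊆ {x, wn.F x}`; `N x ≠ x`, and `N x = wn.F x` would give
  `G.Adj x (wn.F x)`.
* `nw_X`: `z ∉ (w i).X` → `N z ∉ (w i).X`: `BW.tr` and the involution.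
* `dm_fin`: finite.
-/

namespace Pool.Agent.H70A

open Cardinal Order

universe u

variable {ι : Type u} [LinearOrder ι] [WellFoundedLT ι] [SuccOrder ι] [NoMaxOrder ι] {V : Type u}
  {G : SimpleGraph V} {O : Set V} {U : ι → Set V} {w : ι → Wv V} {i j : ι} {S : Set V}
  {wn : Wv V} {h : V} {de : V → ι} {Nw : ι → V → V}

theorem dm_self (hB : BS G O U w i j S wn h) (hW : BW G U w i j wn de Nw) {x : V}
    (hx : x ∈ Vt G wn) : x ∈ Dm w de Nw x := by
  obtain ⟨h1, -, h3⟩ := hW.wit x hx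
  have hs := (vt_facts hB hx).1
  have hU : x ∈ U (de x) := hB.ns.sys.chn.mono j (de x) (hW.dge x hx) hs.1
  have hf : (w (de x)).F x = x := (hB.ns.sys.wave (de x)).fix_U hU
  have hc : x ∈ cov (Nw (de x)) := (h3 x).2 (Or.inr (Or.inl rfl))
  rw [Dm, mem_df, hf]
  exact fun h => hc h.symm

theorem dm_U (hB : BS G O U w i j S wn h) (hW : BW G U w i j wn de Nw) {x z : V}
    (hx : x ∈ Vt G wn) (hz : z ∈ Dm w de Nw x) (hz' : z ∈ U (de x)) : z = x ∨ z = wn.F x := by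
  obtain ⟨h1, -, h3⟩ := hW.wit x hx
  have hf : (w (de x)).F z = z := (hB.ns.sys.wave (de x)).fix_U hz'
  rw [Dm, mem_df, hf] at hz
  have hc : z ∈ cov (Nw (de x)) := fun h => hz h.symm
  exact ((h3 z).1 hc).resolve_left fun h => h hf

theorem dm_Uj (hB : BS G O U w i j S wn h) (hW : BW G U w i j wn de Nw) {x z : V}
    (hx : x ∈ Vt G wn) (hz : z ∈ Dm w de Nw x) (hz' : z ∈ U j) : z = x ∨ z = wn.F x := by
  exact dm_U hB hW hx hz (hB.ns.sys.chn.mono j (de x) (hW.dge x hx) hz')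

theorem dm_F (hB : BS G O U w i j S wn h) (hW : BW G U w i j wn de Nw) {x z : V}
    (hx : x ∈ Vt G wn) (hz : z ∈ Dm w de Nw x) (hz' : z ∉ U j) :
    z ∉ U (de x) ∧ (w (de x)).F z ≠ z := by
  obtain ⟨hs, hs', -⟩ := vt_facts hB hx
  have hne : ∀ y, y ∈ U j → z ≠ y := fun y hy h => hz' (h ▸ hy)
  refine ⟨fun h => ?_, fun h => ?_⟩
  · rcases dm_U hB hW hx hz h with h1 | h1
    · exact hne x hs.1 h1
    · exact hne _ hs'.1 h1
  · obtain ⟨h1, -, h3⟩ := hW.wit x hx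
    rw [Dm, mem_df, h] at hz
    rcases (h3 z).1 (fun e => hz e.symm) with h4 | h4 | h4
    · exact h4 h
    · exact hne x hs.1 h4
    · exact hne _ hs'.1 h4

theorem dm_closed (hB : BS G O U w i j S wn h) (hW : BW G U w i j wn de Nw) {x z : V}
    (hx : x ∈ Vt G wn) (hz : z ∈ Dm w de Nw x) :
    (w (de x)).F z ∈ Dm w de Nw x ∧ Nw (de x) z ∈ Dm w de Nw x := by
  have h1 := (hB.ns.sys.wave (de x)).isM
  have h2 := (hW.wit x hx).1
  exact ⟨h1.df_left h2 hz, h1.df_right h2 hz⟩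

theorem dm_disj (hB : BS G O U w i j S wn h) (hW : BW G U w i j wn de Nw) {x y z : V}
    (hx : x ∈ Vt G wn) (hy : y ∈ Vt G wn) (hz : z ∈ Dm w de Nw x) (hz' : z ∈ Dm w de Nw y) :
    de x = de y := by
  have key : ∀ {x y z : V}, x ∈ Vt G wn → y ∈ Vt G wn → z ∈ Dm w de Nw x → z ∈ Dm w de Nw y →
      ¬ de x < de y := by
    intro x y z hx hy hz hz' hlt
    have h1 : z ∈ U (de y) :=
      hB.ns.sys.chn.mono _ _ (succ_le_of_lt hlt) (hW.loc x hx hz)
    have h2 := dm_U hB hW hy hz' h1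
    obtain ⟨hs, hs', -⟩ := vt_facts hB hy
    have h3 : z ∈ U j := by
      rcases h2 with rfl | rfl
      · exact hs.1
      · exact hs'.1
    have h4 := dm_Uj hB hW hx hz h3
    have e1 : de z = de y := by
      rcases h2 with h | h
      · rw [h]
      · rw [h, hW.dF y hy]
    have e2 : de z = de x := by
      rcases h4 with h | h
      · rw [h]
      · rw [h, hW.dF x hx]
    exact hlt.ne (e2.symm.trans e1)
  rcases lt_trichotomy (de x) (de y) with h | h | h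
  · exact absurd h (key hx hy hz hz')
  · exact h
  · exact absurd h (key hy hx hz' hz)

theorem nw_out (hB : BS G O U w i j S wn h) (hW : BW G U w i j wn de Nw) {x : V}
    (hx : x ∈ Vt G wn) : Nw (de x) x ∉ U j := by
  intro hU
  have h1 := dm_self hB hW hx
  have h2 := (dm_closed hB hW hx h1).2
  obtain ⟨h3, -, h4⟩ := hW.wit x hx
  have hc : Nw (de x) x ≠ x := (h4 x).2 (Or.inr (Or.inl rfl))
  rcases dm_Uj hB hW hx h2 hU with h | h
  · exact hc h
  · have h5 := h3.adj x hc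
    rw [h] at h5
    exact hx.2 h5

theorem nw_X (hB : BS G O U w i j S wn h) (hW : BW G U w i j wn de Nw) {x z : V}
    (hx : x ∈ Vt G wn) (hz : z ∉ (w i).X) : Nw (de x) z ∉ (w i).X := by
  intro h
  have h1 := hW.tr x hx _ h
  rw [(hW.wit x hx).1.inv] at h1
  exact hz h1

theorem dm_fin (hW : BW G U w i j wn de Nw) {x : V}
    (hx : x ∈ Vt G wn) : (Dm w de Nw x).Finite := by
  exact (hW.wit x hx).2.1

end Pool.Agent.H70A
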