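import Pool.Agent.Lib.H70A.B3
import Pool.Agent.Lib.H70A.M5

/-!
# H70A chunk B4: the base matching `Bh`

PROOF. `union_isM` for the family indexed by `Option (Vt G wn)`: `none ↦ (w j).F`;
`some x ↦ g_x`, `g_x z = (w (de x)).F z` if `z ∈ Dm x` and `z ∉ U j`, `g_x z = z` otherwise. `g_x` is a matching:
`Dm x` is closed under `F_m` (`m = de x`), and for `z ∈ Dm x \ U j`: `F_m z ∈ U j ⊆ U m` would give
`F_m (F_m z) = F_m z`, so `F_m z = z`, contradicting `dm_F`.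
Compatibility: `none`, `some x`: `(w j).F z ≠ z` (`z ∈ (w j).X`), `z ∈ Dm x \ U j`, so `z ∉ U m` (`dm_F`) and
`F_m z = (w j).F z` (`F_eq`). `some x`, `some y`: `de x = de y` (`dm_disj`), so `g_x = g_y` at `z`.
`eqj`: for `z ∈ (w j).X`: `(w j).F z ≠ z` (`HF`). `eqD`: `dm_F` gives `g_x z ≠ z`.
-/

namespace Pool.Agent.H70A

open Cardinal Order

universe u

variable {ι : Type u} [LinearOrder ι] [WellFoundedLT ι] [SuccOrder ι] [NoMaxOrder ι] {V : Type u}
  {G : SimpleGraph V} {O : Set V} {U : ι → Set V} {w : ι → Wv V} {i j : ι} {S : Set V}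
  {wn : Wv V} {h : V} {de : V → ι} {Nw : ι → V → V}

theorem exists_Bh (hB : BS G O U w i j S wn h) (hW : BW G U w i j wn de Nw) :
    ∃ Bh : V → V, BhP G U w j wn de Nw Bh := by
  classical
  have hS := hB.ns.sys
  let g : Vt G wn → V → V := fun x z =>
    if z ∈ Dm w de Nw x.1 ∧ z ∉ U j then (w (de x.1)).F z else z
  have hg1 : ∀ (x : Vt G wn) z, z ∈ Dm w de Nw x.1 → z ∉ U j → g x z = (w (de x.1)).F z :=
    fun x z h1 h2 => if_pos ⟨h1, h2⟩
  have hg2 : ∀ (x : Vt G wn) z, g x z ≠ z → z ∈ Dm w de Nw x.1 ∧ z ∉ U j := by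
    intro x z hz
    by_contra h
    exact hz (if_neg h)
  have hgM : ∀ x, IsM G (g x) := by
    intro x
    have hM := (hS.wave (de x.1)).isM
    have hcl : ∀ z, z ∈ Dm w de Nw x.1 → z ∉ U j →
        (w (de x.1)).F z ∈ Dm w de Nw x.1 ∧ (w (de x.1)).F z ∉ U j := by
      intro z h1 h2
      refine ⟨(dm_closed hB hW x.2 h1).1, fun h3 => ?_⟩
      have h4 : (w (de x.1)).F ((w (de x.1)).F z) = (w (de x.1)).F z :=
        (hS.wave (de x.1)).fix_U (hS.chn.mono j _ (hW.dge x.1 x.2) h3)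
      rw [hM.inv] at h4
      exact (dm_F hB hW x.2 h1 h2).2 h4.symm
    refine ⟨fun z => ?_, fun z hz => ?_⟩
    · by_cases hz : z ∈ Dm w de Nw x.1 ∧ z ∉ U j
      · obtain ⟨h1, h2⟩ := hcl z hz.1 hz.2
        rw [hg1 x z hz.1 hz.2, hg1 x _ h1 h2, hM.inv]
      · have h1 : g x z = z := if_neg hz
        rw [h1, h1]
    · obtain ⟨h1, h2⟩ := hg2 x z hz
      rw [hg1 x z h1 h2] at hz ⊢
      exact hM.adj z hz
  let f : Option (Vt G wn) → V → V := fun o => Option.elim o (w j).F g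
  obtain ⟨Bh, hM, h1, h2⟩ := union_isM (G := G) f (by
    rintro (_ | x)
    · exact (hS.wave j).isM
    · exact hgM x) (by
    have key : ∀ (x : Vt G wn) z, (w j).F z ≠ z → g x z ≠ z → (w j).F z = g x z := by
      intro x z hz hz'
      obtain ⟨h1, h2⟩ := hg2 x z hz'
      rw [hg1 x z h1 h2]
      exact (F_eq hS (hW.dge x.1 x.2) ((hS.wave j).supX z hz) (dm_F hB hW x.2 h1 h2).1).symm
    rintro (_ | x) (_ | y) z hz hz'
    · rfl
    · exact key y z hz hz'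
    · exact (key x z hz' hz).symm
    · obtain ⟨h1, h2⟩ := hg2 x z hz
      obtain ⟨h3, h4⟩ := hg2 y z hz'
      change g x z = g y z
      rw [hg1 x z h1 h2, hg1 y z h3 h4, dm_disj hB hW x.2 y.2 h1 h3])
  refine ⟨Bh, hM, fun z hz => h1 none z (hB.ns.hf j z hz), fun x hx z hz hz' => ?_, fun z hz => ?_⟩
  · have h3 := h1 (some ⟨x, hx⟩) z (by
      change g ⟨x, hx⟩ z ≠ z
      rw [hg1 ⟨x, hx⟩ z hz hz']
      exact (dm_F hB hW hx hz hz').2)
    rw [h3]
    exact hg1 ⟨x, hx⟩ z hz hz'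
  · obtain ⟨o, ho, -⟩ := h2 z hz
    rcases o with _ | x
    · exact Or.inl ((hS.wave j).supX z ho)
    · obtain ⟨h3, h4⟩ := hg2 x z ho
      exact Or.inr ⟨x.1, x.2, h3, h4⟩

end Pool.Agent.H70A
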