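import Pool.Agent.Lib.H70A.B3
import Pool.Agent.Lib.H70A.M5

/-!
# H70A chunk B5: the realised matching `Mh`

PROOF. `union_isM` for the family: `f₁ z = wn.F z` for `z ∈ Sl \ Vt`, `z` otherwise (`Sl \ Vt` is closed under
`wn.F` since `Vt` is and `wn.F` preserves the slab; for `z ∈ Sl \ Vt` with `wn.F z ≠ z`: `G.Adj z (wn.F z)`);
`f₂ z = (w j).F z` if `z ∈ (w j).X \ (w i).X` is in no `Dm x`, `z` otherwise (closed: `(w j).F` preserves
`(w i).X \ U j`, because it equals `(w i).F` there (`F_eq`), hence preserves `(w j).X \ (w i).X`; if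
`(w j).F z ∈ Dm x` for such `z`, then, with `m = de x` and `y = (w j).F z ∉ U j`, so `y ∉ U m` (`dm_F`),
`F_m y = (w j).F y = z ∈ Dm x`: contradiction);
`g_x` (`x ∈ Vt`): `g_x z = Nw (de x) z` for `z ∈ Dm x \ (w i).X` (`dm_closed`, `nw_X`), `z` otherwise.
The supports are disjoint or the maps agree: `Dm x ∩ U j = {x, wn.F x} ⊆ Vt`; `dm_disj`; `(w j).X` is
disjoint from `U j ⊇ Sl`.
`m2`: if `g_x z = z`, then all other maps fix `z` too. The last two statements: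
* `mh_Rm`: `z ∈ Rm`: `m4`: `z ∈ Sl` no; `z ∈ Dm x`, `z ∉ (w i).X`: then `z ∈ U i ∪ S ⊆ U j`, so `z ∈ {x, wn.F x} ⊆ Sl`, no;
  `z ∈ (w j).X \ (w i).X`: `z ∈ U i ∪ S ⊆ U j`, no.
* `mh_cov_slab`: `z ∈ Sl`: if `z ∉ Vt` by `m1`; if `z ∈ Vt`: both are covered (`m2` for `x = z`, `dm_self`;
  `z ∈ cov (Nw (de z))`).
-/

namespace Pool.Agent.H70A

open Cardinal Order

universe u

variable {ι : Type u} [LinearOrder ι] [WellFoundedLT ι] [SuccOrder ι] [NoMaxOrder ι] {V : Type u}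
  {G : SimpleGraph V} {O : Set V} {U : ι → Set V} {w : ι → Wv V} {i j : ι} {S : Set V}
  {wn : Wv V} {h : V} {de : V → ι} {Nw : ι → V → V}

theorem exists_Mh (hB : BS G O U w i j S wn h) (hW : BW G U w i j wn de Nw) :
    ∃ Mh : V → V, MhP G U w i j S wn de Nw Mh := by
  classical
  have hS := hB.ns.sys
  have hwn := hB.wave
  have hdisj : ∀ z ∈ (w j).X, z ∉ U j := (hS.wave j).disjU
  have hSlU : ∀ z ∈ Sl U w i j S, z ∈ U j := fun z hz => hz.1
  have hVF : ∀ z ∈ Vt G wn, wn.F z ∈ Vt G wn := fun z hz => (vt_facts hB hz).2.2.1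
  have hDV : ∀ x ∈ Vt G wn, ∀ z ∈ Dm w de Nw x, z ∈ U j → z ∈ Vt G wn := by
    intro x hx z hz hzU
    rcases dm_Uj hB hW hx hz hzU with rfl | rfl
    · exact hx
    · exact hVF x hx
  let f1 : V → V := fun z => if z ∈ Sl U w i j S ∧ z ∉ Vt G wn then wn.F z else z
  let f2 : V → V := fun z => if z ∈ (w j).X ∧ z ∉ (w i).X ∧ ∀ x ∈ Vt G wn, z ∉ Dm w de Nw x then
    (w j).F z else z
  let g : Vt G wn → V → V := fun x z =>
    if z ∈ Dm w de Nw x.1 ∧ z ∉ (w i).X then Nw (de x.1) z else z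
  have hf1 : ∀ z, z ∈ Sl U w i j S → z ∉ Vt G wn → f1 z = wn.F z := fun z h1 h2 => if_pos ⟨h1, h2⟩
  have hf1' : ∀ z, f1 z ≠ z → z ∈ Sl U w i j S ∧ z ∉ Vt G wn := by
    intro z hz
    by_contra h
    exact hz (if_neg h)
  have hf2 : ∀ z, z ∈ (w j).X → z ∉ (w i).X → (∀ x ∈ Vt G wn, z ∉ Dm w de Nw x) →
      f2 z = (w j).F z := fun z h1 h2 h3 => if_pos ⟨h1, h2, h3⟩
  have hf2' : ∀ z, f2 z ≠ z → z ∈ (w j).X ∧ z ∉ (w i).X ∧ ∀ x ∈ Vt G wn, z ∉ Dm w de Nw x := by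
    intro z hz
    by_contra h
    exact hz (if_neg h)
  have hg : ∀ (x : Vt G wn) z, z ∈ Dm w de Nw x.1 → z ∉ (w i).X → g x z = Nw (de x.1) z :=
    fun x z h1 h2 => if_pos ⟨h1, h2⟩
  have hg' : ∀ (x : Vt G wn) z, g x z ≠ z → z ∈ Dm w de Nw x.1 ∧ z ∉ (w i).X := by
    intro x z hz
    by_contra h
    exact hz (if_neg h)
  have hM1 : IsM G f1 := by
    have hcl : ∀ z, z ∈ Sl U w i j S → z ∉ Vt G wn →
        wn.F z ∈ Sl U w i j S ∧ wn.F z ∉ Vt G wn := by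
      intro z h1 h2
      refine ⟨?_, fun h3 => h2 ?_⟩
      · by_cases h : wn.F z = z
        · rw [h]; exact h1
        · exact not_not.1 (hwn.disjU _ (hwn.map_X (hwn.supX z h)))
      · have := hVF _ h3
        rwa [hwn.isM.inv] at this
    refine ⟨fun z => ?_, fun z hz => ?_⟩
    · by_cases hz : z ∈ Sl U w i j S ∧ z ∉ Vt G wn
      · obtain ⟨h1, h2⟩ := hcl z hz.1 hz.2
        rw [hf1 z hz.1 hz.2, hf1 _ h1 h2, hwn.isM.inv]
      · have h1 : f1 z = z := if_neg hz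
        rw [h1, h1]
    · obtain ⟨h1, h2⟩ := hf1' z hz
      rw [hf1 z h1 h2] at hz ⊢
      by_contra h
      exact h2 ⟨hz, h⟩
  have hM2 : IsM G f2 := by
    have hM := (hS.wave j).isM
    have hcl : ∀ z, z ∈ (w j).X → z ∉ (w i).X → (∀ x ∈ Vt G wn, z ∉ Dm w de Nw x) →
        (w j).F z ∈ (w j).X ∧ (w j).F z ∉ (w i).X ∧
          ∀ x ∈ Vt G wn, (w j).F z ∉ Dm w de Nw x := by
      intro z h1 h2 h3
      have h4 := (hS.wave j).map_X h1
      refine ⟨h4, fun h5 => h2 ?_, fun x hx h5 => h3 x hx ?_⟩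
      · have h6 := F_eq hS hB.hij.le h5 (hdisj _ h4)
        rw [hM.inv] at h6
        rw [h6]
        exact (hS.wave i).map_X h5
      · have h6 := (dm_F hB hW hx h5 (hdisj _ h4)).1
        have h7 := F_eq hS (hW.dge x hx) h4 h6
        rw [hM.inv] at h7
        have h8 := (dm_closed hB hW hx h5).1
        rwa [h7] at h8
    refine ⟨fun z => ?_, fun z hz => ?_⟩
    · by_cases hz : z ∈ (w j).X ∧ z ∉ (w i).X ∧ ∀ x ∈ Vt G wn, z ∉ Dm w de Nw x
      · obtain ⟨h1, h2, h3⟩ := hcl z hz.1 hz.2.1 hz.2.2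
        rw [hf2 z hz.1 hz.2.1 hz.2.2, hf2 _ h1 h2 h3, hM.inv]
      · have h1 : f2 z = z := if_neg hz
        rw [h1, h1]
    · obtain ⟨h1, h2, h3⟩ := hf2' z hz
      rw [hf2 z h1 h2 h3] at hz ⊢
      exact hM.adj z hz
  have hMg : ∀ x, IsM G (g x) := by
    intro x
    have hM := (hW.wit x.1 x.2).1
    refine ⟨fun z => ?_, fun z hz => ?_⟩
    · by_cases hz : z ∈ Dm w de Nw x.1 ∧ z ∉ (w i).X
      · rw [hg x z hz.1 hz.2, hg x _ (dm_closed hB hW x.2 hz.1).2 (nw_X hB hW x.2 hz.2), hM.inv]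
      · have h1 : g x z = z := if_neg hz
        rw [h1, h1]
    · obtain ⟨h1, h2⟩ := hg' x z hz
      rw [hg x z h1 h2] at hz ⊢
      exact hM.adj z hz
  have c12 : ∀ z, f1 z ≠ z → f2 z ≠ z → False := fun z h1 h2 =>
    hdisj z (hf2' z h2).1 (hSlU z (hf1' z h1).1)
  have c1g : ∀ x z, f1 z ≠ z → z ∈ Dm w de Nw x → x ∈ Vt G wn → False := by
    intro x z h1 h2 hx
    obtain ⟨h3, h4⟩ := hf1' z h1
    exact h4 (hDV x hx z h2 (hSlU z h3))
  have c2g : ∀ x z, f2 z ≠ z → z ∈ Dm w de Nw x → x ∈ Vt G wn → False := fun x z h1 h2 hx =>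
    (hf2' z h1).2.2 x hx h2
  let f : Bool ⊕ Vt G wn → V → V := fun o => Sum.elim (fun b => bif b then f1 else f2) g o
  obtain ⟨Mh, hM, h1, h2⟩ := union_isM (G := G) f (by
    rintro ((_ | _) | x)
    · exact hM2
    · exact hM1
    · exact hMg x) (by
    rintro ((_ | _) | x) ((_ | _) | y) z hz hz'
    · rfl
    · exact (c12 z hz' hz).elim
    · exact (c2g y.1 z hz (hg' y z hz').1 y.2).elim
    · exact (c12 z hz hz').elim
    · rfl
    · exact (c1g y.1 z hz (hg' y z hz').1 y.2).elim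
    · exact (c2g x.1 z hz' (hg' x z hz).1 x.2).elim
    · exact (c1g x.1 z hz' (hg' x z hz).1 x.2).elim
    · obtain ⟨h1, h2⟩ := hg' x z hz
      obtain ⟨h3, h4⟩ := hg' y z hz'
      change g x z = g y z
      rw [hg x z h1 h2, hg y z h3 h4, dm_disj hB hW x.2 y.2 h1 h3])
  have h1' : ∀ o z, f o z ≠ z → Mh z = f o z := h1
  have h2' : ∀ z, (∀ o, f o z = z) → Mh z = z := by
    intro z hz
    by_contra h
    obtain ⟨o, ho, -⟩ := h2 z h
    exact ho (hz o)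
  refine ⟨Mh, hM, ?_, ?_, ?_, ?_⟩
  · intro z hz hzV
    rw [← hf1 z hz hzV]
    by_cases h : f1 z = z
    · rw [h]
      refine h2' z ?_
      rintro ((_ | _) | x)
      · by_contra h3
        exact hdisj z (hf2' z h3).1 (hSlU z hz)
      · exact h
      · by_contra h3
        exact hzV (hDV x.1 x.2 z (hg' x z h3).1 (hSlU z hz))
    · exact h1' (Sum.inl true) z h
  · intro x hx z hz hzX
    rw [← hg ⟨x, hx⟩ z hz hzX]
    by_cases h : g ⟨x, hx⟩ z = z
    · rw [h]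
      refine h2' z ?_
      rintro ((_ | _) | y)
      · by_contra h3
        exact c2g x z h3 hz hx
      · by_contra h3
        exact c1g x z h3 hz hx
      · by_contra h3
        obtain ⟨h4, h5⟩ := hg' y z h3
        apply h3
        change g y z = z
        rw [hg y z h4 h5, dm_disj hB hW y.2 hx h4 hz, ← hg ⟨x, hx⟩ z hz hzX]
        exact h
    · exact h1' (Sum.inr ⟨x, hx⟩) z h
  · intro z hz hzX hzD
    have h3 : f2 z = (w j).F z := hf2 z hz hzX hzD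
    rw [← h3]
    refine h1' (Sum.inl false) z ?_
    change f2 z ≠ z
    rw [h3]
    exact hB.ns.hf j z hz
  · intro z hz
    obtain ⟨o, ho, -⟩ := h2 z hz
    rcases o with ((_ | _) | x)
    · obtain ⟨h3, h4, -⟩ := hf2' z ho
      exact Or.inr (Or.inr ⟨h3, h4⟩)
    · exact Or.inl (hf1' z ho).1
    · obtain ⟨h3, h4⟩ := hg' x z ho
      exact Or.inr (Or.inl ⟨x.1, x.2, h3, h4⟩)

theorem mh_Rm (hB : BS G O U w i j S wn h) (hW : BW G U w i j wn de Nw) {Mh : V → V}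
    (hM : MhP G U w i j S wn de Nw Mh) {z : V} (hz : z ∈ Rm U w i S) : Mh z = z := by
  have hS := hB.ns.sys
  by_contra hne
  have hUj : z ∉ (w i).X → z ∈ U j := by
    intro h
    rcases hz with (h1 | h1) | h1
    · exact hS.chn.mono i j hB.hij.le h1
    · exact absurd h1 h
    · exact hB.S1 h1
  rcases hM.m4 z hne with h1 | ⟨x, hx, h1, h2⟩ | ⟨h1, h2⟩
  · exact h1.2 hz
  · have h3 := hUj h2
    obtain ⟨hs, hs', -⟩ := vt_facts hB hx
    rcases dm_Uj hB hW hx h1 h3 with h4 | h4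
    · rw [h4] at hz
      exact hs.2 hz
    · rw [h4] at hz
      exact hs'.2 hz
  · exact (hS.wave j).disjU z h1 (hUj h2)

theorem mh_cov_slab (hB : BS G O U w i j S wn h) (hW : BW G U w i j wn de Nw) {Mh : V → V}
    (hM : MhP G U w i j S wn de Nw Mh) {z : V} (hz : z ∈ Sl U w i j S) :
    Mh z = z ↔ wn.F z = z := by
  by_cases hV : z ∈ Vt G wn
  · have hX : z ∉ (w i).X := fun h => hz.2 (Or.inl (Or.inr h))
    have h1 := hM.m2 z hV z (dm_self hB hW hV) hX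
    have h2 : Nw (de z) z ≠ z := ((hW.wit z hV).2.2 z).2 (Or.inr (Or.inl rfl))
    rw [h1]
    exact ⟨fun h => absurd h h2, fun h => absurd h hV.1⟩
  · rw [hM.m1 z hz hV]

end Pool.Agent.H70A
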