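import Pool.Agent.Lib.H70A.H7

/-!
# H70A chunk H8: the Hungarian lemma

PROOF. `D = DD G M v`, `A = AA G U M v`, `w = ⟨A, {k | ∃ t ∈ D, k = Bd G M v t}, ∅, F⟩` with
`F x = M x` for `x ∈ A ∪ D` and `F x = x` otherwise. `A ∪ D` is closed under `M`: `AA_map`; for
`x ∈ D`: `M x = x`, or `M x ∈ D`, or (`DD_miss`) `M x ∈ A`. So `F` is a matching (e.g.
`F = ins (A ∪ D) M`). `w.D = D`, `w.X = A ∪ D`.
`disjU`: `DD_notU`, definition of `AA`. `KA`: `A` is disjoint from `D`. `KK`: `bd_eq`. `Kadj`: `x ∈ k`,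
`G.Adj x y`, `y ∉ U`: `y ∈ D` gives `y ∈ k` (`bd_adj`), `y ∉ D` gives `y ∈ A`. `Am`: `AA_map`. `KO`:
`DD_notO`. `root`: `body_root`: for `x ∈ k`, `x ≠ r`: `x ∈ cov (ins D M)`, so `M x ∈ D`, `M x ≠ x`, in `k`
by `bd_adj`. For `r`: `DD_miss`: `r = v` (`F v = v`) or `M r ∈ A`. `crit`: `body_crit` (`F = M` on `k`).
Last statements: `v ∈ D`; for `x ∈ X`, `x ≠ v`: `x ∈ A`: `AA_cov`; `x ∈ D`: by definition
`x ∈ cov M ∨ x = v`.
-/

namespace Pool.Agent.H70A

universe u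

variable {V : Type u}

theorem h8_closed {G : SimpleGraph V} {O U : Set V} {M : V → V} {v : V} (h : HS G O U M v) {x : V}
    (hx : x ∈ AA G U M v ∪ DD G M v) : M x ∈ AA G U M v ∪ DD G M v := by
  rcases hx with hx | hx
  · exact Or.inr (AA_map h hx)
  · by_cases hc : x ∈ cov (ins (DD G M v) M)
    · exact Or.inr (mem_cov_ins.1 hc).2.1
    · rcases DD_miss h hx hc with rfl | ⟨_, h2⟩
      · rw [notMem_cov.1 h.hv]
        exact Or.inr hx
      · exact Or.inl h2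

/-- Hungarian lemma. If the vertex `v` cannot be covered by a finite modification of `M`, using one more
vertex or exposing an optional one, then there is a wave on which `M` is perfect except at `v`. -/
theorem hungarian {G : SimpleGraph V} {O U : Set V} {M : V → V} {v : V} (h : HS G O U M v) :
    ∃ w : Wv V, IsWave G O U w ∧ w.Q = ∅ ∧ (∀ x ∈ w.X, w.F x = M x) ∧ v ∈ w.D ∧
      ∀ x ∈ w.X, x ≠ v → x ∈ cov M := by
  have hF : ∀ x ∈ AA G U M v ∪ DD G M v, ins (AA G U M v ∪ DD G M v) M x = M x := fun x hx =>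
    ins_apply hx (h8_closed h hx)
  have hFA : ∀ x ∈ AA G U M v, ins (AA G U M v ∪ DD G M v) M x = M x := fun x hx =>
    hF x (Or.inl hx)
  have hFD : ∀ x ∈ DD G M v, ins (AA G U M v ∪ DD G M v) M x = M x := fun x hx =>
    hF x (Or.inr hx)
  obtain ⟨w, hw⟩ : ∃ w : Wv V, w = ⟨AA G U M v, {k | ∃ t ∈ DD G M v, k = Bd G M v t}, ∅,
    ins (AA G U M v ∪ DD G M v) M⟩ := ⟨_, rfl⟩
  have hwA : w.A = AA G U M v := by rw [hw]
  have hwQ : w.Q = ∅ := by rw [hw]
  have hwF : w.F = ins (AA G U M v ∪ DD G M v) M := by rw [hw]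
  have hwK : ∀ k, k ∈ w.K ↔ ∃ t ∈ DD G M v, k = Bd G M v t := by
    intro k
    rw [hw]
    rfl
  have hwD : ∀ x, x ∈ w.D ↔ x ∈ DD G M v := by
    intro x
    rw [Wv.mem_D]
    constructor
    · rintro ⟨k, hk, hx⟩
      obtain ⟨t, ht, rfl⟩ := (hwK k).1 hk
      exact bd_subset ht hx
    · intro hx
      exact ⟨_, (hwK _).2 ⟨x, hx, rfl⟩, bd_self x⟩
  have hwX : ∀ x, x ∈ w.X ↔ x ∈ AA G U M v ∪ DD G M v := by
    intro x
    rw [Wv.mem_X, hwD, hwA, hwQ]
    simp
  refine ⟨w, ?_, hwQ, ?_, (hwD v).2 (v_mem h), ?_⟩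
  · refine ⟨?_, ?_, ?_, ?_, ?_, ?_, ?_, ?_, ?_, ?_, ?_, ?_, ?_, ?_⟩
    · rw [hwF]
      exact ins_isM h.hM _
    · intro x hx
      rw [hwF] at hx
      exact (hwX x).2 (mem_cov_ins.1 hx).1
    · intro x hx
      rcases (hwX x).1 hx with h1 | h1
      · exact h1.1
      · exact DD_notU h h1
    · intro x _ hx
      rw [hwQ] at hx
      exact hx
    · intro k hk x hx hxA
      obtain ⟨t, ht, rfl⟩ := (hwK k).1 hk
      rw [hwA] at hxA
      exact hxA.2.1 (bd_subset ht hx)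
    · intro k _ x _ hx
      rw [hwQ] at hx
      exact hx
    · intro k hk k' hk' x hx hx'
      obtain ⟨t, ht, rfl⟩ := (hwK k).1 hk
      obtain ⟨t', ht', rfl⟩ := (hwK k').1 hk'
      rw [← bd_eq ht hx, bd_eq ht' hx']
    · intro k hk x hx y hxy
      obtain ⟨t, ht, rfl⟩ := (hwK k).1 hk
      by_cases hy : y ∈ DD G M v
      · exact Or.inl (bd_adj hx hy hxy)
      · by_cases hyU : y ∈ U
        · exact Or.inr (Or.inr hyU)
        · right
          left
          rw [hwA]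
          exact ⟨hyU, hy, x, bd_subset ht hx, hxy⟩
    · intro x hx
      rw [hwQ] at hx
      exact absurd hx (Set.notMem_empty x)
    · intro x hx
      rw [hwQ] at hx
      exact absurd hx (Set.notMem_empty x)
    · intro a ha
      rw [hwA] at ha
      rw [hwF, hFA a ha, hwD]
      exact AA_map h ha
    · intro k hk x hx
      obtain ⟨t, ht, rfl⟩ := (hwK k).1 hk
      exact DD_notO h (bd_subset ht hx)
    · intro k hk
      obtain ⟨t, ht, rfl⟩ := (hwK k).1 hk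
      obtain ⟨r, hr, hrc, hr'⟩ := body_root h ht
      refine ⟨r, hr, ?_, ?_⟩
      · intro x hx hne
        have hxc := mem_cov_ins.1 (hr' x hx hne)
        rw [hwF, hFD x hxc.1]
        exact ⟨bd_adj hx hxc.2.1 (h.hM.adj x hxc.2.2), hxc.2.2⟩
      · rw [hwF, hFD r (bd_subset ht hr), hwA]
        rcases DD_miss h (bd_subset ht hr) hrc with rfl | ⟨_, h2⟩
        · exact Or.inr (notMem_cov.1 h.hv)
        · exact Or.inl h2
    · intro k hk x hx
      obtain ⟨t, ht, rfl⟩ := (hwK k).1 hk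
      obtain ⟨N, h1, h2, h3, h4, h5⟩ := body_crit h ht hx
      refine ⟨N, h1, h2, h3, h4, h5.subset ?_⟩
      rintro y ⟨hy, hne⟩
      refine ⟨hy, ?_⟩
      rwa [hwF, hFD y (bd_subset ht hy)] at hne
  · intro x hx
    rw [hwF]
    exact hF x ((hwX x).1 hx)
  · intro x hx hne
    rcases (hwX x).1 hx with h1 | h1
    · exact AA_cov h h1
    · exact h1.1.resolve_right hne

end Pool.Agent.H70A
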