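import Pool.Agent.Lib.H70A.W9

/-!
# H70A chunk W10: deleting one vertex from a solid graph

PROOF. Let `w` be a wave of `(G, O, insert v U)` and suppose `x ∈ w.X`, `w.F x = x`; then `x ∈ w.D`
(`A`, `Q` are matched), `x =: h`. Let `R = {k | Reach G w h k}`, `RD`, `RA` as defined. Facts: `RD ⊆ w.D`;
a neighbour of `y ∈ k`, `k ∈ R`, is in `k`, in `RA` or in `insert v U`; for `a ∈ RA`: `w.F a` lies in a body
of `R` (`Reach.step`), so `w.F a ∈ RD`; the root of `k ∈ R` is matched to an element of `RA` or is a hole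
(if `w.F r = a ∈ A`, then `a` is adjacent to `r ∈ RD`).
* If no `y ∈ RD` is adjacent to `v`: `⟨RA, R, ∅, F₁⟩` with `F₁ = w.F` on `RA ∪ RD`, identity elsewhere
  (`ins (RA ∪ RD) w.F`; `RA ∪ RD` is closed under `w.F`), is a wave of `(G, O, U)`; its `X` contains `h`:
  contradiction to `Solid`.
* If `y ∈ RD`, `G.Adj y v`: let `F'` be a shift to `y` (`shift_exists`), `F' y = y`. Then
  `⟨insert v RA, R, ∅, F₂⟩`, `F₂ = ad (ins (RA ∪ RD) F') v y`, is a wave of `(G, O, U)`:
  `v ∉ w.X` (`disjU`), `F' v = v`. `RA ∪ RD` is closed under `F'`: outside `df w.F F'` it equals `w.F`;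
  use the wave `⟨w.A, w.K, w.Q, F'⟩`: for `x ∈ k`, `k ∈ R`: `F' x ∈ k`, or `F' x = x`, or `F' x ∈ w.A` adjacent
  to `x`, so in `RA`; for `a ∈ RA`: if `F' a = w.F a` it is in `RD`, otherwise `a ∈ df w.F F'` and
  `F' a ∈ df w.F F' ⊆ RD ∪ RA`, `F' a ∈ w.D`. So each `a ∈ RA` is matched by `F'` into `RD`, and `v` is
  matched to `y`. Roots: for `k ∌ y` as in the wave with `F'`; for `k ∋ y`: `y`, `F₂ y = v`. `crit` from the
  wave with `F'`. Contradiction to `Solid` (`v` is in its `X`).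
-/

namespace Pool.Agent.H70A

universe u

variable {V : Type u} {G : SimpleGraph V} {O U : Set V}

theorem w10_K {w : Wv V} {h : V} {k : Set V} (hk : Reach G w h k) : k ∈ w.K := by
  cases hk with
  | base _ h1 _ => exact h1
  | step _ _ _ _ _ _ _ _ h1 _ => exact h1

theorem w10_RD {w : Wv V} {h : V} {x : V} (hx : x ∈ RD G w h) : x ∈ w.D := by
  obtain ⟨k, hk, hxk⟩ := hx
  exact ⟨k, w10_K hk, hxk⟩

theorem w10_A {U' : Set V} {w : Wv V} (hw : IsWave G O U' w) {h a : V} (ha : a ∈ RA G w h) :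
    w.F a ∈ RD G w h := by
  obtain ⟨haA, x, ⟨k, hk, hxk⟩, hxa⟩ := ha
  obtain ⟨k', hk', h1⟩ := hw.Am a haA
  exact ⟨k', Reach.step k x a k' hk hxk haA hxa hk' h1, h1⟩

theorem w10_adj {U' : Set V} {w : Wv V} (hw : IsWave G O U' w) {h : V} {k : Set V}
    (hk : Reach G w h k) {y z : V} (hy : y ∈ k) (hyz : G.Adj y z) :
    z ∈ k ∨ z ∈ RA G w h ∨ z ∈ U' := by
  rcases hw.Kadj k (w10_K hk) y hy z hyz with h1 | h1 | h1
  · exact Or.inl h1
  · exact Or.inr (Or.inl ⟨h1, y, ⟨k, hk, hy⟩, hyz⟩)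
  · exact Or.inr (Or.inr h1)

/-- The values of the restricted matching on reachable bodies. -/
theorem w10_ins {U' : Set V} {w : Wv V} {h : V} {F' : V → V}
    (hw' : IsWave G O U' ⟨w.A, w.K, w.Q, F'⟩) {k : Set V} (hk : Reach G w h k) {x : V}
    (hx : x ∈ k) : ins (RA G w h ∪ RD G w h) F' x = F' x ∧ (F' x ∈ w.A → F' x ∈ RA G w h) := by
  by_cases h0 : F' x = x
  · refine ⟨?_, fun h1 => ?_⟩
    · rw [h0]
      by_cases h1 : x ∈ (RA G w h ∪ RD G w h) ∧ F' x ∈ (RA G w h ∪ RD G w h)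
      · rw [ins_apply h1.1 h1.2, h0]
      · exact ins_of_notMem h1
    · rw [h0] at h1
      have hkK : k ∈ w.K := w10_K hk
      exact absurd h1 (hw'.KA k hkK x hx)
  · have h1 : G.Adj x (F' x) := hw'.isM.adj x h0
    have hRD : x ∈ RD G w h := ⟨k, hk, hx⟩
    have h2 : F' x ∈ k ∨ F' x ∈ RA G w h := by
      have hkK : k ∈ w.K := w10_K hk
      rcases hw'.Kadj k hkK x hx _ h1 with h2 | h2 | h2
      · exact Or.inl h2
      · exact Or.inr ⟨h2, x, hRD, h1⟩
      · exfalso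
        have h3 : F' (F' x) = F' x := hw'.fix_U h2
        have h4 : F' (F' x) = x := hw'.isM.inv x
        rw [h4] at h3
        exact h0 h3.symm
    refine ⟨ins_apply (Or.inr hRD) ?_, fun h3 => ⟨h3, x, hRD, h1⟩⟩
    rcases h2 with h2 | h2
    · exact Or.inr ⟨k, hk, h2⟩
    · exact Or.inl h2

theorem w10_cov {w : Wv V} {h : V} {F' : V → V} {x : V}
    (hx : ins (RA G w h ∪ RD G w h) F' x ≠ x) : x ∈ RA G w h ∪ RD G w h := by
  by_contra hc
  exact hx (ins_of_notMem fun h1 => hc h1.1)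

theorem w10_notU {U' : Set V} {w : Wv V} (hw : IsWave G O U' w) {h : V} {x : V}
    (hx : x ∈ RA G w h ∪ RD G w h) : x ∉ U' := by
  rcases hx with hx | hx
  · exact hw.disjU x (Wv.mem_X.2 (Or.inl hx.1))
  · exact hw.disjU x (Wv.mem_X.2 (Or.inr (Or.inr (w10_RD hx))))

theorem sub_wave {U' : Set V} {w : Wv V} (hw : IsWave G O U' w) (hUU : U ⊆ U') {h : V}
    (hn : ∀ y ∈ RD G w h, ∀ z, G.Adj y z → z ∈ U' → z ∈ U) :
    IsWave G O U ⟨RA G w h, {k | Reach G w h k}, ∅, ins (RA G w h ∪ RD G w h) w.F⟩ := by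
  have hXsub : ∀ x, x ∈ (⟨RA G w h, {k | Reach G w h k}, ∅,
      ins (RA G w h ∪ RD G w h) w.F⟩ : Wv V).X ↔ x ∈ RA G w h ∪ RD G w h := by
    intro x
    rw [Wv.mem_X]
    constructor
    · rintro (h1 | h1 | ⟨k, h1, h2⟩)
      · exact Or.inl h1
      · exact absurd h1 (Set.notMem_empty x)
      · exact Or.inr ⟨k, h1, h2⟩
    · rintro (h1 | ⟨k, h1, h2⟩)
      · exact Or.inl h1
      · exact Or.inr (Or.inr ⟨k, h1, h2⟩)
  refine ⟨ins_isM hw.isM _, ?_, ?_, ?_, ?_, ?_, ?_, ?_, ?_, ?_, ?_, ?_, ?_, ?_⟩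
  · intro x hx
    exact (hXsub x).2 (w10_cov hx)
  · intro x hx hU
    exact w10_notU hw ((hXsub x).1 hx) (hUU hU)
  · intro x _ h1
    exact absurd h1 (Set.notMem_empty x)
  · intro k hk x hx h1
    exact hw.KA k (w10_K hk) x hx h1.1
  · intro k hk x hx h1
    exact absurd h1 (Set.notMem_empty x)
  · intro k hk k' hk' x hx hx'
    exact hw.KK k (w10_K hk) k' (w10_K hk') x hx hx'
  · intro k hk x hx y hxy
    rcases w10_adj hw hk hx hxy with h1 | h1 | h1
    · exact Or.inl h1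
    · exact Or.inr (Or.inl h1)
    · exact Or.inr (Or.inr (hn x ⟨k, hk, hx⟩ y hxy h1))
  · intro x hx
    exact absurd hx (Set.notMem_empty x)
  · intro x hx
    exact absurd hx (Set.notMem_empty x)
  · intro a ha
    have h1 := w10_A hw ha
    show ins (RA G w h ∪ RD G w h) w.F a ∈ _
    rw [ins_apply (S := RA G w h ∪ RD G w h) (Or.inl ha) (Or.inr h1)]
    exact h1
  · intro k hk x hx
    exact hw.KO k (w10_K hk) x hx
  · intro k hk
    obtain ⟨r, hr, h1, h2⟩ := hw.root k (w10_K hk)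
    refine ⟨r, hr, fun x hx hne => ?_, ?_⟩
    · show ins (RA G w h ∪ RD G w h) w.F x ∈ k ∧ ins (RA G w h ∪ RD G w h) w.F x ≠ x
      rw [(w10_ins (F' := w.F) hw hk hx).1]
      exact h1 x hx hne
    · show ins (RA G w h ∪ RD G w h) w.F r ∈ RA G w h ∨ ins (RA G w h ∪ RD G w h) w.F r = r
      have h3 := w10_ins (F' := w.F) hw hk hr
      rw [h3.1]
      rcases h2 with h2 | h2
      · exact Or.inl (h3.2 h2)
      · exact Or.inr h2
  · intro k hk x hx
    obtain ⟨N, h1, h2, h3, h4, h5⟩ := hw.crit k (w10_K hk) x hx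
    refine ⟨N, h1, h2, h3, h4, h5.subset ?_⟩
    rintro y ⟨hy, hne⟩
    refine ⟨hy, ?_⟩
    rw [← (w10_ins (F' := w.F) hw hk hy).1]
    exact hne

theorem sub_wave_add {v : V} (hv : v ∉ U) {w : Wv V} (hw : IsWave G O (insert v U) w) {h y : V}
    (hF : w.F h = h) (hy : y ∈ RD G w h) (hyv : G.Adj y v) {F' : V → V}
    (hs : Shift G O (insert v U) w h y F') :
    IsWave G O U ⟨insert v (RA G w h), {k | Reach G w h k}, ∅,
      ad (ins (RA G w h ∪ RD G w h) F') v y⟩ := by
  have hw' := hs.wave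
  have hFy : F' y = y := by
    by_contra hc
    exact (((hs.cov y).1 hc).2 rfl)
  have hvN : v ∉ RA G w h ∪ RD G w h := fun h1 => w10_notU hw h1 (Set.mem_insert v U)
  have hins : ∀ x, x ∉ RA G w h ∪ RD G w h → ins (RA G w h ∪ RD G w h) F' x = x :=
    fun x hx => ins_of_notMem fun h1 => hx h1.1
  have hvy : v ≠ y := hyv.symm.ne
  have hkv : ∀ k, Reach G w h k → ∀ x ∈ k, x ≠ v := by
    rintro k hk x hx rfl
    exact hvN (Or.inr ⟨k, hk, hx⟩)
  have hA : ∀ a ∈ RA G w h, F' a ∈ RD G w h := by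
    intro a ha
    by_cases h1 : w.F a = F' a
    · rw [← h1]
      exact w10_A hw ha
    · have h2 : F' a ∈ df w.F F' := hw.isM.df_right hw'.isM h1
      rcases hs.loc h2 with h3 | h3
      · exact h3
      · exfalso
        obtain ⟨k, hk, h4⟩ := hw'.Am a ha.1
        exact hw'.KA k hk _ h4 h3.1
  have hXsub : ∀ x, x ∈ (⟨insert v (RA G w h), {k | Reach G w h k}, ∅,
      ad (ins (RA G w h ∪ RD G w h) F') v y⟩ : Wv V).X ↔ x = v ∨ x ∈ RA G w h ∪ RD G w h := by
    intro x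
    rw [Wv.mem_X]
    constructor
    · rintro (h1 | h1 | ⟨k, h1, h2⟩)
      · rcases h1 with h1 | h1
        · exact Or.inl h1
        · exact Or.inr (Or.inl h1)
      · exact absurd h1 (Set.notMem_empty x)
      · exact Or.inr (Or.inr ⟨k, h1, h2⟩)
    · rintro (h1 | h1 | ⟨k, h1, h2⟩)
      · exact Or.inl (Or.inl h1)
      · exact Or.inl (Or.inr h1)
      · exact Or.inr (Or.inr ⟨k, h1, h2⟩)
  -- values of the new matching on bodies
  have hval : ∀ k, Reach G w h k → ∀ x ∈ k, x ≠ y →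
      ad (ins (RA G w h ∪ RD G w h) F') v y x = F' x := by
    intro k hk x hx hne
    rw [ad_apply (hkv k hk x hx) hne, (w10_ins hw' hk hx).1]
  have hvalA : ∀ a ∈ RA G w h, ad (ins (RA G w h ∪ RD G w h) F') v y a = F' a := by
    intro a ha
    have h1 : a ≠ v := by
      rintro rfl
      exact hvN (Or.inl ha)
    have h2 : a ≠ y := by
      rintro rfl
      obtain ⟨k, hk, hyk⟩ := hy
      exact hw.KA k (w10_K hk) _ hyk ha.1
    rw [ad_apply h1 h2, ins_apply (S := RA G w h ∪ RD G w h) (Or.inl ha) (Or.inr (hA a ha))]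
  refine ⟨ad_isM (ins_isM hw'.isM _) hyv.symm ?_ ?_, ?_, ?_, ?_, ?_, ?_, ?_, ?_, ?_, ?_, ?_, ?_, ?_, ?_⟩
  · rw [notMem_cov]
    exact hins v hvN
  · rw [mem_cov_ins]
    rintro ⟨_, _, h1⟩
    exact h1 hFy
  · intro x hx
    rw [hXsub]
    by_cases h1 : x = v
    · exact Or.inl h1
    · by_cases h2 : x = y
      · rw [h2]
        exact Or.inr (Or.inr hy)
      · refine Or.inr (w10_cov (F' := F') ?_)
        intro h3
        apply hx
        show ad (ins (RA G w h ∪ RD G w h) F') v y x = x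
        rw [ad_apply h1 h2]
        exact h3
  · intro x hx hU
    rcases (hXsub x).1 hx with h1 | h1
    · rw [h1] at hU
      exact hv hU
    · exact w10_notU hw h1 (Set.mem_insert_of_mem v hU)
  · intro x _ h1
    exact absurd h1 (Set.notMem_empty x)
  · intro k hk x hx h1
    rcases h1 with h1 | h1
    · exact hkv k hk x hx h1
    · exact hw.KA k (w10_K hk) x hx h1.1
  · intro k hk x hx h1
    exact absurd h1 (Set.notMem_empty x)
  · intro k hk k' hk' x hx hx'
    exact hw.KK k (w10_K hk) k' (w10_K hk') x hx hx'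
  · intro k hk x hx z hxz
    rcases w10_adj hw hk hx hxz with h1 | h1 | h1
    · exact Or.inl h1
    · exact Or.inr (Or.inl (Or.inr h1))
    · rcases h1 with h1 | h1
      · exact Or.inr (Or.inl (Or.inl h1))
      · exact Or.inr (Or.inr h1)
  · intro x hx
    exact absurd hx (Set.notMem_empty x)
  · intro x hx
    exact absurd hx (Set.notMem_empty x)
  · intro a ha
    show ad (ins (RA G w h ∪ RD G w h) F') v y a ∈ _
    rcases ha with ha | ha
    · rw [ha, ad_left]
      exact hy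
    · rw [hvalA a ha]
      exact hA a ha
  · intro k hk x hx
    exact hw.KO k (w10_K hk) x hx
  · intro k hk
    have hkK : k ∈ w.K := w10_K hk
    obtain ⟨r, hr, h1, h2⟩ := hw'.root k hkK
    refine ⟨r, hr, fun x hx hne => ?_, ?_⟩
    · have h3 := h1 x hx hne
      have h4 : x ≠ y := by
        rintro rfl
        exact h3.2 hFy
      show ad (ins (RA G w h ∪ RD G w h) F') v y x ∈ k ∧
        ad (ins (RA G w h ∪ RD G w h) F') v y x ≠ x
      rw [hval k hk x hx h4]
      exact h3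
    · show ad (ins (RA G w h ∪ RD G w h) F') v y r ∈ insert v (RA G w h) ∨
        ad (ins (RA G w h ∪ RD G w h) F') v y r = r
      by_cases h4 : r = y
      · rw [h4, ad_right hvy]
        exact Or.inl (Or.inl rfl)
      · rw [hval k hk r hr h4]
        rcases h2 with h2 | h2
        · exact Or.inl (Or.inr ((w10_ins hw' hk hr).2 h2))
        · exact Or.inr h2
  · intro k hk x hx
    have hkK : k ∈ w.K := w10_K hk
    obtain ⟨N, h1, h2, h3, h4, h5⟩ := hw'.crit k hkK x hx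
    refine ⟨N, h1, h2, h3, h4, (h5.union (Set.finite_singleton y)).subset ?_⟩
    rintro z ⟨hz, hne⟩
    by_cases h6 : z = y
    · exact Or.inr h6
    · refine Or.inl ⟨hz, fun h7 => hne ?_⟩
      show N z = ad (ins (RA G w h ∪ RD G w h) F') v y z
      rw [hval k hk z hz h6]
      exact h7

/-- Deleting a vertex from a solid graph gives a graph all of whose waves are hole-free. -/
theorem solid_del {v : V} (hs : Solid G O U) (hv : v ∉ U) {w : Wv V}
    (hw : IsWave G O (insert v U) w) : HF w := by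
  intro x hx hF
  have hxD : ∃ k ∈ w.K, x ∈ k := by
    rcases Wv.mem_X.1 hx with h1 | h1 | h1
    · obtain ⟨_, _, _, h2⟩ := hw.A_apply h1
      exact absurd hF h2
    · exact absurd hF (hw.Qm x h1).2
    · exact h1
  obtain ⟨k, hk, hxk⟩ := hxD
  have hR : Reach G w x k := Reach.base k hk hxk
  by_cases h1 : ∃ y ∈ RD G w x, G.Adj y v
  · obtain ⟨y, hy, hyv⟩ := h1
    obtain ⟨F', hF'⟩ := shift_exists hw hF hy
    have h2 := hs _ (sub_wave_add hv hw hF hy hyv hF')
    have h3 : v ∈ (⟨insert v (RA G w x), {k | Reach G w x k}, ∅,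
        ad (ins (RA G w x ∪ RD G w x) F') v y⟩ : Wv V).X :=
      Wv.mem_X.2 (Or.inl (Set.mem_insert v _))
    rw [h2] at h3
    exact h3
  · push Not at h1
    have h2 := hs _ (sub_wave hw (Set.subset_insert v U) (h := x) (by
      intro y hy z hyz hz
      rcases hz with hz | hz
      · rw [hz] at hyz
        exact absurd hyz (h1 y hy)
      · exact hz))
    have h3 : x ∈ (⟨RA G w x, {k | Reach G w x k}, ∅,
        ins (RA G w x ∪ RD G w x) w.F⟩ : Wv V).X :=
      Wv.mem_X.2 (Or.inr (Or.inr ⟨k, hR, hxk⟩))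
    rw [h2] at h3
    exact h3

end Pool.Agent.H70A
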