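import Pool.Agent.Lib.H70A.B4
import Pool.Agent.Lib.H70A.B5
import Pool.Agent.Lib.H70A.H8
import Pool.Agent.Lib.H70A.W10

/-!
# H70A chunk B6: the hole can be covered in the real graph

PROOFS.
* `mh_cov_out`: `z ∉ U j`, `z ∉ (w i).X`. If `z ∈ Dm x` for some `x ∈ Vt`: `Bh z = (w (de x)).F z ≠ z` (`eqD`,
  `dm_F`), and `z ∈ cov (w (de x)).F ⊆ cov (Nw (de x))`, so `Mh z ≠ z` (`m2`). Otherwise, if `z ∈ (w j).X`: both are
  `(w j).F z` (`m3`, `eqj`); if `z ∉ (w j).X`: both fix `z` (`m4`, `sup`; `z ∉ Sl`).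
* `mh_aug`. `h ∈ wn.D`: `h ∈ Sl` (`disjU`), `h ∉ OV` (`KO`), so `h ∉ O`; `Mh h = h` by `mh_cov_slab`. Suppose
  not `Aug G O (Rm ..) Mh h`. Then `HS G O Rm Mh h` (`mh_Rm`) and `hungarian` gives a wave `w₁` of
  `(G, O, Rm)` with `h ∈ w₁.D`, `w₁.F h = Mh h = h`. If `S = ∅`: `Rm = U i ∪ (w i).X`, `Sys.solid`: `w₁.X = ∅`,
  contradiction. If `S = {s}`: `Rm = insert s (U i ∪ (w i).X)`, `solid_del` gives `HF w₁`: contradiction.
-/

namespace Pool.Agent.H70A

open Cardinal Order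

universe u

variable {ι : Type u} [LinearOrder ι] [WellFoundedLT ι] [SuccOrder ι] [NoMaxOrder ι] {V : Type u}
  {G : SimpleGraph V} {O : Set V} {U : ι → Set V} {w : ι → Wv V} {i j : ι} {S : Set V}
  {wn : Wv V} {h : V} {de : V → ι} {Nw : ι → V → V}

theorem mh_cov_out (hB : BS G O U w i j S wn h) (hW : BW G U w i j wn de Nw) {Bh Mh : V → V}
    (hb : BhP G U w j wn de Nw Bh) (hM : MhP G U w i j S wn de Nw Mh) {z : V} (hz : z ∉ U j)
    (hz' : z ∉ (w i).X) : Mh z = z ↔ Bh z = z := by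
  by_cases hD : ∃ x ∈ Vt G wn, z ∈ Dm w de Nw x
  · obtain ⟨x, hx, hzD⟩ := hD
    have h1 := (dm_F hB hW hx hzD hz).2
    have h2 := hb.eqD x hx z hzD hz
    have h3 := hM.m2 x hx z hzD hz'
    have h4 : Nw (de x) z ≠ z := ((hW.wit x hx).2.2 z).2 (Or.inl h1)
    rw [h2, h3]
    exact ⟨fun h => absurd h h4, fun h => absurd h h1⟩
  · push Not at hD
    by_cases hX : z ∈ (w j).X
    · rw [hM.m3 z hX hz' hD, hb.eqj z hX]
    · have h1 : Mh z = z := by
        by_contra h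
        rcases hM.m4 z h with h2 | ⟨x, hx, h2, -⟩ | ⟨h2, -⟩
        · exact hz h2.1
        · exact hD x hx h2
        · exact hX h2
      have h3 : Bh z = z := by
        by_contra h
        rcases hb.sup z h with h2 | ⟨x, hx, h2, -⟩
        · exact hX h2
        · exact hD x hx h2
      rw [h1, h3]

theorem mh_aug (hB : BS G O U w i j S wn h) (hW : BW G U w i j wn de Nw) {Mh : V → V}
    (hM : MhP G U w i j S wn de Nw Mh) : Aug G O (Rm U w i S) Mh h := by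
  have hS := hB.ns.sys
  have hwn := hB.wave
  obtain ⟨k, hk, hhk⟩ := hB.hD
  have hhX : h ∈ wn.X := IsWave.body_subset_X hk hhk
  have hhS : h ∈ Sl U w i j S := not_not.1 (hwn.disjU _ hhX)
  have hhO : h ∉ O := fun h1 => hwn.KO k hk h hhk (Or.inl h1)
  have hMh : Mh h = h := (mh_cov_slab hB hW hM hhS).2 hB.hF
  by_contra hno
  have hHS : HS G O (Rm U w i S) Mh h :=
    { hM := hM.isM
      hU := fun x hx => notMem_cov.2 (mh_Rm hB hW hM hx)
      hvU := hhS.2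
      hvO := hhO
      hv := notMem_cov.2 hMh
      hno := hno }
  obtain ⟨w₁, hw₁, -, hF, hD, -⟩ := hungarian hHS
  have hX₁ : h ∈ w₁.X := IsWave.D_subset_X hD
  have hF₁ : w₁.F h = h := by rw [hF h hX₁, hMh]
  rcases hB.S3.eq_empty_or_singleton with h1 | ⟨s, h1⟩
  · have h2 : Rm U w i S = U i ∪ (w i).X := by rw [Rm, h1, Set.union_empty]
    rw [h2] at hw₁
    have h3 := hS.solid i w₁ hw₁
    rw [h3] at hX₁
    exact hX₁
  · have h2 : Rm U w i S = insert s (U i ∪ (w i).X) := by rw [Rm, h1, Set.union_singleton]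
    rw [h2] at hw₁
    have h3 := hB.S2 s (by rw [h1]; exact rfl)
    exact solid_del (hS.solid i) (fun h4 => h4.elim h3.1 h3.2) hw₁ h hX₁ hF₁

end Pool.Agent.H70A
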