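import Pool.Agent.Lib.H70A.B6

/-!
# H70A chunk B7: the outer part `M1` of the modification

`M'` is the modification given by `mh_aug`: `AugW G O Rm Mh h M'`. It fixes `Rm` pointwise
(`cov M' ⊆ cov Mh + h + s`, `s ∉ Rm`, `mh_Rm`, `h ∈ Sl`), so it maps the complement of `Rm` to itself.
PROOFS.
* `dirty_fin`: every `x ∈ Vt` which is not clean has a vertex of the finite set `df Mh M'` in `Dm x`; a vertex
  `z` lies in `Dm x` for at most two `x` (`dm_disj`, `dinj`).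
* `clz_Uj`: `z ∈ U j`, `clz z`: `z ∈ {x, wn.F x}` for a clean `x`, and `Dm (wn.F x) = Dm x` (`dF`), so `z ∈ Vt` and
  `z` is clean; conversely `dm_self`.
* `m1_isM`. Let `Z = {z | z ∈ (w i).X ∨ clz z}`. `Bh` maps `Z` to `Z`: `z ∈ (w i).X`: for `z ∈ U j` `Bh z = z`
  (`sup`); for `z ∉ U j`: `z ∈ (w j).X` (`X_le`), `Bh z = (w j).F z = (w i).F z ∈ (w i).X` (`F_eq`). `z ∈ Dm x` clean:
  `z ∈ U j`: `Bh z = z`; otherwise `Bh z = (w (de x)).F z ∈ Dm x`. `M'` maps the complement of `Z` to itself: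
  not into `(w i).X ⊆ Rm`; if `M' z = y ∈ Dm x`, `x` clean, `y ∉ (w i).X`, then `M' y = Mh y = Nw (de x) y ∈ Dm x`,
  so `z ∈ Dm x`. For `z ∈ U j` outside `Z`: `M1 z = M' z` iff `M' z ∉ U j`; for `y = M' z ∉ U j`, `M1 y = M' y = z`.
* `m1_fin`: `df Bh M1` is contained in `df Mh M'` union the finite sets `Dm x`, `x` dirty: let `z ∉ Z`,
  `M' z = Mh z`. `z ∈ U j`: `Bh z = z`; if `M1 z ≠ z`, then `Mh z = M' z ∉ U j`; so `z ∈ Vt` (for `z ∈ Sl \ Vt`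
  `Mh z = wn.F z ∈ Sl ⊆ U j`; for `z ∈ U j \ Sl`, `z ∈ Rm`, `Mh z = z`), `z ∈ Dm z`, `z` dirty. `z ∉ U j`:
  `M1 z = M' z = Mh z`; if `z ∈ Dm x`, then `x` is dirty; otherwise `Mh z = Bh z` (`m3`, `m4`, `eqj`, `sup`).
* `m1_new`: `z ∈ cov M1`, `z ∉ cov Bh`: then `z ∉ Z`. If `z ∈ U j`: `M' z ∉ U j` and `z ∉ Rm` (`M'` fixes `Rm`), so
  `z ∈ Out`.
* `m1_out`: `z ∈ Out`: `z ∉ (w i).X`, `¬ clz z`, `M1 z = M' z ≠ z`, `Bh z = z`.
* `m1_old`: `z ∈ cov Bh` (so `z ∉ U j`), `z ∉ cov M1`: `z ∉ Z`, `M1 z = M' z = z`; `Mh z ≠ z` (`mh_cov_out`), so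
  `z = o ∈ O` (second alternative of `AugW`).
-/

namespace Pool.Agent.H70A

open Cardinal Order

universe u

variable {ι : Type u} [LinearOrder ι] [WellFoundedLT ι] [SuccOrder ι] [NoMaxOrder ι] {V : Type u}
  {G : SimpleGraph V} {O : Set V} {U : ι → Set V} {w : ι → Wv V} {i j : ι} {S : Set V}
  {wn : Wv V} {h : V} {de : V → ι} {Nw : ι → V → V}

theorem b7_hSl (hB : BS G O U w i j S wn h) : h ∈ Sl U w i j S := by
  obtain ⟨k, hk, hhk⟩ := hB.hD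
  exact not_not.1 (hB.wave.disjU _ (IsWave.body_subset_X hk hhk))

theorem b7_F_Sl (hB : BS G O U w i j S wn h) {z : V} (hz : z ∈ Sl U w i j S) :
    wn.F z ∈ Sl U w i j S := by
  by_cases h1 : wn.F z = z
  · rw [h1]; exact hz
  · exact not_not.1 (hB.wave.disjU _ (hB.wave.map_X (hB.wave.supX z h1)))

theorem b7_Bh_Uj (hB : BS G O U w i j S wn h) {Bh : V → V} (hb : BhP G U w j wn de Nw Bh) {z : V}
    (hz : z ∈ U j) : Bh z = z := by
  by_contra h1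
  rcases hb.sup z h1 with h2 | ⟨x, -, -, h2⟩
  · exact (hB.ns.sys.wave j).disjU z h2 hz
  · exact h2 hz

theorem b7_M1_Z {Bh Mh M' : V → V} {z : V}
    (hz : z ∈ (w i).X ∨ clz G w wn de Nw Mh M' z) :
    M1 G U w i j wn de Nw Bh Mh M' z = Bh z := by
  classical
  exact if_pos hz

theorem b7_M1_U {Bh Mh M' : V → V} {z : V}
    (hz : ¬ (z ∈ (w i).X ∨ clz G w wn de Nw Mh M' z)) (h1 : z ∈ U j ∧ M' z ∈ U j) :
    M1 G U w i j wn de Nw Bh Mh M' z = z := by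
  classical
  exact (if_neg hz).trans (if_pos h1)

theorem b7_M1_M {Bh Mh M' : V → V} {z : V}
    (hz : ¬ (z ∈ (w i).X ∨ clz G w wn de Nw Mh M' z)) (h1 : ¬ (z ∈ U j ∧ M' z ∈ U j)) :
    M1 G U w i j wn de Nw Bh Mh M' z = M' z := by
  classical
  exact (if_neg hz).trans (if_neg h1)

theorem aug_fix (hB : BS G O U w i j S wn h) (hW : BW G U w i j wn de Nw) {Mh M' : V → V}
    (hM : MhP G U w i j S wn de Nw Mh) (ha : AugW G O (Rm U w i S) Mh h M') {z : V}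
    (hz : z ∈ Rm U w i S) : M' z = z := by
  have h1 := mh_Rm hB hW hM hz
  have h2 : z ≠ h := fun e => (b7_hSl hB).2 (e ▸ hz)
  obtain ⟨-, -, ⟨s, hs, -, -, h3⟩ | ⟨o, -, -, h3⟩⟩ := ha
  · rw [← notMem_cov, h3]
    rintro (h4 | h4 | h4)
    · exact h4 h1
    · exact h2 h4
    · exact hs (h4 ▸ hz)
  · rw [← notMem_cov, h3]
    rintro ⟨h4 | h4, -⟩
    · exact h4 h1
    · exact h2 h4

theorem dirty_fin (hB : BS G O U w i j S wn h) (hW : BW G U w i j wn de Nw) {Mh M' : V → V}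
    (hM : MhP G U w i j S wn de Nw Mh) (ha : AugW G O (Rm U w i S) Mh h M') :
    {x | x ∈ Vt G wn ∧ ¬ Cln w de Nw Mh M' x}.Finite := by
  have h1 : (⋃ z ∈ df Mh M', {x | x ∈ Vt G wn ∧ z ∈ Dm w de Nw x}).Finite := by
    refine Set.Finite.biUnion ha.2.1 fun z _ => ?_
    by_cases hne : ∃ x, x ∈ Vt G wn ∧ z ∈ Dm w de Nw x
    · obtain ⟨x, hx, hzx⟩ := hne
      refine (Set.toFinite {x, wn.F x}).subset ?_
      rintro y ⟨hy, hzy⟩
      exact hW.dinj x hx y hy (dm_disj hB hW hx hy hzx hzy)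
    · refine Set.finite_empty.subset fun y hy => ?_
      exact hne ⟨y, hy⟩
  refine h1.subset ?_
  rintro x ⟨hx, hc⟩
  unfold Cln at hc
  push Not at hc
  obtain ⟨z, hz, hne⟩ := hc
  exact Set.mem_biUnion (show z ∈ df Mh M' from fun e => hne e.symm) ⟨hx, hz⟩

theorem clz_Uj (hB : BS G O U w i j S wn h) (hW : BW G U w i j wn de Nw) {Mh M' : V → V} {z : V}
    (hz : z ∈ U j) : clz G w wn de Nw Mh M' z ↔ z ∈ Vt G wn ∧ Cln w de Nw Mh M' z := by
  constructor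
  · rintro ⟨x, hx, hc, hzx⟩
    rcases dm_Uj hB hW hx hzx hz with rfl | rfl
    · exact ⟨hx, hc⟩
    · refine ⟨(vt_facts hB hx).2.2.1, ?_⟩
      intro y hy
      refine hc y ?_
      unfold Dm at hy ⊢
      rwa [hW.dF x hx] at hy
  · rintro ⟨h1, h2⟩
    exact ⟨z, h1, h2, dm_self hB hW h1⟩

theorem m1_isM (hB : BS G O U w i j S wn h) (hW : BW G U w i j wn de Nw) {Bh Mh M' : V → V}
    (hb : BhP G U w j wn de Nw Bh) (hM : MhP G U w i j S wn de Nw Mh)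
    (ha : AugW G O (Rm U w i S) Mh h M') : IsM G (M1 G U w i j wn de Nw Bh Mh M') := by
  have hS := hB.ns.sys
  have hBZ : ∀ z, (z ∈ (w i).X ∨ clz G w wn de Nw Mh M' z) →
      (Bh z ∈ (w i).X ∨ clz G w wn de Nw Mh M' (Bh z)) := by
    intro z hz
    by_cases hzU : z ∈ U j
    · rw [b7_Bh_Uj hB hb hzU]
      exact hz
    · rcases hz with hz | ⟨x, hx, hc, hzx⟩
      · left
        rw [hb.eqj z (X_le hS hB.hij.le hz hzU), F_eq hS hB.hij.le hz hzU]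
        exact (hS.wave i).map_X hz
      · right
        rw [hb.eqD x hx z hzx hzU]
        exact ⟨x, hx, hc, (dm_closed hB hW hx hzx).1⟩
  have hMX : ∀ z, z ∉ (w i).X → M' z ∉ (w i).X := by
    intro z hz h1
    have h2 := aug_fix hB hW hM ha (z := M' z) (Or.inl (Or.inr h1))
    rw [ha.1.inv] at h2
    exact hz (h2 ▸ h1)
  have hMZ : ∀ z, ¬ (z ∈ (w i).X ∨ clz G w wn de Nw Mh M' z) →
      ¬ (M' z ∈ (w i).X ∨ clz G w wn de Nw Mh M' (M' z)) := by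
    intro z hz hz'
    have h1 : z ∉ (w i).X := fun h => hz (Or.inl h)
    have h2 := hMX z h1
    rcases hz' with h3 | ⟨x, hx, hc, hzx⟩
    · exact h2 h3
    · have h4 := hc _ hzx
      rw [ha.1.inv, hM.m2 x hx _ hzx h2] at h4
      have h5 := (dm_closed hB hW hx hzx).2
      rw [← h4] at h5
      exact hz (Or.inr ⟨x, hx, hc, h5⟩)
  refine ⟨fun z => ?_, fun z hz => ?_⟩
  · by_cases hZ : z ∈ (w i).X ∨ clz G w wn de Nw Mh M' z
    · rw [b7_M1_Z hZ, b7_M1_Z (hBZ z hZ), hb.isM.inv]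
    · by_cases hU : z ∈ U j ∧ M' z ∈ U j
      · rw [b7_M1_U hZ hU, b7_M1_U hZ hU]
      · rw [b7_M1_M hZ hU, b7_M1_M (hMZ z hZ) (by rw [ha.1.inv]; exact fun h => hU h.symm),
          ha.1.inv]
  · by_cases hZ : z ∈ (w i).X ∨ clz G w wn de Nw Mh M' z
    · rw [b7_M1_Z hZ] at hz ⊢
      exact hb.isM.adj z hz
    · by_cases hU : z ∈ U j ∧ M' z ∈ U j
      · rw [b7_M1_U hZ hU] at hz
        exact absurd rfl hz
      · rw [b7_M1_M hZ hU] at hz ⊢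
        exact ha.1.adj z hz

theorem m1_fin (hB : BS G O U w i j S wn h) (hW : BW G U w i j wn de Nw) {Bh Mh M' : V → V}
    (hb : BhP G U w j wn de Nw Bh) (hM : MhP G U w i j S wn de Nw Mh)
    (ha : AugW G O (Rm U w i S) Mh h M') : (df Bh (M1 G U w i j wn de Nw Bh Mh M')).Finite := by
  have h1 : (df Mh M' ∪ ⋃ x ∈ {x | x ∈ Vt G wn ∧ ¬ Cln w de Nw Mh M' x}, Dm w de Nw x).Finite :=
    ha.2.1.union (Set.Finite.biUnion (dirty_fin hB hW hM ha) fun x hx => dm_fin hW hx.1)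
  refine h1.subset ?_
  intro z hz
  by_cases hd : z ∈ df Mh M'
  · exact Or.inl hd
  right
  rw [notMem_df] at hd
  rw [mem_df] at hz
  have hZ : ¬ (z ∈ (w i).X ∨ clz G w wn de Nw Mh M' z) := fun h => hz (b7_M1_Z h).symm
  have hX : z ∉ (w i).X := fun h => hZ (Or.inl h)
  have hdirty : ∀ x ∈ Vt G wn, z ∈ Dm w de Nw x →
      z ∈ ⋃ x ∈ {x | x ∈ Vt G wn ∧ ¬ Cln w de Nw Mh M' x}, Dm w de Nw x := fun x hx hzx =>
    Set.mem_biUnion (show x ∈ {x | x ∈ Vt G wn ∧ ¬ Cln w de Nw Mh M' x} from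
      ⟨hx, fun hc => hZ (Or.inr ⟨x, hx, hc, hzx⟩)⟩) hzx
  by_cases hzU : z ∈ U j
  · rw [b7_Bh_Uj hB hb hzU] at hz
    have hU : ¬ (z ∈ U j ∧ M' z ∈ U j) := fun h => hz (b7_M1_U hZ h).symm
    have hMU : Mh z ∉ U j := by
      rw [hd]
      exact fun h => hU ⟨hzU, h⟩
    have hV : z ∈ Vt G wn := by
      by_contra hV
      by_cases hs : z ∈ Sl U w i j S
      · rw [hM.m1 z hs hV] at hMU
        exact hMU (b7_F_Sl hB hs).1
      · have h2 : z ∈ Rm U w i S := by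
          by_contra h2
          exact hs ⟨hzU, h2⟩
        rw [mh_Rm hB hW hM h2] at hMU
        exact hMU hzU
    exact hdirty z hV (dm_self hB hW hV)
  · by_cases hD : ∃ x ∈ Vt G wn, z ∈ Dm w de Nw x
    · obtain ⟨x, hx, hzx⟩ := hD
      exact hdirty x hx hzx
    · exfalso
      push Not at hD
      rw [b7_M1_M hZ (fun h => hzU h.1), ← hd] at hz
      by_cases hXj : z ∈ (w j).X
      · exact hz (by rw [hM.m3 z hXj hX hD, hb.eqj z hXj])
      · have h2 : Mh z = z := by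
          by_contra h
          rcases hM.m4 z h with h2 | ⟨x, hx, h2, -⟩ | ⟨h2, -⟩
          · exact hzU h2.1
          · exact hD x hx h2
          · exact hXj h2
        have h3 : Bh z = z := by
          by_contra h
          rcases hb.sup z h with h2 | ⟨x, hx, h2, -⟩
          · exact hXj h2
          · exact hD x hx h2
        exact hz (by rw [h2, h3])

theorem m1_new (hB : BS G O U w i j S wn h) (hW : BW G U w i j wn de Nw) {Bh Mh M' : V → V}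
    (hb : BhP G U w j wn de Nw Bh) (hM : MhP G U w i j S wn de Nw Mh)
    (ha : AugW G O (Rm U w i S) Mh h M') {z : V}
    (h1 : z ∈ cov (M1 G U w i j wn de Nw Bh Mh M')) (h2 : z ∉ cov Bh) (h3 : z ∈ U j) :
    z ∈ Out G U w i j S wn de Nw Mh M' := by
  have hZ : ¬ (z ∈ (w i).X ∨ clz G w wn de Nw Mh M' z) := by
    intro h
    rw [mem_cov, b7_M1_Z h] at h1
    exact h2 h1
  have hU : ¬ (z ∈ U j ∧ M' z ∈ U j) := fun h => h1 (b7_M1_U hZ h)
  rw [mem_cov, b7_M1_M hZ hU] at h1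
  have hMU : M' z ∉ U j := fun h => hU ⟨h3, h⟩
  exact ⟨⟨h3, fun h => h1 (aug_fix hB hW hM ha h)⟩, fun h => hZ (Or.inr h), hMU⟩

theorem m1_out (hB : BS G O U w i j S wn h) (hW : BW G U w i j wn de Nw) {Bh Mh M' : V → V}
    (hb : BhP G U w j wn de Nw Bh) (hM : MhP G U w i j S wn de Nw Mh)
    (ha : AugW G O (Rm U w i S) Mh h M') {z : V} (hz : z ∈ Out G U w i j S wn de Nw Mh M') :
    z ∈ cov (M1 G U w i j wn de Nw Bh Mh M') ∧ z ∉ cov Bh := by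
  obtain ⟨hs, hc, hMU⟩ := hz
  have hZ : ¬ (z ∈ (w i).X ∨ clz G w wn de Nw Mh M' z) := by
    rintro (h1 | h1)
    · exact hs.2 (Or.inl (Or.inr h1))
    · exact hc h1
  refine ⟨?_, notMem_cov.2 (b7_Bh_Uj hB hb hs.1)⟩
  rw [mem_cov, b7_M1_M hZ fun h => hMU h.2]
  exact fun h => hMU (by rw [h]; exact hs.1)

theorem m1_old (hB : BS G O U w i j S wn h) (hW : BW G U w i j wn de Nw) {Bh Mh M' : V → V}
    (hb : BhP G U w j wn de Nw Bh) (hM : MhP G U w i j S wn de Nw Mh)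
    (ha : AugW G O (Rm U w i S) Mh h M') {z : V} (h1 : z ∈ cov Bh)
    (h2 : z ∉ cov (M1 G U w i j wn de Nw Bh Mh M')) : z ∈ O := by
  have hzU : z ∉ U j := fun h => h1 (b7_Bh_Uj hB hb h)
  rw [notMem_cov] at h2
  have hZ : ¬ (z ∈ (w i).X ∨ clz G w wn de Nw Mh M' z) := by
    intro h
    rw [b7_M1_Z h] at h2
    exact h1 h2
  rw [b7_M1_M hZ fun h => hzU h.1] at h2
  have hMh : z ∈ cov Mh := fun h =>
    h1 ((mh_cov_out hB hW hb hM hzU (fun h => hZ (Or.inl h))).1 h)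
  obtain ⟨-, -, ⟨s, -, -, -, h3⟩ | ⟨o, ho, -, h3⟩⟩ := ha
  · exact absurd h2 ((h3 z).2 (Or.inl hMh))
  · by_contra hO
    exact ((h3 z).2 ⟨Or.inl hMh, fun e => hO (e ▸ ho)⟩) h2

end Pool.Agent.H70A
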