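import Pool.Agent.Lib.H70A.M2

/-!
# H70A chunk M3: pairing the extra vertices of a finite modification

PROOF. Induction on the number of elements of `cov N \ cov B` (finite, contained in `df B N`), for
all `N`. If it is empty, `π = id`. Otherwise choose `y` in it and apply `sd` with `M := B`, `N := N`,
`x := y`: it gives `B'`, `N'`, `y'`.
* First alternative: `cov B' = cov B + y + y'`, `cov N' = cov N - y - y'`. Induction for `N'` (with
  the same `B`; `df B N'` is finite) gives `π'`; `π' y = y`, `π' y' = y'` (since `y, y' ∉ cov N'`).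
  `π` = `π'` with `y ↔ y'` exchanged; the witness for `y` and `y'` is `B'`.
* Second alternative: `y' ∈ cov B \ cov N`, `cov B' = cov B + y - y'`, `cov N' = cov N + y' - y`.
  `cov N' \ cov B = (cov N \ cov B) - y`. Induction for `N'` gives `π'`, `π' y = y`; `π = π'`; the
  witness for `y` is `B'` with `o = y'`. A vertex `o` given by the induction hypothesis satisfies
  `o ∈ cov B`, `o ∉ cov N'`, hence `o ∉ cov N` (as `o ≠ y`, `y ∉ cov B`).
-/

namespace Pool.Agent.H70A

universe u

variable {V : Type u}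

theorem tr {G : SimpleGraph V} {B N : V → V} (hB : IsM G B) (hN : IsM G N)
    (hf : (df B N).Finite) :
    ∃ π : V → V, (∀ y, π (π y) = y) ∧ (∀ y, π y ≠ y → y ∈ cov N ∧ y ∉ cov B) ∧
      (∀ y, π y ≠ y → ∃ N' : V → V, IsM G N' ∧ (df B N').Finite ∧
        ∀ z, z ∈ cov N' ↔ z ∈ cov B ∨ z = y ∨ z = π y) ∧
      (∀ y, y ∈ cov N → y ∉ cov B → π y = y → ∃ (N' : V → V) (o : V), o ∈ cov B ∧ o ∉ cov N ∧
        IsM G N' ∧ (df B N').Finite ∧ ∀ z, z ∈ cov N' ↔ (z ∈ cov B ∨ z = y) ∧ z ≠ o) := by
  have hfin : ∀ L : V → V, (df B L).Finite → (cov L \ cov B).Finite := by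
    intro L h
    refine h.subset ?_
    intro x hx
    rw [mem_df]
    intro e
    exact hx.2 (by rw [mem_cov, e]; exact hx.1)
  obtain ⟨n, hn⟩ : ∃ n, (cov N \ cov B).ncard = n := ⟨_, rfl⟩
  induction n using Nat.strong_induction_on generalizing N with
  | _ n ih =>
    by_cases he : cov N \ cov B = ∅
    · refine ⟨fun y => y, fun _ => rfl, fun y h => absurd rfl h, fun y h => absurd rfl h,
        fun y h1 h2 _ => ?_⟩
      have h3 : y ∈ cov N \ cov B := ⟨h1, h2⟩
      rw [he] at h3
      exact absurd h3 (Set.notMem_empty _)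
    · obtain ⟨y, hy1, hy2⟩ := Set.nonempty_iff_ne_empty.2 he
      obtain ⟨B', N', y', hB', hN', hdB, hdN, hyy, -, h⟩ := sd hB hN hf hy1 hy2
      have hfN' : (df B N').Finite := df_finite_trans hf hdN
      rcases h with ⟨h1, h2, h3, h4⟩ | ⟨h1, h2, h3, h4⟩
      · have hss : cov N' \ cov B ⊂ cov N \ cov B :=
          ⟨fun z hz => ⟨((h4 z).1 hz.1).1, hz.2⟩, fun h => ((h4 y).1 (h ⟨hy1, hy2⟩).1).2.1 rfl⟩
        obtain ⟨π, p1, p2, p3, p4⟩ := ih _ (by rw [← hn]; exact Set.ncard_lt_ncard hss (hfin N hf))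
          hN' hfN' rfl
        have hπy : π y = y := by
          by_contra h
          exact ((h4 y).1 (p2 y h).1).2.1 rfl
        have hπy' : π y' = y' := by
          by_contra h
          exact ((h4 y').1 (p2 y' h).1).2.2 rfl
        have s1 : ad π y y' y = y' := ad_left
        have s2 : ad π y y' y' = y := ad_right hyy.symm
        have s3 : ∀ u, u ≠ y → u ≠ y' → ad π y y' u = π u := fun u => ad_apply
        refine ⟨ad π y y', fun u => ?_, fun u hu => ?_, fun u hu => ?_, fun u hu1 hu2 hu3 => ?_⟩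
        · by_cases hu : u = y
          · rw [hu, s1, s2]
          by_cases hu' : u = y'
          · rw [hu', s2, s1]
          rw [s3 u hu hu', s3 _ ?_ ?_, p1]
          · intro e
            have := p1 u
            rw [e, hπy] at this
            exact hu this.symm
          · intro e
            have := p1 u
            rw [e, hπy'] at this
            exact hu' this.symm
        · by_cases hu1 : u = y
          · rw [hu1]; exact ⟨hy1, hy2⟩
          by_cases hu2 : u = y'
          · rw [hu2]; exact ⟨h1, h2⟩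
          rw [s3 u hu1 hu2] at hu
          exact ⟨((h4 u).1 (p2 u hu).1).1, (p2 u hu).2⟩
        · by_cases hu1 : u = y
          · refine ⟨B', hB', hdB, fun z => ?_⟩
            rw [hu1, s1]; exact h3 z
          by_cases hu2 : u = y'
          · refine ⟨B', hB', hdB, fun z => ?_⟩
            rw [hu2, s2, h3 z]; tauto
          rw [s3 u hu1 hu2] at hu ⊢
          exact p3 u hu
        · have hu4 : u ≠ y := fun e => by
            rw [e, s1] at hu3; exact hyy hu3
          have hu5 : u ≠ y' := fun e => by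
            rw [e, s2] at hu3; exact hyy hu3.symm
          rw [s3 u hu4 hu5] at hu3
          obtain ⟨L, o, o1, o2, o3⟩ := p4 u ((h4 u).2 ⟨hu1, hu4, hu5⟩) hu2 hu3
          refine ⟨L, o, o1, fun h => o2 ((h4 o).2 ⟨h, ?_, ?_⟩), o3⟩
          · intro e; rw [e] at o1; exact hy2 o1
          · intro e; rw [e] at o1; exact h2 o1
      · have hss : cov N' \ cov B ⊂ cov N \ cov B := by
          refine ⟨fun z hz => ⟨?_, hz.2⟩, fun h => ((h4 y).1 (h ⟨hy1, hy2⟩).1).2 rfl⟩
          rcases ((h4 z).1 hz.1).1 with h | h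
          · exact h
          · exact absurd h1 (h ▸ hz.2)
        obtain ⟨π, p1, p2, p3, p4⟩ := ih _ (by rw [← hn]; exact Set.ncard_lt_ncard hss (hfin N hf))
          hN' hfN' rfl
        refine ⟨π, p1, fun u hu => ?_, p3, fun u hu1 hu2 hu3 => ?_⟩
        · exact hss.1 (p2 u hu)
        · by_cases hu : u = y
          · refine ⟨B', y', h1, h2, hB', hdB, fun z => ?_⟩
            rw [hu]; exact h3 z
          · obtain ⟨L, o, o1, o2, o3⟩ := p4 u ((h4 u).2 ⟨Or.inl hu1, hu⟩) hu2 hu3
            refine ⟨L, o, o1, fun h => o2 ((h4 o).2 ⟨Or.inl h, ?_⟩), o3⟩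
            intro e; rw [e] at o1; exact hy2 o1

end Pool.Agent.H70A
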