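import Pool.Agent.Lib.H70A.H8
import Pool.Agent.Lib.H70A.W4

/-!
# H70A chunk O1: non-open vertices are blocked

PROOFS. `w` a wave of `(G, O, U)` without holes, so `cov w.F = w.X` (`supX`, `HF`), `w.F` fixes `U`.
* `no_wave1`: `hungarian` for `(G, O, U \ {d})`, `M = w.F`, `v = d`. For `x ∈ w'.X`, `x ≠ d`: `x ∈ cov w.F ⊆ w.X`.
  `w'.F d = w.F d = d`.
* `no_wave2`: `hungarian` for `(G, O, U \ {d, d'})`, `M = w.F`, `v = d`. Not `Aug`: in the first alternative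
  (`s ∉ U \ {d, d'}`, `s ≠ d`, `s ∉ cov w.F`): `s = d'` would make `{d, d'}` virtual (`Vrt`); otherwise
  `s ∉ U`, so `s ∉ U \ {d}`, and `N` shows `Aug G O (U \ {d}) w.F d`; second alternative: the same `N`.
* `bc`: `block` for `w'` and `N`: the vertices of `w'.D` where `N ≠ w'.F` lie in `df B N`: for `x ∈ w'.D`,
  `x ≠ d`: `x ∈ w.X`, `w'.F x = w.F x = B x`; at `d`: `w'.F d = d = B d`. All `x ∈ w'.D` are covered by `N`:
  `x ∉ O` (`KO`), and `x = d` or `x ∈ w.X`, `B x = w.F x ≠ x`.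
-/

namespace Pool.Agent.H70A

universe u

variable {V : Type u} {G : SimpleGraph V} {O U : Set V} {w : Wv V}

/-- `w'` is a wave blocking `d`. -/
structure Blk (G : SimpleGraph V) (O U' : Set V) (w : Wv V) (d : V) (w' : Wv V) : Prop where
  wave : IsWave G O U' w'
  mem : d ∈ w'.D
  fix : w'.F d = d
  rest : ∀ x ∈ w'.X, x ≠ d → x ∈ w.X ∧ w'.F x = w.F x

theorem o1_blk (hw : IsWave G O U w) {U' : Set V} (hU' : U' ⊆ U) {d : V} (hd : d ∈ U)
    (hd' : d ∉ U') (hO : d ∉ O) (ha : ¬ Aug G O U' w.F d) : ∃ w', Blk G O U' w d w' := by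
  have hHS : HS G O U' w.F d := by
    refine ⟨hw.isM, ?_, hd', hO, ?_, ha⟩
    · intro x hx
      exact notMem_cov.2 (hw.fix_U (hU' hx))
    · exact notMem_cov.2 (hw.fix_U hd)
  obtain ⟨w', h1, _, h3, h4, h5⟩ := hungarian hHS
  refine ⟨w', h1, h4, ?_, ?_⟩
  · rw [h3 d (IsWave.D_subset_X h4)]
    exact hw.fix_U hd
  · intro x hx hne
    exact ⟨hw.supX x (h5 x hx hne), h3 x hx⟩

theorem no_wave1 (hw : IsWave G O U w) (hf : HF w) {d : V} (hd : d ∈ U) (hO : d ∉ O)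
    (ha : ¬ Aug G O (U \ {d}) w.F d) : ∃ w', Blk G O (U \ {d}) w d w' :=
  o1_blk hw Set.sdiff_subset hd (fun h => h.2 rfl) hO ha

theorem no_wave2 (hw : IsWave G O U w) (hf : HF w) {d d' : V} (hd : d ∈ U) (hd' : d' ∈ U)
    (hne : d ≠ d') (hO : d ∉ O) (ha : ¬ Aug G O (U \ {d}) w.F d) (hv : ¬ Vrt G w d d') :
    ∃ w', Blk G O (U \ {d, d'}) w d w' := by
  refine o1_blk hw Set.sdiff_subset hd (fun h => h.2 (Or.inl rfl)) hO ?_
  rintro ⟨N, hN, hfin, ⟨s, hs, hsd, hsc, hc⟩ | ⟨o, ho, hoc, hc⟩⟩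
  · by_cases hsd' : s = d'
    · subst hsd'
      exact hv ⟨hne, N, hN, hfin, hc⟩
    · refine ha ⟨N, hN, hfin, Or.inl ⟨s, ?_, hsd, hsc, hc⟩⟩
      intro h
      refine hs ⟨h.1, ?_⟩
      simp [hsd, hsd']
  · exact ha ⟨N, hN, hfin, Or.inr ⟨o, ho, hoc, hc⟩⟩

theorem bc (hf : HF w) {U' : Set V} {d : V} {w' : Wv V} (hb : Blk G O U' w d w') {B N : V → V}
    (hBw : ∀ x ∈ w.X, B x = w.F x) (hBd : B d = d) (hN : IsM G N) (hfin : (df B N).Finite)
    (hNU : ∀ x ∈ U', N x = x) (hcov : ∀ z, z ∈ cov B ∨ z = d → z ∉ O → z ∈ cov N) : False := by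
  refine block hb.wave hb.mem hb.fix hN hNU (hfin.subset ?_) ?_
  · rintro x ⟨hx, hne⟩ h
    by_cases hxd : x = d
    · subst hxd
      exact hne (by rw [← h, hBd, hb.fix])
    · obtain ⟨h1, h2⟩ := hb.rest x (IsWave.D_subset_X hx) hxd
      exact hne (by rw [← h, hBw x h1, h2])
  · intro x hx
    obtain ⟨k, hk, hxk⟩ := hx
    refine hcov x ?_ (hb.wave.KO k hk x hxk)
    by_cases hxd : x = d
    · exact Or.inr hxd
    · obtain ⟨h1, _⟩ := hb.rest x (IsWave.D_subset_X ⟨k, hk, hxk⟩) hxd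
      left
      rw [mem_cov, hBw x h1]
      exact hf x h1

end Pool.Agent.H70A
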