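import Pool.Agent.Lib.H70A.B7
import Pool.Agent.Lib.H70A.M3
import Pool.Agent.Lib.H70A.O1

/-!
# H70A chunk B8: pairing the outer vertices

PROOF. `π` from `tr` for `B := Bh`, `N := M1`. Let `y ∈ Out`, `y ∉ OV`: `y ∈ U j`, `y ∉ O`, not
`Aug G O (U j \ {y}) (w j).F y`; `y ∈ cov M1 \ cov Bh` (`m1_out`). `cov Bh` is disjoint from `U j` (`BhP.sup`). `bc` is
used for the wave `w j` with `B := Bh` (`eqj`), `d := y`.
* If `π y = y`: `N'`, `o` with `o ∈ cov Bh \ cov M1`, so `o ∈ O` (`m1_old`), `cov N' = cov Bh + y - o`. `no_wave1`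
  gives `Blk G O (U j \ {y}) (w j) y w'` and `bc` gives `False`: `N'` fixes `U j \ {y}`, and covers `cov Bh + y`
  except `o ∈ O`.
* So `π y ≠ y`, `N'` with `cov N' = cov Bh + y + π y`. If `π y ∉ U j`: `N'` fixes `U j \ {y}`, again `no_wave1`, `bc`:
  `False`. So `π y ∈ U j`, `π y ∈ cov M1 \ cov Bh` (third property of `tr`), so `π y ∈ Out` (`m1_new`).
* If not `Vrt G (w j) y (π y)`: `no_wave2` (`d' = π y`) and `bc` with `U' = U j \ {y, π y}`: `False`.
-/

namespace Pool.Agent.H70A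

open Cardinal Order

universe u

variable {ι : Type u} [LinearOrder ι] [WellFoundedLT ι] [SuccOrder ι] [NoMaxOrder ι] {V : Type u}
  {G : SimpleGraph V} {O : Set V} {U : ι → Set V} {w : ι → Wv V} {i j : ι} {S : Set V}
  {wn : Wv V} {h : V} {de : V → ι} {Nw : ι → V → V}

theorem exists_pi (hB : BS G O U w i j S wn h) (hW : BW G U w i j wn de Nw) {Bh Mh M' : V → V}
    (hb : BhP G U w j wn de Nw Bh) (hM : MhP G U w i j S wn de Nw Mh)
    (ha : AugW G O (Rm U w i S) Mh h M') :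
    ∃ π : V → V, (∀ y, π (π y) = y) ∧ ∀ y ∈ Out G U w i j S wn de Nw Mh M',
      y ∉ OV G O U w j → π y ≠ y ∧ π y ∈ Out G U w i j S wn de Nw Mh M' ∧
        Vrt G (w j) y (π y) := by
  obtain ⟨π, p1, p2, p3, p4⟩ := tr hb.isM (m1_isM hB hW hb hM ha) (m1_fin hB hW hb hM ha)
  refine ⟨π, p1, fun y hy hyO => ?_⟩
  have hyU : y ∈ U j := hy.1.1
  have hO : y ∉ O := fun h => hyO (Or.inl h)
  have hA : ¬ Aug G O (U j \ {y}) (w j).F y := fun h => hyO (Or.inr h)
  obtain ⟨hy1, hy2⟩ := m1_out hB hW hb hM ha hy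
  have hwj : IsWave G O (U j) (w j) := hB.ns.sys.wave j
  have hfj : HF (w j) := hB.ns.hf j
  have hfix : ∀ z ∈ U j, Bh z = z := by
    intro z hz
    by_contra h
    rcases hb.sup z h with h1 | ⟨x, -, -, h1⟩
    · exact hfj z h1 (hwj.fix_U hz)
    · exact h1 hz
  have e1 : π y ≠ y := by
    intro he
    obtain ⟨N', o, o1, o2, hN, hfin, hc⟩ := p4 y hy1 hy2 he
    have hoO : o ∈ O := m1_old hB hW hb hM ha o1 o2
    obtain ⟨w', hw'⟩ := no_wave1 hwj hfj hyU hO hA
    refine bc hfj hw' hb.eqj (hfix y hyU) hN hfin ?_ ?_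
    · rintro x ⟨hx1, hx2⟩
      have h3 : x ∉ cov N' := by
        intro h
        rcases ((hc x).1 h).1 with h4 | h4
        · exact h4 (hfix x hx1)
        · exact hx2 h4
      exact notMem_cov.1 h3
    · intro z hz hzO
      exact (hc z).2 ⟨hz, fun e => hzO (e ▸ hoO)⟩
  obtain ⟨N', hN, hfin, hc⟩ := p3 y e1
  have e2 : π (π y) ≠ π y := by
    rw [p1]
    exact e1.symm
  obtain ⟨h5, h6⟩ := p2 _ e2
  have e3 : π y ∈ U j := by
    by_contra hn
    obtain ⟨w', hw'⟩ := no_wave1 hwj hfj hyU hO hA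
    refine bc hfj hw' hb.eqj (hfix y hyU) hN hfin ?_ ?_
    · rintro x ⟨hx1, hx2⟩
      have h3 : x ∉ cov N' := by
        intro h
        rcases (hc x).1 h with h4 | h4 | h4
        · exact h4 (hfix x hx1)
        · exact hx2 h4
        · exact hn (h4 ▸ hx1)
      exact notMem_cov.1 h3
    · intro z hz _
      rcases hz with hz | hz
      · exact (hc z).2 (Or.inl hz)
      · exact (hc z).2 (Or.inr (Or.inl hz))
  refine ⟨e1, m1_new hB hW hb hM ha h5 h6 e3, ?_⟩
  by_contra hv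
  obtain ⟨w', hw'⟩ := no_wave2 hwj hfj hyU e3 e1.symm hO hA hv
  refine bc hfj hw' hb.eqj (hfix y hyU) hN hfin ?_ ?_
  · rintro x ⟨hx1, hx2⟩
    have h3 : x ∉ cov N' := by
      intro h
      rcases (hc x).1 h with h4 | h4 | h4
      · exact h4 (hfix x hx1)
      · exact hx2 (Or.inl h4)
      · exact hx2 (Or.inr h4)
    exact notMem_cov.1 h3
  · intro z hz _
    rcases hz with hz | hz
    · exact (hc z).2 (Or.inl hz)
    · exact (hc z).2 (Or.inr (Or.inl hz))

end Pool.Agent.H70A
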