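import Pool.Agent.Lib.H70A.M1

/-!
# H70A chunk M2: the exchange lemma, second form

PROOF. Take `P, y` from `sd_set` and put `M' = sw P M N`, `N' = sw P N M` (matchings by `sw_isM`,
`df M M' ⊆ P ⊆ df M N` by `df_sw_subset`). For `z ∈ P`: `M' z = N z`, `N' z = M z`; for `z ∉ P`:
`M' z = M z`, `N' z = N z`. So the covered sets change only at `x` and `y`.
-/

namespace Pool.Agent.H70A

universe u

variable {V : Type u}

/-- Exchange lemma. Starting at `x`, covered by `N` and not by `M`: either a second vertex `y` of the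
same kind can be moved from `N` to `M` together with `x`, or `x` and a vertex `y` covered by `M` and
not by `N` can be exchanged. -/
theorem sd {G : SimpleGraph V} {M N : V → V} (hM : IsM G M) (hN : IsM G N)
    (hf : (df M N).Finite) {x : V} (hx : x ∈ cov N) (hx' : x ∉ cov M) :
    ∃ (M' N' : V → V) (y : V), IsM G M' ∧ IsM G N' ∧ (df M M').Finite ∧ (df N N').Finite ∧
      y ≠ x ∧ (∀ z, (M' z = M z ∧ N' z = N z) ∨ (M' z = N z ∧ N' z = M z)) ∧
      ((y ∈ cov N ∧ y ∉ cov M ∧ (∀ z, z ∈ cov M' ↔ z ∈ cov M ∨ z = x ∨ z = y) ∧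
          (∀ z, z ∈ cov N' ↔ z ∈ cov N ∧ z ≠ x ∧ z ≠ y)) ∨
        (y ∈ cov M ∧ y ∉ cov N ∧ (∀ z, z ∈ cov M' ↔ (z ∈ cov M ∨ z = x) ∧ z ≠ y) ∧
          (∀ z, z ∈ cov N' ↔ (z ∈ cov N ∨ z = y) ∧ z ≠ x))) := by
  obtain ⟨P, y, hP1, hP2, hP3, hP4, hP5, hP6, hP7⟩ := sd_set hM hN hf hx hx'
  have hfP : (df N M).Finite := df_finite_symm hf
  have hcM : ∀ z, z ∈ cov (sw P M N) ↔ (z ∈ P ∧ z ∈ cov N) ∨ (z ∉ P ∧ z ∈ cov M) := by
    intro z
    by_cases h : z ∈ P
    · rw [mem_cov, sw_mem h]; simp [h, mem_cov]
    · rw [mem_cov, sw_notMem h]; simp [h, mem_cov]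
  have hcN : ∀ z, z ∈ cov (sw P N M) ↔ (z ∈ P ∧ z ∈ cov M) ∨ (z ∉ P ∧ z ∈ cov N) := by
    intro z
    by_cases h : z ∈ P
    · rw [mem_cov, sw_mem h]; simp [h, mem_cov]
    · rw [mem_cov, sw_notMem h]; simp [h, mem_cov]
  have hxy : ∀ z, z ∉ P → z ≠ x ∧ z ≠ y := fun z hz =>
    ⟨fun h => hz (h ▸ hP2), fun h => hz (h ▸ hP3)⟩
  refine ⟨sw P M N, sw P N M, y, sw_isM hM hN (fun z hz => (hP5 z hz).1) (fun z hz => (hP5 z hz).2),
    sw_isM hN hM (fun z hz => (hP5 z hz).2) (fun z hz => (hP5 z hz).1),
    hf.subset ((df_sw_subset P M N).trans Set.inter_subset_right),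
    hfP.subset ((df_sw_subset P N M).trans Set.inter_subset_right), hP4, ?_, ?_⟩
  · intro z
    by_cases h : z ∈ P
    · right; exact ⟨sw_mem h, sw_mem h⟩
    · left; exact ⟨sw_notMem h, sw_notMem h⟩
  · rcases hP7 with ⟨h1, h2⟩ | ⟨h1, h2⟩
    · left
      refine ⟨h2, h1, fun z => ?_, fun z => ?_⟩
      · rw [hcM]
        by_cases h : z ∈ P
        · by_cases hzx : z = x
          · subst hzx; simp [h, hx]
          · by_cases hzy : z = y
            · subst hzy; simp [h, h2]
            · have := hP6 z h hzx hzy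
              simp [h, this.1, this.2]
        · have := hxy z h
          simp [h, this.1, this.2]
      · rw [hcN]
        by_cases h : z ∈ P
        · by_cases hzx : z = x
          · subst hzx; simp [h, hx']
          · by_cases hzy : z = y
            · subst hzy; simp [h, h1]
            · have := hP6 z h hzx hzy
              simp [h, this.1, this.2, hzx, hzy]
        · have := hxy z h
          simp [h, this.1, this.2]
    · right
      refine ⟨h1, h2, fun z => ?_, fun z => ?_⟩
      · rw [hcM]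
        by_cases h : z ∈ P
        · by_cases hzx : z = x
          · subst hzx; simp [h, hx, hP4.symm]
          · by_cases hzy : z = y
            · subst hzy; simp [h, h2]
            · have := hP6 z h hzx hzy
              simp [h, this.1, this.2, hzy]
        · have := hxy z h
          simp [h, this.1, this.2]
      · rw [hcN]
        by_cases h : z ∈ P
        · by_cases hzx : z = x
          · subst hzx; simp [h, hx']
          · by_cases hzy : z = y
            · subst hzy; simp [h, h1, hzx]
            · have := hP6 z h hzx hzy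
              simp [h, this.1, this.2, hzx]
        · have := hxy z h
          simp [h, this.1, this.2]

end Pool.Agent.H70A
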