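import Pool.Agent.Lib.H70A.W0
import Pool.Agent.Lib.H70A.M2

/-!
# H70A chunk W2: parity in a body

PROOF. Suppose `N x ∈ k` for all `x ∈ k`. Let `r` be the root of `k` (`IsWave.exists_rt`).
`M₁ := ins k N` covers exactly `k`; `N₁ := ins k w.F` covers exactly `k \ {r}` (`w.F` maps `k \ {r}` to
`k` without fixed points; `w.F r ∉ k` or `w.F r = r`). `df N₁ M₁` is contained in
`{x ∈ k | N x ≠ w.F x} ∪ {r}`, finite. `sd` (with `M := N₁`, `N := M₁`, `x := r`): (i) `y ∈ cov M₁`,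
`y ∉ cov N₁`, `y ≠ r` impossible, (ii) `y ∈ cov N₁`, `y ∉ cov M₁` impossible.
The second statement: `N x ≠ x` (covered), so `G.Adj x (N x)`, by `Kadj` `N x ∈ k ∨ N x ∈ A ∨ N x ∈ U`;
`N x ∈ U` would give `x = N (N x) = N x`.
-/

namespace Pool.Agent.H70A

universe u

variable {V : Type u} {G : SimpleGraph V} {O U : Set V} {w : Wv V}

theorem parity (hw : IsWave G O U w) {k : Set V} (hk : k ∈ w.K) {N : V → V} (hN : IsM G N)
    (hf : {x | x ∈ k ∧ N x ≠ w.F x}.Finite) (hc : ∀ x ∈ k, N x ≠ x) : ∃ x ∈ k, N x ∉ k := by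
  by_contra hcon
  push Not at hcon
  obtain ⟨r, hr, h1, h2⟩ := hw.exists_rt hk
  have hM₁ : IsM G (ins k N) := ins_isM hN k
  have hN₁ : IsM G (ins k w.F) := ins_isM hw.isM k
  have c1 : ∀ z, z ∈ cov (ins k N) ↔ z ∈ k := by
    intro z
    rw [mem_cov_ins]
    exact ⟨fun h => h.1, fun h => ⟨h, hcon z h, hc z h⟩⟩
  have c2 : ∀ z, z ∈ cov (ins k w.F) ↔ z ∈ k ∧ z ≠ r := by
    intro z
    rw [mem_cov_ins]
    constructor
    · rintro ⟨h3, h4, h5⟩
      refine ⟨h3, ?_⟩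
      rintro rfl
      rcases hr.2 with h | h
      · exact h h4
      · exact h5 h
    · rintro ⟨h3, h4⟩
      obtain ⟨h5, h6⟩ := h1 z h3 h4
      exact ⟨h3, h5, h6⟩
  have hfin : (df (ins k w.F) (ins k N)).Finite := by
    refine (hf.union (Set.finite_singleton r)).subset ?_
    intro x hx
    by_cases hxk : x ∈ k
    · by_cases hxr : x = r
      · exact Or.inr hxr
      · left
        refine ⟨hxk, fun e => hx ?_⟩
        rw [ins_apply hxk (h1 x hxk hxr).1, ins_apply hxk (hcon x hxk), e]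
    · exfalso
      apply hx
      rw [ins_of_notMem (fun h => hxk h.1), ins_of_notMem (fun h => hxk h.1)]
  obtain ⟨M', N', y, -, -, -, -, hyx, -, h⟩ := sd hN₁ hM₁ hfin (x := r) ((c1 r).2 hr.1)
    (fun h => ((c2 r).1 h).2 rfl)
  rcases h with ⟨h3, h4, -, -⟩ | ⟨h3, h4, -, -⟩
  · exact h4 ((c2 y).2 ⟨(c1 y).1 h3, hyx⟩)
  · exact h4 ((c1 y).2 ((c2 y).1 h3).1)

theorem parity_A (hw : IsWave G O U w) {k : Set V} (hk : k ∈ w.K) {N : V → V} (hN : IsM G N)
    (hU : ∀ x ∈ U, N x = x) (hf : {x | x ∈ k ∧ N x ≠ w.F x}.Finite) (hc : ∀ x ∈ k, N x ≠ x) :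
    ∃ x ∈ k, N x ∈ w.A := by
  obtain ⟨x, hx, hNx⟩ := parity hw hk hN hf hc
  refine ⟨x, hx, ?_⟩
  rcases hw.Kadj k hk x hx _ (hN.adj x (hc x hx)) with h | h | h
  · exact absurd h hNx
  · exact h
  · exfalso
    have := hU _ h
    rw [hN.inv] at this
    exact hc x hx this.symm

end Pool.Agent.H70A
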