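import Pool.Agent.Lib.H70A.W1
import Pool.Agent.Lib.H70A.W2

/-!
# H70A chunk W3: the counting lemma

PROOF. `S := {k ∈ w.K | ∃ x ∈ k, w.F x ∈ w.A}` (bodies whose root is matched to `A`). For `k ∈ S`
`parity_A` gives `g k ∈ k` with `N (g k) ∈ w.A`. `φ k := w.F (root of k)`, `ψ k := N (g k)`.
`φ : S → w.A` is bijective: `IsWave.A_apply`, injectivity of `w.F`, disjointness of the bodies (for
`k ∈ S` the vertex `x ∈ k` with `w.F x ∈ w.A` is the root, `IsWave.rt_of`, `rt_unique`). `ψ` is injective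
on `S` (injectivity of `N`, disjointness of bodies). If `k ∈ S` contains no vertex `x` with
`N x ≠ w.F x`, then `w.F (g k) = N (g k) ∈ A`, so `g k` is the root and `φ k = ψ k`; hence
`{k ∈ S | φ k ≠ ψ k}` is finite (map each such `k` to a vertex `x ∈ k` with `N x ≠ w.F x`: injective into
a finite set). By `pig` `ψ` is onto `w.A`.
(1) `a ∈ A`: `a = N (g k)`, so `N a = g k ∈ k`.
(2) Let `x ∈ k₀ ∈ w.K`, `w.F x = x`, and suppose `N` covers all of `k₀`. `parity_A` gives `y ∈ k₀` with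
`N y ∈ A`; by surjectivity `N y = N (g k)` with `k ∈ S`, so `y = g k` and `k = k₀ ∈ S`: the root of `k₀`
is matched to `A`; but `x` is the root and a fixed point (if `w.F x ∈ A` then `x ∈ A`, contradiction
with `KA`).
-/

namespace Pool.Agent.H70A

universe u

variable {V : Type u} {G : SimpleGraph V} {O U : Set V} {w : Wv V}

theorem count (hw : IsWave G O U w) {N : V → V} (hN : IsM G N) (hU : ∀ x ∈ U, N x = x)
    (hf : {x | x ∈ w.D ∧ N x ≠ w.F x}.Finite)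
    (hc : ∀ k ∈ w.K, (∃ x ∈ k, w.F x ∈ w.A) → ∀ x ∈ k, N x ≠ x) :
    (∀ a ∈ w.A, ∃ k ∈ w.K, (∃ x ∈ k, w.F x ∈ w.A) ∧ N a ∈ k) ∧
      ∀ k ∈ w.K, (∃ x ∈ k, w.F x = x) → ∃ x ∈ k, N x = x := by
  rcases isEmpty_or_nonempty V with hV | hV
  · exact ⟨fun a _ => hV.elim a, fun k _ hx => hV.elim hx.choose⟩
  set S : Set (Set V) := {k | k ∈ w.K ∧ ∃ x ∈ k, w.F x ∈ w.A} with hS
  have hfk : ∀ k ∈ w.K, {x | x ∈ k ∧ N x ≠ w.F x}.Finite := fun k hk =>
    hf.subset (fun x hx => ⟨⟨k, hk, hx.1⟩, hx.2⟩)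
  have hg : ∀ k, k ∈ S → ∃ x ∈ k, N x ∈ w.A := fun k hk =>
    parity_A hw hk.1 hN hU (hfk k hk.1) (hc k hk.1 hk.2)
  choose! g hgk hgA using hg
  have hr : ∀ k, k ∈ S → ∃ x ∈ k, w.F x ∈ w.A := fun k hk => hk.2
  choose! f hfk' hfA using hr
  have hfr : ∀ k ∈ S, w.IsRt k (f k) := fun k hk => hw.rt_of hk.1 (hfk' k hk) (Or.inl (hfA k hk))
  let φ : Set V → V := fun k => w.F (f k)
  let ψ : Set V → V := fun k => N (g k)
  have hφ : Set.BijOn φ S w.A := by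
    refine ⟨fun k hk => hfA k hk, ?_, ?_⟩
    · intro k hk k' hk' h
      have := hw.isM.inj h
      exact hw.KK k hk.1 k' hk'.1 (f k) (hfk' k hk) (by rw [this]; exact hfk' k' hk')
    · intro a ha
      obtain ⟨k, hk, h1, h2⟩ := hw.A_apply ha
      have hkS : k ∈ S := ⟨hk, w.F a, h1.1, by rw [hw.isM.inv]; exact ha⟩
      refine ⟨k, hkS, ?_⟩
      have : f k = w.F a := hw.rt_unique hk (hfr k hkS) h1
      show w.F (f k) = a
      rw [this, hw.isM.inv]
  have hψ : Set.InjOn ψ S := by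
    intro k hk k' hk' h
    have := hN.inj h
    exact hw.KK k hk.1 k' hk'.1 (g k) (hgk k hk) (by rw [this]; exact hgk k' hk')
  have hdiff : {k | k ∈ S ∧ φ k ≠ ψ k}.Finite := by
    have hx : ∀ k, (k ∈ S ∧ φ k ≠ ψ k) → N (g k) ≠ w.F (g k) := by
      intro k hk h
      have h1 : w.IsRt k (g k) := hw.rt_of hk.1.1 (hgk k hk.1)
        (Or.inl (by rw [← h]; exact hgA k hk.1))
      have h2 : f k = g k := hw.rt_unique hk.1.1 (hfr k hk.1) h1
      apply hk.2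
      show w.F (f k) = N (g k)
      rw [h2, h]
    refine Set.Finite.of_finite_image (f := g) (hf.subset ?_) ?_
    · rintro _ ⟨k, hk, rfl⟩
      exact ⟨⟨k, hk.1.1, hgk k hk.1⟩, hx k hk⟩
    · intro k hk k' hk' h
      exact hw.KK k hk.1.1 k' hk'.1.1 (g k) (hgk k hk.1) (by rw [h]; exact hgk k' hk'.1)
  have hsurj := pig hφ hψ (fun k hk => hgA k hk) hdiff
  constructor
  · intro a ha
    obtain ⟨k, hk, h⟩ := hsurj ha
    refine ⟨k, hk.1, hk.2, ?_⟩
    rw [← h]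
    show N (N (g k)) ∈ k
    rw [hN.inv]
    exact hgk k hk
  · rintro k₀ hk₀ ⟨x, hx, hFx⟩
    by_contra hcon
    push Not at hcon
    obtain ⟨y, hy, hyA⟩ := parity_A hw hk₀ hN hU (hfk k₀ hk₀) hcon
    obtain ⟨k, hk, h⟩ := hsurj hyA
    have hyk : g k = y := hN.inj h
    have hkk : k = k₀ := hw.KK k hk.1 k₀ hk₀ y (by rw [← hyk]; exact hgk k hk) hy
    subst hkk
    have h1 : w.IsRt k x := hw.rt_of hk₀ hx (Or.inr hFx)
    have h2 : f k = x := hw.rt_unique hk₀ (hfr k hk) h1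
    have h3 := hfA k hk
    rw [h2, hFx] at h3
    exact hw.KA k hk₀ x hx h3

end Pool.Agent.H70A
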