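import Pool.Agent.Lib.H70A.B8
import Pool.Agent.Lib.H70A.W3

/-!
# H70A chunk B9: the induced matching of the virtual graph, contradiction

PROOF of `mn_isM`. `Mn z` (definition below): `z ∉ Sl`: `z`. `z ∈ Sl`, `z ∈ Vt` clean: `wn.F z`. Otherwise, if
`M' z ∈ U j`: `M' z`. Otherwise (`z ∈ Out`, see `clz_Uj`), if `π z ∈ Out`, `π z ≠ z` and (`z ∉ OV` or `π z ∉ OV`): `π z`;
else `z`. Involution: `z ∈ Vt` clean: `wn.F z ∈ Vt` is clean (`dF`), in `Sl`. `M' z ∈ U j` (`z ∈ Sl` not clean `Vt`): `y = M' z` is in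
`Sl` (`M'` fixes `Rm` and is an involution), `y` is not a clean element of `Vt` (then `M' y = Mh y = Nw (de y) y ∉ U j`
by `m2`, `dm_self`, `nw_out`, but `M' y = z ∈ U j`), `M' y = z ∈ U j`, so `Mn y = z`. `π`-case: symmetric in
`z, π z`. Adjacency in `GV`: clean `Vt`: `wn.isM.adj`; `M' z`: `G.Adj`; `π`-case: `exists_pi` for the end not in
`OV` gives `Vrt` (symmetric), both in `U j`.
PROOF of `mn_cov`. `z ∈ wn.D` with `wn.F z ≠ z` or `z = h`: `z ∈ Sl`, `z ∉ OV` (`KO`), `z ∉ O`. Clean `Vt`: `wn.F z ≠ z`.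
Otherwise `Mh z ≠ z` or `z = h` (`mh_cov_slab`), so `M' z ≠ z` (`AugW`; `z ≠ o` since `o ∈ O`). If `M' z ∈ U j`:
`Mn z = M' z ≠ z`. If `M' z ∉ U j`: `z ∈ Out`, `z ∉ OV`: `π z ≠ z`, `π z ∈ Out`: `Mn z = π z`.
PROOF of `mn_fin`. `{z ∈ wn.D | Mn z ≠ wn.F z}` is contained in `df Mh M'` union the dirty elements of `Vt`: let
`M' z = Mh z`, `z ∈ Sl`. Clean: equal. `z ∈ Vt` dirty: allowed. `z ∉ Vt`: `M' z = Mh z = wn.F z ∈ Sl ⊆ U j` (also if
`wn.F z = z`), so `Mn z = M' z = wn.F z`.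
PROOF of `bs_false`. Choose everything (`exists_BW`, `exists_Bh`, `exists_Mh`, `mh_aug`, `exists_pi`) and
apply `count` to `wn` and `Mn` (`Mn` fixes the complement of `Sl`): for a body `k` whose root is matched all
`x ∈ k` are covered by `wn.F`, hence by `Mn`. For the body `k ∋ h`: all `x ∈ k`, `x ≠ h` are covered by `wn.F`
(`h` is the root), so all `x ∈ k` are covered by `Mn`, contradicting the second statement of `count`.
-/

namespace Pool.Agent.H70A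

open Cardinal Order

universe u

variable {ι : Type u} [LinearOrder ι] [WellFoundedLT ι] [SuccOrder ι] [NoMaxOrder ι] {V : Type u}
  {G : SimpleGraph V} {O : Set V} {U : ι → Set V} {w : ι → Wv V} {i j : ι} {S : Set V}
  {wn : Wv V} {h : V} {de : V → ι} {Nw : ι → V → V}

open Classical in
/-- The matching of the virtual graph induced by `M'`. -/
noncomputable def Mn (G : SimpleGraph V) (O : Set V) (U : ι → Set V) (w : ι → Wv V) (i j : ι)
    (S : Set V) (wn : Wv V) (de : V → ι) (Nw : ι → V → V) (Mh M' π : V → V) : V → V := fun z =>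
  if z ∉ Sl U w i j S then z
  else if z ∈ Vt G wn ∧ Cln w de Nw Mh M' z then wn.F z
  else if M' z ∈ U j then M' z
  else if π z ∈ Out G U w i j S wn de Nw Mh M' ∧ π z ≠ z ∧
    (z ∉ OV G O U w j ∨ π z ∉ OV G O U w j) then π z else z

theorem b9_out {Mh M' π : V → V} {z : V} (hz : z ∉ Sl U w i j S) :
    Mn G O U w i j S wn de Nw Mh M' π z = z := by
  classical
  exact if_pos hz

theorem b9_cl {Mh M' π : V → V} {z : V} (hz : z ∈ Sl U w i j S)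
    (h1 : z ∈ Vt G wn ∧ Cln w de Nw Mh M' z) :
    Mn G O U w i j S wn de Nw Mh M' π z = wn.F z := by
  classical
  exact (if_neg (not_not.2 hz)).trans (if_pos h1)

theorem b9_M {Mh M' π : V → V} {z : V} (hz : z ∈ Sl U w i j S)
    (h1 : ¬ (z ∈ Vt G wn ∧ Cln w de Nw Mh M' z)) (h2 : M' z ∈ U j) :
    Mn G O U w i j S wn de Nw Mh M' π z = M' z := by
  classical
  exact (if_neg (not_not.2 hz)).trans ((if_neg h1).trans (if_pos h2))

theorem b9_pi {Mh M' π : V → V} {z : V} (hz : z ∈ Sl U w i j S)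
    (h1 : ¬ (z ∈ Vt G wn ∧ Cln w de Nw Mh M' z)) (h2 : M' z ∉ U j)
    (h3 : π z ∈ Out G U w i j S wn de Nw Mh M' ∧ π z ≠ z ∧
      (z ∉ OV G O U w j ∨ π z ∉ OV G O U w j)) :
    Mn G O U w i j S wn de Nw Mh M' π z = π z := by
  classical
  exact (if_neg (not_not.2 hz)).trans ((if_neg h1).trans ((if_neg h2).trans (if_pos h3)))

theorem b9_no {Mh M' π : V → V} {z : V} (hz : z ∈ Sl U w i j S)
    (h1 : ¬ (z ∈ Vt G wn ∧ Cln w de Nw Mh M' z)) (h2 : M' z ∉ U j)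
    (h3 : ¬ (π z ∈ Out G U w i j S wn de Nw Mh M' ∧ π z ≠ z ∧
      (z ∉ OV G O U w j ∨ π z ∉ OV G O U w j))) :
    Mn G O U w i j S wn de Nw Mh M' π z = z := by
  classical
  exact (if_neg (not_not.2 hz)).trans ((if_neg h1).trans ((if_neg h2).trans (if_neg h3)))

theorem b9_cln_F (hW : BW G U w i j wn de Nw) {Mh M' : V → V} {x : V} (hx : x ∈ Vt G wn)
    (hc : Cln w de Nw Mh M' x) : Cln w de Nw Mh M' (wn.F x) := by
  intro y hy
  refine hc y ?_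
  unfold Dm at hy ⊢
  rwa [hW.dF x hx] at hy

theorem mn_isM (hB : BS G O U w i j S wn h) (hW : BW G U w i j wn de Nw) {Bh Mh M' π : V → V}
    (hb : BhP G U w j wn de Nw Bh) (hM : MhP G U w i j S wn de Nw Mh)
    (ha : AugW G O (Rm U w i S) Mh h M') (hπ : ∀ y, π (π y) = y)
    (hπ' : ∀ y ∈ Out G U w i j S wn de Nw Mh M', y ∉ OV G O U w j → π y ≠ y ∧
      π y ∈ Out G U w i j S wn de Nw Mh M' ∧ Vrt G (w j) y (π y)) :
    IsM (GV G O U w j) (Mn G O U w i j S wn de Nw Mh M' π) := by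
  have hMSl : ∀ z ∈ Sl U w i j S, M' z ∈ U j → M' z ∈ Sl U w i j S := by
    intro z hz h1
    refine ⟨h1, fun h2 => hz.2 ?_⟩
    have h3 := aug_fix hB hW hM ha h2
    rw [ha.1.inv] at h3
    rw [h3]
    exact h2
  have hncl : ∀ z ∈ Sl U w i j S, M' z ∈ U j →
      ¬ (M' z ∈ Vt G wn ∧ Cln w de Nw Mh M' (M' z)) := by
    rintro z hz h1 ⟨h2, h3⟩
    have h4 := h3 _ (dm_self hB hW h2)
    have h5 := hMSl z hz h1
    rw [ha.1.inv, hM.m2 _ h2 _ (dm_self hB hW h2) (fun h => h5.2 (Or.inl (Or.inr h)))] at h4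
    exact nw_out hB hW h2 (h4 ▸ hz.1)
  have hOut : ∀ z, z ∈ Out G U w i j S wn de Nw Mh M' → z ∈ Sl U w i j S ∧
      ¬ (z ∈ Vt G wn ∧ Cln w de Nw Mh M' z) ∧ M' z ∉ U j := fun z hz =>
    ⟨hz.1, fun h => hz.2.1 ((clz_Uj hB hW hz.1.1).2 h), hz.2.2⟩
  have hOut' : ∀ z, z ∈ Sl U w i j S → ¬ (z ∈ Vt G wn ∧ Cln w de Nw Mh M' z) → M' z ∉ U j →
      z ∈ Out G U w i j S wn de Nw Mh M' := fun z h1 h2 h3 =>
    ⟨h1, fun h => h2 ((clz_Uj hB hW h1.1).1 h), h3⟩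
  refine ⟨fun z => ?_, fun z hz => ?_⟩
  · by_cases h0 : z ∈ Sl U w i j S
    swap
    · rw [b9_out h0, b9_out h0]
    by_cases h1 : z ∈ Vt G wn ∧ Cln w de Nw Mh M' z
    · rw [b9_cl h0 h1, b9_cl (b7_F_Sl hB h0) ⟨(vt_facts hB h1.1).2.2.1, b9_cln_F hW h1.1 h1.2⟩,
        hB.wave.isM.inv]
    by_cases h2 : M' z ∈ U j
    · rw [b9_M h0 h1 h2, b9_M (hMSl z h0 h2) (hncl z h0 h2) (by rw [ha.1.inv]; exact h0.1),
        ha.1.inv]
    by_cases h3 : π z ∈ Out G U w i j S wn de Nw Mh M' ∧ π z ≠ z ∧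
      (z ∉ OV G O U w j ∨ π z ∉ OV G O U w j)
    · obtain ⟨h4, h5, h6⟩ := hOut _ h3.1
      rw [b9_pi h0 h1 h2 h3, b9_pi h4 h5 h6 (by
        rw [hπ]
        exact ⟨hOut' z h0 h1 h2, h3.2.1.symm, h3.2.2.symm⟩), hπ]
    · rw [b9_no h0 h1 h2 h3, b9_no h0 h1 h2 h3]
  · by_cases h0 : z ∈ Sl U w i j S
    swap
    · exact absurd (b9_out h0) hz
    by_cases h1 : z ∈ Vt G wn ∧ Cln w de Nw Mh M' z
    · rw [b9_cl h0 h1] at hz ⊢
      exact hB.wave.isM.adj z hz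
    by_cases h2 : M' z ∈ U j
    · rw [b9_M h0 h1 h2] at hz ⊢
      exact Or.inl (ha.1.adj z hz)
    by_cases h3 : π z ∈ Out G U w i j S wn de Nw Mh M' ∧ π z ≠ z ∧
      (z ∉ OV G O U w j ∨ π z ∉ OV G O U w j)
    · rw [b9_pi h0 h1 h2 h3]
      refine Or.inr ⟨?_, h0.1, (hOut _ h3.1).1.1, h3.2.2⟩
      rcases h3.2.2 with h4 | h4
      · exact (hπ' z (hOut' z h0 h1 h2) h4).2.2
      · have h5 := (hπ' (π z) h3.1 h4).2.2
        rw [hπ] at h5
        exact h5.symm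
    · exact absurd (b9_no h0 h1 h2 h3) hz

theorem mn_cov (hB : BS G O U w i j S wn h) (hW : BW G U w i j wn de Nw) {Bh Mh M' π : V → V}
    (hb : BhP G U w j wn de Nw Bh) (hM : MhP G U w i j S wn de Nw Mh)
    (ha : AugW G O (Rm U w i S) Mh h M')
    (hπ' : ∀ y ∈ Out G U w i j S wn de Nw Mh M', y ∉ OV G O U w j → π y ≠ y ∧
      π y ∈ Out G U w i j S wn de Nw Mh M' ∧ Vrt G (w j) y (π y)) {z : V} (hz : z ∈ wn.D)
    (hz' : wn.F z ≠ z ∨ z = h) : Mn G O U w i j S wn de Nw Mh M' π z ≠ z := by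
  have hzX : z ∈ wn.X := IsWave.D_subset_X hz
  have h0 : z ∈ Sl U w i j S := not_not.1 (hB.wave.disjU _ hzX)
  have hOV : z ∉ OV G O U w j := by
    obtain ⟨k, hk, hzk⟩ := hz
    exact hB.wave.KO k hk z hzk
  by_cases h1 : z ∈ Vt G wn ∧ Cln w de Nw Mh M' z
  · rw [b9_cl h0 h1]
    exact h1.1.1
  have hM' : M' z ≠ z := by
    have h3 : z ∈ cov Mh ∨ z = h := by
      rcases hz' with h4 | h4
      · exact Or.inl fun h5 => h4 ((mh_cov_slab hB hW hM h0).1 h5)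
      · exact Or.inr h4
    obtain ⟨-, -, ⟨s, -, -, -, h4⟩ | ⟨o, ho, -, h4⟩⟩ := ha
    · refine (h4 z).2 ?_
      rcases h3 with h3 | h3
      · exact Or.inl h3
      · exact Or.inr (Or.inl h3)
    · exact (h4 z).2 ⟨h3, fun e => hOV (Or.inl (e ▸ ho))⟩
  by_cases h2 : M' z ∈ U j
  · rw [b9_M h0 h1 h2]
    exact hM'
  · have h3 : z ∈ Out G U w i j S wn de Nw Mh M' :=
      ⟨h0, fun h => h1 ((clz_Uj hB hW h0.1).1 h), h2⟩
    obtain ⟨h4, h5, -⟩ := hπ' z h3 hOV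
    rw [b9_pi h0 h1 h2 ⟨h5, h4, Or.inl hOV⟩]
    exact h4

theorem mn_fin (hB : BS G O U w i j S wn h) (hW : BW G U w i j wn de Nw) {Mh M' π : V → V}
    (hM : MhP G U w i j S wn de Nw Mh) (ha : AugW G O (Rm U w i S) Mh h M') :
    {z | z ∈ wn.D ∧ Mn G O U w i j S wn de Nw Mh M' π z ≠ wn.F z}.Finite := by
  refine (ha.2.1.union (dirty_fin hB hW hM ha)).subset ?_
  rintro z ⟨hz, hne⟩
  have h0 : z ∈ Sl U w i j S := not_not.1 (hB.wave.disjU _ (IsWave.D_subset_X hz))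
  by_cases h1 : z ∈ df Mh M'
  · exact Or.inl h1
  right
  rw [notMem_df] at h1
  have h2 : ¬ (z ∈ Vt G wn ∧ Cln w de Nw Mh M' z) := fun h => hne (b9_cl h0 h)
  by_cases h3 : z ∈ Vt G wn
  · exact ⟨h3, fun h => h2 ⟨h3, h⟩⟩
  · exfalso
    have h4 : M' z = wn.F z := by rw [← h1, hM.m1 z h0 h3]
    exact hne (by rw [b9_M h0 h2 (by rw [h4]; exact (b7_F_Sl hB h0).1), h4])

theorem bs_false (hι : RegIdx ι) (hB : BS G O U w i j S wn h) : False := by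
  obtain ⟨de, Nw, hW⟩ := exists_BW hι hB
  obtain ⟨Bh, hb⟩ := exists_Bh hB hW
  obtain ⟨Mh, hM⟩ := exists_Mh hB hW
  obtain ⟨M', ha⟩ := mh_aug hB hW hM
  obtain ⟨π, hπ, hπ'⟩ := exists_pi hB hW hb hM ha
  have hwn := hB.wave
  have hc := count hwn (mn_isM hB hW hb hM ha hπ hπ') (fun x hx => b9_out hx)
    (mn_fin hB hW hM ha) (by
      rintro k hk ⟨x, hx, hxA⟩ y hy
      refine mn_cov hB hW hb hM ha hπ' ⟨k, hk, hy⟩ (Or.inl ?_)
      have hr : wn.IsRt k x := hwn.rt_of hk hx (Or.inl hxA)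
      by_cases hyx : y = x
      · rw [hyx]
        exact fun h => hwn.KA k hk x hx (h ▸ hxA)
      · exact (hwn.body_apply hk hr hy hyx).2)
  obtain ⟨k, hk, hhk⟩ := hB.hD
  obtain ⟨x, hx, hxM⟩ := hc.2 k hk ⟨h, hhk, hB.hF⟩
  refine mn_cov hB hW hb hM ha hπ' ⟨k, hk, hx⟩ ?_ hxM
  by_cases hxh : x = h
  · exact Or.inr hxh
  · exact Or.inl (hwn.body_apply hk ⟨hhk, Or.inr hB.hF⟩ hx hxh).2

end Pool.Agent.H70A
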