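import Mathlib

/-!
# H70A: index orders (regular uncountable cardinals)
-/

namespace Pool.Agent.H70A

open Cardinal Order

universe u

/-- `ι` is a well-order of regular uncountable cofinality = cardinality. -/
structure RegIdx (ι : Type u) [LinearOrder ι] : Prop where
  reg : (#ι).IsRegular
  unc : ℵ₀ < #ι
  small : ∀ i : ι, #(Set.Iio i) < #ι
  bdd : ∀ s : Set ι, #s < #ι → ∃ b, ∀ x ∈ s, x < b

/-- The club of closure points of `f`. -/
def Cl {ι : Type u} [LT ι] (f : ι → ι) : Set ι := {i | ∀ j, j < i → f j < i}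

theorem mem_Cl {ι : Type u} [LT ι] {f : ι → ι} {i : ι} : i ∈ Cl f ↔ ∀ j, j < i → f j < i := Iff.rfl

theorem Cl_mono {ι : Type u} [LinearOrder ι] {f g : ι → ι} (h : ∀ j, f j ≤ g j) : Cl g ⊆ Cl f :=
  fun _ hi j hj => (h j).trans_lt (hi j hj)

/-- A small increasing continuous chain of sets. -/
structure Chn {ι : Type u} [LinearOrder ι] [SuccOrder ι] {V : Type u} (U : ι → Set V) : Prop where
  mono : ∀ i j, i ≤ j → U i ⊆ U j
  cont : ∀ i, ∀ x ∈ U i, ∃ j, j < i ∧ x ∈ U (succ j)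
  small : ∀ i, #(U i) < #ι

end Pool.Agent.H70A
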