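import Pool.Agent.Lib.H70A.C0

/-!
# H70A chunk C1: existence of the index order

PROOF. `ι = κ.ord.ToType`, with Mathlib's instances (`LinearOrder`, `WellFoundedLT`, `SuccOrder`);
`NoMaxOrder` because `κ.ord` is a limit ordinal. `#ι = κ` (`mk_ord_toType`). `small`: initial segments of
`κ.ord.ToType` have fewer than `κ` elements (e.g. `Cardinal.mk_Iio_ord_toType`). `bdd`: a set of fewer
than `κ = cof κ.ord` elements is not cofinal (`Ordinal.cof`, `Cardinal.IsRegular.cof_ord`,
`Order.cof_le`); a non-cofinal set has a strict upper bound in a linear order.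
-/

namespace Pool.Agent.H70A

open Cardinal Order

universe u

theorem exists_idx (κ : Cardinal.{u}) (hκ : κ.IsRegular) (hu : ℵ₀ < κ) :
    ∃ (ι : Type u) (i1 : LinearOrder ι) (_ : WellFoundedLT ι) (_ : SuccOrder ι)
      (_ : NoMaxOrder ι), RegIdx ι ∧ #ι = κ := by
  refine ⟨κ.ord.ToType, inferInstance, inferInstance, SuccOrder.ofLinearWellFoundedLT _,
    Cardinal.noMaxOrder hκ.aleph0_le, ⟨?_, ?_, ?_, ?_⟩, mk_ord_toType κ⟩
  · rw [mk_ord_toType]; exact hκ
  · rw [mk_ord_toType]; exact hu
  · intro i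
    refine mk_Iio_lt i ?_
    rw [mk_ord_toType, Ordinal.type_toType]
  · intro s hs
    rw [mk_ord_toType] at hs
    have h1 : ¬ IsCofinal s := by
      intro h
      have h2 := Order.cof_le h
      rw [Ordinal.cof_toType, hκ.cof_ord] at h2
      exact hs.not_ge h2
    exact not_isCofinal_iff.mp h1

end Pool.Agent.H70A
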