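import Pool.Agent.Lib.H70A.C0

/-!
# H70A chunk C2: clubs

PROOFS.
* `cl_unbdd`. For each `j` the set `{f l | l ≤ j} ∪ {j}` has fewer than `#ι` elements (`RegIdx.small` and
  infinity), so is bounded by some `g j`: `f l < g j` for `l ≤ j`, `j < g j`. Let `a 0 = i`,
  `a (n+1) = g (a n)`. The set of all `a n` is countable, so bounded; let `j` be the least element with
  `a n < j` for all `n`. For `l < j` there is `n` with `l ≤ a n` (minimality), so
  `f l < g (a n) = a (n+1) < j`.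
* `diag`. Let `h j` be a strict upper bound of the small set `{f p l | p ∈ U (succ j), l ≤ j}`. If
  `i ∈ Cl h`, `p ∈ U i`, `l < i`: choose `j < i` with `p ∈ U (succ j)` (`cont`), `m = max j l < i`;
  `p ∈ U (succ m)`, so `f p l < h m < i`.
* `diag1`, `diag2`: similarly with `h j` a strict upper bound of `{g p | p ∈ U (succ j)}`,
  `{g p q | p, q ∈ U (succ j)}`.
-/

namespace Pool.Agent.H70A

open Cardinal Order

universe u

variable {ι : Type u} [LinearOrder ι] [WellFoundedLT ι] [SuccOrder ι] [NoMaxOrder ι] {V : Type u}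

theorem c2_bdd2 (hι : RegIdx ι) {A B : Type u} {s : Set A} {t : Set B} (hs : #s < #ι) (ht : #t < #ι)
    (f : A → B → ι) : ∃ b, ∀ x ∈ s, ∀ y ∈ t, f x y < b := by
  obtain ⟨b, hb⟩ := hι.bdd (Set.range fun z : s × t => f z.1 z.2) (by
    refine mk_range_le.trans_lt ?_
    rw [mk_prod, lift_id, lift_id]
    exact mul_lt_of_lt hι.reg.aleph0_le hs ht)
  exact ⟨b, fun x hx y hy => hb _ ⟨(⟨x, hx⟩, ⟨y, hy⟩), rfl⟩⟩

theorem c2_bdd1 (hι : RegIdx ι) {A : Type u} {s : Set A} (hs : #s < #ι)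
    (f : A → ι) : ∃ b, ∀ x ∈ s, f x < b := by
  obtain ⟨b, hb⟩ := hι.bdd (Set.range fun z : s => f z) (mk_range_le.trans_lt hs)
  exact ⟨b, fun x hx => hb _ ⟨⟨x, hx⟩, rfl⟩⟩

theorem c2_Iic (hι : RegIdx ι) (j : ι) : #(Set.Iic j) < #ι := by
  refine lt_of_le_of_lt (mk_le_mk_of_subset ?_) (hι.small (succ j))
  intro x hx
  exact lt_of_le_of_lt hx (lt_succ j)

theorem cl_unbdd (hι : RegIdx ι) (f : ι → ι) (i : ι) : ∃ j ∈ Cl f, i < j := by
  have h1 : ∀ j : ι, ∃ b, (∀ l, l ≤ j → f l < b) ∧ j < b := by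
    intro j
    obtain ⟨b, hb⟩ := c2_bdd1 hι (c2_Iic hι j) f
    exact ⟨max b (succ j), fun l hl => (hb l hl).trans_le (le_max_left _ _),
      (lt_succ j).trans_le (le_max_right _ _)⟩
  choose g hg1 hg2 using h1
  let a : ℕ → ι := fun n => Nat.rec i (fun _ x => g x) n
  have ha : ∀ n, a (n + 1) = g (a n) := fun n => rfl
  obtain ⟨b, hb⟩ := hι.bdd (Set.range fun n : ULift.{u} ℕ => a n.down) (by
    refine mk_range_le.trans_lt ?_
    rw [mk_uLift, mk_nat, lift_aleph0]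
    exact hι.unc)
  have hne : {j : ι | ∀ n, a n < j}.Nonempty := ⟨b, fun n => hb _ ⟨⟨n⟩, rfl⟩⟩
  obtain ⟨j, hj, hmin⟩ := (wellFounded_lt (α := ι)).has_min _ hne
  refine ⟨j, ?_, hj 0⟩
  intro l hl
  have h2 : ¬ ∀ n, a n < l := fun h => hmin l h hl
  push Not at h2
  obtain ⟨n, hn⟩ := h2
  have h3 := hg1 (a n) l hn
  rw [← ha] at h3
  exact h3.trans (hj (n + 1))

theorem diag (hι : RegIdx ι) {U : ι → Set V} (hU : Chn U) (f : V → ι → ι) :
    ∃ h : ι → ι, ∀ i ∈ Cl h, ∀ p ∈ U i, i ∈ Cl (f p) := by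
  have h1 : ∀ j : ι, ∃ b, ∀ p ∈ U (succ j), ∀ l ∈ Set.Iic j, f p l < b := fun j =>
    c2_bdd2 hι (hU.small _) (c2_Iic hι j) f
  choose h hh using h1
  refine ⟨h, fun i hi p hp l hl => ?_⟩
  obtain ⟨j, hj, hpj⟩ := hU.cont i p hp
  have hm : max j l < i := max_lt hj hl
  exact (hh (max j l) p (hU.mono _ _ (succ_le_succ (le_max_left j l)) hpj) l
    (le_max_right j l)).trans (hi _ hm)

theorem diag1 (hι : RegIdx ι) {U : ι → Set V} (hU : Chn U) (g : V → ι) :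
    ∃ h : ι → ι, ∀ i ∈ Cl h, ∀ p ∈ U i, g p < i := by
  have h1 : ∀ j : ι, ∃ b, ∀ p ∈ U (succ j), g p < b := fun j => c2_bdd1 hι (hU.small _) g
  choose h hh using h1
  refine ⟨h, fun i hi p hp => ?_⟩
  obtain ⟨j, hj, hpj⟩ := hU.cont i p hp
  exact (hh j p hpj).trans (hi _ hj)

theorem diag2 (hι : RegIdx ι) {U : ι → Set V} (hU : Chn U) (g : V → V → ι) :
    ∃ h : ι → ι, ∀ i ∈ Cl h, ∀ p ∈ U i, ∀ q ∈ U i, g p q < i := by
  have h1 : ∀ j : ι, ∃ b, ∀ p ∈ U (succ j), ∀ q ∈ U (succ j), g p q < b := fun j =>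
    c2_bdd2 hι (hU.small _) (hU.small _) g
  choose h hh using h1
  refine ⟨h, fun i hi p hp q hq => ?_⟩
  obtain ⟨j, hj, hpj⟩ := hU.cont i p hp
  obtain ⟨k, hk, hqk⟩ := hU.cont i q hq
  exact (hh (max j k) p (hU.mono _ _ (succ_le_succ (le_max_left j k)) hpj) q
    (hU.mono _ _ (succ_le_succ (le_max_right j k)) hqk)).trans (hi _ (max_lt hj hk))

end Pool.Agent.H70A
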