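import Pool.Agent.Lib.H70A.C2

/-!
# H70A chunk C3: normal enumeration of a club

PROOF. By well-founded recursion `c i` = the least `m ∈ Cl g` with `c j < m` for all `j < i` (it exists:
`{c j | j < i}` is small, so bounded by `b`, and `cl_unbdd` gives `m ∈ Cl g` above `b`). Then `c` is
strictly monotone. Third property: let `l < c i` and suppose `c (succ j) ≤ l` for all `j < i`. Let `m` be the
least element with `c (succ j) ≤ m` for all `j < i` (or `j < i → c (succ j) ≤ m`); `m ≤ l < c i`. `m ∈ Cl g`: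
for `t < m` there is `j < i` with `t < c (succ j)` (minimality), so `g t < c (succ j) ≤ m`. And
`c j < c (succ j) ≤ m` for `j < i`. This contradicts the minimality of `c i`.
-/

namespace Pool.Agent.H70A

open Cardinal Order

universe u

variable {ι : Type u} [LinearOrder ι] [WellFoundedLT ι] [SuccOrder ι] [NoMaxOrder ι]

theorem c3_exists (hι : RegIdx ι) (g : ι → ι) (i : ι) (c : ∀ j, j < i → ι) :
    {m : ι | m ∈ Cl g ∧ ∀ j (hj : j < i), c j hj < m}.Nonempty := by
  obtain ⟨b, hb⟩ := hι.bdd (Set.range fun z : Set.Iio i => c z z.2)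
    (mk_range_le.trans_lt (hι.small i))
  obtain ⟨m, hm, hbm⟩ := cl_unbdd hι g b
  exact ⟨m, hm, fun j hj => (hb _ ⟨⟨j, hj⟩, rfl⟩).trans hbm⟩

theorem exists_enum (hι : RegIdx ι) (g : ι → ι) :
    ∃ c : ι → ι, StrictMono c ∧ (∀ i, c i ∈ Cl g) ∧
      ∀ i l, l < c i → ∃ j, j < i ∧ l < c (succ j) := by
  let c : ι → ι := (wellFounded_lt (α := ι)).fix fun i rec =>
    (wellFounded_lt (α := ι)).min _ (c3_exists hι g i rec)
  have hc : ∀ i, c i = (wellFounded_lt (α := ι)).min _ (c3_exists hι g i fun j _ => c j) :=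
    fun i => (wellFounded_lt (α := ι)).fix_eq _ i
  have h1 : ∀ i, c i ∈ Cl g ∧ ∀ j, j < i → c j < c i := by
    intro i
    have h2 := (wellFounded_lt (α := ι)).min_mem _ (c3_exists hι g i fun j _ => c j)
    rw [← hc i] at h2
    exact h2
  have h3 : ∀ i m, m ∈ Cl g → (∀ j, j < i → c j < m) → ¬ m < c i := by
    intro i m hm hj
    have h2 := (wellFounded_lt (α := ι)).not_lt_min (x := m) (s := _)
      (show m ∈ {m : ι | m ∈ Cl g ∧ ∀ j (_ : j < i), c j < m} from ⟨hm, hj⟩)
    rw [hc i]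
    exact h2
  refine ⟨c, fun j i hji => (h1 i).2 j hji, fun i => (h1 i).1, ?_⟩
  intro i l hl
  by_contra hcon
  push Not at hcon
  obtain ⟨m, hm, hmin⟩ := (wellFounded_lt (α := ι)).has_min
    {m : ι | ∀ j, j < i → c (succ j) ≤ m} ⟨l, hcon⟩
  have hml : m ≤ l := le_of_not_gt fun h => hmin l hcon h
  refine h3 i m ?_ ?_ (hml.trans_lt hl)
  · intro t ht
    have h4 : ¬ ∀ j, j < i → c (succ j) ≤ t := fun h => hmin t h ht
    push Not at h4
    obtain ⟨j, hj, htj⟩ := h4
    exact ((h1 (succ j)).1 t htj).trans_le (hm j hj)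
  · intro j hj
    exact ((h1 (succ j)).2 j (lt_succ j)).trans_le (hm j hj)

end Pool.Agent.H70A
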