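import Pool.Agent.Lib.H70A.C0

/-!
# H70A chunk C5: closure under unary functions, small unions

PROOFS.
* `clo_card`: the set `T` of all `φ₁ (φ₂ (... (φₙ x)))` with `φᵢ ∈ Φ`, `x ∈ S`, i.e. the range of
  `List Φ × S → V`, `(l, x) ↦ l.foldr (fun φ y => φ.1 y) x`, contains `S` and is closed under `Φ`, so
  contains `clo Φ S`; `#(List Φ) ≤ max ℵ₀ #Φ`, and the product of two cardinals `< κ` is `< κ` for
  infinite `κ`.
* `small_iUnion`: `Cardinal.mk_iUnion_le_sum_mk`, `Cardinal.sum_lt_lift_of_isRegular` or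
  `Cardinal.iSup_lt_of_isRegular`.
-/

namespace Pool.Agent.H70A

open Cardinal Order

universe u

variable {V : Type u}

/-- The closure of `S` under the functions in `Φ`. -/
def clo (Φ : Set (V → V)) (S : Set V) : Set V := ⋂₀ {T | S ⊆ T ∧ ∀ φ ∈ Φ, ∀ x ∈ T, φ x ∈ T}

theorem subset_clo (Φ : Set (V → V)) (S : Set V) : S ⊆ clo Φ S :=
  fun _ hx _ hT => hT.1 hx

theorem clo_closed (Φ : Set (V → V)) (S : Set V) {φ : V → V} (hφ : φ ∈ Φ) {x : V}
    (hx : x ∈ clo Φ S) : φ x ∈ clo Φ S :=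
  fun T hT => hT.2 φ hφ x (hx T hT)

theorem c5_union {κ : Cardinal.{u}} (hκ : ℵ₀ ≤ κ) {S T : Set V} (hS : #S < κ)
    (hT : #T < κ) : #(S ∪ T : Set V) < κ :=
  lt_of_le_of_lt (Cardinal.mk_union_le S T) (Cardinal.add_lt_of_lt hκ hS hT)

theorem clo_card {κ : Cardinal.{u}} (hκ : ℵ₀ < κ) {Φ : Set (V → V)} {S : Set V} (hΦ : #Φ < κ)
    (hS : #S < κ) : #(clo Φ S) < κ := by
  classical
  let g : List Φ × S → V := fun p => p.1.foldr (fun φ y => φ.1 y) p.2.1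
  have h1 : clo Φ S ⊆ Set.range g := by
    intro x hx
    refine hx (Set.range g) ⟨?_, ?_⟩
    · intro y hy
      exact ⟨([], ⟨y, hy⟩), rfl⟩
    · rintro φ hφ y ⟨⟨l, s⟩, rfl⟩
      exact ⟨(⟨φ, hφ⟩ :: l, s), rfl⟩
  have h2 : #(List Φ) < κ := by
    refine lt_of_le_of_lt (Cardinal.mk_list_le_max _) ?_
    exact max_lt hκ hΦ
  have h3 : #(List Φ × S) < κ := by
    rw [Cardinal.mk_prod, Cardinal.lift_id, Cardinal.lift_id]
    exact Cardinal.mul_lt_of_lt hκ.le h2 hS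
  exact lt_of_le_of_lt (Cardinal.mk_le_mk_of_subset h1) (lt_of_le_of_lt Cardinal.mk_range_le h3)

theorem small_iUnion {ι : Type u} [LinearOrder ι] (hι : RegIdx ι) {J : Type u} (hJ : #J < #ι)
    (s : J → Set V) (hs : ∀ j, #(s j) < #ι) : #(⋃ j, s j : Set V) < #ι :=
  (Cardinal.card_iUnion_lt_iff_forall_of_isRegular hι.reg hJ).2 hs

theorem small_biUnion {ι : Type u} [LinearOrder ι] (hι : RegIdx ι) {T : Set V} (hT : #T < #ι)
    (s : V → Set V) (hs : ∀ j ∈ T, #(s j) < #ι) : #(⋃ j ∈ T, s j : Set V) < #ι :=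
  (Cardinal.card_biUnion_lt_iff_forall_of_isRegular hι.reg hT).2 hs

theorem small_union {ι : Type u} [LinearOrder ι] (hι : RegIdx ι) {S T : Set V} (hS : #S < #ι)
    (hT : #T < #ι) : #(S ∪ T : Set V) < #ι :=
  c5_union hι.unc.le hS hT

theorem small_finite {ι : Type u} [LinearOrder ι] (hι : RegIdx ι) {S : Set V} (hS : S.Finite) :
    #S < #ι :=
  lt_of_le_of_lt (Cardinal.le_aleph0_iff_set_countable.2 hS.countable) hι.unc

end Pool.Agent.H70A
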