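import Pool.Agent.Lib.H70A.C4

/-!
# H70A chunk C6: popular vertices

PROOF. Call `p` popular if for every `f` there is `i ∈ Cl f` with `i ∈ S`, `p ∈ U i`, `E i p`. For each
nonpopular `p` choose `f p` such that no `i ∈ Cl (f p)` has these properties (for popular `p` let `f p` be
arbitrary). `diag` gives `h` with: `i ∈ Cl h`, `p ∈ U i` implies `i ∈ Cl (f p)`. Put `S' = S ∩ Cl h`,
nonempty by the hypothesis; `P` = set of popular `p`. If `i ∈ S'`, `p ∈ U i`, `E i p`, then `p` is popular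
(otherwise `i ∈ Cl (f p)` contradicts the choice).
For popular `p` and any `b` there is `i > b` in `S'` with `p ∈ U i`, `E i p`: apply popularity to
`fun j => max (h j) b`: `i ∈ Cl h` (`Cl_mono`), and since `p ∈ U i` there is `j < i` (`cont`), so `b < i`.
In particular popular vertices are in `⋃ i, U i`. With `X = P` (a subtype), `φ` from `inj_of_union`,
`inj_choice` gives an injective `e` on `P`; extend it to `V` arbitrarily.
-/

namespace Pool.Agent.H70A

open Cardinal Order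

universe u

variable {ι : Type u} [LinearOrder ι] [WellFoundedLT ι] [SuccOrder ι] [NoMaxOrder ι] {V : Type u}

theorem popular (hι : RegIdx ι) {U : ι → Set V} (hU : Chn U) {S : Set ι}
    (hS : ∀ f : ι → ι, ∃ i ∈ Cl f, i ∈ S) (E : ι → V → Prop) :
    ∃ (S' : Set ι) (P : Set V) (α : V → ι), S' ⊆ S ∧ S'.Nonempty ∧
      (∀ i ∈ S', ∀ p ∈ U i, E i p → p ∈ P) ∧
      (∀ p ∈ P, α p ∈ S' ∧ p ∈ U (α p) ∧ E (α p) p) ∧ Set.InjOn α P := by
  classical
  let Q : V → (ι → ι) → Prop := fun p f => ∃ i ∈ Cl f, i ∈ S ∧ p ∈ U i ∧ E i p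
  let F : V → ι → ι := fun p => if h : ∃ f, ¬ Q p f then h.choose else id
  obtain ⟨h, hh⟩ := diag hι hU F
  let S' : Set ι := {i | i ∈ S ∧ i ∈ Cl h}
  let P : Set V := {p | ∀ f, Q p f}
  have key : ∀ p ∈ P, ∀ b : ι, ∃ i ∈ {i | i ∈ S' ∧ p ∈ U i ∧ E i p}, b < i := by
    intro p hp b
    obtain ⟨i, hi, hiS, hiU, hiE⟩ := hp (fun j => max (h j) b)
    obtain ⟨j, hj, -⟩ := hU.cont i p hiU
    exact ⟨i, ⟨⟨hiS, Cl_mono (fun j => le_max_left (h j) b) hi⟩, hiU, hiE⟩,
      (le_max_right (h j) b).trans_lt (hi j hj)⟩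
  obtain ⟨i₀, hi₀, hi₀S⟩ := hS h
  have hPU : ∀ p : P, (p : V) ∈ ⋃ i, U i := fun p => by
    obtain ⟨i, hi, -⟩ := key p p.2 i₀
    exact Set.mem_iUnion.2 ⟨i, hi.2.1⟩
  obtain ⟨φ', hφ'⟩ := inj_of_union hι hU
  let φ : P → ι := fun p => φ' ⟨p, hPU p⟩
  have hφ : Function.Injective φ := by
    intro p q hpq
    have h1 := hφ' hpq
    exact Subtype.ext (Subtype.mk.inj h1)
  obtain ⟨e, he, heS⟩ := inj_choice hι φ hφ
    (fun p => {i | i ∈ S' ∧ (p : V) ∈ U i ∧ E i p}) (fun p b => key p p.2 b)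
  refine ⟨S', P, fun p => if hp : p ∈ P then e ⟨p, hp⟩ else i₀, fun i hi => hi.1,
    ⟨i₀, hi₀S, hi₀⟩, ?_, ?_, ?_⟩
  · intro i hi p hpU hE
    by_contra hcon
    have hex : ∃ f, ¬ Q p f := by
      by_contra hno
      push Not at hno
      exact hcon hno
    have h1 : i ∈ Cl (F p) := hh i hi.2 p hpU
    have h2 : F p = hex.choose := by
      change (if h : ∃ f, ¬ Q p f then h.choose else id) = _
      rw [dif_pos hex]
    rw [h2] at h1
    exact hex.choose_spec ⟨i, h1, hi.1, hpU, hE⟩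
  · intro p hp
    have h3 : (fun p => if hp : p ∈ P then e ⟨p, hp⟩ else i₀) p = e ⟨p, hp⟩ := dif_pos hp
    rw [h3]
    exact heS ⟨p, hp⟩
  · intro p hp q hq hpq
    change (if hp : p ∈ P then e ⟨p, hp⟩ else i₀) = (if hp : q ∈ P then e ⟨q, hp⟩ else i₀) at hpq
    rw [dif_pos hp, dif_pos hq] at hpq
    exact congrArg Subtype.val (he hpq)

end Pool.Agent.H70A
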