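import Pool.Agent.Lib.H70A.W0
import Pool.Agent.Lib.H70A.M2
import Pool.Agent.Lib.H70A.M4

/-!
# H70A module H: the Hungarian lemma. Definitions and first facts.
-/

namespace Pool.Agent.H70A

universe u

variable {V : Type u}

/-- The situation of the Hungarian lemma: `v` cannot be covered by a finite modification of `M`. -/
structure HS (G : SimpleGraph V) (O U : Set V) (M : V → V) (v : V) : Prop where
  hM : IsM G M
  hU : ∀ x ∈ U, x ∉ cov M
  hvU : v ∉ U
  hvO : v ∉ O
  hv : v ∉ cov M
  hno : ¬ Aug G O U M v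

/-- `N` is a finite modification of `M` covering `cov M + v - x`. -/
structure MX (G : SimpleGraph V) (M : V → V) (v x : V) (N : V → V) : Prop where
  isM : IsM G N
  fin : (df M N).Finite
  cov : ∀ z, z ∈ cov N ↔ (z ∈ cov M ∨ z = v) ∧ z ≠ x

/-- The vertices which can be left uncovered instead of `v`. -/
def DD (G : SimpleGraph V) (M : V → V) (v : V) : Set V :=
  {x | (x ∈ cov M ∨ x = v) ∧ ∃ N, MX G M v x N}

/-- The other neighbours of `DD`. -/
def AA (G : SimpleGraph V) (U : Set V) (M : V → V) (v : V) : Set V :=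
  {a | a ∉ U ∧ a ∉ DD G M v ∧ ∃ d ∈ DD G M v, G.Adj d a}

end Pool.Agent.H70A
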