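import Pool.Agent.Lib.H70A.H0

/-!
# H70A chunk H1: first facts on `DD` and `AA`

PROOFS.
* `v_mem`: `N = M`.
* `DD_notO`: if `x ∈ O`, then `x ≠ v` (`v ∉ O`), so `x ∈ cov M` and `N` is the second alternative of
  `Aug` with `o = x`.
* `DD_notU`: `x ∈ cov M` is not in `U` (`hU`), and `v ∉ U`.
* `AA_cov`: let `d ∈ DD`, `G.Adj d a`, `N` a witness for `d`. If `a ∉ cov M`: `a ≠ v` since
  `v ∈ DD`. Then `a ∉ cov N`, `d ∉ cov N`, and `ad N d a` covers `cov M + v + a` exactly: first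
  alternative of `Aug` with `s = a`.
* `HS.change`: let `N` be a witness for `t ∈ DD` (so `cov N = cov M + v - t`). Finite modifications of
  `N` and of `M` are the same, and `cov N + t = cov M + v`. `MX G N t x L ↔ MX G M v x L`. `Aug` for
  `(N, t)` gives `Aug` for `(M, v)` (second alternative: `o ∈ cov N`, so `o ∈ cov M` or `o = v`; the
  latter is impossible because `v ∉ O`). Hence `HS` for `(N, t)` and `DD G N t = DD G M v`,
  `AA G U N t = AA G U M v`.
* `DD_miss`: if `x ∈ cov M` and not (`M x ∈ DD`), then `M x ∈ AA`: `G.Adj x (M x)`, `M x ∈ cov M`, so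
  `M x ∉ U`.
-/

namespace Pool.Agent.H70A

universe u

variable {V : Type u} {G : SimpleGraph V} {O U : Set V} {M : V → V} {v : V}

theorem v_mem (h : HS G O U M v) : v ∈ DD G M v := by
  refine ⟨Or.inr rfl, M, h.hM, by rw [df_self]; exact Set.finite_empty, fun z => ?_⟩
  constructor
  · intro hz
    exact ⟨Or.inl hz, fun e => h.hv (e ▸ hz)⟩
  · rintro ⟨hz | hz, hne⟩
    · exact hz
    · exact absurd hz hne

theorem DD_notO (h : HS G O U M v) {x : V} (hx : x ∈ DD G M v) : x ∉ O := by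
  intro hO
  obtain ⟨h1, N, hN⟩ := hx
  have hne : x ≠ v := fun e => h.hvO (e ▸ hO)
  have hc : x ∈ cov M := h1.resolve_right hne
  exact h.hno ⟨N, hN.isM, hN.fin, Or.inr ⟨x, hO, hc, hN.cov⟩⟩

theorem DD_notU (h : HS G O U M v) {x : V} (hx : x ∈ DD G M v) : x ∉ U := by
  intro hU
  rcases hx.1 with h1 | h1
  · exact h.hU x hU h1
  · exact h.hvU (h1 ▸ hU)

theorem AA_cov (h : HS G O U M v) {a : V} (ha : a ∈ AA G U M v) : a ∈ cov M := by
  by_contra hac
  obtain ⟨haU, haD, d, hd, hadj⟩ := ha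
  have hav : a ≠ v := by
    intro e
    rw [e] at haD
    exact haD (v_mem h)
  obtain ⟨hd1, N, hN⟩ := hd
  have haN : a ∉ cov N := by
    intro hc
    rcases ((hN.cov a).1 hc).1 with h1 | h1
    · exact hac h1
    · exact hav h1
  have hdN : d ∉ cov N := fun hc => ((hN.cov d).1 hc).2 rfl
  refine h.hno ⟨ad N d a, ad_isM hN.isM hadj hdN haN, ?_, Or.inl ⟨a, haU, hav, hac, fun z => ?_⟩⟩
  · exact df_finite_trans hN.fin ((Set.toFinite {d, a}).subset (df_ad N d a))
  · rw [mem_cov_ad hadj.ne, hN.cov z]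
    constructor
    · rintro (⟨h1 | h1, -⟩ | h1 | h1)
      · exact Or.inl h1
      · exact Or.inr (Or.inl h1)
      · rw [h1]
        rcases hd1 with h2 | h2
        · exact Or.inl h2
        · exact Or.inr (Or.inl h2)
      · exact Or.inr (Or.inr h1)
    · by_cases hzd : z = d
      · intro _
        exact Or.inr (Or.inl hzd)
      · rintro (h1 | h1 | h1)
        · exact Or.inl ⟨Or.inl h1, hzd⟩
        · exact Or.inl ⟨Or.inr h1, hzd⟩
        · exact Or.inr (Or.inr h1)

theorem h1_or {t : V} (ht : t ∈ DD G M v) {N : V → V} (hN : MX G M v t N) (z : V) :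
    (z ∈ cov N ∨ z = t) ↔ (z ∈ cov M ∨ z = v) := by
  constructor
  · rintro (h1 | h1)
    · exact ((hN.cov z).1 h1).1
    · rw [h1]
      exact ht.1
  · intro h1
    by_cases hz : z = t
    · exact Or.inr hz
    · exact Or.inl ((hN.cov z).2 ⟨h1, hz⟩)

theorem h1_MX {t : V} (ht : t ∈ DD G M v) {N : V → V} (hN : MX G M v t N) (x : V) (L : V → V) :
    MX G N t x L ↔ MX G M v x L := by
  constructor
  · rintro ⟨a, b, c⟩
    exact ⟨a, df_finite_trans hN.fin b, fun z => by rw [c z, h1_or ht hN]⟩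
  · rintro ⟨a, b, c⟩
    exact ⟨a, df_finite_trans (df_finite_symm hN.fin) b, fun z => by rw [c z, h1_or ht hN]⟩

theorem HS.change (h : HS G O U M v) {t : V} (ht : t ∈ DD G M v) {N : V → V} (hN : MX G M v t N) :
    HS G O U N t ∧ DD G N t = DD G M v ∧ AA G U N t = AA G U M v := by
  have hDD : DD G N t = DD G M v := by
    ext x
    simp only [DD, Set.mem_ofPred_eq, h1_or ht hN, h1_MX ht hN]
  refine ⟨⟨hN.isM, ?_, DD_notU h ht, DD_notO h ht, fun hc => ((hN.cov t).1 hc).2 rfl, ?_⟩, hDD, ?_⟩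
  · intro x hx hc
    rcases ((hN.cov x).1 hc).1 with h1 | h1
    · exact h.hU x hx h1
    · exact h.hvU (h1 ▸ hx)
  · rintro ⟨L, hL, hfin, halt⟩
    refine h.hno ⟨L, hL, df_finite_trans hN.fin hfin, ?_⟩
    rcases halt with ⟨s, hsU, hst, hsN, hs⟩ | ⟨o, hoO, hoN, ho⟩
    · have hs' : ¬ (s ∈ cov M ∨ s = v) := by
        rw [← h1_or ht hN s]
        rintro (h1 | h1)
        · exact hsN h1
        · exact hst h1
      push Not at hs'
      refine Or.inl ⟨s, hsU, hs'.2, hs'.1, fun z => ?_⟩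
      rw [hs z, ← or_assoc, h1_or ht hN, or_assoc]
    · refine Or.inr ⟨o, hoO, ?_, fun z => ?_⟩
      · exact ((hN.cov o).1 hoN).1.resolve_right fun e => h.hvO (e ▸ hoO)
      · rw [ho z, h1_or ht hN]
  · unfold AA
    rw [hDD]

theorem DD_miss (h : HS G O U M v) {x : V} (hx : x ∈ DD G M v)
    (hx' : x ∉ cov (ins (DD G M v) M)) : x = v ∨ (x ∈ cov M ∧ M x ∈ AA G U M v) := by
  by_cases hxv : x = v
  · exact Or.inl hxv
  · have hc : x ∈ cov M := hx.1.resolve_right hxv
    have hMx : M x ∉ DD G M v := fun hm => hx' (mem_cov_ins.2 ⟨hx, hm, hc⟩)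
    exact Or.inr ⟨hc, fun hU => h.hU _ hU (h.hM.map_cov hc), hMx, x, hx, h.hM.adj x hc⟩

end Pool.Agent.H70A
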