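import Pool.Agent.Lib.H70A.H1

/-!
# H70A chunk H2: `M` maps `AA` into `DD`

PROOF. Let `a ∈ AA`, `b := M a`, `b ≠ a` (`AA_cov`); `a ≠ v` (`v ∈ DD`), `b ≠ v` (`v ∉ cov M`). Let
`d ∈ DD`, `G.Adj d a`, `N` a witness for `d`: `cov N = cov M + v - d`.
* `d = b`: done. 
* `d = v`: `L := ad (rm M a) v a`: it covers `cov M - b + v`; this shows `b ∈ DD`. (`rm M a` covers
  `cov M - a - b`, then add the edge `va`.)
* Otherwise `d ∉ {v, a, b}` (`a ∉ DD`). Let `M₁ := rm M a`, `cov M₁ = cov M - a - b`. `b ∈ cov N`,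
  `b ∉ cov M₁`. Apply `sd` to `M₁`, `N`, `b`: `M₁', N', y`, `y ≠ b`.
  (i) `y ∈ cov N`, `y ∉ cov M₁`: `y ∈ {v, a}`. If `y = v`: `M₁'` covers
  `cov M - a - b + b + v = cov M + v - a`, so `a ∈ DD`: contradiction with `a ∈ AA`. If `y = a`: `N'`
  covers `cov N - b - a`; `L := ad N' a d` (`d ∉ cov N'`) covers `cov M + v - b`: `b ∈ DD`.
  (ii) `y ∈ cov M₁`, `y ∉ cov N`: `y = d`. `N'` covers `cov N + d - b = cov M + v - b`: `b ∈ DD`.
All maps are finite modifications of `M` (`df_finite_trans`, `df_rm`, `df_ad`).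
-/

namespace Pool.Agent.H70A

universe u

variable {V : Type u} {G : SimpleGraph V} {O U : Set V} {M : V → V} {v : V}

theorem h2_fin_rm (M : V → V) (a : V) : (df M (rm M a)).Finite :=
  (Set.toFinite ({a, M a} : Set V)).subset (df_rm M a)

theorem h2_fin_ad (M : V → V) (a b : V) : (df M (ad M a b)).Finite :=
  (Set.toFinite ({a, b} : Set V)).subset (df_ad M a b)

theorem AA_map (h : HS G O U M v) {a : V} (ha : a ∈ AA G U M v) : M a ∈ DD G M v := by
  have haM : a ∈ cov M := AA_cov h ha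
  obtain ⟨haU, haD, d, hd, hda⟩ := ha
  have hav : a ≠ v := by
    rintro rfl
    exact haD (v_mem h)
  have hb : M a ∈ cov M := h.hM.map_cov haM
  have hbv : M a ≠ v := by
    intro e
    rw [e] at hb
    exact h.hv hb
  have hba : M a ≠ a := haM
  have hda' : d ≠ a := hda.ne
  by_cases hdb : d = M a
  · rw [← hdb]
    exact hd
  by_cases hdv : d = v
  · subst hdv
    have h1 : IsM G (ad (rm M a) d a) := by
      refine ad_isM (rm_isM h.hM a) hda ?_ ?_
      · rw [mem_cov_rm]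
        exact fun e => h.hv e.1
      · rw [mem_cov_rm]
        exact fun e => e.2.1 rfl
    refine ⟨Or.inl hb, ad (rm M a) d a, h1, df_finite_trans (h2_fin_rm M a) (h2_fin_ad _ _ _), ?_⟩
    intro z
    rw [mem_cov_ad hda', mem_cov_rm]
    constructor
    · rintro (⟨h2, h3, h4⟩ | rfl | rfl)
      · exact ⟨Or.inl h2, h4⟩
      · exact ⟨Or.inr rfl, hbv.symm⟩
      · exact ⟨Or.inl haM, hba.symm⟩
    · rintro ⟨h2 | h2, h3⟩
      · by_cases h4 : z = a
        · exact Or.inr (Or.inr h4)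
        · exact Or.inl ⟨h2, h4, h3⟩
      · exact Or.inr (Or.inl h2)
  obtain ⟨hd1, N, hN⟩ := hd
  have hdM : d ∈ cov M := hd1.resolve_right hdv
  have hfin : (df (rm M a) N).Finite :=
    df_finite_trans (df_finite_symm (h2_fin_rm M a)) hN.fin
  have hbN : M a ∈ cov N := (hN.cov _).mpr ⟨Or.inl hb, fun e => hdb e.symm⟩
  have hb1 : M a ∉ cov (rm M a) := by
    rw [mem_cov_rm]
    exact fun e => e.2.2 rfl
  obtain ⟨M', N', y, hM', hN', hf1, hf2, hyb, -, hc⟩ := sd (rm_isM h.hM a) hN.isM hfin hbN hb1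
  have hfM' : (df M M').Finite := df_finite_trans (h2_fin_rm M a) hf1
  have hfN' : (df M N').Finite := df_finite_trans hN.fin hf2
  rcases hc with ⟨hy1, hy2, hc1, hc2⟩ | ⟨hy1, hy2, hc1, hc2⟩
  · rw [hN.cov] at hy1
    rw [mem_cov_rm] at hy2
    have hy3 : y = v ∨ y = a := by
      rcases hy1.1 with h3 | h3
      · by_contra hne
        push Not at hne
        exact hy2 ⟨h3, hne.2, hyb⟩
      · exact Or.inl h3
    rcases hy3 with rfl | rfl
    · exfalso
      apply haD
      refine ⟨Or.inl haM, M', hM', hfM', ?_⟩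
      intro z
      rw [hc1, mem_cov_rm]
      constructor
      · rintro (⟨h2, h3, h4⟩ | rfl | rfl)
        · exact ⟨Or.inl h2, h3⟩
        · exact ⟨Or.inl hb, hba⟩
        · exact ⟨Or.inr rfl, hav.symm⟩
      · rintro ⟨h2 | h2, h3⟩
        · by_cases h4 : z = M a
          · exact Or.inr (Or.inl h4)
          · exact Or.inl ⟨h2, h3, h4⟩
        · exact Or.inr (Or.inr h2)
    · have hdN' : d ∉ cov N' := by
        rw [hc2, hN.cov]
        exact fun e => e.1.2 rfl
      have haN' : y ∉ cov N' := by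
        rw [hc2]
        exact fun e => e.2.2 rfl
      refine ⟨Or.inl hb, ad N' y d, ad_isM hN' hda.symm haN' hdN',
        df_finite_trans hfN' (h2_fin_ad _ _ _), ?_⟩
      intro z
      rw [mem_cov_ad hda'.symm, hc2, hN.cov]
      constructor
      · rintro (⟨⟨h2, h3⟩, h4, h5⟩ | rfl | rfl)
        · exact ⟨h2, h4⟩
        · exact ⟨Or.inl haM, hba.symm⟩
        · exact ⟨Or.inl hdM, hdb⟩
      · rintro ⟨h2, h3⟩
        by_cases h4 : z = y
        · exact Or.inr (Or.inl h4)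
        · by_cases h5 : z = d
          · exact Or.inr (Or.inr h5)
          · exact Or.inl ⟨⟨h2, h5⟩, h3, h4⟩
  · rw [mem_cov_rm] at hy1
    rw [hN.cov] at hy2
    have hyd : y = d := by
      by_contra hne
      exact hy2 ⟨Or.inl hy1.1, hne⟩
    subst hyd
    refine ⟨Or.inl hb, N', hN', hfN', ?_⟩
    intro z
    rw [hc2, hN.cov]
    constructor
    · rintro ⟨⟨h2, h3⟩ | rfl, h4⟩
      · exact ⟨h2, h4⟩
      · exact ⟨Or.inl hdM, h4⟩
    · rintro ⟨h2, h3⟩
      by_cases h5 : z = y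
      · exact ⟨Or.inr h5, h3⟩
      · exact ⟨Or.inl ⟨h2, h5⟩, h3⟩

end Pool.Agent.H70A
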