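import Pool.Agent.Lib.H70A.H2

/-!
# H70A chunk H3: the part of `M` inside `DD` has no finite augmentation inside `DD`

PROOF. Write `D = DD G M v`, `M_D = ins D M`. `N` has support `cov M_D + z + z'` inside `D`.
Let `L := ov N M` (the edges of `N` and the edges of `M` not meeting `cov N`), a matching,
`cov L = cov N ∪ {x ∈ cov M | M x ∉ cov N}`. For `x ∉ cov N` with `M x ∈ cov N`: `M x ∈ {z, z'}`
(otherwise `M x ∈ cov M_D`, so `x = M (M x) ∈ D` and `x ∈ cov M_D ⊆ cov N`).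
`df M L` is finite: it is contained in `df M_D N ∪ {z, z', M z, M z'}`.
By `DD_miss` each of `z, z'` is `v` or in `cov M` with partner in `AA` (by symmetry of `z, z'` there
are two cases, `z = z' = v` being excluded).
* `z = v`, `M z' =: a ∈ AA`: `cov L = cov M + v - a` (`a ∉ D`, so `a ∉ cov N`). So `a ∈ DD` (note
  `a ∈ cov M`): contradiction with `a ∈ AA`. The same if `z' = v`.
* `M z = a ∈ AA`, `M z' = a' ∈ AA`, `a ≠ a'`: `cov L = cov M - a - a'`. Let `d ∈ D`, `G.Adj d a`, `N₁` a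
  witness for `d`: `cov N₁ = cov M + v - d`; `a' ≠ d`, `a' ≠ v`, so `a' ∈ cov N₁`, `a' ∉ cov L`. Apply
  `sd` to `L`, `N₁`, `a'`: `L', N₁', y`, `y ≠ a'`.
  (i) `y ∈ cov N₁`, `y ∉ cov L`: `y = v` or `y = a`. If `y = v`: `L'` covers
  `cov M - a - a' + a' + v = cov M + v - a`: `a ∈ DD`, contradiction. If `y = a`: `N₁'` covers
  `cov N₁ - a - a'`, `d` is uncovered, `ad N₁' a d` covers `cov M + v - a'`: `a' ∈ DD`, contradiction.
  (ii) `y ∈ cov L`, `y ∉ cov N₁`: `y = d`; `N₁'` covers `cov N₁ + d - a' = cov M + v - a'`: `a' ∈ DD`,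
  contradiction.
-/

namespace Pool.Agent.H70A

universe u

variable {V : Type u} {G : SimpleGraph V} {O U : Set V} {M : V → V} {v : V}

theorem h3_mem (h : HS G O U M v) {N : V → V} {z z' : V}
    (h3 : ∀ x, x ∈ cov N ↔ x ∈ cov (ins (DD G M v) M) ∨ x = z ∨ x = z') {x : V}
    (hx : x ∉ cov N) (hMx : M x ∈ cov N) : M x = z ∨ M x = z' := by
  rcases (h3 (M x)).1 hMx with h4 | h4 | h4
  · exfalso
    rw [mem_cov_ins, h.hM.inv] at h4
    exact hx ((h3 x).2 (Or.inl (mem_cov_ins.2 ⟨h4.2.1, h4.1, h.hM.map_cov_iff.1 h4.2.2⟩)))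
  · exact Or.inl h4
  · exact Or.inr h4

theorem h3_fin (h : HS G O U M v) {N : V → V} {z z' : V}
    (hfin : (df (ins (DD G M v) M) N).Finite)
    (h3 : ∀ x, x ∈ cov N ↔ x ∈ cov (ins (DD G M v) M) ∨ x = z ∨ x = z') :
    (df M (ov N M)).Finite := by
  refine (hfin.union (Set.toFinite {M z, M z'})).subset fun x hx => ?_
  by_cases hxN : x ∈ cov N
  · left
    intro h4
    rw [mem_df, ov_left hxN] at hx
    by_cases h5 : x ∈ DD G M v ∧ M x ∈ DD G M v
    · rw [ins_apply h5.1 h5.2] at h4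
      exact hx h4
    · rw [ins_of_notMem h5] at h4
      exact hxN h4.symm
  · right
    by_cases hMx : M x ∈ cov N
    · rcases h3_mem h h3 hxN hMx with h4 | h4
      · left
        rw [← h4, h.hM.inv]
      · right
        rw [Set.mem_singleton_iff, ← h4, h.hM.inv]
    · rw [mem_df, ov_right hxN hMx] at hx
      exact absurd rfl hx

theorem h3_one (h : HS G O U M v) {N : V → V} {z' : V} (hN : IsM G N)
    (hfin : (df (ins (DD G M v) M) N).Finite) (hz' : z' ∈ DD G M v)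
    (h3 : ∀ x, x ∈ cov N ↔ x ∈ cov (ins (DD G M v) M) ∨ x = v ∨ x = z')
    (hc : z' ∈ cov M) (ha : M z' ∈ AA G U M v) : False := by
  refine ha.2.1 ⟨Or.inl (h.hM.map_cov hc), ov N M, ov_isM hN h.hM, h3_fin h hfin h3, fun x => ?_⟩
  have hvM : M v = v := notMem_cov.1 h.hv
  have hvD : v ∈ DD G M v := v_mem h
  have hva : v ≠ M z' := fun e => ha.2.1 (e ▸ hvD)
  rw [mem_cov_ov]
  constructor
  · rintro (hx | ⟨hx, hx'⟩)
    · rcases (h3 x).1 hx with h4 | rfl | rfl
      · rw [mem_cov_ins] at h4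
        exact ⟨Or.inl h4.2.2, fun e => ha.2.1 (e ▸ h4.1)⟩
      · exact ⟨Or.inr rfl, hva⟩
      · exact ⟨Or.inl hc, fun e => hc e.symm⟩
    · refine ⟨Or.inl hx, ?_⟩
      rintro rfl
      rw [h.hM.inv] at hx'
      exact hx' ((h3 z').2 (Or.inr (Or.inr rfl)))
  · rintro ⟨hx, hxa⟩
    by_cases hxN : x ∈ cov N
    · exact Or.inl hxN
    · right
      rcases hx with hx | rfl
      · refine ⟨hx, fun hMx => ?_⟩
        rcases h3_mem h h3 hxN hMx with h4 | h4
        · have h5 : x = v := by rw [← h.hM.inv x, h4, hvM]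
          rw [h5] at hx
          exact h.hv hx
        · exact hxa (by rw [← h4, h.hM.inv])
      · exact absurd ((h3 x).2 (Or.inr (Or.inl rfl))) hxN

theorem h3_two (h : HS G O U M v) {N : V → V} {z z' : V} (hN : IsM G N)
    (hfin : (df (ins (DD G M v) M) N).Finite) (hne : z ≠ z') (hz : z ∈ DD G M v)
    (hz' : z' ∈ DD G M v)
    (h3 : ∀ x, x ∈ cov N ↔ x ∈ cov (ins (DD G M v) M) ∨ x = z ∨ x = z')
    (hc : z ∈ cov M) (ha : M z ∈ AA G U M v) (hc' : z' ∈ cov M) (ha' : M z' ∈ AA G U M v) :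
    False := by
  have hL : IsM G (ov N M) := ov_isM hN h.hM
  have hLf := h3_fin h hfin h3
  have hvD : v ∈ DD G M v := v_mem h
  have haM : M z ∈ cov M := h.hM.map_cov hc
  have haM' : M z' ∈ cov M := h.hM.map_cov hc'
  have hva : v ≠ M z := fun e => ha.2.1 (e ▸ hvD)
  have hva' : v ≠ M z' := fun e => ha'.2.1 (e ▸ hvD)
  have haa : M z ≠ M z' := fun e => hne (h.hM.inj e)
  have hzN : z ∈ cov N := (h3 z).2 (Or.inr (Or.inl rfl))
  have hzN' : z' ∈ cov N := (h3 z').2 (Or.inr (Or.inr rfl))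
  have hND : ∀ x ∈ cov N, x ∈ DD G M v ∧ x ∈ cov M := by
    intro x hx
    rcases (h3 x).1 hx with h4 | rfl | rfl
    · rw [mem_cov_ins] at h4
      exact ⟨h4.1, h4.2.2⟩
    · exact ⟨hz, hc⟩
    · exact ⟨hz', hc'⟩
  have covL : ∀ x, x ∈ cov (ov N M) ↔ x ∈ cov M ∧ x ≠ M z ∧ x ≠ M z' := by
    intro x
    rw [mem_cov_ov]
    constructor
    · rintro (hx | ⟨hx, hx'⟩)
      · exact ⟨(hND x hx).2, fun e => ha.2.1 (e ▸ (hND x hx).1), fun e => ha'.2.1 (e ▸ (hND x hx).1)⟩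
      · refine ⟨hx, ?_, ?_⟩
        · rintro rfl
          rw [h.hM.inv] at hx'
          exact hx' hzN
        · rintro rfl
          rw [h.hM.inv] at hx'
          exact hx' hzN'
    · rintro ⟨hx, h4, h5⟩
      by_cases hxN : x ∈ cov N
      · exact Or.inl hxN
      · refine Or.inr ⟨hx, fun hMx => ?_⟩
        rcases h3_mem h h3 hxN hMx with h6 | h6
        · exact h4 (by rw [← h6, h.hM.inv])
        · exact h5 (by rw [← h6, h.hM.inv])
  obtain ⟨d, ⟨hd, N₁, hN₁, hf₁, hc₁⟩, hadj⟩ := ha.2.2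
  have hda : d ≠ M z := hadj.ne
  have hda' : M z' ≠ d := fun e => ha'.2.1 (e ▸ ⟨hd, N₁, hN₁, hf₁, hc₁⟩)
  have hx1 : M z' ∈ cov N₁ := (hc₁ _).2 ⟨Or.inl haM', hda'⟩
  have hx2 : M z' ∉ cov (ov N M) := fun hx => ((covL _).1 hx).2.2 rfl
  have hf : (df (ov N M) N₁).Finite := df_finite_trans (df_finite_symm hLf) hf₁
  obtain ⟨L', N', y, hL', hN', hfL, hfN, hyz, -, hor⟩ := sd hL hN₁ hf hx1 hx2
  have hvM : v ∉ cov M := h.hv
  rcases hor with ⟨hy1, hy2, hcL, hcN⟩ | ⟨hy1, hy2, hcL, hcN⟩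
  · rw [hc₁] at hy1
    rw [covL] at hy2
    by_cases hyv : y = v
    · refine ha.2.1 ⟨Or.inl haM, L', hL', df_finite_trans hLf hfL, fun x => ?_⟩
      rw [hcL, covL, hyv]
      by_cases e1 : x = M z'
      · subst e1
        simp [haM', haa.symm]
      · by_cases e2 : x = v
        · subst e2
          simp [hva]
        · simp [e1, e2]
    · have hya : y = M z := by
        by_contra hya
        exact hy2 ⟨hy1.1.resolve_right hyv, hya, hyz⟩
      subst hya
      have h6 : d ∉ cov N' := fun hx => ((hc₁ _).1 ((hcN _).1 hx).1).2 rfl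
      have h7 : M z ∉ cov N' := fun hx => ((hcN _).1 hx).2.2 rfl
      refine ha'.2.1 ⟨Or.inl haM', ad N' (M z) d, ad_isM hN' hadj.symm h7 h6, ?_, fun x => ?_⟩
      · exact df_finite_trans (df_finite_trans hf₁ hfN)
          ((Set.toFinite {M z, d}).subset (df_ad N' (M z) d))
      · rw [mem_cov_ad hadj.symm.ne, hcN, hc₁]
        by_cases e1 : x = M z
        · subst e1
          simp [haM, haa]
        · by_cases e2 : x = d
          · subst e2
            simp [hd, hda'.symm]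
          · simp [e1, e2]
  · rw [covL] at hy1
    have hyd : y = d := by
      by_contra hyd
      exact hy2 ((hc₁ _).2 ⟨Or.inl hy1.1, hyd⟩)
    subst hyd
    refine ha'.2.1 ⟨Or.inl haM', N', hN', df_finite_trans hf₁ hfN, fun x => ?_⟩
    rw [hcN, hc₁]
    by_cases e2 : x = y
    · subst e2
      simp [hd, hyz]
    · simp [e2]

theorem no_aug (h : HS G O U M v) {N : V → V} {z z' : V} (hN : IsM G N)
    (hfin : (df (ins (DD G M v) M) N).Finite) (hne : z ≠ z') (hz : z ∈ DD G M v)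
    (hz' : z' ∈ DD G M v) (h1 : z ∉ cov (ins (DD G M v) M)) (h2 : z' ∉ cov (ins (DD G M v) M))
    (h3 : ∀ x, x ∈ cov N ↔ x ∈ cov (ins (DD G M v) M) ∨ x = z ∨ x = z') : False := by
  have h3' : ∀ x, x ∈ cov N ↔ x ∈ cov (ins (DD G M v) M) ∨ x = z' ∨ x = z := by
    intro x
    rw [h3 x]
    tauto
  rcases DD_miss h hz h1 with e1 | ⟨hc, ha⟩
  · subst e1
    rcases DD_miss h hz' h2 with e2 | ⟨hc', ha'⟩
    · exact hne e2.symm
    · exact h3_one h hN hfin hz' h3 hc' ha'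
  · rcases DD_miss h hz' h2 with e2 | ⟨hc', ha'⟩
    · subst e2
      exact h3_one h hN hfin hz h3' hc ha
    · exact h3_two h hN hfin hne hz hz' h3 hc ha hc' ha'

end Pool.Agent.H70A
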