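import Pool.Agent.Lib.H70A.H3

/-!
# H70A chunk H4: balanced modifications

PROOFS. All sets are finite (contained in `df M N`).
* `Bal.exchange`: `z ∉ cov N`, `y ∈ cov N`, `cov N' = cov N + z - y`. Then `(cov N' \ cov M).ncard` and
  `(cov M \ cov N').ncard` differ by the same amount as before: four cases according to `z ∈ cov M`,
  `y ∈ cov M`. (Or: for a finite set `T` containing `df M N`, `df M N'`, `z`, `y`, both equalities say
  `(cov N ∩ T).ncard = (cov M ∩ T).ncard`, and `cov N' ∩ T` has as many elements as `cov N ∩ T`.)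
* `Bal.no_aug2`: if `cov N' = cov N + z + z'` with `z ≠ z'` uncovered by `N`, then
  `(cov M \ cov N').ncard < (cov N' \ cov M).ncard`, and `berge` gives a finite augmentation of `M`.
  Here `M = ins D M₀`, everything inside `D`: contradiction with `no_aug`. (`berge` gives `z, z' ∈ cov N'
  ⊆ D`.)
-/

namespace Pool.Agent.H70A

universe u

variable {V : Type u} {G : SimpleGraph V} {O U : Set V} {M : V → V} {v : V}

/-- `N` is a finite modification of `M` of relative size zero. -/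
def Bal (M N : V → V) : Prop := (df M N).Finite ∧ (cov N \ cov M).ncard = (cov M \ cov N).ncard

theorem Bal.refl (M : V → V) : Bal M M := by
  refine ⟨?_, rfl⟩
  rw [df_self]
  exact Set.finite_empty

theorem h4_key {M N : V → V} {T : Set V} (hT : df M N ⊆ T) :
    cov N \ cov M = (cov N ∩ T) \ (cov M ∩ T) := by
  ext x
  simp only [Set.mem_diff, Set.mem_inter_iff]
  constructor
  · rintro ⟨h1, h2⟩
    have h3 : x ∈ df M N := by
      intro e
      rw [mem_cov] at h1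
      rw [notMem_cov] at h2
      exact h1 (e.symm.trans h2)
    exact ⟨⟨h1, hT h3⟩, fun h4 => h2 h4.1⟩
  · rintro ⟨⟨h1, h2⟩, h3⟩
    exact ⟨h1, fun h4 => h3 ⟨h4, h2⟩⟩

theorem h4_key' {M N : V → V} {T : Set V} (hT : df M N ⊆ T) :
    cov M \ cov N = (cov M ∩ T) \ (cov N ∩ T) := by
  rw [df_comm] at hT
  exact h4_key hT

theorem h4_eq {M N : V → V} {T : Set V} (hTf : T.Finite) (hT : df M N ⊆ T) :
    (cov N \ cov M).ncard = (cov M \ cov N).ncard ↔
      (cov N ∩ T).ncard = (cov M ∩ T).ncard := by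
  rw [h4_key hT, h4_key' hT]
  exact (Set.ncard_eq_ncard_iff_ncard_diff_eq_ncard_diff (hTf.inter_of_right _)
    (hTf.inter_of_right _)).symm

theorem h4_lt {M N : V → V} {T : Set V} (hTf : T.Finite) (hT : df M N ⊆ T) :
    (cov M \ cov N).ncard < (cov N \ cov M).ncard ↔
      (cov M ∩ T).ncard < (cov N ∩ T).ncard := by
  rw [h4_key hT, h4_key' hT]
  exact (Set.ncard_lt_ncard_iff_ncard_diff_lt_ncard_diff (hTf.inter_of_right _)
    (hTf.inter_of_right _)).symm

theorem Bal.exchange {M N N' : V → V} (h : Bal M N) (hf : (df N N').Finite) {z y : V}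
    (hz : z ∉ cov N) (hy : y ∈ cov N) (hc : ∀ x, x ∈ cov N' ↔ (x ∈ cov N ∨ x = z) ∧ x ≠ y) :
    Bal M N' := by
  have hzy : z ≠ y := by
    rintro rfl
    exact hz hy
  let T : Set V := df M N ∪ df N N' ∪ {z, y}
  have hTf : T.Finite := (h.1.union hf).union (Set.toFinite _)
  have hzT : z ∈ T := Or.inr (Or.inl rfl)
  have hyT : y ∈ T := Or.inr (Or.inr rfl)
  have hT1 : df M N ⊆ T := fun x hx => Or.inl (Or.inl hx)
  have hT2 : df M N' ⊆ T := fun x hx => Or.inl (df_trans hx)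
  refine ⟨df_finite_trans h.1 hf, ?_⟩
  rw [h4_eq hTf hT2]
  rw [← (h4_eq hTf hT1).mp h.2]
  have h1 : cov N' ∩ T = insert z (cov N ∩ T) \ {y} := by
    ext x
    simp only [Set.mem_inter_iff, Set.mem_diff, Set.mem_insert_iff, Set.mem_singleton_iff, hc]
    constructor
    · rintro ⟨⟨h2 | h2, h3⟩, h4⟩
      · exact ⟨Or.inr ⟨h2, h4⟩, h3⟩
      · exact ⟨Or.inl h2, h3⟩
    · rintro ⟨h2 | ⟨h2, h4⟩, h3⟩
      · exact ⟨⟨Or.inr h2, h3⟩, h2 ▸ hzT⟩
      · exact ⟨⟨Or.inl h2, h3⟩, h4⟩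
  have hfin : (cov N ∩ T).Finite := hTf.inter_of_right _
  have h2 : (insert z (cov N ∩ T)).ncard = (cov N ∩ T).ncard + 1 :=
    Set.ncard_insert_of_notMem (fun e => hz e.1) hfin
  have h3 : (insert z (cov N ∩ T) \ {y}).ncard = (insert z (cov N ∩ T)).ncard - 1 :=
    Set.ncard_diff_singleton_of_mem (Or.inr ⟨hy, hyT⟩)
  rw [h1, h3, h2]
  rfl

theorem Bal.no_aug2 (h : HS G O U M v) {N N' : V → V} (hN : Bal (ins (DD G M v) M) N)
    (hf : (df N N').Finite) (hN' : IsM G N') (hD : ∀ x ∈ cov N', x ∈ DD G M v) {z z' : V}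
    (hne : z ≠ z') (hz : z ∉ cov N) (hz' : z' ∉ cov N)
    (hc : ∀ x, x ∈ cov N' ↔ x ∈ cov N ∨ x = z ∨ x = z') : False := by
  let T : Set V := df (ins (DD G M v) M) N ∪ df N N' ∪ {z, z'}
  have hTf : T.Finite := (hN.1.union hf).union (Set.toFinite _)
  have hzT : z ∈ T := Or.inr (Or.inl rfl)
  have hzT' : z' ∈ T := Or.inr (Or.inr rfl)
  have hT1 : df (ins (DD G M v) M) N ⊆ T := fun x hx => Or.inl (Or.inl hx)
  have hT2 : df (ins (DD G M v) M) N' ⊆ T := fun x hx => Or.inl (df_trans hx)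
  have h0 := (h4_eq hTf hT1).mp hN.2
  have h1 : cov N' ∩ T = insert z (insert z' (cov N ∩ T)) := by
    ext x
    simp only [Set.mem_inter_iff, Set.mem_insert_iff, hc]
    constructor
    · rintro ⟨h2 | h2 | h2, h3⟩
      · exact Or.inr (Or.inr ⟨h2, h3⟩)
      · exact Or.inl h2
      · exact Or.inr (Or.inl h2)
    · rintro (h2 | h2 | ⟨h2, h3⟩)
      · exact ⟨Or.inr (Or.inl h2), h2 ▸ hzT⟩
      · exact ⟨Or.inr (Or.inr h2), h2 ▸ hzT'⟩
      · exact ⟨Or.inl h2, h3⟩
  have hfin : (cov N ∩ T).Finite := hTf.inter_of_right _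
  have h2 : (insert z' (cov N ∩ T)).ncard = (cov N ∩ T).ncard + 1 :=
    Set.ncard_insert_of_notMem (fun e => hz' e.1) hfin
  have h3 : (insert z (insert z' (cov N ∩ T))).ncard = (insert z' (cov N ∩ T)).ncard + 1 := by
    refine Set.ncard_insert_of_notMem ?_ (hfin.insert z')
    rintro (e | e)
    · exact hne e
    · exact hz e.1
  have h4 : (cov (ins (DD G M v) M) \ cov N').ncard < (cov N' \ cov (ins (DD G M v) M)).ncard := by
    rw [h4_lt hTf hT2, h1, h3, h2, h0]
    omega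
  obtain ⟨M', w, w', hw, hw1, hw2, hw3, hw4, hM', hM'f, hM'c, -⟩ :=
    berge (ins_isM h.hM _) hN' (df_finite_trans hN.1 hf) h4
  exact no_aug h hM' hM'f hw (hD w hw3) (hD w' hw4) hw1 hw2 hM'c

end Pool.Agent.H70A
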