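import Pool.Agent.Lib.H70A.H4

/-!
# H70A chunk H5: every `t ∈ DD` is missed by a balanced modification inside `DD`

PROOF. Let `L` be a witness for `t ∈ DD` (`MX G M v t L`) and `N := ins D L`, `D = DD G M v`,
`A = AA G U M v`. `df (ins D M) N ⊆ df M L` (`df_ins_subset`) is finite. By `HS.change` the facts
`AA_cov`, `AA_map`, `DD_miss` also hold for `(L, t)`, with the same `D` and `A`.
`D \ cov (ins D M) = {v} ∪ M '' A` and `D \ cov N = {t} ∪ L '' A`: inclusion from left to right is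
`DD_miss`; conversely for `a ∈ A`: `M a ∈ D` (`AA_map`) and `M (M a) = a ∉ D`.
`cov N \ cov (ins D M) = (D \ cov (ins D M)) \ (D \ cov N) = S₁ \ S₂` with `S₁ = {v} ∪ M '' A`,
`S₂ = {t} ∪ L '' A`, and `cov (ins D M) \ cov N = S₂ \ S₁`.
Let `A₁ = {a ∈ A | M a ≠ L a}` (finite). `S₀ := M '' (A \ A₁) = L '' (A \ A₁)`;
`S₁ = S₀ ∪ T₁`, `T₁ = {v} ∪ M '' A₁`; `S₂ = S₀ ∪ T₂`, `T₂ = {t} ∪ L '' A₁`; `T₁, T₂` are disjoint from
`S₀` (injectivity; `v ∉ cov M`, `t ∉ cov L`) and have both `|A₁| + 1` elements. So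
`S₁ \ S₂ = T₁ \ T₂`, `S₂ \ S₁ = T₂ \ T₁` have the same number of elements.
-/

namespace Pool.Agent.H70A

universe u

variable {V : Type u} {G : SimpleGraph V} {O U : Set V} {M : V → V} {v : V}

theorem h5_ncard {T₁ T₂ : Set V} (h1 : T₁.Finite) (h2 : T₂.Finite) (h : T₁.ncard = T₂.ncard) :
    (T₁ \ T₂).ncard = (T₂ \ T₁).ncard := by
  have e1 := Set.ncard_inter_add_ncard_sdiff_eq_ncard T₁ T₂ h1
  have e2 := Set.ncard_inter_add_ncard_sdiff_eq_ncard T₂ T₁ h2
  rw [Set.inter_comm] at e2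
  omega

/-- The part of `D` missed by `ins D M`. -/
theorem h5_miss (h : HS G O U M v) :
    DD G M v \ cov (ins (DD G M v) M) = insert v (M '' AA G U M v) := by
  ext x
  constructor
  · rintro ⟨hx, hx'⟩
    rcases DD_miss h hx hx' with h1 | ⟨h1, h2⟩
    · exact Or.inl h1
    · exact Or.inr ⟨M x, h2, h.hM.inv x⟩
  · rintro (h1 | ⟨a, ha, rfl⟩)
    · subst h1
      exact ⟨v_mem h, fun hc => h.hv (mem_cov_ins.1 hc).2.2⟩
    · refine ⟨AA_map h ha, fun hc => ?_⟩
      have := (mem_cov_ins.1 hc).2.1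
      rw [h.hM.inv] at this
      exact ha.2.1 this

theorem h5_inj {M : V → V} (hM : IsM G M) (S : Set V) : Set.InjOn M S :=
  fun _ _ _ _ e => hM.inj e

theorem h5_card (h : HS G O U M v) {A₁ : Set V} (hA : A₁ ⊆ AA G U M v) (hf : A₁.Finite) :
    (insert v (M '' A₁)).ncard = A₁.ncard + 1 := by
  have hv : v ∉ M '' A₁ := by
    rintro ⟨a, ha, e⟩
    have h1 : a = v := by
      have h2 := h.hv
      rw [notMem_cov] at h2
      rw [← h.hM.inv a, e, h2]
    exact (hA ha).2.1 (by rw [h1]; exact v_mem h)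
  rw [Set.ncard_insert_of_notMem hv (hf.image _), (h5_inj h.hM _).ncard_image]

theorem exists_bal (h : HS G O U M v) {t : V} (ht : t ∈ DD G M v) :
    ∃ N : V → V, IsM G N ∧ (∀ x ∈ cov N, x ∈ DD G M v) ∧ Bal (ins (DD G M v) M) N ∧ t ∉ cov N := by
  obtain ⟨_, L, hL⟩ := id ht
  obtain ⟨h', hD, hA⟩ := HS.change h ht hL
  set D := DD G M v with hDdef
  set A := AA G U M v with hAdef
  refine ⟨ins D L, ins_isM hL.isM D, fun x hx => (mem_cov_ins.1 hx).1,
    ⟨hL.fin.subset df_ins_subset, ?_⟩, fun hx => ((hL.cov t).1 (mem_cov_ins.1 hx).2.2).2 rfl⟩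
  have m1 := h5_miss h
  have m2 := h5_miss h'
  rw [hD, hA] at m2
  rw [← hDdef, ← hAdef] at m1
  have s1 : cov (ins D M) ⊆ D := fun x hx => (mem_cov_ins.1 hx).1
  have s2 : cov (ins D L) ⊆ D := fun x hx => (mem_cov_ins.1 hx).1
  have e1 : cov (ins D L) \ cov (ins D M) = insert v (M '' A) \ insert t (L '' A) := by
    rw [← m1, ← m2]
    ext x
    have := @s1 x
    have := @s2 x
    simp only [Set.mem_sdiff]
    tauto
  have e2 : cov (ins D M) \ cov (ins D L) = insert t (L '' A) \ insert v (M '' A) := by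
    rw [← m1, ← m2]
    ext x
    have := @s1 x
    have := @s2 x
    simp only [Set.mem_sdiff]
    tauto
  have hAf : ({a | a ∈ A ∧ M a ≠ L a} : Set V).Finite := hL.fin.subset fun a ha => ha.2
  set A₁ : Set V := {a | a ∈ A ∧ M a ≠ L a} with hA₁
  have hsub : A₁ ⊆ A := fun a ha => ha.1
  have c1 := h5_card h (A₁ := A₁) hsub hAf
  have c2 := h5_card h' (A₁ := A₁) (by rw [hA]; exact hsub) hAf
  have hL' : IsM G L := hL.isM
  have hvM : M v = v := notMem_cov.1 h.hv
  have htL : L t = t := notMem_cov.1 h'.hv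
  have hvA : v ∉ A := fun hc => hc.2.1 (v_mem h)
  have htA : t ∉ A := fun hc => hc.2.1 ht
  have k1 : insert v (M '' A) \ insert t (L '' A) =
      insert v (M '' A₁) \ insert t (L '' A₁) := by
    ext x
    constructor
    · rintro ⟨hx, hx'⟩
      refine ⟨?_, fun hc => hx' ?_⟩
      · rcases hx with hx | ⟨a, ha, rfl⟩
        · exact Or.inl hx
        · refine Or.inr ⟨a, ⟨ha, fun e => hx' (Or.inr ⟨a, ha, e.symm⟩)⟩, rfl⟩
      · rcases hc with hc | ⟨a, ha, rfl⟩
        · exact Or.inl hc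
        · exact Or.inr ⟨a, ha.1, rfl⟩
    · rintro ⟨hx, hx'⟩
      refine ⟨?_, fun hc => ?_⟩
      · rcases hx with hx | ⟨a, ha, rfl⟩
        · exact Or.inl hx
        · exact Or.inr ⟨a, ha.1, rfl⟩
      · rcases hc with hc | ⟨a, ha, e⟩
        · exact hx' (Or.inl hc)
        · by_cases ha1 : M a = L a
          · rcases hx with hx | ⟨b, hb, hb'⟩
            · have : a = v := by
                rw [← h.hM.inv a, ha1, e, hx, hvM]
              exact hvA (this ▸ ha)
            · have : a = b := h.hM.inj (by rw [ha1, e, hb'])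
              exact hb.2 (this ▸ ha1)
          · exact hx' (Or.inr ⟨a, ⟨ha, ha1⟩, e⟩)
  have k2 : insert t (L '' A) \ insert v (M '' A) =
      insert t (L '' A₁) \ insert v (M '' A₁) := by
    ext x
    constructor
    · rintro ⟨hx, hx'⟩
      refine ⟨?_, fun hc => hx' ?_⟩
      · rcases hx with hx | ⟨a, ha, rfl⟩
        · exact Or.inl hx
        · refine Or.inr ⟨a, ⟨ha, fun e => hx' (Or.inr ⟨a, ha, e⟩)⟩, rfl⟩
      · rcases hc with hc | ⟨a, ha, rfl⟩
        · exact Or.inl hc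
        · exact Or.inr ⟨a, ha.1, rfl⟩
    · rintro ⟨hx, hx'⟩
      refine ⟨?_, fun hc => ?_⟩
      · rcases hx with hx | ⟨a, ha, rfl⟩
        · exact Or.inl hx
        · exact Or.inr ⟨a, ha.1, rfl⟩
      · rcases hc with hc | ⟨a, ha, e⟩
        · exact hx' (Or.inl hc)
        · by_cases ha1 : M a = L a
          · rcases hx with hx | ⟨b, hb, hb'⟩
            · have : a = t := by
                rw [← hL'.inv a, ← ha1, e, hx, htL]
              exact htA (this ▸ ha)
            · have : a = b := hL'.inj (by rw [← ha1, e, hb'])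
              exact hb.2 (this ▸ ha1)
          · exact hx' (Or.inr ⟨a, ⟨ha, ha1⟩, e⟩)
  rw [e1, e2, k1, k2]
  exact h5_ncard ((hAf.image _).insert _) ((hAf.image _).insert _) (by rw [c1, c2])

end Pool.Agent.H70A
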