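import Pool.Agent.Lib.H70A.H5

/-!
# H70A chunk H6: Gallai's lemma

PROOF. Fix `z'` and prove by `Relation.ReflTransGen.head_induction_on`, for all `N`: if `z` is joined to
`z'` inside `D = DD G M v`, `z ≠ z'`, `N` balanced inside `D`, then `N` does not miss both `z` and `z'`.
The case `z = z'` is excluded. Let `G.Adj z t`, `t ∈ D`, `t` joined to `z'`, the statement for `t` being
known. Suppose `z, z' ∉ cov N`.
* Adjacent missed vertices are impossible (*): if a balanced `L` inside `D` misses `z` and `t`, then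
  `ad L z t` contradicts `Bal.no_aug2`.
* `t = z'`: (*). So `t ≠ z'`, and `t ∈ cov N` by (*).
* Let `N_t` be as in `exists_bal` for `t`. `z ∈ cov N_t` by (*), `z' ∈ cov N_t` by the induction
  hypothesis.
* `sd` for `N`, `N_t`, `z` (`z ∈ cov N_t`, `z ∉ cov N`; `df N N_t` is finite): `N', N_t', y`.
  (i) `cov N' = cov N + z + y`: contradicts `Bal.no_aug2` (`cov N' ⊆ cov N ∪ cov N_t ⊆ D`).
  (ii) `y ∈ cov N`, `y ∉ cov N_t`, `cov N' = cov N + z - y`, `cov N_t' = cov N_t + y - z`. If `y ≠ t`:
  `N_t'` is balanced (`Bal.exchange`) and misses `t` and `z`: (*). If `y = t`: `N'` is balanced, misses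
  `t` and `z'` (`z' ∉ cov N`, `z' ≠ z`): induction hypothesis.
-/

namespace Pool.Agent.H70A

universe u

variable {V : Type u} {G : SimpleGraph V} {O U : Set V} {M : V → V} {v : V}

theorem h6_star (h : HS G O U M v) {L : V → V} (hL : IsM G L)
    (hD : ∀ x ∈ cov L, x ∈ DD G M v) (hb : Bal (ins (DD G M v) M) L) {z t : V}
    (hadj : G.Adj z t) (hz : z ∈ DD G M v) (ht : t ∈ DD G M v) (hz' : z ∉ cov L)
    (ht' : t ∉ cov L) : False := by
  refine Bal.no_aug2 h hb (N' := ad L z t) ?_ (ad_isM hL hadj hz' ht') ?_ hadj.ne hz' ht' ?_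
  · exact (Set.toFinite {z, t}).subset (df_ad L z t)
  · intro x hx
    rw [mem_cov_ad hadj.ne] at hx
    rcases hx with hx | rfl | rfl
    · exact hD x hx
    · exact hz
    · exact ht
  · intro x
    exact mem_cov_ad hadj.ne

theorem h6_aux (h : HS G O U M v) {z z' : V} (hz' : z' ∈ DD G M v)
    (hr : Relation.ReflTransGen (fun x y => G.Adj x y ∧ y ∈ DD G M v) z z') :
    ∀ N : V → V, IsM G N → (∀ x ∈ cov N, x ∈ DD G M v) → Bal (ins (DD G M v) M) N →
      z ∈ DD G M v → z ≠ z' → z ∈ cov N ∨ z' ∈ cov N := by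
  induction hr using Relation.ReflTransGen.head_induction_on with
  | refl => exact fun N _ _ _ _ hne => absurd rfl hne
  | @head z t h1 _ ih =>
    intro N hN hD hb hz hne
    by_contra hcon
    push Not at hcon
    obtain ⟨hzN, hz'N⟩ := hcon
    obtain ⟨hadj, ht⟩ := h1
    have htz' : t ≠ z' := by
      rintro rfl
      exact h6_star h hN hD hb hadj hz ht hzN hz'N
    have htN : t ∈ cov N := by
      by_contra htN
      exact h6_star h hN hD hb hadj hz ht hzN htN
    obtain ⟨Nt, hNt, hDt, hbt, htt⟩ := exists_bal h ht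
    have hzt : z ∈ cov Nt := by
      by_contra hzt
      exact h6_star h hNt hDt hbt hadj hz ht hzt htt
    have hz't : z' ∈ cov Nt := by
      rcases ih Nt hNt hDt hbt ht htz' with h2 | h2
      · exact absurd h2 htt
      · exact h2
    have hf : (df N Nt).Finite := df_finite_trans (df_finite_symm hb.1) hbt.1
    obtain ⟨N', Nt', y, hN', hNt', hf1, hf2, hyz, hpt, hor⟩ := sd hN hNt hf hzt hzN
    rcases hor with ⟨hy1, hy2, hc1, hc2⟩ | ⟨hy1, hy2, hc1, hc2⟩
    · refine Bal.no_aug2 h hb hf1 hN' ?_ (Ne.symm hyz) hzN hy2 hc1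
      intro x hx
      rcases (hc1 x).1 hx with hx | rfl | rfl
      · exact hD x hx
      · exact hz
      · exact hDt x hy1
    · have hD' : ∀ x ∈ cov N', x ∈ DD G M v := by
        intro x hx
        rcases ((hc1 x).1 hx).1 with hx | rfl
        · exact hD x hx
        · exact hz
      have hDt' : ∀ x ∈ cov Nt', x ∈ DD G M v := by
        intro x hx
        rcases ((hc2 x).1 hx).1 with hx | rfl
        · exact hDt x hx
        · exact hD x hy1
      by_cases hyt : y = t
      · have hb' : Bal (ins (DD G M v) M) N' := hb.exchange hf1 hzN hy1 hc1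
        have ht' : t ∉ cov N' := fun hx => ((hc1 t).1 hx).2 hyt.symm
        have hz'' : z' ∉ cov N' := by
          intro hx
          rcases ((hc1 z').1 hx).1 with hx | hx
          · exact hz'N hx
          · exact hne hx.symm
        rcases ih N' hN' hD' hb' ht htz' with h2 | h2
        · exact ht' h2
        · exact hz'' h2
      · have hb' : Bal (ins (DD G M v) M) Nt' := hbt.exchange hf2 hy2 hzt hc2
        refine h6_star h hNt' hDt' hb' hadj hz ht ?_ ?_
        · exact fun hx => ((hc2 z).1 hx).2 rfl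
        · intro hx
          rcases ((hc2 t).1 hx).1 with hx | hx
          · exact htt hx
          · exact hyt hx.symm

theorem gallai (h : HS G O U M v) {N : V → V} (hN : IsM G N)
    (hD : ∀ x ∈ cov N, x ∈ DD G M v) (hb : Bal (ins (DD G M v) M) N) {z z' : V}
    (hz : z ∈ DD G M v) (hz' : z' ∈ DD G M v) (hne : z ≠ z')
    (hr : Relation.ReflTransGen (fun x y => G.Adj x y ∧ y ∈ DD G M v) z z') :
    z ∈ cov N ∨ z' ∈ cov N :=
  h6_aux h hz' hr N hN hD hb hz hne

end Pool.Agent.H70A
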