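import Pool.Agent.Lib.H70A.H6

/-!
# H70A chunk H7: the bodies

PROOFS. `k = Bd G M v t = {y | t joined to y inside D}`, for `t ∈ D = DD G M v`; all of `k` is in `D`,
any two vertices of `k` are joined inside `D` (the relation restricted to `D` is symmetric), and a
vertex of `D` adjacent to a vertex of `k` is in `k`.
* `body_crit`: take `N` of `exists_bal` for `x` and restrict it: `N' = ins k N`. For `y ∈ k`, `y ≠ x`:
  `y ∈ cov N` by `gallai` (since `x ∉ cov N`), `N y ∈ D` (`N y ∈ cov N`) adjacent to `y`, so `N y ∈ k`.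
  Hence `N' y = N y`. `N' x = x` because `N x = x`. `{y ∈ k | N' y ≠ M y ...}`: for `y ∈ k`, `y ≠ x`,
  with `N y = ins D M y` we have `ins D M y = N y ≠ y`, so `ins D M y = M y`; the set
  `{y ∈ k | N' y ≠ M y}` is contained in `df (ins D M) N ∪ {x}`.
* `body_root`: uniqueness of a vertex of `k` missed by `ins D M`: `gallai` for `N = ins D M`
  (`Bal.refl`). Existence: suppose `ins D M` covers all of `k`. Let `M₁ := ins k M` (covers exactly `k`:
  for `y ∈ k`, `ins D M y = M y ∈ D` adjacent to `y`, so in `k`) and `N'` as in `body_crit` for `x = t`,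
  `cov N' = k \ {t}`, finite difference. `sd` for `N'`, `M₁`, `t`: (i) `y ∈ cov M₁`, `y ∉ cov N'`, `y ≠ t`:
  impossible; (ii) `y ∈ cov N'`, `y ∉ cov M₁`: impossible.
-/

namespace Pool.Agent.H70A

universe u

variable {V : Type u} {G : SimpleGraph V} {O U : Set V} {M : V → V} {v : V}

/-- The component of `t` in `DD`. -/
def Bd (G : SimpleGraph V) (M : V → V) (v t : V) : Set V :=
  {y | Relation.ReflTransGen (fun x y => G.Adj x y ∧ y ∈ DD G M v) t y}

theorem bd_self (t : V) : t ∈ Bd G M v t := Relation.ReflTransGen.refl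

theorem bd_subset {t : V} (ht : t ∈ DD G M v) : Bd G M v t ⊆ DD G M v := by
  intro y hy
  rcases Relation.ReflTransGen.cases_tail hy with h | ⟨c, -, hc⟩
  · exact h ▸ ht
  · exact hc.2

theorem bd_adj {t x y : V} (hx : x ∈ Bd G M v t) (hy : y ∈ DD G M v) (hxy : G.Adj x y) :
    y ∈ Bd G M v t := Relation.ReflTransGen.tail hx ⟨hxy, hy⟩

theorem h7_symm {t x : V} (ht : t ∈ DD G M v) (hx : x ∈ Bd G M v t) : t ∈ Bd G M v x := by
  induction hx with
  | refl => exact bd_self t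
  | @tail b c hb hc ih =>
    have hbD : b ∈ DD G M v := bd_subset ht hb
    exact Relation.ReflTransGen.head ⟨hc.1.symm, hbD⟩ ih

theorem bd_eq {t x : V} (ht : t ∈ DD G M v) (hx : x ∈ Bd G M v t) : Bd G M v x = Bd G M v t := by
  ext y
  exact ⟨fun hy => Relation.ReflTransGen.trans hx hy,
    fun hy => Relation.ReflTransGen.trans (h7_symm ht hx) hy⟩

theorem body_crit (h : HS G O U M v) {t : V} (ht : t ∈ DD G M v) {x : V} (hx : x ∈ Bd G M v t) :
    ∃ N : V → V, IsM G N ∧ N x = x ∧ (∀ y ∈ Bd G M v t, y ≠ x → N y ∈ Bd G M v t ∧ N y ≠ y) ∧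
      (∀ y, y ∉ Bd G M v t → N y = y) ∧ {y | y ∈ Bd G M v t ∧ N y ≠ M y}.Finite := by
  have hxD : x ∈ DD G M v := bd_subset ht hx
  obtain ⟨N, hN, hD, hb, hxN⟩ := exists_bal h hxD
  have key : ∀ y ∈ Bd G M v t, y ≠ x → N y ∈ Bd G M v t ∧ N y ≠ y := by
    intro y hy hyx
    have hyD : y ∈ DD G M v := bd_subset ht hy
    have hr : y ∈ Bd G M v x := by
      rw [bd_eq ht hx]
      exact hy
    have h1 : y ∈ cov N := (gallai h hN hD hb hxD hyD hyx.symm hr).resolve_left hxN
    exact ⟨bd_adj hy (hD _ (hN.map_cov h1)) (hN.adj y h1), h1⟩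
  refine ⟨ins (Bd G M v t) N, ins_isM hN _, ?_, ?_, ?_, ?_⟩
  · rw [notMem_cov] at hxN
    by_cases h1 : x ∈ Bd G M v t ∧ N x ∈ Bd G M v t
    · rw [ins_apply h1.1 h1.2]
      exact hxN
    · rw [ins_of_notMem h1]
  · intro y hy hyx
    obtain ⟨h1, h2⟩ := key y hy hyx
    rw [ins_apply hy h1]
    exact ⟨h1, h2⟩
  · intro y hy
    exact ins_of_notMem fun e => hy e.1
  · refine (hb.1.union (Set.finite_singleton x)).subset ?_
    rintro y ⟨hy, hne⟩
    by_cases hyx : y = x
    · exact Or.inr hyx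
    · left
      intro e
      obtain ⟨h1, h2⟩ := key y hy hyx
      rw [ins_apply hy h1] at hne
      by_cases h3 : y ∈ DD G M v ∧ M y ∈ DD G M v
      · rw [ins_apply h3.1 h3.2] at e
        exact hne e.symm
      · rw [ins_of_notMem h3] at e
        exact h2 e.symm

theorem body_root (h : HS G O U M v) {t : V} (ht : t ∈ DD G M v) :
    ∃ r ∈ Bd G M v t, r ∉ cov (ins (DD G M v) M) ∧
      ∀ x ∈ Bd G M v t, x ≠ r → x ∈ cov (ins (DD G M v) M) := by
  have hex : ∃ r ∈ Bd G M v t, r ∉ cov (ins (DD G M v) M) := by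
    by_contra hcon
    push Not at hcon
    have hk : ∀ y ∈ Bd G M v t, M y ∈ Bd G M v t ∧ M y ≠ y := by
      intro y hy
      obtain ⟨-, h2, h3⟩ := mem_cov_ins.mp (hcon y hy)
      exact ⟨bd_adj hy h2 (h.hM.adj y h3), h3⟩
    obtain ⟨N, hN, hNt, hN1, hN2, hN3⟩ := body_crit h ht (bd_self t)
    have hM1 : IsM G (ins (Bd G M v t) M) := ins_isM h.hM _
    have hfin : (df N (ins (Bd G M v t) M)).Finite := by
      refine hN3.subset ?_
      intro y hy
      by_cases hyk : y ∈ Bd G M v t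
      · rw [mem_df, ins_apply hyk (hk y hyk).1] at hy
        exact ⟨hyk, hy⟩
      · exfalso
        rw [mem_df, hN2 y hyk, ins_of_notMem fun e => hyk e.1] at hy
        exact hy rfl
    have hcovM : ∀ y, y ∈ cov (ins (Bd G M v t) M) ↔ y ∈ Bd G M v t := by
      intro y
      rw [mem_cov_ins]
      exact ⟨fun e => e.1, fun e => ⟨e, (hk y e).1, (hk y e).2⟩⟩
    have ht1 : t ∈ cov (ins (Bd G M v t) M) := (hcovM t).mpr (bd_self t)
    have ht2 : t ∉ cov N := notMem_cov.mpr hNt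
    obtain ⟨M', N', y, -, -, -, -, hyt, -, hc⟩ := sd hN hM1 hfin ht1 ht2
    rcases hc with ⟨hy1, hy2, -⟩ | ⟨hy1, hy2, -⟩
    · rw [hcovM] at hy1
      exact hy2 (hN1 y hy1 hyt).2
    · rw [hcovM] at hy2
      exact hy1 (hN2 y hy2)
  obtain ⟨r, hr, hr'⟩ := hex
  refine ⟨r, hr, hr', ?_⟩
  intro x hx hxr
  have hDi : ∀ y ∈ cov (ins (DD G M v) M), y ∈ DD G M v := fun y hy => (mem_cov_ins.mp hy).1
  have hrx : x ∈ Bd G M v r := by
    rw [bd_eq ht hr]
    exact hx
  exact (gallai h (ins_isM h.hM _) hDi (Bal.refl _) (bd_subset ht hr) (bd_subset ht hx) hxr.symm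
    hrx).resolve_left hr'

end Pool.Agent.H70A
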