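import Mathlib

/-!
# Matchings as involutions (helper70, H70A)

`MP_fc2b6d_co`: strongly maximal matchings in all graphs. A matching of a graph `G` on `V` is an
involution `M : V → V` with `M x = x` (`x` uncovered) or `G.Adj x (M x)`.
-/

namespace Pool.Agent.H70A

open Classical

universe u

variable {V : Type u}

/-- `M` is a matching of `G` (fixed points = uncovered vertices). -/
structure IsM (G : SimpleGraph V) (M : V → V) : Prop where
  inv : ∀ x, M (M x) = x
  adj : ∀ x, M x ≠ x → G.Adj x (M x)

/-- The set of covered vertices. -/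
def cov (M : V → V) : Set V := {x | M x ≠ x}

/-- The set where two maps differ. -/
def df (M N : V → V) : Set V := {x | M x ≠ N x}

theorem mem_cov {M : V → V} {x : V} : x ∈ cov M ↔ M x ≠ x := Iff.rfl

theorem mem_df {M N : V → V} {x : V} : x ∈ df M N ↔ M x ≠ N x := Iff.rfl

theorem notMem_cov {M : V → V} {x : V} : x ∉ cov M ↔ M x = x := by
  simp [cov]

theorem notMem_df {M N : V → V} {x : V} : x ∉ df M N ↔ M x = N x := by
  simp [df]

theorem df_comm (M N : V → V) : df M N = df N M := by
  ext x
  simp only [df, Set.mem_setOf_eq]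
  exact ne_comm

theorem df_self (M : V → V) : df M M = ∅ := by
  ext x
  simp [df]

theorem df_trans {M N L : V → V} : df M L ⊆ df M N ∪ df N L := by
  intro x hx
  by_contra h
  simp only [Set.mem_union, not_or, notMem_df] at h
  exact hx (h.1.trans h.2)

theorem df_finite_trans {M N L : V → V} (h1 : (df M N).Finite) (h2 : (df N L).Finite) :
    (df M L).Finite :=
  (h1.union h2).subset df_trans

theorem df_finite_symm {M N : V → V} (h : (df M N).Finite) : (df N M).Finite := by
  rwa [df_comm]

theorem IsM.id (G : SimpleGraph V) : IsM G (fun x => x) :=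
  ⟨fun _ => rfl, fun _ h => absurd rfl h⟩

theorem IsM.inj {G : SimpleGraph V} {M : V → V} (h : IsM G M) {x y : V} (hxy : M x = M y) :
    x = y := by
  rw [← h.inv x, hxy, h.inv]

theorem IsM.eq_iff {G : SimpleGraph V} {M : V → V} (h : IsM G M) {x y : V} :
    M x = y ↔ x = M y :=
  ⟨fun e => by rw [← e, h.inv], fun e => by rw [e, h.inv]⟩

theorem IsM.mono {G G' : SimpleGraph V} (hG : G ≤ G') {M : V → V} (h : IsM G M) : IsM G' M :=
  ⟨h.inv, fun x hx => hG (h.adj x hx)⟩

theorem IsM.map_cov {G : SimpleGraph V} {M : V → V} (h : IsM G M) {x : V} (hx : x ∈ cov M) :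
    M x ∈ cov M := by
  intro e
  rw [h.inv] at e
  exact hx e.symm

theorem IsM.map_cov_iff {G : SimpleGraph V} {M : V → V} (h : IsM G M) {x : V} :
    M x ∈ cov M ↔ x ∈ cov M :=
  ⟨fun hx => by have := h.map_cov hx; rwa [h.inv] at this, h.map_cov⟩

theorem IsM.df_left {G G' : SimpleGraph V} {M N : V → V} (hM : IsM G M) (hN : IsM G' N) {x : V}
    (hx : x ∈ df M N) : M x ∈ df M N := by
  intro e
  rw [hM.inv] at e
  exact hx (by rw [← hN.inv (M x), ← e])

theorem IsM.df_right {G G' : SimpleGraph V} {M N : V → V} (hM : IsM G M) (hN : IsM G' N) {x : V}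
    (hx : x ∈ df M N) : N x ∈ df M N := by
  rw [df_comm] at hx ⊢
  exact hN.df_left hM hx

/-! ### Swapping on a closed set -/

/-- The map which is `N` on `P` and `M` outside `P`. -/
noncomputable def sw (P : Set V) (M N : V → V) : V → V := fun x => if x ∈ P then N x else M x

theorem sw_mem {P : Set V} {M N : V → V} {x : V} (h : x ∈ P) : sw P M N x = N x := by
  simp [sw, h]

theorem sw_notMem {P : Set V} {M N : V → V} {x : V} (h : x ∉ P) : sw P M N x = M x := by
  simp [sw, h]

theorem sw_isM {G : SimpleGraph V} {P : Set V} {M N : V → V} (hM : IsM G M) (hN : IsM G N)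
    (h1 : ∀ x ∈ P, M x ∈ P) (h2 : ∀ x ∈ P, N x ∈ P) : IsM G (sw P M N) := by
  have h1' : ∀ x, x ∉ P → M x ∉ P := fun x hx h => hx (by rw [← hM.inv x]; exact h1 _ h)
  refine ⟨fun x => ?_, fun x hx => ?_⟩
  · by_cases h : x ∈ P
    · rw [sw_mem h, sw_mem (h2 x h), hN.inv]
    · rw [sw_notMem h, sw_notMem (h1' x h), hM.inv]
  · by_cases h : x ∈ P
    · rw [sw_mem h] at hx ⊢
      exact hN.adj x hx
    · rw [sw_notMem h] at hx ⊢
      exact hM.adj x hx

theorem df_sw_subset (P : Set V) (M N : V → V) : df M (sw P M N) ⊆ P ∩ df M N := by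
  intro x hx
  by_cases h : x ∈ P
  · refine ⟨h, ?_⟩
    rw [mem_df, sw_mem h] at hx
    exact hx
  · rw [mem_df, sw_notMem h] at hx
    exact absurd rfl hx

/-! ### Adding and removing an edge -/

/-- Add the edge `ab`. -/
noncomputable def ad (M : V → V) (a b : V) : V → V := fun x =>
  if x = a then b else if x = b then a else M x

/-- Remove the edge at `a`. -/
noncomputable def rm (M : V → V) (a : V) : V → V := fun x => if x = a ∨ x = M a then x else M x

theorem ad_isM {G : SimpleGraph V} {M : V → V} (hM : IsM G M) {a b : V} (hab : G.Adj a b)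
    (ha : a ∉ cov M) (hb : b ∉ cov M) : IsM G (ad M a b) := by
  rw [notMem_cov] at ha hb
  have hne := hab.ne
  have key : ∀ x, x ≠ a → x ≠ b → M x ≠ a ∧ M x ≠ b := by
    intro x h1 h2
    constructor
    · intro h
      rw [hM.eq_iff, ha] at h
      exact h1 h
    · intro h
      rw [hM.eq_iff, hb] at h
      exact h2 h
  refine ⟨fun x => ?_, fun x hx => ?_⟩
  · by_cases h1 : x = a
    · subst h1
      simp [ad, hne.symm]
    · by_cases h2 : x = b
      · subst h2
        simp [ad, h1]
      · obtain ⟨h3, h4⟩ := key x h1 h2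
        simp [ad, h1, h2, h3, h4, hM.inv]
  · by_cases h1 : x = a
    · subst h1
      simpa [ad] using hab
    · by_cases h2 : x = b
      · subst h2
        simpa [ad, h1] using hab.symm
      · simp only [ad, h1, h2, if_false] at hx ⊢
        exact hM.adj x hx

theorem mem_cov_ad {M : V → V} {a b x : V} (hab : a ≠ b) :
    x ∈ cov (ad M a b) ↔ x ∈ cov M ∨ x = a ∨ x = b := by
  by_cases h1 : x = a
  · subst h1
    simp [cov, ad, hab.symm]
  · by_cases h2 : x = b
    · subst h2
      simp [cov, ad, h1, hab]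
    · simp [cov, ad, h1, h2]

theorem df_ad (M : V → V) (a b : V) : df M (ad M a b) ⊆ {a, b} := by
  intro x hx
  by_contra h
  simp only [Set.mem_insert_iff, Set.mem_singleton_iff, not_or] at h
  exact hx (by simp [ad, h.1, h.2])

theorem rm_isM {G : SimpleGraph V} {M : V → V} (hM : IsM G M) (a : V) : IsM G (rm M a) := by
  have key : ∀ x, x ≠ a → x ≠ M a → M x ≠ a ∧ M x ≠ M a := by
    intro x h1 h2
    constructor
    · intro h
      rw [hM.eq_iff] at h
      exact h2 h
    · intro h
      exact h1 (hM.inj h)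
  refine ⟨fun x => ?_, fun x hx => ?_⟩
  · by_cases h : x = a ∨ x = M a
    · simp [rm, h]
    · push Not at h
      obtain ⟨h3, h4⟩ := key x h.1 h.2
      simp [rm, h.1, h.2, h3, h4, hM.inv]
  · by_cases h : x = a ∨ x = M a
    · simp [rm, h] at hx
    · simp only [rm, h, if_false] at hx ⊢
      exact hM.adj x hx

theorem mem_cov_rm {M : V → V} {a x : V} :
    x ∈ cov (rm M a) ↔ x ∈ cov M ∧ x ≠ a ∧ x ≠ M a := by
  by_cases h : x = a ∨ x = M a
  · simp only [cov, rm, Set.mem_setOf_eq, h, if_true, ne_eq, not_true_eq_false, false_iff,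
      not_and, not_not]
    intro _ h1
    rcases h with h | h
    · exact absurd h h1
    · exact h
  · push Not at h
    simp [cov, rm, h.1, h.2]

theorem df_rm (M : V → V) (a : V) : df M (rm M a) ⊆ {a, M a} := by
  intro x hx
  by_contra h
  simp only [Set.mem_insert_iff, Set.mem_singleton_iff, not_or] at h
  exact hx (by simp [rm, h.1, h.2])

theorem rm_apply {M : V → V} {a x : V} (h1 : x ≠ a) (h2 : x ≠ M a) : rm M a x = M x := by
  simp [rm, h1, h2]

theorem ad_left {M : V → V} {a b : V} : ad M a b a = b := by simp [ad]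

theorem ad_right {M : V → V} {a b : V} (h : a ≠ b) : ad M a b b = a := by simp [ad, h.symm]

theorem ad_apply {M : V → V} {a b x : V} (h1 : x ≠ a) (h2 : x ≠ b) : ad M a b x = M x := by
  simp [ad, h1, h2]

/-! ### Restriction to a set -/

/-- The part of `M` inside `S`: the edges with both ends in `S`. -/
noncomputable def ins (S : Set V) (M : V → V) : V → V := fun x => if x ∈ S ∧ M x ∈ S then M x else x

theorem ins_isM {G : SimpleGraph V} {M : V → V} (hM : IsM G M) (S : Set V) : IsM G (ins S M) := by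
  refine ⟨fun x => ?_, fun x hx => ?_⟩
  · by_cases h : x ∈ S ∧ M x ∈ S
    · simp [ins, h.1, h.2, hM.inv]
    · simp [ins, h]
  · by_cases h : x ∈ S ∧ M x ∈ S
    · simp only [ins, h, and_self, if_true] at hx ⊢
      exact hM.adj x hx
    · simp [ins, h] at hx

theorem ins_apply {M : V → V} {S : Set V} {x : V} (h1 : x ∈ S) (h2 : M x ∈ S) :
    ins S M x = M x := by
  simp [ins, h1, h2]

theorem ins_of_notMem {M : V → V} {S : Set V} {x : V} (h : ¬ (x ∈ S ∧ M x ∈ S)) :
    ins S M x = x := by
  simp [ins, h]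

theorem mem_cov_ins {M : V → V} {S : Set V} {x : V} :
    x ∈ cov (ins S M) ↔ x ∈ S ∧ M x ∈ S ∧ x ∈ cov M := by
  by_cases h : x ∈ S ∧ M x ∈ S
  · simp [cov, ins, h.1, h.2]
  · simp only [cov, ins, h, if_false, Set.mem_setOf_eq, ne_eq, not_true_eq_false, false_iff]
    tauto

theorem df_ins_subset {M N : V → V} {S : Set V} : df (ins S M) (ins S N) ⊆ df M N := by
  intro x hx h
  exact hx (by simp only [ins, h])

/-! ### Priority union -/

/-- The edges of `N` and all edges of `M` not meeting `cov N`. -/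
noncomputable def ov (N M : V → V) : V → V := fun x =>
  if x ∈ cov N then N x else if M x ∈ cov N then x else M x

theorem ov_left {N M : V → V} {x : V} (h : x ∈ cov N) : ov N M x = N x := by
  simp [ov, h]

theorem ov_right {N M : V → V} {x : V} (h : x ∉ cov N) (h' : M x ∉ cov N) : ov N M x = M x := by
  simp [ov, h, h']

theorem ov_none {N M : V → V} {x : V} (h : x ∉ cov N) (h' : M x ∈ cov N) : ov N M x = x := by
  simp [ov, h, h']

theorem ov_isM {G : SimpleGraph V} {N M : V → V} (hN : IsM G N) (hM : IsM G M) :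
    IsM G (ov N M) := by
  refine ⟨fun x => ?_, fun x hx => ?_⟩
  · by_cases h : x ∈ cov N
    · rw [ov_left h, ov_left (hN.map_cov h), hN.inv]
    · by_cases h' : M x ∈ cov N
      · rw [ov_none h h', ov_none h h']
      · rw [ov_right h h', ov_right h' (by rw [hM.inv]; exact h), hM.inv]
  · by_cases h : x ∈ cov N
    · rw [ov_left h] at hx ⊢
      exact hN.adj x hx
    · by_cases h' : M x ∈ cov N
      · rw [ov_none h h'] at hx
        exact absurd rfl hx
      · rw [ov_right h h'] at hx ⊢
        exact hM.adj x hx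

theorem mem_cov_ov {N M : V → V} {x : V} :
    x ∈ cov (ov N M) ↔ x ∈ cov N ∨ (x ∈ cov M ∧ M x ∉ cov N) := by
  by_cases h : x ∈ cov N
  · simp only [h, true_or, iff_true]
    rw [mem_cov, ov_left h]
    exact h
  · by_cases h' : M x ∈ cov N
    · rw [mem_cov, ov_none h h']
      simp [h, h']
    · rw [mem_cov, ov_right h h']
      simp [h, h', mem_cov]

/-- A matching `M` covering all of `Y` except optional vertices, inside `Y`. -/
def Cov (G : SimpleGraph V) (O Y : Set V) : Prop :=
  ∃ M : V → V, IsM G M ∧ (∀ x ∈ cov M, x ∈ Y) ∧ ∀ x ∈ Y, x ∉ O → x ∈ cov M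

end Pool.Agent.H70A
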