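import Pool.Agent.Lib.H70A.M0

/-!
# H70A chunk M1: the exchange lemma

PROOF (induction on the number `n` of elements of `df M N`, for all `M, N, x`).
Let `z := N x`, `z ≠ x`, and `M x = x`, so `x, z ∈ df M N` (`M z ≠ N z = x` because `M x = x`).
* If `z ∉ cov M`: `P = {x, z}`, `y = z`.
* Otherwise let `w := M z`, `w ≠ z`, `w ≠ x` (as `M x = x`), `w ∈ df M N` (since `N w = z = M w` would
  give `w = N z = x`). If `w ∉ cov N`: `P = {x, z, w}`, `y = w` (second alternative).
* Otherwise apply the induction hypothesis to `M' = rm M z` (remove the edge `zw`), `N' = rm N x`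
  (remove `xz`) and `w` in place of `x`: `w ∈ cov N'` (`N w ≠ x, z`, as `N w ∈ {x, z}` would give
  `w ∈ {z, x}`), `w ∉ cov M'`, `df M' N' ⊆ df M N \ {x, z}` (at `x`: `M' x = x = N' x`; at `z`:
  `M' z = z = N' z`; elsewhere `M' = M` except at `w`, `N' = N`; `w ∈ df M N`). It gives `P', y'` with
  `P' ⊆ df M' N'`, so `x, z ∉ P'`. Put `P = P' ∪ {x, z}`, `y = y'`.
  Closure: `M x = x`, `N x = z`, `M z = w ∈ P'`, `N z = x`; for `u ∈ P'`: `M u = M' u ∈ P'` unless
  `u = w`, where `M w = z`; `N u = N' u ∈ P'` (`u ≠ x, z`).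
  `w ∈ P'` is covered by `M` (`M w = z`) and by `N`. `y' ≠ x, z, w`.
-/

namespace Pool.Agent.H70A

universe u

variable {V : Type u}

theorem sd_set {G : SimpleGraph V} {M N : V → V} (hM : IsM G M) (hN : IsM G N)
    (hf : (df M N).Finite) {x : V} (hx : x ∈ cov N) (hx' : x ∉ cov M) :
    ∃ (P : Set V) (y : V), P ⊆ df M N ∧ x ∈ P ∧ y ∈ P ∧ y ≠ x ∧ (∀ z ∈ P, M z ∈ P ∧ N z ∈ P) ∧
      (∀ z ∈ P, z ≠ x → z ≠ y → z ∈ cov M ∧ z ∈ cov N) ∧
      ((y ∉ cov M ∧ y ∈ cov N) ∨ (y ∈ cov M ∧ y ∉ cov N)) := by
  obtain ⟨n, hn⟩ : ∃ n, (df M N).ncard = n := ⟨_, rfl⟩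
  induction n using Nat.strong_induction_on generalizing M N x with
  | _ n ih =>
    have hMx : M x = x := notMem_cov.1 hx'
    obtain ⟨z, hz⟩ : ∃ z, N x = z := ⟨_, rfl⟩
    have hzx : z ≠ x := by rw [← hz]; exact hx
    have hNz : N z = x := by rw [← hz, hN.inv]
    have hMzx : M z ≠ x := by
      intro h
      have := hM.inv z
      rw [h, hMx] at this
      exact hzx this.symm
    have hxd : x ∈ df M N := by rw [mem_df, hMx, hz]; exact hzx.symm
    have hzd : z ∈ df M N := by rw [mem_df, hNz]; exact hMzx
    have hxN : x ∈ cov N := hx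
    have hzN : z ∈ cov N := by rw [mem_cov, hNz]; exact hzx.symm
    by_cases h1 : z ∈ cov M
    · obtain ⟨w, hw⟩ : ∃ w, M z = w := ⟨_, rfl⟩
      have hwz : w ≠ z := by rw [← hw]; exact h1
      have hwx : w ≠ x := by rw [← hw]; exact hMzx
      have hMw : M w = z := by rw [← hw, hM.inv]
      have hNwz : N w ≠ z := by
        intro h
        have := hN.inv w
        rw [h, hNz] at this
        exact hwx this.symm
      have hwd : w ∈ df M N := by rw [mem_df, hMw]; exact hNwz.symm
      have hwM : w ∈ cov M := by rw [mem_cov, hMw]; exact hwz.symm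
      by_cases h2 : w ∈ cov N
      · have hM' := rm_isM hM z
        have hN' := rm_isM hN x
        have hwN' : w ∈ cov (rm N x) := mem_cov_rm.2 ⟨h2, hwx, by rw [hz]; exact hwz⟩
        have hwM' : w ∉ cov (rm M z) := fun h => (mem_cov_rm.1 h).2.2 hw.symm
        have hMeq : ∀ u, u ≠ z → u ≠ w → rm M z u = M u := fun u h h' =>
          rm_apply h (by rw [hw]; exact h')
        have hNeq : ∀ u, u ≠ x → u ≠ z → rm N x u = N u := fun u h h' =>
          rm_apply h (by rw [hz]; exact h')
        have hMz' : rm M z z = z := by simp [rm]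
        have hNz' : rm N x z = z := by simp [rm, hz]
        have hNx' : rm N x x = x := by simp [rm]
        have hsub : df (rm M z) (rm N x) ⊆ df M N ∧ x ∉ df (rm M z) (rm N x) ∧
            z ∉ df (rm M z) (rm N x) := by
          refine ⟨?_, ?_, ?_⟩
          · intro u hu
            by_cases hux : u = x
            · rw [hux]; exact hxd
            by_cases huz : u = z
            · rw [huz]; exact hzd
            by_cases huw : u = w
            · rw [huw]; exact hwd
            rw [mem_df, hMeq u huz huw, hNeq u hux huz] at hu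
            exact hu
          · rw [notMem_df, hMeq x hzx.symm hwx.symm, hNx', hMx]
          · rw [notMem_df, hMz', hNz']
        have hlt : (df (rm M z) (rm N x)).ncard < n := by
          rw [← hn]
          refine Set.ncard_lt_ncard ⟨hsub.1, fun h => hsub.2.1 (h hxd)⟩ hf
        obtain ⟨P, y, hP1, hP2, hP3, hP4, hP5, hP6, hP7⟩ :=
          ih _ hlt hM' hN' (hf.subset hsub.1) hwN' hwM' rfl
        have hxP : x ∉ P := fun h => hsub.2.1 (hP1 h)
        have hzP : z ∉ P := fun h => hsub.2.2 (hP1 h)
        have hyx : y ≠ x := fun h => hxP (h ▸ hP3)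
        have hyz : y ≠ z := fun h => hzP (h ▸ hP3)
        have hcM : ∀ u, u ≠ z → u ≠ w → (u ∈ cov (rm M z) ↔ u ∈ cov M) := fun u h h' => by
          rw [mem_cov, mem_cov, hMeq u h h']
        have hcN : ∀ u, u ≠ x → u ≠ z → (u ∈ cov (rm N x) ↔ u ∈ cov N) := fun u h h' => by
          rw [mem_cov, mem_cov, hNeq u h h']
        refine ⟨insert x (insert z P), y, ?_, Or.inl rfl, Or.inr (Or.inr hP3), hyx, ?_, ?_, ?_⟩
        · rintro u (hu | hu | hu)
          · rw [hu]; exact hxd
          · rw [hu]; exact hzd
          · exact hsub.1 (hP1 hu)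
        · rintro u (hu | hu | hu)
          · subst hu
            exact ⟨by rw [hMx]; exact Or.inl rfl, by rw [hz]; exact Or.inr (Or.inl rfl)⟩
          · subst hu
            exact ⟨by rw [hw]; exact Or.inr (Or.inr hP2), by rw [hNz]; exact Or.inl rfl⟩
          · have hux : u ≠ x := fun h => hxP (h ▸ hu)
            have huz : u ≠ z := fun h => hzP (h ▸ hu)
            refine ⟨?_, ?_⟩
            · by_cases huw : u = w
              · subst huw
                rw [hMw]; exact Or.inr (Or.inl rfl)
              · have := (hP5 u hu).1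
                rw [hMeq u huz huw] at this
                exact Or.inr (Or.inr this)
            · have := (hP5 u hu).2
              rw [hNeq u hux huz] at this
              exact Or.inr (Or.inr this)
        · rintro u (hu | hu | hu) h3 h4
          · exact absurd hu h3
          · rw [hu]; exact ⟨h1, hzN⟩
          · have hux : u ≠ x := fun h => hxP (h ▸ hu)
            have huz : u ≠ z := fun h => hzP (h ▸ hu)
            by_cases huw : u = w
            · rw [huw]; exact ⟨hwM, h2⟩
            · have := hP6 u hu huw h4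
              rw [hcM u huz huw, hcN u hux huz] at this
              exact this
        · rw [hcM y hyz hP4, hcN y hyx hyz] at hP7
          exact hP7
      · have hNw : N w = w := notMem_cov.1 h2
        refine ⟨{x, z, w}, w, ?_, Or.inl rfl, Or.inr (Or.inr rfl), hwx, ?_, ?_, Or.inr ⟨hwM, h2⟩⟩
        · rintro u (hu | hu | hu)
          · rw [hu]; exact hxd
          · rw [hu]; exact hzd
          · rw [Set.mem_singleton_iff.1 hu]; exact hwd
        · rintro u (hu | hu | hu)
          · subst hu
            exact ⟨by rw [hMx]; exact Or.inl rfl, by rw [hz]; exact Or.inr (Or.inl rfl)⟩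
          · subst hu
            exact ⟨by rw [hw]; exact Or.inr (Or.inr rfl), by rw [hNz]; exact Or.inl rfl⟩
          · rw [Set.mem_singleton_iff.1 hu]
            exact ⟨by rw [hMw]; exact Or.inr (Or.inl rfl), by rw [hNw]; exact Or.inr (Or.inr rfl)⟩
        · rintro u (hu | hu | hu) h3 h4
          · exact absurd hu h3
          · rw [hu]; exact ⟨h1, hzN⟩
          · exact absurd hu h4
    · have hMz : M z = z := notMem_cov.1 h1
      refine ⟨{x, z}, z, ?_, Or.inl rfl, Or.inr rfl, hzx, ?_, ?_, Or.inl ⟨h1, hzN⟩⟩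
      · rintro u (hu | hu)
        · rw [hu]; exact hxd
        · rw [Set.mem_singleton_iff.1 hu]; exact hzd
      · rintro u (hu | hu)
        · subst hu
          exact ⟨by rw [hMx]; exact Or.inl rfl, by rw [hz]; exact Or.inr rfl⟩
        · rw [Set.mem_singleton_iff.1 hu]
          exact ⟨by rw [hMz]; exact Or.inr rfl, by rw [hNz]; exact Or.inl rfl⟩
      · rintro u (hu | hu) h3 h4
        · exact absurd hu h3
        · exact absurd hu h4

end Pool.Agent.H70A
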