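import Pool.Agent.Lib.H70A.S0

/-!
# H70A: nice systems (all stages hole-free and robust)
-/

namespace Pool.Agent.H70A

open Cardinal Order

universe u

variable {ι : Type u} [LinearOrder ι] [WellFoundedLT ι] [SuccOrder ι] [NoMaxOrder ι] {V : Type u}

structure NSys (G : SimpleGraph V) (O : Set V) (U : ι → Set V) (w : ι → Wv V) : Prop where
  sys : Sys G O U w
  hf : ∀ i, HF (w i)
  rob1 : ∀ i j, i ≤ j → ∀ d ∈ U i, d ∉ O → Aug G O (U i \ {d}) (w i).F d →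
    Aug G O (U j \ {d}) (w j).F d
  rob2 : ∀ i j, i ≤ j → ∀ d ∈ U i, ∀ d' ∈ U i, d ∉ O → ¬ Aug G O (U i \ {d}) (w i).F d →
    Vrt G (w i) d d' → Vrt G (w j) d d'
  wit1 : ∀ i, ∀ d ∈ U i, Aug G O (U i \ {d}) (w i).F d →
    ∃ N, AugW G O (U i \ {d}) (w i).F d N ∧ df (w i).F N ⊆ U (succ i)
  wit2 : ∀ i, ∀ d ∈ U i, ∀ d' ∈ U i, Vrt G (w i) d d' →
    ∃ N, VrtW G (w i) d d' N ∧ df (w i).F N ⊆ U (succ i)

/-- The optional vertices of the virtual graph of stage `j`. -/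
def OV (G : SimpleGraph V) (O : Set V) (U : ι → Set V) (w : ι → Wv V) (j : ι) : Set V :=
  {x | x ∈ O ∨ Aug G O (U j \ {x}) (w j).F x}

theorem VrtW.symm {G : SimpleGraph V} {w : Wv V} {d d' : V} {N : V → V} (h : VrtW G w d d' N) :
    VrtW G w d' d N :=
  ⟨h.1, h.2.1, fun z => by rw [h.2.2 z]; tauto⟩

theorem Vrt.symm {G : SimpleGraph V} {w : Wv V} {d d' : V} (h : Vrt G w d d') : Vrt G w d' d := by
  obtain ⟨h1, N, h2⟩ := h
  exact ⟨h1.symm, N, h2.symm⟩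

/-- The virtual graph of stage `j`. -/
def GV (G : SimpleGraph V) (O : Set V) (U : ι → Set V) (w : ι → Wv V) (j : ι) :
    SimpleGraph V where
  Adj x y := G.Adj x y ∨ (Vrt G (w j) x y ∧ x ∈ U j ∧ y ∈ U j ∧
    (x ∉ OV G O U w j ∨ y ∉ OV G O U w j))
  symm := ⟨fun x y h => by
    rcases h with h | ⟨h1, h2, h3, h4⟩
    · exact Or.inl h.symm
    · exact Or.inr ⟨h1.symm, h3, h2, h4.symm⟩⟩
  loopless := ⟨fun x h => by
    rcases h with h | h
    · exact G.loopless.irrefl x h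
    · exact h.1.1 rfl⟩

end Pool.Agent.H70A
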