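import Pool.Agent.Lib.H70A.O2
import Pool.Agent.Lib.H70A.C2

/-!
# H70A chunk O3: robust stages

PROOF. For `d : V` let `g₁ d` be some `j` with `HF (w j)`, `d ∈ U j`, `¬ Aug G O (U j \ {d}) (w j).F d` if there is
one; for a pair let `g₂ d d'` be some `j` with `HF (w j)`, `d, d' ∈ U j`, `¬ Aug (...)` at `j` and
`¬ Vrt G (w j) d d'` if there is one. `g` = pointwise maximum of the functions given by `diag1` for `g₁` and
`diag2` for `g₂` (`Cl_mono`). Let `i ∈ Cl g`, `HF (w i)`.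
(1) `d ∈ U i \ O`, open at `i`, `i ≤ j`, `HF (w j)`. Suppose not open at `j` (`d ∈ U j`). Then `l = g₁ d` has the
above properties, `l < i`, and `mon1` (`l < i`) gives: open at `i` implies open at `l`: contradiction.
(2) `d` not open at `i`, `Vrt` at `i`, `i ≤ j`, `HF (w j)`. Suppose not `Vrt` at `j`; then `i < j`, and `d` is not
open at `j` (`mon1`), so `l = g₂ d d' < i` is defined, `d` not open at `l`, not `Vrt` at `l`; `mon2` (`l < i`):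
`Vrt` at `i` implies `Vrt` at `l`: contradiction.
-/

namespace Pool.Agent.H70A

open Cardinal Order

universe u

variable {ι : Type u} [LinearOrder ι] [WellFoundedLT ι] [SuccOrder ι] [NoMaxOrder ι] {V : Type u}
  {G : SimpleGraph V} {O : Set V} {U : ι → Set V} {w : ι → Wv V}

theorem robust (hι : RegIdx ι) (hS : Sys G O U w) :
    ∃ g : ι → ι, ∀ i ∈ Cl g, HF (w i) →
      (∀ d ∈ U i, d ∉ O → Aug G O (U i \ {d}) (w i).F d → ∀ j, i ≤ j → HF (w j) →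
        Aug G O (U j \ {d}) (w j).F d) ∧
      ∀ d ∈ U i, ∀ d' ∈ U i, d ∉ O → ¬ Aug G O (U i \ {d}) (w i).F d → Vrt G (w i) d d' →
        ∀ j, i ≤ j → HF (w j) → Vrt G (w j) d d' := by
  rcases isEmpty_or_nonempty ι with he | hne
  · exact ⟨fun i => i, fun i => (he.false i).elim⟩
  obtain ⟨i₀⟩ := hne
  have e1 : ∀ d : V, ∃ l : ι, (∃ j, HF (w j) ∧ d ∈ U j ∧ ¬ Aug G O (U j \ {d}) (w j).F d) →
      HF (w l) ∧ d ∈ U l ∧ ¬ Aug G O (U l \ {d}) (w l).F d := by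
    intro d
    by_cases h : ∃ j, HF (w j) ∧ d ∈ U j ∧ ¬ Aug G O (U j \ {d}) (w j).F d
    · obtain ⟨j, hj⟩ := h
      exact ⟨j, fun _ => hj⟩
    · exact ⟨i₀, fun h' => absurd h' h⟩
  have e2 : ∀ d d' : V, ∃ l : ι, (∃ j, HF (w j) ∧ d ∈ U j ∧ d' ∈ U j ∧
      ¬ Aug G O (U j \ {d}) (w j).F d ∧ ¬ Vrt G (w j) d d') →
      HF (w l) ∧ d ∈ U l ∧ d' ∈ U l ∧ ¬ Aug G O (U l \ {d}) (w l).F d ∧ ¬ Vrt G (w l) d d' := by
    intro d d'
    by_cases h : ∃ j, HF (w j) ∧ d ∈ U j ∧ d' ∈ U j ∧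
      ¬ Aug G O (U j \ {d}) (w j).F d ∧ ¬ Vrt G (w j) d d'
    · obtain ⟨j, hj⟩ := h
      exact ⟨j, fun _ => hj⟩
    · exact ⟨i₀, fun h' => absurd h' h⟩
  choose g₁ hg₁ using e1
  choose g₂ hg₂ using e2
  obtain ⟨h₁, hh₁⟩ := diag1 hι hS.chn g₁
  obtain ⟨h₂, hh₂⟩ := diag2 hι hS.chn g₂
  refine ⟨fun j => max (h₁ j) (h₂ j), fun i hi hHi => ⟨?_, ?_⟩⟩
  · intro d hd hO ha j hij hHj
    by_contra hna
    have hi1 : i ∈ Cl h₁ := Cl_mono (fun j => le_max_left (h₁ j) (h₂ j)) hi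
    have hl := hh₁ i hi1 d hd
    obtain ⟨a1, a2, a3⟩ := hg₁ d ⟨j, hHj, hS.chn.mono i j hij hd, hna⟩
    exact a3 (mon1 hS hl a1 hHi a2 hO ha)
  · intro d hd d' hd' hO ha hv j hij hHj
    by_contra hnv
    have hi2 : i ∈ Cl h₂ := Cl_mono (fun j => le_max_right (h₁ j) (h₂ j)) hi
    have hl := hh₂ i hi2 d hd d' hd'
    rcases hij.eq_or_lt with rfl | hlt
    · exact hnv hv
    have hna : ¬ Aug G O (U j \ {d}) (w j).F d := fun h => ha (mon1 hS hlt hHi hHj hd hO h)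
    obtain ⟨a1, a2, a3, a4, a5⟩ := hg₂ d d' ⟨j, hHj, hS.chn.mono i j hij hd,
      hS.chn.mono i j hij hd', hna, hnv⟩
    exact a5 (mon2 hS hl a1 hHi a2 a3 hO a4 hv)

end Pool.Agent.H70A
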