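import Pool.Agent.Lib.H70A.P6
import Pool.Agent.Lib.H70A.C6
import Pool.Agent.Lib.H70A.W10

/-!
# H70A chunk P7: THEOREM C'

PROOF of `conf_wave`: `⟨AS, KS, ∅, Fs⟩` is a wave of `(G, O, ∅)`. `isM`: `FinM`; `supX`: `Fs_sup`; `KA`:
definition of `AS`; `KK`, `Kadj`: `KS_disj` (a neighbour of `x ∈ k` is in `⋃₀ KS`, then in `k`, or in `AS`);
`Am`: `Fs_A`; `KO`: from `w i`. `root`, `crit` for `k ∈ KS`: `body_cases`.
 Case (A), `p`, `j = al p`: the wave `w₁ = ⟨(w j).A, (w j).K, (w j).Q, F' p⟩` (`Shift.wave`) has `k` as a body.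
 If `y p ∈ k`: `y p` is a fixed point of `F' p` (`y_fix`), so it is the root of `k` in `w₁`; the other
 vertices are mapped into `k` without fixed points; `Fs (y p) = p ∈ AS` (`P_AS`). If `y p ∉ k`: root `r` of
 `w₁`; `Fs r = F' p r` is `r` or in `(w j).A`, adjacent to `r ∈ RD`, so in `RA ⊆ AS`. `crit`: from `w₁`; `Fs` and
 `F' p` differ on `k` at most at `y p`.
 Case (B): the same with `w i`: `Fs r = (w i).F r = r` or in `(w i).A`, so in `RA_i ⊆ AS`.
PROOF of `conf_false`: the wave contains `h i` for `i ∈ T` (`PConf.hD`, `Reach.base`), contradicting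
`Solid G O ∅`.
PROOF of `cprime`. Suppose not: for every `f` there is `i ∈ Cl f` with `¬ HF (w i)`. For such `i` there is a
hole in `(w i).D` (vertices of `A` and `Q` are matched); let `h i`, and for `p ∈ U i` adjacent to `RD_i`
(`y' i p`, `F'' i p`) be given by `GE.hole` (for `E = U (succ i)`). `popular` with `S = {i | ¬ HF (w i)}` and
`E i p := ∃ y ∈ RD G (w i) (h i), G.Adj p y` gives `S'`, `P`, `α`. Let `i₀ ∈ S'`,
`T = insert i₀ (α '' P)`, `P' = {p ∈ P | ∀ i ∈ T, p ∉ RA G (w i) (h i)}`, `al = α`,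
`y p = y' (α p) p`, `F' p = F'' (α p) p`. All fields of `PConf` hold; `cover`: `i ∈ T ⊆ S'`, `a ∈ U i`,
`G.Adj x a` with `x ∈ RD_i`, so `a ∈ P` (first property of `popular`), and then `a ∈ P'` or `a ∈ RA_j` for
some `j ∈ T`.
-/

namespace Pool.Agent.H70A

open Cardinal Order

universe u

variable {ι : Type u} [LinearOrder ι] [WellFoundedLT ι] [SuccOrder ι] [NoMaxOrder ι] {V : Type u}
  {G : SimpleGraph V} {O : Set V} {U : ι → Set V} {w : ι → Wv V}

theorem p7_adj {U' : Set V} {w' : Wv V} (hw : IsWave G O U' w') {h' : V} {k : Set V}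
    (hk : Reach G w' h' k) {r : V} (hr : r ∈ k) {N : V → V} (hN : IsM G N) (hA : N r ∈ w'.A) :
    N r ∈ RA G w' h' := by
  refine ⟨hA, r, ⟨k, hk, hr⟩, hN.adj r fun e => ?_⟩
  rw [e] at hA
  exact hw.KA k (reach_mem hk) r hr hA

theorem conf_wave {T : Set ι} {h : ι → V} {P' : Set V} {al : V → ι} {y : V → V}
    {F' : V → V → V} (hS : Sys G O U w) (hP : PConf G O U w T h P' al y F') {Fb Fs : V → V}
    (hb : BaseM G w T h Fb) (hf : FinM G w P' al y F' Fb Fs) :
    IsWave G O ∅ ⟨AS G w T h, KS G w T h, ∅, Fs⟩ := by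
  refine ⟨hf.isM, ?_, fun x _ => Set.notMem_empty x, fun x _ => Set.notMem_empty x, ?_,
    fun k _ x _ => Set.notMem_empty x, ?_, ?_, fun x hx => absurd hx (Set.notMem_empty x),
    fun x hx => absurd hx (Set.notMem_empty x), ?_, ?_, ?_, ?_⟩
  · intro x hx
    rw [Wv.mem_X]
    rcases Fs_sup hS hP hb hf hx with h1 | h1
    · exact Or.inl h1
    · exact Or.inr (Or.inr h1)
  · intro k hk x hx hxA
    exact hxA.1 ⟨k, hk, hx⟩
  · intro k hk k' hk' x hx hx'
    exact KS_disj hS hk hk' hx hx' (Or.inl rfl)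
  · intro k hk x hx z hxz
    by_cases hz : z ∈ ⋃₀ KS G w T h
    · obtain ⟨k', hk', hz'⟩ := hz
      rw [KS_disj hS hk hk' hx hz' (Or.inr hxz)]
      exact Or.inl hz'
    · exact Or.inr (Or.inl ⟨hz, x, ⟨k, hk, hx⟩, hxz⟩)
  · intro a ha
    exact Fs_A hS hP hb hf ha
  · intro k hk x hx
    obtain ⟨i, hi, hr⟩ := hk
    exact (hS.wave i).KO k (reach_mem hr) x hx
  · intro k hk
    rcases body_cases hS hP hb hf hk with ⟨p, hp, hr, hFs⟩ | ⟨i, hi, hr, hFs⟩
    · have hw₁ := (hP.sh p hp).wave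
      have hkK : k ∈ (w (al p)).K := reach_mem hr
      obtain ⟨r, hrk, h1, h2⟩ := hw₁.root k hkK
      by_cases hy : y p ∈ k
      · have hry : r = y p := by
          by_contra hne
          exact (h1 (y p) hy (fun e => hne e.symm)).2 (y_fix hP hp)
        subst hry
        refine ⟨y p, hy, ?_, ?_⟩
        · intro x hx hne
          change Fs x ∈ k ∧ Fs x ≠ x
          rw [hFs x hx hne]
          exact h1 x hx hne
        · left
          change Fs (y p) ∈ AS G w T h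
          rw [(hf.py p hp).2]
          exact P_AS hS hP hp
      · have hne : ∀ x ∈ k, x ≠ y p := fun x hx e => hy (e ▸ hx)
        refine ⟨r, hrk, ?_, ?_⟩
        · intro x hx hxr
          change Fs x ∈ k ∧ Fs x ≠ x
          rw [hFs x hx (hne x hx)]
          exact h1 x hx hxr
        · change Fs r ∈ AS G w T h ∨ Fs r = r
          rw [hFs r hrk (hne r hrk)]
          rcases h2 with h2 | h2
          · left
            exact RA_AS hS (hP.alT p hp) (p7_adj (hS.wave (al p)) hr hrk (hP.sh p hp).wave.isM h2)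
          · exact Or.inr h2
    · obtain ⟨r, hrk, h1, h2⟩ := (hS.wave i).root k (reach_mem hr)
      refine ⟨r, hrk, ?_, ?_⟩
      · intro x hx hxr
        change Fs x ∈ k ∧ Fs x ≠ x
        rw [hFs x hx]
        exact h1 x hx hxr
      · change Fs r ∈ AS G w T h ∨ Fs r = r
        rw [hFs r hrk]
        rcases h2 with h2 | h2
        · left
          exact RA_AS hS hi (p7_adj (hS.wave i) hr hrk (hS.wave i).isM h2)
        · exact Or.inr h2
  · intro k hk x hx
    rcases body_cases hS hP hb hf hk with ⟨p, hp, hr, hFs⟩ | ⟨i, hi, hr, hFs⟩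
    · have hkK : k ∈ (w (al p)).K := reach_mem hr
      obtain ⟨N, h1, h2, h3, h4, h5⟩ := (hP.sh p hp).wave.crit k hkK x hx
      refine ⟨N, h1, h2, h3, h4, (h5.union (Set.finite_singleton (y p))).subset ?_⟩
      rintro z ⟨hz, hne⟩
      by_cases hzy : z = y p
      · exact Or.inr hzy
      · left
        refine ⟨hz, ?_⟩
        change N z ≠ Fs z at hne
        rwa [hFs z hz hzy] at hne
    · obtain ⟨N, h1, h2, h3, h4, h5⟩ := (hS.wave i).crit k (reach_mem hr) x hx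
      refine ⟨N, h1, h2, h3, h4, h5.subset ?_⟩
      rintro z ⟨hz, hne⟩
      refine ⟨hz, ?_⟩
      change N z ≠ Fs z at hne
      rwa [hFs z hz] at hne

theorem conf_false {T : Set ι} {h : ι → V} {P' : Set V} {al : V → ι} {y : V → V}
    {F' : V → V → V} (hs : Solid G O ∅) (hS : Sys G O U w)
    (hP : PConf G O U w T h P' al y F') (hT : T.Nonempty) : False := by
  obtain ⟨Fb, hb⟩ := exists_base hS T h
  obtain ⟨Fs, hf⟩ := exists_fin hS hP hb
  have hw := conf_wave hS hP hb hf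
  have hX := hs _ hw
  obtain ⟨i, hi⟩ := hT
  obtain ⟨k, hk, hhk⟩ := hP.hD i hi
  have : h i ∈ (⟨AS G w T h, KS G w T h, ∅, Fs⟩ : Wv V).X := by
    rw [Wv.mem_X]
    exact Or.inr (Or.inr ⟨k, ⟨i, hi, Reach.base k hk hhk⟩, hhk⟩)
  rw [hX] at this
  exact this

theorem p7_hole {U' : Set V} {w' : Wv V} (hw : IsWave G O U' w') (hn : ¬ HF w') :
    ∃ h, h ∈ w'.D ∧ w'.F h = h := by
  unfold HF at hn
  push Not at hn
  obtain ⟨x, hx, hF⟩ := hn
  rcases Wv.mem_X.1 hx with h1 | h1 | h1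
  · exfalso
    obtain ⟨k, hk, hk'⟩ := hw.Am x h1
    rw [hF] at hk'
    exact hw.KA k hk x hk' h1
  · exact absurd hF (hw.Qm x h1).2
  · exact ⟨x, h1, hF⟩

/-- In a coherent system of a solid graph the stages with a hole are nonstationary. -/
theorem cprime (hι : RegIdx ι) (hs : Solid G O ∅) (hS : Sys G O U w)
    (hG : ∀ i, GE G O (U i) (w i) (U (succ i))) : ∃ f : ι → ι, ∀ i ∈ Cl f, HF (w i) := by
  by_contra hcon
  push Not at hcon
  obtain ⟨i₁, _, hi₁⟩ := hcon fun i => i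
  obtain ⟨v₀, _⟩ := p7_hole (hS.wave i₁) hi₁
  have e1 : ∀ i : ι, ∃ h : V, ¬ HF (w i) → h ∈ (w i).D ∧
      ∀ p ∈ U i, (∃ y ∈ RD G (w i) h, G.Adj p y) → ∃ y F', y ∈ RD G (w i) h ∧ y ∈ U (succ i) ∧
        G.Adj p y ∧ Shift G O (U i) (w i) h y F' ∧ df (w i).F F' ⊆ U (succ i) := by
    intro i
    by_cases hi : HF (w i)
    · exact ⟨v₀, fun hn => absurd hi hn⟩
    · obtain ⟨h, h1, h2, h3, h4⟩ := (hG i).hole (p7_hole (hS.wave i) hi)
      exact ⟨h, fun _ => ⟨h1, h4⟩⟩
  choose h hh using e1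
  have e2 : ∀ (i : ι) (p : V), ∃ (y : V) (F' : V → V), ¬ HF (w i) → p ∈ U i →
      (∃ y ∈ RD G (w i) (h i), G.Adj p y) → y ∈ RD G (w i) (h i) ∧ y ∈ U (succ i) ∧
        G.Adj p y ∧ Shift G O (U i) (w i) (h i) y F' ∧ df (w i).F F' ⊆ U (succ i) := by
    intro i p
    by_cases hc : ¬ HF (w i) ∧ p ∈ U i ∧ ∃ y ∈ RD G (w i) (h i), G.Adj p y
    · obtain ⟨y, F', h1⟩ := (hh i hc.1).2 p hc.2.1 hc.2.2
      exact ⟨y, F', fun _ _ _ => h1⟩
    · exact ⟨v₀, fun x => x, fun a b c => absurd ⟨a, b, c⟩ hc⟩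
  choose y' F'' hy' using e2
  obtain ⟨S', P, α, hS'S, hS'n, hpop, hα, hinj⟩ := popular hι hS.chn (S := {i | ¬ HF (w i)}) hcon
    (fun i p => ∃ y ∈ RD G (w i) (h i), G.Adj p y)
  have hPα : ∀ p ∈ P, y' (α p) p ∈ RD G (w (α p)) (h (α p)) ∧ y' (α p) p ∈ U (succ (α p)) ∧
      G.Adj p (y' (α p) p) ∧ Shift G O (U (α p)) (w (α p)) (h (α p)) (y' (α p) p) (F'' (α p) p) ∧
        df (w (α p)).F (F'' (α p) p) ⊆ U (succ (α p)) := by
    intro p hp
    obtain ⟨a1, a2, a3⟩ := hα p hp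
    exact hy' (α p) p (hS'S a1) a2 a3
  have hPC : PConf G O U w S' h {p | p ∈ P ∧ ∀ i ∈ S', p ∉ RA G (w i) (h i)} α
      (fun p => y' (α p) p) (fun p => F'' (α p) p) := by
    refine ⟨?_, ?_, ?_, ?_, ?_, ?_, ?_, ?_, ?_, ?_, ?_⟩
    · intro i hi
      exact (hh i (hS'S hi)).1
    · intro p hp
      exact (hα p hp.1).1
    · intro p hp
      exact (hα p hp.1).2.1
    · intro p hp
      exact (hPα p hp.1).1
    · intro p hp
      exact (hPα p hp.1).2.2.1
    · intro p hp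
      exact (hPα p hp.1).2.2.2.1
    · intro p hp
      exact (hPα p hp.1).2.2.2.2
    · intro p hp
      exact (hPα p hp.1).2.1
    · exact hinj.mono fun p hp => hp.1
    · intro p hp
      exact hp.2
    · intro i hi x hx a hxa ha
      have haP : a ∈ P := hpop i hi a ha ⟨x, hx, hxa.symm⟩
      by_cases hc : ∃ j ∈ S', a ∈ RA G (w j) (h j)
      · exact Or.inl hc
      · right
        push Not at hc
        exact ⟨haP, hc⟩
  exact conf_false hs hS hPC hS'n

end Pool.Agent.H70A
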