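import Pool.Agent.Lib.H70A.S0

/-!
# H70A chunk S2: the sets `U i`

PROOF. Write `Up j = clo (Phi w j) (U j ∪ f j ∪ Ext (U j) (w j))`; `U i = ⋃_{j<i} Up j` (`EqU`),
`U j ⊆ Up j` (`subset_clo`).
* `U j ⊆ Up j ⊆ U i` for `j < i`: `mono`. `Up j ⊆ U (succ j)` (`Order.lt_succ`), so `cont` and the last
  statement. 
* `small`: well-founded induction on `i`: `#(U j) < #ι` for `j < i`, so `#(Up j) < #ι` (`clo_card`,
  `#(Phi w j) ≤ 2 * #(Iic j) < #ι`: `Phi w j` is covered by two images of `Set.Iic j`;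
  `small_union`), and `#(Iio i) < #ι`, `small_iUnion` (index type `Set.Iio i`).
* closure: `k < i`, `x ∈ U i`: `x ∈ Up j` for some `j < i`. If `k ≤ j`: `Up j` is closed under
  `(w k).F, (w k).rho ∈ Phi w j` (`clo_closed`), `Up j ⊆ U i`. If `j < k`: `x ∈ Up j ⊆ U k ⊆ Up k`, closed
  under `(w k).F, (w k).rho`, and `Up k ⊆ U i`.
-/

namespace Pool.Agent.H70A

open Cardinal Order

universe u

variable {ι : Type u} [LinearOrder ι] [WellFoundedLT ι] [SuccOrder ι] [NoMaxOrder ι] {V : Type u}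

/-- One stage of the recursion. -/
def s2_up (Ext : Set V → Wv V → Set V) (f : ι → Set V) (U : ι → Set V) (w : ι → Wv V) (j : ι) : Set V :=
  clo (Phi w j) (U j ∪ f j ∪ Ext (U j) (w j))

theorem s2_mem {Ext : Set V → Wv V → Set V} {f : ι → Set V} {U : ι → Set V} {w : ι → Wv V}
    (hU : EqU Ext f U w) {i : ι} {x : V} : x ∈ U i ↔ ∃ j, j < i ∧ x ∈ s2_up Ext f U w j := by
  rw [hU i]
  simp only [Set.mem_iUnion, exists_prop, s2_up]

theorem s2_Phi (hι : RegIdx ι) (w : ι → Wv V) (j : ι) : #(Phi w j) < #ι := by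
  have h1 : #(Set.Iic j) < #ι := by
    have h2 : (Set.Iic j : Set ι) = Set.Iio j ∪ {j} := by
      ext x
      simp only [Set.mem_Iic, Set.mem_union, Set.mem_Iio, Set.mem_singleton_iff, le_iff_lt_or_eq]
    rw [h2]
    exact small_union hι (hι.small j) (small_finite hι (Set.finite_singleton j))
  have h3 : Phi w j ⊆ (fun k => (w k).F) '' Set.Iic j ∪ (fun k => (w k).rho) '' Set.Iic j := by
    rintro φ ⟨k, hk, h | h⟩
    · exact Or.inl ⟨k, hk, h.symm⟩
    · exact Or.inr ⟨k, hk, h.symm⟩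
  exact (mk_le_mk_of_subset h3).trans_lt
    (c5_union hι.unc.le (mk_image_le.trans_lt h1) (mk_image_le.trans_lt h1))

theorem sys_U (hι : RegIdx ι) {Ext : Set V → Wv V → Set V}
    (hE : ∀ (U : Set V) (w : Wv V), #U < #ι → #(Ext U w) < #ι) {f : ι → Set V} (hf : ∀ i, #(f i) < #ι)
    {U : ι → Set V} {w : ι → Wv V} (hU : EqU Ext f U w) :
    Chn U ∧ (∀ i j, i < j → ClU (w i) (U j)) ∧
      ∀ i, f i ∪ Ext (U i) (w i) ⊆ U (succ i) := by
  have hsub : ∀ j, U j ∪ f j ∪ Ext (U j) (w j) ⊆ s2_up Ext f U w j := fun j => subset_clo _ _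
  have hup : ∀ j i, j < i → s2_up Ext f U w j ⊆ U i := fun j i hj x hx => (s2_mem hU).2 ⟨j, hj, hx⟩
  have hsmall : ∀ i, #(U i) < #ι := by
    intro i
    induction i using (wellFounded_lt (α := ι)).induction with
    | _ i ih =>
      have h1 : U i = ⋃ j : Set.Iio i, s2_up Ext f U w j := by
        ext x
        rw [s2_mem hU]
        simp only [Set.mem_iUnion, Subtype.exists, Set.mem_Iio, exists_prop]
      rw [h1]
      refine small_iUnion hι (hι.small i) _ fun j => ?_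
      exact clo_card hι.unc (s2_Phi hι w j)
        (small_union hι (small_union hι (ih j j.2) (hf j)) (hE _ _ (ih j j.2)))
  have hmono : ∀ j i, j < i → U j ⊆ U i := fun j i hj x hx =>
    hup j i hj (hsub j (Or.inl (Or.inl hx)))
  have hPF : ∀ k j, k ≤ j → (w k).F ∈ Phi w j ∧ (w k).rho ∈ Phi w j := fun k j h =>
    ⟨⟨k, h, Or.inl rfl⟩, ⟨k, h, Or.inr rfl⟩⟩
  refine ⟨⟨?_, ?_, hsmall⟩, ?_, ?_⟩
  · intro i j hij
    rcases hij.lt_or_eq with h | rfl
    · exact hmono i j h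
    · exact Set.Subset.rfl
  · intro i x hx
    obtain ⟨j, hj, hx'⟩ := (s2_mem hU).1 hx
    exact ⟨j, hj, hup j _ (Order.lt_succ j) hx'⟩
  · intro k i hki
    have key : ∀ x ∈ U i, (w k).F x ∈ U i ∧ (w k).rho x ∈ U i := by
      intro x hx
      obtain ⟨j, hj, hx'⟩ := (s2_mem hU).1 hx
      rcases le_or_gt k j with h | h
      · obtain ⟨h1, h2⟩ := hPF k j h
        exact ⟨hup j i hj (clo_closed _ _ h1 hx'), hup j i hj (clo_closed _ _ h2 hx')⟩
      · have hx2 : x ∈ s2_up Ext f U w k := hsub k (Or.inl (Or.inl (hup j k h hx')))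
        obtain ⟨h1, h2⟩ := hPF k k le_rfl
        exact ⟨hup k i hki (clo_closed _ _ h1 hx2), hup k i hki (clo_closed _ _ h2 hx2)⟩
    exact ⟨fun x hx => (key x hx).1, fun x hx => (key x hx).2⟩
  · intro i x hx
    refine hup i _ (Order.lt_succ i) (hsub i ?_)
    rcases hx with h | h
    · exact Or.inl (Or.inr h)
    · exact Or.inr h

end Pool.Agent.H70A
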