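import Pool.Agent.Lib.H70A.S0
import Pool.Agent.Lib.H70A.W6
import Pool.Agent.Lib.H70A.W12

/-!
# H70A chunk S3: the waves `w i`

PROOF of `sys_W`. Show `GoodW G O U w i (w i)` for all `i` by well-founded induction. Suppose it for all
`j < i`. The family `fun (j : Set.Iio i) => Res (w j) (U i)` consists of waves of `(G, O, U i)`
(`res_isWave`, `U j ⊆ U i`, `ClU (w j) (U i)`), and it is a chain: for `j < j' < i`:
`Le (Res (w j) (U j')) (w j')` (induction hypothesis for `j'`), so `res_mono` gives
`Le (Res (w j) (U i)) (Res (w j') (U i))`; for `j = j'` `Le.refl`. `exists_max_chain` gives `w'` with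
`GoodW G O U w i w'`, and the hypothesis gives it for `w i`.
PROOF of `sys_mk`. `wave`, `solid`, and `coh` for `i < j` from `sys_W`; `coh` for `i = j`: the restriction
of a wave of `(G, O, U i)` to `U i` is below the wave itself (`A \ U ⊆ A`; bodies and `Q`: no body meets
`U i` (`disjU`); `F x` unchanged outside `U i`).
-/

namespace Pool.Agent.H70A

open Cardinal Order

universe u

variable {ι : Type u} [LinearOrder ι] [WellFoundedLT ι] [SuccOrder ι] [NoMaxOrder ι] {V : Type u}

theorem sys_W {G : SimpleGraph V} {O : Set V} {U : ι → Set V} {w : ι → Wv V} (hU : Chn U)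
    (hc : ∀ i j, i < j → ClU (w i) (U j))
    (hw : ∀ i, (∃ w', GoodW G O U w i w') → GoodW G O U w i (w i)) :
    ∀ i, GoodW G O U w i (w i) := by
  intro i
  induction i using (wellFounded_lt (α := ι)).induction with
  | _ i ih =>
    refine hw i ?_
    have h1 : ∀ j : Set.Iio i, IsWave G O (U i) (Res (w j) (U i)) := fun j =>
      res_isWave (ih j j.2).1 (hU.mono j i j.2.le) (hc j i j.2)
    have h2 : ∀ j j' : Set.Iio i, j.1 < j'.1 → Le (Res (w j) (U i)) (Res (w j') (U i)) := fun j j' h =>
      res_mono ((ih j' j'.2).2.2 j h) (hU.mono j' i j'.2.le)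
    obtain ⟨w', h3, h4, h5⟩ := exists_max_chain (fun j : Set.Iio i => Res (w j) (U i)) h1 (by
      intro j j'
      rcases lt_trichotomy j.1 j'.1 with h | h | h
      · exact Or.inl (h2 j j' h)
      · have : j = j' := Subtype.ext h
        subst this
        exact Or.inl (Le.refl _)
      · exact Or.inr (h2 j' j h))
    exact ⟨w', h3, h4, fun j hj => h5 ⟨j, hj⟩⟩

theorem s3_self {G : SimpleGraph V} {O U : Set V} {w : Wv V} (hw : IsWave G O U w) :
    Le (Res w U) w := by
  refine ⟨fun x hx => hx.1, fun k hk => hk.1, ?_, ?_⟩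
  · rintro x ⟨hxU, hx | ⟨k, hk, hx, hd⟩⟩
    · exact hx
    · exact absurd (Set.disjoint_left.2 fun y hy hyU =>
        hw.disjU y (IsWave.body_subset_X hk hy) hyU) hd
  · intro x hx
    rw [res_X] at hx
    rw [w12_F hx.2]

theorem sys_mk {G : SimpleGraph V} {O : Set V} {U : ι → Set V} {w : ι → Wv V} (hU : Chn U)
    (hc : ∀ i j, i < j → ClU (w i) (U j))
    (hw : ∀ i, (∃ w', GoodW G O U w i w') → GoodW G O U w i (w i)) : Sys G O U w := by
  have h := sys_W hU hc hw
  refine ⟨hU, fun i => (h i).1, fun i => (h i).2.1, fun i j hij => ?_, hc⟩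
  rcases hij.lt_or_eq with h1 | rfl
  · exact (h j).2.2 i h1
  · exact s3_self (h i).1

end Pool.Agent.H70A
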