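import Pool.Agent.Lib.H70A.W0

/-!
# H70A chunk W8: moving a hole to another body

PROOF. `F' := ad (rm w.F a) a y`: `a ↔ y`, `w.F a` uncovered, all else as in `w.F`. `k' ≠ k`: the root
of `k'` is `w.F a`, with `w.F (w.F a) = a ∈ A`, the root of `k` is `y`. It is a matching (`rm_isM`,
`ad_isM`, `y ∉ cov (rm w.F a)`). Wave axioms: `a ∈ A` is matched to `y ∈ k`; other `b ∈ A`: `F' b = w.F b`
(`w.F b ≠ y, w.F a`). Roots: of `k`: `y` with `F' y = a ∈ A`; of `k'`: `w.F a`, a fixed point; other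
vertices and bodies unchanged. `crit`: the differences change in at most three vertices.
-/

namespace Pool.Agent.H70A

universe u

variable {V : Type u} {G : SimpleGraph V} {O U : Set V} {w : Wv V}

theorem w8_crit (hw : IsWave G O U w) {F' : V → V} (hf : (df w.F F').Finite) :
    ∀ k ∈ w.K, ∀ x ∈ k, ∃ N : V → V, IsM G N ∧ N x = x ∧ (∀ y ∈ k, y ≠ x → N y ∈ k ∧ N y ≠ y) ∧
    (∀ y, y ∉ k → N y = y) ∧ {y | y ∈ k ∧ N y ≠ F' y}.Finite := by
  intro k hk x hx
  obtain ⟨N, h1, h2, h3, h4, h5⟩ := hw.crit k hk x hx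
  refine ⟨N, h1, h2, h3, h4, (h5.union hf).subset ?_⟩
  intro y hy
  by_cases h : N y = w.F y
  · right
    intro e
    exact hy.2 (by rw [h, e])
  · left
    exact ⟨hy.1, h⟩

theorem hole_step (hw : IsWave G O U w) {k : Set V} (hk : k ∈ w.K) {y : V} (hy : y ∈ k)
    (hF : w.F y = y) {a : V} (ha : a ∈ w.A) (hya : G.Adj y a) :
    IsWave G O U ⟨w.A, w.K, w.Q, ad (rm w.F a) a y⟩ ∧
      (∀ z, z ∈ cov (ad (rm w.F a) a y) ↔ (z ∈ cov w.F ∨ z = y) ∧ z ≠ w.F a) ∧
      ∀ z, z ≠ a → z ≠ y → z ≠ w.F a → ad (rm w.F a) a y z = w.F z := by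
  obtain ⟨k', hk', hb, hba⟩ := hw.A_apply ha
  have hyA : y ∉ w.A := fun h => hw.KA k hk y hy h
  have hay : a ≠ y := by
    rintro rfl
    exact hyA ha
  have hbK : w.F a ∉ w.A := fun h => hw.KA k' hk' _ hb.1 h
  have hby : w.F a ≠ y := by
    intro e
    have : a = w.F y := by rw [← e, hw.isM.inv]
    rw [hF] at this
    exact hay this
  have hrty : w.IsRt k y := hw.rt_of hk hy (Or.inr hF)
  set b := w.F a with hbdef
  have hFb : w.F b = a := hw.isM.inv a
  have e1 : ad (rm w.F a) a y a = y := ad_left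
  have e2 : ad (rm w.F a) a y y = a := ad_right hay
  have e3 : ad (rm w.F a) a y b = b := by
    rw [ad_apply hba hby]
    simp [rm, hbdef]
  have e4 : ∀ z, z ≠ a → z ≠ y → z ≠ b → ad (rm w.F a) a y z = w.F z := by
    intro z h1 h2 h3
    rw [ad_apply h1 h2, rm_apply h1 h3]
  have hM : IsM G (ad (rm w.F a) a y) := by
    refine ad_isM (rm_isM hw.isM a) hya.symm ?_ ?_
    · rw [mem_cov_rm]
      exact fun h => h.2.1 rfl
    · rw [mem_cov_rm]
      exact fun h => h.1 hF
  have hdf : (df w.F (ad (rm w.F a) a y)).Finite := by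
    refine (Set.toFinite ({a, y, b} : Set V)).subset ?_
    intro z hz
    by_contra hcon
    simp only [Set.mem_insert_iff, Set.mem_singleton_iff, not_or] at hcon
    exact hz (e4 z hcon.1 hcon.2.1 hcon.2.2).symm
  refine ⟨?_, ?_, e4⟩
  · refine ⟨hM, ?_, hw.disjU, hw.AQ, hw.KA, hw.KQ, hw.KK, hw.Kadj, hw.Qadj, ?_, ?_, hw.KO, ?_,
      w8_crit hw hdf⟩
    · intro x hx
      by_cases h1 : x = a
      · rw [h1]
        exact IsWave.A_subset_X (w := w) ha
      by_cases h2 : x = y
      · rw [h2]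
        exact IsWave.body_subset_X hk hy
      by_cases h3 : x = b
      · exact absurd (by rw [h3]; exact e3) hx
      refine hw.supX x (fun e => hx ?_)
      show ad (rm w.F a) a y x = x
      rw [e4 x h1 h2 h3, e]
    · intro x hx
      have h1 : x ≠ a := by
        rintro rfl
        exact hw.AQ x ha hx
      have h2 : x ≠ y := by
        rintro rfl
        exact hw.KQ k hk x hy hx
      have h3 : x ≠ b := by
        intro e
        rw [e] at hx
        exact hw.KQ k' hk' b hb.1 hx
      show ad (rm w.F a) a y x ∈ w.Q ∧ ad (rm w.F a) a y x ≠ x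
      rw [e4 x h1 h2 h3]
      exact hw.Qm x hx
    · intro x hx
      show ad (rm w.F a) a y x ∈ w.D
      by_cases h1 : x = a
      · rw [h1, e1]
        exact ⟨k, hk, hy⟩
      · have h2 : x ≠ y := fun e => hyA (by rw [← e]; exact hx)
        have h3 : x ≠ b := fun e => hbK (by rw [← e]; exact hx)
        rw [e4 x h1 h2 h3]
        exact hw.Am x hx
    · intro k₁ hk₁
      obtain ⟨r, hr, h1, h2⟩ := hw.exists_rt hk₁
      have ha' : ∀ x ∈ k₁, x ≠ a := by
        intro x hx e
        rw [e] at hx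
        exact hw.KA k₁ hk₁ a hx ha
      have hy' : y ∈ k₁ → y = r := by
        intro h
        exact hw.rt_unique hk₁ (hw.rt_of hk₁ h (Or.inr hF)) hr
      have hb' : b ∈ k₁ → b = r := by
        intro h
        exact hw.rt_unique hk₁ (hw.rt_of hk₁ h (Or.inl (by rw [hFb]; exact ha))) hr
      refine ⟨r, hr.1, ?_, ?_⟩
      · intro x hx hxr
        show ad (rm w.F a) a y x ∈ k₁ ∧ ad (rm w.F a) a y x ≠ x
        rw [e4 x (ha' x hx) (fun e => hxr (by rw [e]; exact hy' (by rw [← e]; exact hx)))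
          (fun e => hxr (by rw [e]; exact hb' (by rw [← e]; exact hx)))]
        exact h1 x hx hxr
      · show ad (rm w.F a) a y r ∈ w.A ∨ ad (rm w.F a) a y r = r
        by_cases h3 : r = y
        · left
          rw [h3, e2]
          exact ha
        · by_cases h4 : r = b
          · right
            rw [h4]
            exact e3
          · rw [e4 r (ha' r hr.1) h3 h4]
            exact h2
  · intro z
    rw [mem_cov_ad hay, mem_cov_rm]
    constructor
    · rintro (⟨h1, h2, h3⟩ | h1 | h1)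
      · exact ⟨Or.inl h1, h3⟩
      · rw [h1]
        refine ⟨Or.inl hba, ?_⟩
        intro e
        exact hba e.symm
      · rw [h1]
        exact ⟨Or.inr rfl, fun e => hby e.symm⟩
    · rintro ⟨h1 | h1, h3⟩
      · by_cases h2 : z = a
        · exact Or.inr (Or.inl h2)
        · exact Or.inl ⟨h1, h2, h3⟩
      · exact Or.inr (Or.inr h1)

end Pool.Agent.H70A
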