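import Pool.Agent.Lib.H70A.W7
import Pool.Agent.Lib.H70A.W8

/-!
# H70A chunk W9: shifts of a hole

PROOFS.
* `Ch` records the set of used vertices of `A`. `reach_ch`: induction on `Reach`; in the step, given
  `Ch s k` and `a`: if `a ∉ s` use `Ch.step`; if `a ∈ s` use `ch_used`: some `Ch s' k'` with `w.F a ∈ k'`.
  `ch_used` (`Ch s k`, `a ∈ s`, `k' ∈ w.K`, `w.F a ∈ k'` → `∃ s', Ch s' k'`): induction on `Ch`: either `a`
  is the newly inserted vertex, then the new body contains `w.F a`, so equals `k'` (`KK`); or `a ∈ s` and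
  the induction hypothesis applies.
* `ch_reach`: immediate.
* `ch_shift`: induction on `Ch s k`, for all `y ∈ k`: there is `F'` with `Shift G O U w h y F'` and
  `F' a = w.F a` for `a ∈ w.A \ s`. Base: `hole_move`. Step: `k, x, a, k'`; let `F₁` be the shift to `x ∈ k`
  (induction), `w₁ = ⟨w.A, w.K, w.Q, F₁⟩`, `F₁ x = x`, `F₁ a = w.F a ∈ k'` (as `a ∉ s`). `hole_step` for `w₁`
  (`y := x`) and then `hole_move` in `k'` from `w.F a` to `y`. The covered set is
  `cov w.F + h - x + x - w.F a + w.F a - y`. The locality: all changed vertices are in reachable bodies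
  or are `a ∈ RA`.
-/

namespace Pool.Agent.H70A

universe u

variable {V : Type u} {G : SimpleGraph V} {O U : Set V} {w : Wv V}

inductive Ch (G : SimpleGraph V) (w : Wv V) (h : V) : Set V → Set V → Prop
  | base : ∀ k, k ∈ w.K → h ∈ k → Ch G w h ∅ k
  | step : ∀ s k x a k', Ch G w h s k → x ∈ k → a ∈ w.A → a ∉ s → G.Adj x a → k' ∈ w.K →
      w.F a ∈ k' → Ch G w h (insert a s) k'

theorem ch_reach {h : V} {s k : Set V} (hc : Ch G w h s k) : Reach G w h k := by
  induction hc with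
  | base k hk hh => exact Reach.base k hk hh
  | step s k x a k' _ hx ha _ hadj hk' hF ih => exact Reach.step k x a k' ih hx ha hadj hk' hF

theorem ch_used (hw : IsWave G O U w) {h : V} {s k : Set V} (hc : Ch G w h s k) {a : V}
    (ha : a ∈ s) {k' : Set V} (hk' : k' ∈ w.K) (h' : w.F a ∈ k') : ∃ s', Ch G w h s' k' := by
  induction hc with
  | base k hk hh => exact absurd ha (Set.notMem_empty a)
  | step s k x a0 k0 hc hx ha0 hns hadj hk0 hF0 ih =>
    rcases ha with rfl | ha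
    · have : k0 = k' := hw.KK k0 hk0 k' hk' _ hF0 h'
      subst this
      exact ⟨_, Ch.step s k x a k0 hc hx ha0 hns hadj hk0 hF0⟩
    · exact ih ha

theorem reach_ch (hw : IsWave G O U w) {h : V} {k : Set V} (hr : Reach G w h k) :
    ∃ s, Ch G w h s k := by
  induction hr with
  | base k hk hh => exact ⟨∅, Ch.base k hk hh⟩
  | step k x a k' _ hx ha hadj hk' hF ih =>
    obtain ⟨s, hs⟩ := ih
    by_cases has : a ∈ s
    · exact ch_used hw hs has hk' hF
    · exact ⟨insert a s, Ch.step s k x a k' hs hx ha has hadj hk' hF⟩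

theorem w9_mem {h : V} {s k : Set V} (hc : Ch G w h s k) : k ∈ w.K := by
  cases hc with
  | base _ hk _ => exact hk
  | step s k x a k' _ _ _ _ _ hk' _ => exact hk'

theorem w9_rt_fix {k : Set V} {x : V} (hx : x ∈ k) (hF : w.F x = x) : w.IsRt k x :=
  ⟨hx, Or.inr hF⟩

theorem w9_cov (hw : IsWave G O U w) {h : V} (hF : w.F h = h) {s k : Set V}
    (hc : Ch G w h s k) {x : V} (hx : x ∈ k) : x ∈ cov w.F ∨ x = h := by
  by_cases hxc : x ∈ cov w.F
  · exact Or.inl hxc
  right
  have hxF := notMem_cov.1 hxc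
  cases hc with
  | base _ hk hh => exact hw.rt_unique hk (w9_rt_fix hx hxF) (w9_rt_fix hh hF)
  | step s k0 x0 a _ _ _ ha _ _ hk' hFa =>
    exfalso
    have h1 : w.IsRt k (w.F a) := hw.rt_of hk' hFa (Or.inl (by rw [hw.isM.inv]; exact ha))
    have h2 := hw.rt_unique hk' (w9_rt_fix hx hxF) h1
    rw [h2, hw.isM.inv] at hxF
    exact hw.KA k hk' _ hFa (by rw [← hxF]; exact ha)

theorem ch_shift (hw : IsWave G O U w) {h : V} (hF : w.F h = h) {s k : Set V}
    (hc : Ch G w h s k) {y : V} (hy : y ∈ k) :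
    ∃ F', Shift G O U w h y F' ∧ ∀ a ∈ w.A, a ∉ s → F' a = w.F a := by
  induction hc generalizing y with
  | base k hk hh =>
    obtain ⟨F', h1, h2, h3, h4⟩ := hole_move hw hk hh hF hy
    refine ⟨F', ⟨h1, h2, h3, ?_⟩, ?_⟩
    · intro z hz
      by_cases hzk : z ∈ k
      · exact Or.inl ⟨k, Reach.base k hk hh, hzk⟩
      · exact absurd (h4 z hzk).symm hz
    · intro a ha _
      exact h4 a fun hak => hw.KA k hk a hak ha
  | step s k x a k' hc hx ha hns hadj hk' hFa ih =>
    obtain ⟨F₁, hS, hA⟩ := ih hx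
    have hk := w9_mem hc
    have hF1a : F₁ a = w.F a := hA a ha hns
    have hF1x : F₁ x = x := by
      have : x ∉ cov F₁ := fun h0 => ((hS.cov x).1 h0).2 rfl
      exact notMem_cov.1 this
    obtain ⟨h1, h2, h3⟩ := hole_step hS.wave (k := k) hk hx hF1x ha hadj
    have h1' : IsWave G O U ⟨w.A, w.K, w.Q, ad (rm F₁ a) a x⟩ := h1
    have h2' : ∀ z, z ∈ cov (ad (rm F₁ a) a x) ↔ (z ∈ cov F₁ ∨ z = x) ∧ z ≠ F₁ a := h2
    have h3' : ∀ z, z ≠ a → z ≠ x → z ≠ F₁ a → ad (rm F₁ a) a x z = F₁ z := h3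
    obtain ⟨F₂, hF₂⟩ : ∃ F₂, F₂ = ad (rm F₁ a) a x := ⟨_, rfl⟩
    rw [← hF₂] at h1' h2' h3'
    have hfix : F₂ (w.F a) = w.F a := by
      have : w.F a ∉ cov F₂ := fun h0 => ((h2' _).1 h0).2 hF1a.symm
      exact notMem_cov.1 this
    obtain ⟨F₃, g1, g2, g3, g4⟩ := hole_move h1' (k := k') hk' hFa hfix hy
    have g2' : (df F₂ F₃).Finite := g2
    have g3' : ∀ z, z ∈ cov F₃ ↔ (z ∈ cov F₂ ∨ z = w.F a) ∧ z ≠ y := g3
    have g4' : ∀ z, z ∉ k' → F₃ z = F₂ z := g4
    have hr := ch_reach hc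
    have hr' : Reach G w h k' := Reach.step k x a k' hr hx ha hadj hk' hFa
    have hd12 : df F₁ F₂ ⊆ {a, x, F₁ a} := by
      intro z hz
      by_contra hn
      simp only [Set.mem_insert_iff, Set.mem_singleton_iff, not_or] at hn
      exact hz (h3' z hn.1 hn.2.1 hn.2.2).symm
    refine ⟨F₃, ⟨g1, ?_, ?_, ?_⟩, ?_⟩
    · refine df_finite_trans hS.fin (df_finite_trans (N := F₂) ?_ g2')
      exact Set.Finite.subset (by simp) hd12
    · intro z
      rw [g3' z, h2' z, hS.cov z, hF1a]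
      have hxc := w9_cov hw hF hc hx
      have hac : w.F a ∈ cov w.F := by
        intro h0
        rw [hw.isM.inv] at h0
        exact hw.KA k' hk' _ hFa (by rw [← h0]; exact ha)
      constructor
      · rintro ⟨(⟨(⟨h5, _⟩ | rfl), _⟩ | rfl), h6⟩
        · exact ⟨h5, h6⟩
        · exact ⟨hxc, h6⟩
        · exact ⟨Or.inl hac, h6⟩
      · rintro ⟨h5, h6⟩
        refine ⟨?_, h6⟩
        by_cases hza : z = w.F a
        · exact Or.inr hza
        · by_cases hzx : z = x
          · exact Or.inl ⟨Or.inr hzx, hza⟩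
          · exact Or.inl ⟨Or.inl ⟨h5, hzx⟩, hza⟩
    · intro z hz
      by_cases hz1 : z ∈ df w.F F₁
      · exact hS.loc hz1
      by_cases hz2 : z ∈ df F₁ F₂
      · rcases hd12 hz2 with rfl | rfl | rfl
        · exact Or.inr ⟨ha, x, ⟨k, hr, hx⟩, hadj⟩
        · exact Or.inl ⟨k, hr, hx⟩
        · rw [hF1a]
          exact Or.inl ⟨k', hr', hFa⟩
      by_cases hzk : z ∈ k'
      · exact Or.inl ⟨k', hr', hzk⟩
      · exfalso
        rw [notMem_df] at hz1 hz2
        exact hz (by rw [hz1, hz2, g4' z hzk])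
    · intro b hb hbs
      have hba : b ≠ a := fun e => hbs (Or.inl e)
      have hbs' : b ∉ s := fun e => hbs (Or.inr e)
      rw [g4' b fun e => hw.KA k' hk' b e hb]
      rw [h3' b hba (fun e => hw.KA k hk b (by rw [e]; exact hx) hb)
        (fun e => hw.KA k' hk' b (by rw [e, hF1a]; exact hFa) hb)]
      exact hA b hb hbs'

/-- Every vertex of a reachable body can be made the hole. -/
theorem shift_exists (hw : IsWave G O U w) {h : V} (hF : w.F h = h) {y : V}
    (hy : y ∈ RD G w h) : ∃ F', Shift G O U w h y F' := by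
  obtain ⟨k, hk, hyk⟩ := hy
  obtain ⟨s, hs⟩ := reach_ch hw hk
  obtain ⟨F', h1, _⟩ := ch_shift hw hF hs hyk
  exact ⟨F', h1⟩

end Pool.Agent.H70A
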