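import Pool.Agent.Lib.H70A.S1
import Pool.Agent.Lib.H70A.S2
import Pool.Agent.Lib.H70A.S3
import Pool.Agent.Lib.H70A.W9

/-!
# H70A chunk S4: systems with the extra closure conditions

PROOF of `exists_GE`. If `w` has a hole in `w.D` choose one, `h` (`w.F h = h`). For each `p ∈ U` adjacent
to some `y ∈ RD G w h` choose such a `y` and a shift `F'` (`shift_exists`); `df w.F F'` is finite. For
each `d ∈ U` with `Aug` choose `N`, `df w.F N` finite; for each pair similarly. `E` = `{h}` union all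
these finite sets: `#E < #ι` since `#U < #ι`, `#(U × U) < #ι` (`small_biUnion` twice, `small_union`,
`small_finite`; alternatively `small_iUnion` over the subtype `U` and over `U × U`).
PROOF of `exists_sys`. `Ext U w` := the set `E` of `exists_GE` if `w` is a wave of `(G, O, U)` and
`#U < #ι`, and `∅` otherwise. `rec_sys`, `sys_U`, `sys_mk`; `GE.mono` for `Ext (U i) (w i) ⊆ U (succ i)`.
-/

namespace Pool.Agent.H70A

open Cardinal Order

universe u

variable {ι : Type u} [LinearOrder ι] [WellFoundedLT ι] [SuccOrder ι] [NoMaxOrder ι] {V : Type u}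

theorem exists_GE (hι : RegIdx ι) {G : SimpleGraph V} {O U : Set V} (hU : #U < #ι) {w : Wv V}
    (hw : IsWave G O U w) : ∃ E : Set V, #E < #ι ∧ GE G O U w E := by
  classical
  -- the hole part
  have h1 : ∃ E : Set V, #E < #ι ∧ ((∃ h, h ∈ w.D ∧ w.F h = h) → ∃ h, h ∈ w.D ∧ w.F h = h ∧ h ∈ E ∧
      ∀ p ∈ U, (∃ y ∈ RD G w h, G.Adj p y) → ∃ y F', y ∈ RD G w h ∧ y ∈ E ∧ G.Adj p y ∧
        Shift G O U w h y F' ∧ df w.F F' ⊆ E) := by
    by_cases hh : ∃ h, h ∈ w.D ∧ w.F h = h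
    · obtain ⟨h, hD, hF⟩ := hh
      have h2 : ∀ p : V, ∃ S : Set V, S.Finite ∧ ((∃ y ∈ RD G w h, G.Adj p y) →
          ∃ y F', y ∈ RD G w h ∧ y ∈ S ∧ G.Adj p y ∧ Shift G O U w h y F' ∧ df w.F F' ⊆ S) := by
        intro p
        by_cases hp : ∃ y ∈ RD G w h, G.Adj p y
        · obtain ⟨y, hy, hpy⟩ := hp
          obtain ⟨F', hF'⟩ := shift_exists hw hF hy
          exact ⟨insert y (df w.F F'), hF'.fin.insert y, fun _ => ⟨y, F', hy, Set.mem_insert _ _, hpy,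
            hF', Set.subset_insert _ _⟩⟩
        · exact ⟨∅, Set.finite_empty, fun h => absurd h hp⟩
      choose S hS1 hS2 using h2
      refine ⟨{h} ∪ ⋃ p ∈ U, S p, small_union hι (small_finite hι (Set.finite_singleton h))
        (small_biUnion hι hU S fun p _ => small_finite hι (hS1 p)), fun _ =>
        ⟨h, hD, hF, Or.inl rfl, fun p hp hy => ?_⟩⟩
      obtain ⟨y, F', h3, h4, h5, h6, h7⟩ := hS2 p hy
      have hsub : S p ⊆ {h} ∪ ⋃ p ∈ U, S p := fun x hx => Or.inr (Set.mem_biUnion hp hx)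
      exact ⟨y, F', h3, hsub h4, h5, h6, h7.trans hsub⟩
    · exact ⟨∅, small_finite hι Set.finite_empty, fun h => absurd h hh⟩
  -- the open vertices
  have h2 : ∃ E : Set V, #E < #ι ∧ ∀ d ∈ U, Aug G O (U \ {d}) w.F d →
      ∃ N, AugW G O (U \ {d}) w.F d N ∧ df w.F N ⊆ E := by
    have h3 : ∀ d : V, ∃ S : Set V, S.Finite ∧ (Aug G O (U \ {d}) w.F d →
        ∃ N, AugW G O (U \ {d}) w.F d N ∧ df w.F N ⊆ S) := by
      intro d
      by_cases hd : Aug G O (U \ {d}) w.F d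
      · obtain ⟨N, hN⟩ := hd
        exact ⟨df w.F N, hN.2.1, fun _ => ⟨N, hN, Set.Subset.rfl⟩⟩
      · exact ⟨∅, Set.finite_empty, fun h => absurd h hd⟩
    choose S hS1 hS2 using h3
    refine ⟨⋃ p ∈ U, S p, small_biUnion hι hU S fun p _ => small_finite hι (hS1 p), fun d hd ha => ?_⟩
    obtain ⟨N, h4, h5⟩ := hS2 d ha
    exact ⟨N, h4, h5.trans fun x hx => Set.mem_biUnion hd hx⟩
  -- the virtual pairs
  have h3 : ∃ E : Set V, #E < #ι ∧ ∀ d ∈ U, ∀ d' ∈ U, Vrt G w d d' →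
      ∃ N, VrtW G w d d' N ∧ df w.F N ⊆ E := by
    have h4 : ∀ d d' : V, ∃ S : Set V, S.Finite ∧ (Vrt G w d d' →
        ∃ N, VrtW G w d d' N ∧ df w.F N ⊆ S) := by
      intro d d'
      by_cases hd : Vrt G w d d'
      · obtain ⟨N, hN⟩ := hd.2
        exact ⟨df w.F N, hN.2.1, fun _ => ⟨N, hN, Set.Subset.rfl⟩⟩
      · exact ⟨∅, Set.finite_empty, fun h => absurd h hd⟩
    choose S hS1 hS2 using h4
    refine ⟨⋃ p ∈ U, ⋃ q ∈ U, S p q, small_biUnion hι hU (fun p => ⋃ q ∈ U, S p q) fun p _ =>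
      small_biUnion hι hU (S p) fun q _ => small_finite hι (hS1 p q), fun d hd d' hd' ha => ?_⟩
    obtain ⟨N, h5, h6⟩ := hS2 d d' ha
    exact ⟨N, h5, h6.trans fun x hx => Set.mem_biUnion hd (Set.mem_biUnion hd' hx)⟩
  obtain ⟨E1, hE1, h1⟩ := h1
  obtain ⟨E2, hE2, h2⟩ := h2
  obtain ⟨E3, hE3, h3⟩ := h3
  refine ⟨E1 ∪ E2 ∪ E3, small_union hι (small_union hι hE1 hE2) hE3, ?_, ?_, ?_⟩
  · intro hh
    obtain ⟨h, h4, h5, h6, h7⟩ := h1 hh
    refine ⟨h, h4, h5, Or.inl (Or.inl h6), fun p hp hy => ?_⟩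
    obtain ⟨y, F', h8, h9, h10, h11, h12⟩ := h7 p hp hy
    exact ⟨y, F', h8, Or.inl (Or.inl h9), h10, h11, h12.trans fun x hx => Or.inl (Or.inl hx)⟩
  · intro d hd ha
    obtain ⟨N, h4, h5⟩ := h2 d hd ha
    exact ⟨N, h4, h5.trans fun x hx => Or.inl (Or.inr hx)⟩
  · intro d hd d' hd' hv
    obtain ⟨N, h4, h5⟩ := h3 d hd d' hd' hv
    exact ⟨N, h4, h5.trans fun x hx => Or.inr hx⟩

theorem exists_sys (hι : RegIdx ι) (G : SimpleGraph V) (O : Set V) (f : ι → Set V)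
    (hf : ∀ i, #(f i) < #ι) :
    ∃ (U : ι → Set V) (w : ι → Wv V), Sys G O U w ∧ (∀ i, f i ⊆ U (succ i)) ∧
      ∀ i, GE G O (U i) (w i) (U (succ i)) := by
  classical
  let Ext : Set V → Wv V → Set V := fun U w =>
    if h : #U < #ι ∧ IsWave G O U w then (exists_GE hι h.1 h.2).choose else ∅
  have hE : ∀ (U : Set V) (w : Wv V), #U < #ι → #(Ext U w) < #ι := by
    intro U w _
    by_cases h : #U < #ι ∧ IsWave G O U w
    · simp only [Ext, dif_pos h]
      exact (exists_GE hι h.1 h.2).choose_spec.1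
    · simp only [Ext, dif_neg h]
      exact small_finite hι Set.finite_empty
  obtain ⟨U, w, hU, hw⟩ := rec_sys G O Ext f
  obtain ⟨h1, h2, h3⟩ := sys_U hι hE hf hU
  have hs := sys_mk h1 h2 hw
  refine ⟨U, w, hs, fun i x hx => h3 i (Or.inl hx), fun i => ?_⟩
  have h : #(U i) < #ι ∧ IsWave G O (U i) (w i) := ⟨h1.small i, hs.wave i⟩
  have h4 : Ext (U i) (w i) = (exists_GE hι h.1 h.2).choose := by simp only [Ext, dif_pos h]
  have h5 := (exists_GE hι h.1 h.2).choose_spec.2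
  rw [← h4] at h5
  exact h5.mono fun x hx => h3 i (Or.inr hx)

end Pool.Agent.H70A
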