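import Pool.Agent.Lib.H70A.N0
import Pool.Agent.Lib.H70A.S4
import Pool.Agent.Lib.H70A.P7
import Pool.Agent.Lib.H70A.O3
import Pool.Agent.Lib.H70A.C3

/-!
# H70A chunk N1: existence of nice systems

PROOF. `exists_sys` gives `U, w`; `cprime` gives `f₁`, `robust` gives `g₁`; let `g = max f₁ g₁` and `c` as in
`exists_enum` for `g`. Put `U' = U ∘ c`, `w' = w ∘ c`. `c` is strictly monotone, so `succ (c i) ≤ c (succ i)` and
`i ≤ c i` (`StrictMono.le_apply`).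
`Chn`: `mono`, `small` clear; `cont`: `x ∈ U (c i)`: there is `l < c i` with `x ∈ U (succ l)`; choose `j < i` with
`l < c (succ j)`; then `succ l ≤ c (succ j)` and `x ∈ U (c (succ j))`. `wave, solid, coh, clo` clear. `hf`:
`c i ∈ Cl f₁`. `rob1`, `rob2`: `robust`. `wit1`, `wit2`: `GE` for stage `c i`,
`U (succ (c i)) ⊆ U (c (succ i))`. Last statement: `f i ⊆ U (succ i) ⊆ U (c (succ i))`.
-/

namespace Pool.Agent.H70A

open Cardinal Order

universe u

variable {ι : Type u} [LinearOrder ι] [WellFoundedLT ι] [SuccOrder ι] [NoMaxOrder ι] {V : Type u}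

theorem exists_nsys (hι : RegIdx ι) (G : SimpleGraph V) (O : Set V) (hs : Solid G O ∅)
    (f : ι → Set V) (hf : ∀ i, #(f i) < #ι) :
    ∃ (U : ι → Set V) (w : ι → Wv V), NSys G O U w ∧ ∀ i, ∃ j, f i ⊆ U j := by
  obtain ⟨U, w, hS, hfU, hG⟩ := exists_sys hι G O f hf
  obtain ⟨f₁, hf₁⟩ := cprime hι hs hS hG
  obtain ⟨g₁, hg₁⟩ := robust hι hS
  obtain ⟨c, hc, hcl, hcont⟩ := exists_enum hι (fun i => max (f₁ i) (g₁ i))
  have hcf : ∀ i, c i ∈ Cl f₁ := fun i => Cl_mono (fun j => le_max_left _ _) (hcl i)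
  have hcg : ∀ i, c i ∈ Cl g₁ := fun i => Cl_mono (fun j => le_max_right _ _) (hcl i)
  have hsucc : ∀ i, succ (c i) ≤ c (succ i) := fun i => Order.succ_le_of_lt (hc (lt_succ i))
  have hHF : ∀ i, HF (w (c i)) := fun i => hf₁ (c i) (hcf i)
  have hle : ∀ i j, i ≤ j → c i ≤ c j := fun i j h => hc.monotone h
  refine ⟨fun i => U (c i), fun i => w (c i), ⟨⟨⟨?_, ?_, ?_⟩, ?_, ?_, ?_, ?_⟩, hHF, ?_, ?_, ?_, ?_⟩, ?_⟩
  · intro i j h
    exact hS.chn.mono _ _ (hle i j h)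
  · intro i x hx
    obtain ⟨l, hl, hxl⟩ := hS.chn.cont (c i) x hx
    obtain ⟨j, hj, hlj⟩ := hcont i l hl
    exact ⟨j, hj, hS.chn.mono _ _ (Order.succ_le_of_lt hlj) hxl⟩
  · intro i
    exact hS.chn.small (c i)
  · intro i
    exact hS.wave (c i)
  · intro i
    exact hS.solid (c i)
  · intro i j h
    exact hS.coh _ _ (hle i j h)
  · intro i j h
    exact hS.clo _ _ (hc h)
  · intro i j hij d hd hdO ha
    exact (hg₁ (c i) (hcg i) (hHF i)).1 d hd hdO ha (c j) (hle i j hij) (hHF j)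
  · intro i j hij d hd d' hd' hdO ha hv
    exact (hg₁ (c i) (hcg i) (hHF i)).2 d hd d' hd' hdO ha hv (c j) (hle i j hij) (hHF j)
  · intro i d hd ha
    obtain ⟨N, h1, h2⟩ := (hG (c i)).opn d hd ha
    exact ⟨N, h1, h2.trans (hS.chn.mono _ _ (hsucc i))⟩
  · intro i d hd d' hd' hv
    obtain ⟨N, h1, h2⟩ := (hG (c i)).vrt d hd d' hd' hv
    exact ⟨N, h1, h2.trans (hS.chn.mono _ _ (hsucc i))⟩
  · intro i
    refine ⟨succ i, (hfU i).trans (hS.chn.mono _ _ ?_)⟩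
    refine (Order.succ_le_succ ?_).trans (hsucc i)
    exact hc.le_apply

end Pool.Agent.H70A
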