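import Pool.Agent.Lib.H70A.O1
import Pool.Agent.Lib.H70A.P1

/-!
# H70A chunk O2: open at a later stage implies open at an earlier stage

PROOFS. `i < j`, `w i` and `w j` hole-free; `U i ⊆ U j`.
* `glueB`: `B := sw (w i).X (w j).F (w i).F`. For `x ∈ (w i).X`: if `x ∈ U j`, `(w j).F x = x`; otherwise
  `(w j).F x = (w i).F x ∈ (w i).X` (`F_eq`, `map_X`); so both maps preserve `(w i).X`: matching (`sw_isM`).
* `glueN`: let `N` be a matching fixing `U j \ Z`, where `Z ∩ (w i).X = ∅`. `N⁺ := sw ((w i).X ∩ U j) N (w i).F`: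
  `N` fixes `(w i).X ∩ U j` pointwise; `(w i).F` maps it to itself (`ClU (w i) (U j)`). `df B N⁺ ⊆ df (w j).F N`:
  on `(w i).X ∩ U j` both are `(w i).F`; on `(w i).X \ U j`: `B x = (w i).F x = (w j).F x`, `N⁺ x = N x`; outside
  `(w i).X`: `B = (w j).F`, `N⁺ = N`.
* `mon1`: suppose `d` is not open at `i`; `Blk` from `no_wave1` (stage `i`). `N` = witness at `j`
  (`AugW G O (U j \ {d}) (w j).F d N`): `N` fixes `U j \ {d}` (in the first alternative `cov N = cov (w j).F + d + s`,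
  `s ∉ U j \ {d}`; `cov (w j).F` is disjoint from `U j`). `bc` for `B`, `N⁺`, `U' = U i \ {d}`:
  `N⁺ x = N x = x` for `x ∈ U i \ {d}` (`x ∉ (w i).X`). `z ∈ cov B ∨ z = d`, `z ∉ O`: if `z ∈ (w i).X ∩ U j`:
  `(w i).F z ≠ z` (`HF`); otherwise `z ∈ cov (w j).F` or `z = d` (for `z ∈ (w i).X \ U j`: `(w j).F z = (w i).F z ≠ z`), so
  `z ∈ cov N` (in the second alternative `z ≠ o` since `o ∈ O`), `N⁺ z = N z`.
* `mon2`: the same with `no_wave2`, `Z = {d, d'}`.
-/

namespace Pool.Agent.H70A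

open Cardinal Order

universe u

variable {ι : Type u} [LinearOrder ι] [WellFoundedLT ι] [SuccOrder ι] [NoMaxOrder ι] {V : Type u}
  {G : SimpleGraph V} {O : Set V} {U : ι → Set V} {w : ι → Wv V}

theorem glueB (hS : Sys G O U w) {i j : ι} (hij : i < j) :
    IsM G (sw (w i).X (w j).F (w i).F) := by
  refine sw_isM (hS.wave j).isM (hS.wave i).isM ?_ ?_
  · intro x hx
    by_cases hxU : x ∈ U j
    · rw [(hS.wave j).fix_U hxU]
      exact hx
    · rw [F_eq hS hij.le hx hxU]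
      exact (hS.wave i).map_X hx
  · intro x hx
    exact (hS.wave i).map_X hx

theorem glueN (hS : Sys G O U w) {i j : ι} (hij : i < j) {Z : Set V}
    (hZ : ∀ x ∈ Z, x ∉ (w i).X) {N : V → V} (hN : IsM G N) (hNU : ∀ x ∈ U j, x ∉ Z → N x = x) :
    IsM G (sw ((w i).X ∩ U j) N (w i).F) ∧
      df (sw (w i).X (w j).F (w i).F) (sw ((w i).X ∩ U j) N (w i).F) ⊆ df (w j).F N := by
  constructor
  · refine sw_isM hN (hS.wave i).isM ?_ ?_
    · rintro x ⟨hx, hxU⟩
      rw [hNU x hxU fun h => hZ x h hx]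
      exact ⟨hx, hxU⟩
    · rintro x ⟨hx, hxU⟩
      exact ⟨(hS.wave i).map_X hx, (hS.clo i j hij).1 x hxU⟩
  · intro x hx h
    apply hx
    by_cases hxX : x ∈ (w i).X
    · by_cases hxU : x ∈ U j
      · rw [sw_mem hxX, sw_mem (show x ∈ (w i).X ∩ U j from ⟨hxX, hxU⟩)]
      · rw [sw_mem hxX, sw_notMem (show x ∉ (w i).X ∩ U j from fun h => hxU h.2), ← h,
          F_eq hS hij.le hxX hxU]
    · rw [sw_notMem hxX, sw_notMem (show x ∉ (w i).X ∩ U j from fun h => hxX h.1), h]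

theorem o2_main (hS : Sys G O U w) {i j : ι} (hij : i < j) (hi : HF (w i)) {d : V} {w' : Wv V}
    {U' Z : Set V} (hb : Blk G O U' (w i) d w') (hZU : Z ⊆ U i) (hdZ : d ∈ Z)
    (hU'U : U' ⊆ U i) (hU'Z : ∀ x ∈ U', x ∉ Z) {N : V → V} (hN : IsM G N)
    (hfin : (df (w j).F N).Finite) (hNU : ∀ x ∈ U j, x ∉ Z → N x = x)
    (hcN : ∀ z, z ∈ cov (w j).F ∨ z = d → z ∉ O → z ∈ cov N) : False := by
  have hUij : U i ⊆ U j := hS.chn.mono i j hij.le
  have hXU : ∀ x ∈ U i, x ∉ (w i).X := fun x hx hX => (hS.wave i).disjU x hX hx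
  have hZX : ∀ x ∈ Z, x ∉ (w i).X := fun x hx => hXU x (hZU hx)
  obtain ⟨h1, h2⟩ := glueN hS hij hZX hN hNU
  have hdX := hZX d hdZ
  refine bc hi hb (B := sw (w i).X (w j).F (w i).F) (N := sw ((w i).X ∩ U j) N (w i).F)
    (fun x hx => sw_mem hx) ?_ h1 (hfin.subset h2) ?_ ?_
  · rw [sw_notMem hdX]
    exact (hS.wave j).fix_U (hUij (hZU hdZ))
  · intro x hx
    rw [sw_notMem (fun h => hXU x (hU'U hx) h.1)]
    exact hNU x (hUij (hU'U hx)) (hU'Z x hx)
  · intro z hz hzO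
    by_cases hzX : z ∈ (w i).X
    · by_cases hzU : z ∈ U j
      · rw [mem_cov, sw_mem (show z ∈ (w i).X ∩ U j from ⟨hzX, hzU⟩)]
        exact hi z hzX
      · rw [mem_cov, sw_notMem (show z ∉ (w i).X ∩ U j from fun h => hzU h.2)]
        refine hcN z (Or.inl ?_) hzO
        rw [mem_cov, F_eq hS hij.le hzX hzU]
        exact hi z hzX
    · rw [mem_cov, sw_notMem (show z ∉ (w i).X ∩ U j from fun h => hzX h.1)]
      refine hcN z ?_ hzO
      rcases hz with hz | hz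
      · left
        rwa [mem_cov, sw_notMem hzX] at hz
      · exact Or.inr hz

theorem mon1 (hS : Sys G O U w) {i j : ι} (hij : i < j) (hi : HF (w i)) (hj : HF (w j)) {d : V}
    (hd : d ∈ U i) (hO : d ∉ O) (ha : Aug G O (U j \ {d}) (w j).F d) :
    Aug G O (U i \ {d}) (w i).F d := by
  by_contra ha'
  obtain ⟨w', hb⟩ := no_wave1 (hS.wave i) hi hd hO ha'
  obtain ⟨N, hN, hfin, hc⟩ := ha
  refine o2_main hS hij hi hb (Z := {d}) (by simpa using hd) rfl Set.sdiff_subset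
    (fun x hx => hx.2) hN hfin ?_ ?_
  · intro x hx hxd
    have hxd' : x ≠ d := hxd
    have hxF : x ∉ cov (w j).F := notMem_cov.2 ((hS.wave j).fix_U hx)
    rw [← notMem_cov]
    rcases hc with ⟨s, hs, hsd, hsc, hc⟩ | ⟨o, ho, hoc, hc⟩
    · rw [hc x]
      rintro (h | h | rfl)
      · exact hxF h
      · exact hxd' h
      · exact hs ⟨hx, hxd⟩
    · rw [hc x]
      rintro ⟨h | h, _⟩
      · exact hxF h
      · exact hxd' h
  · intro z hz hzO
    rcases hc with ⟨s, hs, hsd, hsc, hc⟩ | ⟨o, ho, hoc, hc⟩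
    · rw [hc z]
      rcases hz with h | h
      · exact Or.inl h
      · exact Or.inr (Or.inl h)
    · rw [hc z]
      exact ⟨hz, fun h => hzO (h ▸ ho)⟩

theorem mon2 (hS : Sys G O U w) {i j : ι} (hij : i < j) (hi : HF (w i)) (hj : HF (w j)) {d d' : V}
    (hd : d ∈ U i) (hd' : d' ∈ U i) (hO : d ∉ O) (ha : ¬ Aug G O (U i \ {d}) (w i).F d)
    (hv : Vrt G (w j) d d') : Vrt G (w i) d d' := by
  by_contra hv'
  obtain ⟨hne, N, hN, hfin, hc⟩ := hv
  obtain ⟨w', hb⟩ := no_wave2 (hS.wave i) hi hd hd' hne hO ha hv'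
  refine o2_main hS hij hi hb (Z := {d, d'}) ?_ (Or.inl rfl) Set.sdiff_subset
    (fun x hx => hx.2) hN hfin ?_ ?_
  · rintro x (rfl | rfl)
    · exact hd
    · exact hd'
  · intro x hx hxd
    simp only [Set.mem_insert_iff, Set.mem_singleton_iff, not_or] at hxd
    have hxF : x ∉ cov (w j).F := notMem_cov.2 ((hS.wave j).fix_U hx)
    rw [← notMem_cov, hc x]
    rintro (h | h | h)
    · exact hxF h
    · exact hxd.1 h
    · exact hxd.2 h
  · intro z hz _
    rw [hc z]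
    rcases hz with h | h
    · exact Or.inl h
    · exact Or.inr (Or.inl h)

end Pool.Agent.H70A
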