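import Pool.Agent.Lib.H70A.S0

/-!
# H70A module P: the stages with a hole are nonstationary. Definitions.
-/

namespace Pool.Agent.H70A

open Cardinal Order

universe u

variable {ι : Type u} [LinearOrder ι] [WellFoundedLT ι] [SuccOrder ι] [NoMaxOrder ι] {V : Type u}

/-- The contradictory configuration: a set `T` of stages with chosen holes `h i`, a set `P'` of vertices
to be matched at distinct stages `al p ∈ T`. -/
structure PConf (G : SimpleGraph V) (O : Set V) (U : ι → Set V) (w : ι → Wv V) (T : Set ι)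
    (h : ι → V) (P' : Set V) (al : V → ι) (y : V → V) (F' : V → V → V) : Prop where
  hD : ∀ i ∈ T, h i ∈ (w i).D
  alT : ∀ p ∈ P', al p ∈ T
  pU : ∀ p ∈ P', p ∈ U (al p)
  yRD : ∀ p ∈ P', y p ∈ RD G (w (al p)) (h (al p))
  padj : ∀ p ∈ P', G.Adj p (y p)
  sh : ∀ p ∈ P', Shift G O (U (al p)) (w (al p)) (h (al p)) (y p) (F' p)
  loc : ∀ p ∈ P', df (w (al p)).F (F' p) ⊆ U (succ (al p))
  yU : ∀ p ∈ P', y p ∈ U (succ (al p))
  inj : Set.InjOn al P'
  nRA : ∀ p ∈ P', ∀ i ∈ T, p ∉ RA G (w i) (h i)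
  cover : ∀ i ∈ T, ∀ x ∈ RD G (w i) (h i), ∀ a, G.Adj x a → a ∈ U i →
    (∃ j ∈ T, a ∈ RA G (w j) (h j)) ∨ a ∈ P'

/-- The bodies of the configuration. -/
def KS (G : SimpleGraph V) (w : ι → Wv V) (T : Set ι) (h : ι → V) : Set (Set V) :=
  {k | ∃ i ∈ T, Reach G (w i) (h i) k}

/-- Their neighbours. -/
def AS (G : SimpleGraph V) (w : ι → Wv V) (T : Set ι) (h : ι → V) : Set V :=
  {a | a ∉ ⋃₀ KS G w T h ∧ ∃ x ∈ ⋃₀ KS G w T h, G.Adj x a}

/-- The properties of the base matching. -/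
structure BaseM (G : SimpleGraph V) (w : ι → Wv V) (T : Set ι) (h : ι → V) (Fb : V → V) :
    Prop where
  isM : IsM G Fb
  eq : ∀ i ∈ T, ∀ x ∈ RA G (w i) (h i) ∪ RD G (w i) (h i), Fb x = (w i).F x
  sup : ∀ x, Fb x ≠ x → ∃ i ∈ T, x ∈ RA G (w i) (h i) ∪ RD G (w i) (h i)

/-- The vertices changed by the `p`-th switch. -/
def DP (w : ι → Wv V) (al : V → ι) (F' : V → V → V) (p : V) : Set V := df (w (al p)).F (F' p)

/-- The properties of the final matching. -/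
structure FinM (G : SimpleGraph V) (w : ι → Wv V) (P' : Set V) (al : V → ι) (y : V → V)
    (F' : V → V → V) (Fb Fs : V → V) : Prop where
  isM : IsM G Fs
  py : ∀ p ∈ P', Fs p = y p ∧ Fs (y p) = p
  dp : ∀ p ∈ P', ∀ x ∈ DP w al F' p, x ≠ y p → Fs x = F' p x
  rest : ∀ x, (∀ p ∈ P', x ∉ DP w al F' p ∧ x ≠ y p ∧ x ≠ p) → Fs x = Fb x

end Pool.Agent.H70A
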