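import Pool.Agent.Lib.H70A.P1
import Pool.Agent.Lib.H70A.M5

/-!
# H70A chunk P2: the base matching; reachable sets

PROOFS.
* `RD_sub`: `Reach` bodies are in `(w i).K`. `dom_closed`: `RA ∪ RD` is closed under `w.F`: `x ∈ k`
  reachable: `w.F x = x`, or `w.F x ∈ k`, or `w.F x ∈ w.A` adjacent to `x`, so in `RA` (root axiom); `a ∈ RA`:
  `w.F a ∈ w.D`, in a body reachable by `Reach.step`. `RA_map`.
* `exists_base`: `union_isM` for the family `f i = ins (RA_i ∪ RD_i) (w i).F`, `i ∈ T`. Compatibility: if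
  `x` is in both domains, `i ≤ j`, then `x ∉ U j` (`disjU`), so `F_eq`. This gives `Fb` with `Fb x = f i x`
  whenever `f i x ≠ x`. If `x` is in the domain of `i` and `(w i).F x = x`: suppose `Fb x ≠ x`, then
  `Fb x = f j x = (w j).F x ≠ x` for some `j ∈ T` with `x` in its domain, but `(w j).F x = (w i).F x` by
  `F_eq`. So `Fb x = (w i).F x` on the whole domain of `i`.
-/

namespace Pool.Agent.H70A

open Cardinal Order

universe u

variable {ι : Type u} [LinearOrder ι] [WellFoundedLT ι] [SuccOrder ι] [NoMaxOrder ι] {V : Type u}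
  {G : SimpleGraph V} {O : Set V}

theorem reach_mem {w : Wv V} {h : V} {k : Set V} (hr : Reach G w h k) : k ∈ w.K := by
  cases hr with
  | base _ hk _ => exact hk
  | step _ _ _ _ _ _ _ _ hk _ => exact hk

theorem RD_sub {w : Wv V} {h : V} : RD G w h ⊆ w.D :=
  fun _ ⟨k, hr, hx⟩ => ⟨k, reach_mem hr, hx⟩

theorem RA_map {U : Set V} {w : Wv V} (hw : IsWave G O U w) {h a : V} (ha : a ∈ RA G w h) :
    w.F a ∈ RD G w h := by
  obtain ⟨hA, x, ⟨k, hr, hx⟩, hadj⟩ := ha
  obtain ⟨k', hk', hrt, _⟩ := hw.A_apply hA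
  exact ⟨k', Reach.step k x a k' hr hx hA hadj hk' hrt.1, hrt.1⟩

theorem dom_closed {U : Set V} {w : Wv V} (hw : IsWave G O U w) {h x : V}
    (hx : x ∈ RA G w h ∪ RD G w h) : w.F x ∈ RA G w h ∪ RD G w h := by
  rcases hx with hx | hx
  · exact Or.inr (RA_map hw hx)
  · obtain ⟨k, hr, hxk⟩ := hx
    have hk := reach_mem hr
    obtain ⟨r, hrt, h1, h2⟩ := hw.exists_rt hk
    by_cases hxr : x = r
    · subst hxr
      rcases h2 with h2 | h2
      · refine Or.inl ⟨h2, x, ⟨k, hr, hxk⟩, hw.isM.adj x fun e => ?_⟩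
        rw [e] at h2
        exact hw.KA k hk x hxk h2
      · rw [h2]
        exact Or.inr ⟨k, hr, hxk⟩
    · exact Or.inr ⟨k, hr, (h1 x hxk hxr).1⟩

theorem p2_dom_X {w : Wv V} {h x : V} (hx : x ∈ RA G w h ∪ RD G w h) : x ∈ w.X := by
  rcases hx with hx | hx
  · exact IsWave.A_subset_X hx.1
  · exact IsWave.D_subset_X (RD_sub hx)

theorem p2_eq {U : ι → Set V} {w : ι → Wv V} (hS : Sys G O U w) {h : ι → V} {i j : ι} {x : V}
    (hi : x ∈ RA G (w i) (h i) ∪ RD G (w i) (h i)) (hj : x ∈ RA G (w j) (h j) ∪ RD G (w j) (h j)) :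
    (w i).F x = (w j).F x := by
  rcases le_total i j with hij | hij
  · exact (F_eq hS hij (p2_dom_X hi) ((hS.wave j).disjU x (p2_dom_X hj))).symm
  · exact F_eq hS hij (p2_dom_X hj) ((hS.wave i).disjU x (p2_dom_X hi))

theorem exists_base {U : ι → Set V} {w : ι → Wv V} (hS : Sys G O U w) (T : Set ι) (h : ι → V) :
    ∃ Fb : V → V, BaseM G w T h Fb := by
  have key : ∀ (i : ι) (x : V),
      ins (RA G (w i) (h i) ∪ RD G (w i) (h i)) (w i).F x ≠ x →
      x ∈ RA G (w i) (h i) ∪ RD G (w i) (h i) ∧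
        ins (RA G (w i) (h i) ∪ RD G (w i) (h i)) (w i).F x = (w i).F x := by
    intro i x hx
    by_cases hc : x ∈ RA G (w i) (h i) ∪ RD G (w i) (h i) ∧
        (w i).F x ∈ RA G (w i) (h i) ∪ RD G (w i) (h i)
    · exact ⟨hc.1, ins_apply hc.1 hc.2⟩
    · exact absurd (ins_of_notMem hc) hx
  obtain ⟨Fb, h1, h2, h3⟩ := union_isM (G := G)
    (fun i : T => ins (RA G (w i) (h i) ∪ RD G (w i) (h i)) (w i).F)
    (fun i => ins_isM (hS.wave i).isM _) (fun i j x hi hj => by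
      obtain ⟨h4, h5⟩ := key i x hi
      obtain ⟨h6, h7⟩ := key j x hj
      show ins (RA G (w i) (h i) ∪ RD G (w i) (h i)) (w i).F x =
        ins (RA G (w j) (h j) ∪ RD G (w j) (h j)) (w j).F x
      rw [h5, h7]
      exact p2_eq hS h4 h6)
  refine ⟨Fb, h1, fun i hi x hx => ?_, fun x hx => ?_⟩
  · have h4 : ins (RA G (w i) (h i) ∪ RD G (w i) (h i)) (w i).F x = (w i).F x :=
      ins_apply hx (dom_closed (hS.wave i) hx)
    by_cases he : (w i).F x = x
    · rw [he]
      by_contra hne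
      obtain ⟨j, h5, h6⟩ := h3 x hne
      obtain ⟨h7, h8⟩ := key j x h5
      apply h5
      show ins (RA G (w j) (h j) ∪ RD G (w j) (h j)) (w j).F x = x
      rw [h8, p2_eq hS h7 hx, he]
    · have h5 := h2 ⟨i, hi⟩ x (by
        show ins (RA G (w i) (h i) ∪ RD G (w i) (h i)) (w i).F x ≠ x
        rw [h4]
        exact he)
      rw [h5]
      exact h4
  · obtain ⟨j, h5, _⟩ := h3 x hx
    exact ⟨j, j.2, (key j x h5).1⟩

end Pool.Agent.H70A
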