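import Pool.Agent.Lib.H70A.P2

/-!
# H70A chunk P3: facts on a configuration

Notation: `dom i = RA_i ∪ RD_i`. PROOFS.
* `dp_dom`: `DP p ⊆ RD ∪ RA` of the stage `al p` (`Shift.loc`).
* `dp_slab`: `x ∈ DP p` or `x = y p`: `x ∈ U (succ (al p))`, `x ∉ U (al p)` (it is in `dom (al p) ⊆ X`).
* `dp_disj`: for `p ≠ q` in `P'` the slabs are different (`inj`; if `al p < al q`, then
  `U (succ (al p)) ⊆ U (al q)`).
* `p_notMem`: `p ∈ P'` is in no `dom i`, `i ∈ T`: not in `RA_i` (`nRA`). If `p ∈ RD_i`, then `p ∈ k' ∈ (w i).K`,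
  `y p ∈ k ∈ (w (al p)).K`, `G.Adj p (y p)`, so `k = k'` by `sep'`, `p ∈ k ⊆ (w (al p)).X`, but
  `p ∈ U (al p)`: contradiction with `disjU`.
* `dp_closed`: `DP p` is closed under `(w (al p)).F` and `F' p` (`IsM.df_left`, `IsM.df_right`).
* `y_fix`: `F' p (y p) = y p` (`Shift.cov`).
-/

namespace Pool.Agent.H70A

open Cardinal Order

universe u

variable {ι : Type u} [LinearOrder ι] [WellFoundedLT ι] [SuccOrder ι] [NoMaxOrder ι] {V : Type u}
  {G : SimpleGraph V} {O : Set V} {U : ι → Set V} {w : ι → Wv V} {T : Set ι} {h : ι → V}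
  {P' : Set V} {al : V → ι} {y : V → V} {F' : V → V → V}

theorem dp_dom (hP : PConf G O U w T h P' al y F') {p x : V} (hp : p ∈ P')
    (hx : x ∈ DP w al F' p ∨ x = y p) :
    x ∈ RA G (w (al p)) (h (al p)) ∪ RD G (w (al p)) (h (al p)) := by
  rcases hx with hx | rfl
  · exact ((hP.sh p hp).loc hx).symm
  · exact Or.inr (hP.yRD p hp)

theorem dp_slab (hS : Sys G O U w) (hP : PConf G O U w T h P' al y F') {p x : V} (hp : p ∈ P')
    (hx : x ∈ DP w al F' p ∨ x = y p) : x ∈ U (succ (al p)) ∧ x ∉ U (al p) := by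
  refine ⟨?_, (hS.wave (al p)).disjU x (p2_dom_X (dp_dom hP hp hx))⟩
  rcases hx with hx | rfl
  · exact hP.loc p hp hx
  · exact hP.yU p hp

theorem p3_lt (hS : Sys G O U w) (hP : PConf G O U w T h P' al y F') {p q x : V} (hp : p ∈ P')
    (hq : q ∈ P') (hx : x ∈ DP w al F' p ∨ x = y p) (hx' : x ∈ DP w al F' q ∨ x = y q)
    (hlt : al p < al q) : False :=
  (dp_slab hS hP hq hx').2 (hS.chn.mono _ _ (succ_le_of_lt hlt) (dp_slab hS hP hp hx).1)

theorem dp_disj (hS : Sys G O U w) (hP : PConf G O U w T h P' al y F') {p q x : V} (hp : p ∈ P')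
    (hq : q ∈ P') (hx : x ∈ DP w al F' p ∨ x = y p) (hx' : x ∈ DP w al F' q ∨ x = y q) :
    p = q := by
  rcases lt_trichotomy (al p) (al q) with hlt | he | hlt
  · exact (p3_lt hS hP hp hq hx hx' hlt).elim
  · exact hP.inj hp hq he
  · exact (p3_lt hS hP hq hp hx' hx hlt).elim

theorem p_notMem (hS : Sys G O U w) (hP : PConf G O U w T h P' al y F') {p : V} (hp : p ∈ P')
    {i : ι} (hi : i ∈ T) : p ∉ RA G (w i) (h i) ∪ RD G (w i) (h i) := by
  rintro (hx | ⟨k', hr', hpk⟩)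
  · exact hP.nRA p hp i hi hx
  · obtain ⟨k, hr, hyk⟩ := hP.yRD p hp
    have he := sep' hS (reach_mem hr') (reach_mem hr) hpk hyk (Or.inr (hP.padj p hp))
    subst he
    exact (hS.wave (al p)).disjU p (IsWave.body_subset_X (reach_mem hr) hpk) (hP.pU p hp)

theorem dp_closed (hS : Sys G O U w) (hP : PConf G O U w T h P' al y F') {p x : V} (hp : p ∈ P')
    (hx : x ∈ DP w al F' p) : (w (al p)).F x ∈ DP w al F' p ∧ F' p x ∈ DP w al F' p := by
  have h1 := (hS.wave (al p)).isM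
  have h2 : IsM G (F' p) := (hP.sh p hp).wave.isM
  exact ⟨h1.df_left h2 hx, h1.df_right h2 hx⟩

theorem y_fix (hP : PConf G O U w T h P' al y F') {p : V} (hp : p ∈ P') : F' p (y p) = y p := by
  rw [← notMem_cov, (hP.sh p hp).cov]
  exact fun h => h.2 rfl

end Pool.Agent.H70A
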