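import Pool.Agent.Lib.H70A.P3

/-!
# H70A chunk P4: the final matching

PROOF. `union_isM` for the family indexed by `Option P'`:
* `none`: `g₀ x = Fb x` if `x` is in no `DP p` (`p ∈ P'`), and `g₀ x = x` otherwise. It is a matching: the
  complement of `⋃ DP p` is closed under `Fb`, because `DP p` is (`Fb = (w (al p)).F` on
  `DP p ⊆ dom (al p)`, `dp_closed`, involution).
* `some p`: `g_p = ad e_p p (y p)` with `e_p x = F' p x` for `x ∈ DP p`, `e_p x = x` otherwise (a matching by
  `dp_closed`; `p, y p ∉ cov e_p`: `p ∉ dom`, `F' p (y p) = y p`), `G.Adj p (y p)`.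
Supports are pairwise disjoint: `cov g_p ⊆ DP p ∪ {p, y p}`; `dp_disj`, `p_notMem`, `dp_dom`; `g₀` is the
identity on `DP p`, at `p` (`Fb p = p` because `p` is in no `dom i`, `BaseM.sup`), and at `y p` (if
`y p ∉ DP p` then `(w (al p)).F (y p) = F' p (y p) = y p`, so `Fb (y p) = y p`).
So `Fs` exists with the properties `py`, `dp` (for `x ∈ DP p`, `x ≠ y p`, `x ≠ p`: `g_p x = F' p x`; if this
equals `x`, then `Fs x = x` as all other `g` fix `x`), `rest` (if `g₀ x = Fb x = x`, all `g_p` fix `x`).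
-/

namespace Pool.Agent.H70A

open Cardinal Order

universe u

variable {ι : Type u} [LinearOrder ι] [WellFoundedLT ι] [SuccOrder ι] [NoMaxOrder ι] {V : Type u}
  {G : SimpleGraph V} {O : Set V} {U : ι → Set V} {w : ι → Wv V} {T : Set ι} {h : ι → V}
  {P' : Set V} {al : V → ι} {y : V → V} {F' : V → V → V}

/-- The `p`-th switch without the edge `p, y p`. -/
noncomputable def p4_e (w : ι → Wv V) (al : V → ι) (F' : V → V → V) (p : V) : V → V :=
  open Classical in fun x => if x ∈ DP w al F' p then F' p x else x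

/-- The base matching outside the switches. -/
noncomputable def p4_g (w : ι → Wv V) (P' : Set V) (al : V → ι) (F' : V → V → V) (Fb : V → V) :
    V → V :=
  open Classical in fun x => if ∃ p ∈ P', x ∈ DP w al F' p then x else Fb x

theorem p4_e_isM (hS : Sys G O U w) (hP : PConf G O U w T h P' al y F') {p : V} (hp : p ∈ P') :
    IsM G (p4_e w al F' p) := by
  have h2 : IsM G (F' p) := (hP.sh p hp).wave.isM
  refine ⟨fun x => ?_, fun x hx => ?_⟩
  · by_cases hd : x ∈ DP w al F' p
    · simp only [p4_e, hd, if_true, (dp_closed hS hP hp hd).2, h2.inv]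
    · simp only [p4_e, hd, if_false]
  · by_cases hd : x ∈ DP w al F' p
    · simp only [p4_e, hd, if_true] at hx ⊢
      exact h2.adj x hx
    · simp only [p4_e, hd, if_false] at hx
      exact absurd rfl hx

theorem p4_g_isM (hS : Sys G O U w) (hP : PConf G O U w T h P' al y F') {Fb : V → V}
    (hb : BaseM G w T h Fb) : IsM G (p4_g w P' al F' Fb) := by
  have key : ∀ x, (¬ ∃ p ∈ P', x ∈ DP w al F' p) → ¬ ∃ p ∈ P', Fb x ∈ DP w al F' p := by
    rintro x hx ⟨q, hq, hd⟩
    apply hx
    refine ⟨q, hq, ?_⟩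
    have h1 := hb.eq (al q) (hP.alT q hq) (Fb x) (dp_dom hP hq (Or.inl hd))
    rw [hb.isM.inv] at h1
    rw [h1]
    exact (dp_closed hS hP hq hd).1
  refine ⟨fun x => ?_, fun x hx => ?_⟩
  · by_cases hd : ∃ p ∈ P', x ∈ DP w al F' p
    · simp only [p4_g, hd, if_true]
    · simp only [p4_g, hd, if_false, key x hd, hb.isM.inv]
  · by_cases hd : ∃ p ∈ P', x ∈ DP w al F' p
    · simp only [p4_g, hd, if_true] at hx
      exact absurd rfl hx
    · simp only [p4_g, hd, if_false] at hx ⊢
      exact hb.isM.adj x hx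

theorem p4_disj (hS : Sys G O U w) (hP : PConf G O U w T h P' al y F') {p q x : V} (hp : p ∈ P')
    (hq : q ∈ P') (hx : (x ∈ DP w al F' p ∨ x = y p) ∨ x = p)
    (hx' : (x ∈ DP w al F' q ∨ x = y q) ∨ x = q) : p = q := by
  rcases hx with hx | rfl
  · rcases hx' with hx' | rfl
    · exact dp_disj hS hP hp hq hx hx'
    · exact absurd (dp_dom hP hp hx) (p_notMem hS hP hq (hP.alT p hp))
  · rcases hx' with hx' | rfl
    · exact absurd (dp_dom hP hq hx') (p_notMem hS hP hp (hP.alT q hq))
    · rfl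

theorem p4_g_fix (hS : Sys G O U w) (hP : PConf G O U w T h P' al y F') {Fb : V → V}
    (hb : BaseM G w T h Fb) {p x : V} (hp : p ∈ P')
    (hx : (x ∈ DP w al F' p ∨ x = y p) ∨ x = p) : p4_g w P' al F' Fb x = x := by
  by_cases hd : ∃ q ∈ P', x ∈ DP w al F' q
  · simp only [p4_g, hd, if_true]
  · simp only [p4_g, hd, if_false]
    rcases hx with (hx | rfl) | rfl
    · exact absurd ⟨p, hp, hx⟩ hd
    · have h1 : y p ∉ DP w al F' p := fun hh => hd ⟨p, hp, hh⟩
      have h2 : (w (al p)).F (y p) = F' p (y p) := notMem_df.1 h1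
      rw [hb.eq (al p) (hP.alT p hp) (y p) (Or.inr (hP.yRD p hp)), h2, y_fix hP hp]
    · by_contra hne
      obtain ⟨i, hi, h1⟩ := hb.sup x hne
      exact p_notMem hS hP hp hi h1

theorem p4_ad_cov {p x : V} (hne : p ≠ y p) (hx : ad (p4_e w al F' p) p (y p) x ≠ x) :
    (x ∈ DP w al F' p ∨ x = y p) ∨ x = p := by
  have h1 : x ∈ cov (ad (p4_e w al F' p) p (y p)) := hx
  rw [mem_cov_ad hne] at h1
  rcases h1 with h1 | h1 | h1
  · left
    left
    by_contra hd
    exact h1 (by simp only [p4_e, hd, if_false])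
  · exact Or.inr h1
  · exact Or.inl (Or.inr h1)

theorem exists_fin (hS : Sys G O U w) (hP : PConf G O U w T h P' al y F') {Fb : V → V}
    (hb : BaseM G w T h Fb) : ∃ Fs : V → V, FinM G w P' al y F' Fb Fs := by
  have hpd : ∀ p ∈ P', p ∉ DP w al F' p := fun p hp hh =>
    p_notMem hS hP hp (hP.alT p hp) (dp_dom hP hp (Or.inl hh))
  have hep : ∀ p ∈ P', p ∉ cov (p4_e w al F' p) := fun p hp => by
    rw [notMem_cov]
    simp only [p4_e, hpd p hp, if_false]
  have hey : ∀ p ∈ P', y p ∉ cov (p4_e w al F' p) := fun p hp => by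
    rw [notMem_cov]
    by_cases hd : y p ∈ DP w al F' p
    · simp only [p4_e, hd, if_true]
      exact y_fix hP hp
    · simp only [p4_e, hd, if_false]
  have hne : ∀ p ∈ P', p ≠ y p := fun p hp => (hP.padj p hp).ne
  have hadM : ∀ p ∈ P', IsM G (ad (p4_e w al F' p) p (y p)) := fun p hp =>
    ad_isM (p4_e_isM hS hP hp) (hP.padj p hp) (hep p hp) (hey p hp)
  let f : Option P' → V → V := fun o => o.elim (p4_g w P' al F' Fb)
    fun p => ad (p4_e w al F' p) p (y p)
  obtain ⟨Fs, h1, h2, h3⟩ := union_isM (G := G) f (fun o => by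
      cases o with
      | none => exact p4_g_isM hS hP hb
      | some p => exact hadM p p.2) (fun o o' x hx hx' => by
      cases o with
      | none =>
        cases o' with
        | none => rfl
        | some q => exact absurd (p4_g_fix hS hP hb q.2 (p4_ad_cov (hne q q.2) hx')) hx
      | some p =>
        cases o' with
        | none => exact absurd (p4_g_fix hS hP hb p.2 (p4_ad_cov (hne p p.2) hx)) hx'
        | some q =>
          have h4 : (p : V) = q := p4_disj hS hP p.2 q.2 (p4_ad_cov (hne p p.2) hx)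
            (p4_ad_cov (hne q q.2) hx')
          rw [Subtype.ext h4])
  refine ⟨Fs, ⟨h1, fun p hp => ⟨?_, ?_⟩, fun p hp x hx hxy => ?_, fun x hx => ?_⟩⟩
  · have h4 : f (some ⟨p, hp⟩) p = y p := ad_left
    rw [h2 (some ⟨p, hp⟩) p (by rw [h4]; exact (hne p hp).symm), h4]
  · have h4 : f (some ⟨p, hp⟩) (y p) = p := ad_right (hne p hp)
    rw [h2 (some ⟨p, hp⟩) (y p) (by rw [h4]; exact hne p hp), h4]
  · have hxp : x ≠ p := fun e => hpd p hp (e ▸ hx)
    have h4 : f (some ⟨p, hp⟩) x = F' p x := by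
      show ad (p4_e w al F' p) p (y p) x = F' p x
      rw [ad_apply hxp hxy]
      simp only [p4_e, hx, if_true]
    by_cases he : F' p x = x
    · rw [he]
      by_contra hne'
      obtain ⟨o, h5, _⟩ := h3 x hne'
      cases o with
      | none => exact h5 (p4_g_fix hS hP hb hp (Or.inl (Or.inl hx)))
      | some q =>
        have h6 : p = (q : V) := p4_disj hS hP hp q.2 (Or.inl (Or.inl hx))
          (p4_ad_cov (hne q q.2) h5)
        have h7 : q = ⟨p, hp⟩ := Subtype.ext h6.symm
        rw [h7, h4] at h5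
        exact h5 he
    · rw [h2 (some ⟨p, hp⟩) x (by rw [h4]; exact he), h4]
  · have hd : ¬ ∃ p ∈ P', x ∈ DP w al F' p := fun ⟨p, hp, hh⟩ => (hx p hp).1 hh
    have h4 : f none x = Fb x := by
      show p4_g w P' al F' Fb x = Fb x
      simp only [p4_g, hd, if_false]
    by_cases he : Fb x = x
    · rw [he]
      by_contra hne'
      obtain ⟨o, h5, _⟩ := h3 x hne'
      cases o with
      | none => exact h5 (h4.trans he)
      | some q =>
        obtain ⟨h6, h7, h8⟩ := hx q q.2
        rcases p4_ad_cov (hne q q.2) h5 with (h9 | h9) | h9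
        · exact h6 h9
        · exact h7 h9
        · exact h8 h9
    · rw [h2 none x (by rw [h4]; exact he), h4]

end Pool.Agent.H70A
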