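import Pool.Agent.Lib.H70A.P4

/-!
# H70A chunk P5: `A` of the final wave

`KS`, `AS` as defined. PROOFS (for a configuration).
* `RA_AS`: `a ∈ RA_i`, `i ∈ T`: `a ∈ (w i).A` is adjacent to some `x ∈ RD_i`. `a ∉ ⋃₀ KS`: if `a ∈ k' ∈ (w j).K`
  reachable at `j`, then `sep'` (with `x ∈ k ∈ (w i).K`, adjacent) gives `k = k'`, so `a ∈ k` and `a ∈ (w i).A`:
  contradiction with `KA`.
* `P_AS`: `p ∈ P'`: adjacent to `y p ∈ RD`, `p ∉ ⋃₀ KS` by `p_notMem`.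
* `AS_cases`: `a ∈ AS`: adjacent to `x ∈ k`, `k` reachable at `i ∈ T`; `Kadj`: `a ∈ k` impossible;
  `a ∈ (w i).A`: `a ∈ RA_i`; `a ∈ U i`: `PConf.cover`.
* `KS_eq`: if `x` is in a body `k ∈ KS` and in `dom (al p)` (`p ∈ P'`), then `k` is reachable at `al p`:
  `x ∉ RA` (as `x ∈ ⋃₀ KS` and `RA ⊆ AS`), so `x ∈ k' `, `k'` reachable at `al p`, and `k = k'` by `sep'`.
* `KS_disj`: `KK` for `KS`: `sep'` with `x = y`.
-/

namespace Pool.Agent.H70A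

open Cardinal Order

universe u

variable {ι : Type u} [LinearOrder ι] [WellFoundedLT ι] [SuccOrder ι] [NoMaxOrder ι] {V : Type u}
  {G : SimpleGraph V} {O : Set V} {U : ι → Set V} {w : ι → Wv V} {T : Set ι} {h : ι → V}
  {P' : Set V} {al : V → ι} {y : V → V} {F' : V → V → V}

theorem RA_AS (hS : Sys G O U w) {i : ι} (hi : i ∈ T) {a : V} (ha : a ∈ RA G (w i) (h i)) :
    a ∈ AS G w T h := by
  obtain ⟨haA, x, ⟨k, hr, hx⟩, hadj⟩ := ha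
  refine ⟨?_, x, ⟨k, ⟨i, hi, hr⟩, hx⟩, hadj⟩
  rintro ⟨k', ⟨j, hj, hr'⟩, hak⟩
  have he : k = k' := sep' hS (reach_mem hr) (reach_mem hr') hx hak (Or.inr hadj)
  rw [← he] at hak
  exact (hS.wave i).KA k (reach_mem hr) a hak haA

theorem P_AS (hS : Sys G O U w) (hP : PConf G O U w T h P' al y F') {p : V} (hp : p ∈ P') :
    p ∈ AS G w T h := by
  obtain ⟨k, hr, hx⟩ := hP.yRD p hp
  refine ⟨?_, y p, ⟨k, ⟨al p, hP.alT p hp, hr⟩, hx⟩, (hP.padj p hp).symm⟩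
  rintro ⟨k', ⟨j, hj, hr'⟩, hpk⟩
  exact p_notMem hS hP hp hj (Or.inr ⟨k', hr', hpk⟩)

theorem AS_cases (hS : Sys G O U w) (hP : PConf G O U w T h P' al y F') {a : V}
    (ha : a ∈ AS G w T h) : (∃ i ∈ T, a ∈ RA G (w i) (h i)) ∨ a ∈ P' := by
  obtain ⟨hn, x, ⟨k, ⟨i, hi, hr⟩, hx⟩, hadj⟩ := ha
  rcases (hS.wave i).Kadj k (reach_mem hr) x hx a hadj with h1 | h1 | h1
  · exact absurd ⟨k, ⟨i, hi, hr⟩, h1⟩ hn
  · exact Or.inl ⟨i, hi, h1, x, ⟨k, hr, hx⟩, hadj⟩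
  · exact hP.cover i hi x ⟨k, hr, hx⟩ a hadj h1

theorem KS_eq (hS : Sys G O U w) (hP : PConf G O U w T h P' al y F') {p : V} (hp : p ∈ P')
    {k : Set V} (hk : k ∈ KS G w T h) {x : V} (hx : x ∈ k)
    (hx' : x ∈ RA G (w (al p)) (h (al p)) ∪ RD G (w (al p)) (h (al p))) :
    Reach G (w (al p)) (h (al p)) k := by
  rcases hx' with h1 | ⟨k', hr', h1⟩
  · exact absurd ⟨k, hk, hx⟩ (RA_AS hS (hP.alT p hp) h1).1
  · obtain ⟨i, hi, hr⟩ := hk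
    have he : k = k' := sep' hS (reach_mem hr) (reach_mem hr') hx h1 (Or.inl rfl)
    rw [he]
    exact hr'

theorem KS_disj (hS : Sys G O U w) {k k' : Set V} (hk : k ∈ KS G w T h) (hk' : k' ∈ KS G w T h)
    {x y : V} (hx : x ∈ k) (hy : y ∈ k') (hxy : x = y ∨ G.Adj x y) : k = k' := by
  obtain ⟨i, hi, hr⟩ := hk
  obtain ⟨j, hj, hr'⟩ := hk'
  exact sep' hS (reach_mem hr) (reach_mem hr') hx hy hxy

end Pool.Agent.H70A
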