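import Pool.Agent.Lib.H70A.P5

/-!
# H70A chunk P6: the matching on a body, and on `AS`

PROOFS (`j = al p`).
* `body_cases`. Let `k ∈ KS`. (A) Some `p ∈ P'` has a vertex of `DP p ∪ {y p}` in `k`. By `dp_dom`, `KS_eq`
  `k` is reachable at `al p`. No other `q ∈ P'` has a vertex of `DP q ∪ {y q}` in `k`: otherwise `k` is
  reachable at both `al p ≠ al q`, say `al p < al q`; the vertex of `DP p ∪ {y p}` in `k` is in
  `U (succ (al p)) ⊆ U (al q)`, but `k ∈ (w (al q)).K` is disjoint from `U (al q)`; symmetric otherwise.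
  No `q ∈ P'` is itself in `k` (`p_notMem`). So for `x ∈ k`, `x ≠ y p`: if `x ∈ DP p`, `Fs x = F' p x` (`dp`);
  if not, `Fs x = Fb x = (w j).F x = F' p x` (`rest`, `BaseM.eq`, `x ∉ DP p`).
  (B) otherwise `Fs = Fb = (w i).F` on `k` for the `i ∈ T` at which `k` is reachable.
* `Fs_A`: `a ∈ AS` → `Fs a ∈ ⋃₀ KS`. If `a = p ∈ P'`: `Fs p = y p`. Otherwise `a ∈ RA_i`; if `a` is in some
  `DP p`: `a ≠ y p` (`y p ∈ ⋃₀ KS`), `Fs a = F' p a ∈ DP p ⊆ RA ∪ RD` of the stage `al p`; `a ∈ RA_{al p}`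
  (`a ∉ ⋃₀ KS`, `dp_dom`), so `a ∈ (w (al p)).A` and by `Am` for the wave of the shift
  `F' p a ∈ (w (al p)).D`, hence `F' p a ∉ (w (al p)).A` and `F' p a ∈ RD`. Otherwise
  `Fs a = Fb a = (w i).F a ∈ RD_i` (`RA_map`) (`a ≠ y p`, `a ∉ P'`).
* `Fs_sup`: `Fs x ≠ x` → `x ∈ AS ∪ ⋃₀ KS`: `x = p`, `x = y p`, `x ∈ DP p ⊆ dom`, or `Fb x ≠ x` (`BaseM.sup`);
  `RA_AS`.
-/

namespace Pool.Agent.H70A

open Cardinal Order

universe u

variable {ι : Type u} [LinearOrder ι] [WellFoundedLT ι] [SuccOrder ι] [NoMaxOrder ι] {V : Type u}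
  {G : SimpleGraph V} {O : Set V} {U : ι → Set V} {w : ι → Wv V} {T : Set ι} {h : ι → V}
  {P' : Set V} {al : V → ι} {y : V → V} {F' : V → V → V}

theorem p6_RD_KS {G : SimpleGraph V} {w : ι → Wv V} {T : Set ι} {h : ι → V} {i : ι} (hi : i ∈ T)
    {x : V} (hx : x ∈ RD G (w i) (h i)) : x ∈ ⋃₀ KS G w T h := by
  obtain ⟨k, hk, hxk⟩ := hx
  exact ⟨k, ⟨i, hi, hk⟩, hxk⟩

theorem p6_lt (hS : Sys G O U w) (hP : PConf G O U w T h P' al y F') {k : Set V}
    (hk : k ∈ KS G w T h) {p q x x' : V} (hp : p ∈ P') (hq : q ∈ P') (hx : x ∈ k) (hx' : x' ∈ k)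
    (h1 : x ∈ DP w al F' p ∨ x = y p) (h2 : x' ∈ DP w al F' q ∨ x' = y q)
    (hlt : al p < al q) : False := by
  have hr : Reach G (w (al q)) (h (al q)) k := KS_eq hS hP hq hk hx' (dp_dom hP hq h2)
  have h3 := (dp_slab hS hP hp h1).1
  have h4 : x ∈ U (al q) := hS.chn.mono _ _ (Order.succ_le_of_lt hlt) h3
  exact (hS.wave (al q)).disjU x (IsWave.body_subset_X (reach_mem hr) hx) h4

theorem p6_uniq (hS : Sys G O U w) (hP : PConf G O U w T h P' al y F') {k : Set V}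
    (hk : k ∈ KS G w T h) {p q x x' : V} (hp : p ∈ P') (hq : q ∈ P') (hx : x ∈ k) (hx' : x' ∈ k)
    (h1 : x ∈ DP w al F' p ∨ x = y p) (h2 : x' ∈ DP w al F' q ∨ x' = y q) : p = q := by
  rcases lt_trichotomy (al p) (al q) with hlt | heq | hlt
  · exact (p6_lt hS hP hk hp hq hx hx' h1 h2 hlt).elim
  · exact hP.inj hp hq heq
  · exact (p6_lt hS hP hk hq hp hx' hx h2 h1 hlt).elim

theorem body_cases (hS : Sys G O U w) (hP : PConf G O U w T h P' al y F') {Fb Fs : V → V}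
    (hb : BaseM G w T h Fb) (hf : FinM G w P' al y F' Fb Fs) {k : Set V}
    (hk : k ∈ KS G w T h) :
    (∃ p ∈ P', Reach G (w (al p)) (h (al p)) k ∧ ∀ x ∈ k, x ≠ y p → Fs x = F' p x) ∨
      ∃ i ∈ T, Reach G (w i) (h i) k ∧ ∀ x ∈ k, Fs x = (w i).F x := by
  by_cases hA : ∃ p ∈ P', ∃ x ∈ k, x ∈ DP w al F' p ∨ x = y p
  · left
    obtain ⟨p, hp, x0, hx0, hx0'⟩ := hA
    have hr : Reach G (w (al p)) (h (al p)) k := KS_eq hS hP hp hk hx0 (dp_dom hP hp hx0')
    refine ⟨p, hp, hr, fun x hx hxy => ?_⟩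
    by_cases hxd : x ∈ DP w al F' p
    · exact hf.dp p hp x hxd hxy
    · have hxdom : x ∈ RA G (w (al p)) (h (al p)) ∪ RD G (w (al p)) (h (al p)) :=
        Or.inr ⟨k, hr, hx⟩
      have hrest : ∀ q ∈ P', x ∉ DP w al F' q ∧ x ≠ y q ∧ x ≠ q := by
        intro q hq
        have hno : ¬ (x ∈ DP w al F' q ∨ x = y q) := by
          intro hq'
          have hpq : p = q := p6_uniq hS hP hk hp hq hx0 hx hx0' hq'
          subst hpq
          rcases hq' with h1 | h1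
          · exact hxd h1
          · exact hxy h1
        push Not at hno
        refine ⟨hno.1, hno.2, ?_⟩
        rintro rfl
        exact p_notMem hS hP hq (hP.alT p hp) hxdom
      rw [hf.rest x hrest, hb.eq (al p) (hP.alT p hp) x hxdom]
      exact notMem_df.1 hxd
  · right
    push Not at hA
    obtain ⟨i, hi, hr⟩ := hk
    refine ⟨i, hi, hr, fun x hx => ?_⟩
    have hxdom : x ∈ RA G (w i) (h i) ∪ RD G (w i) (h i) := Or.inr ⟨k, hr, hx⟩
    rw [hf.rest x, hb.eq i hi x hxdom]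
    intro q hq
    refine ⟨(hA q hq x hx).1, (hA q hq x hx).2, ?_⟩
    rintro rfl
    exact p_notMem hS hP hq hi hxdom

theorem Fs_A (hS : Sys G O U w) (hP : PConf G O U w T h P' al y F') {Fb Fs : V → V}
    (hb : BaseM G w T h Fb) (hf : FinM G w P' al y F' Fb Fs) {a : V} (ha : a ∈ AS G w T h) :
    Fs a ∈ ⋃₀ KS G w T h := by
  have hyK : ∀ p ∈ P', y p ∈ ⋃₀ KS G w T h := fun p hp => p6_RD_KS (hP.alT p hp) (hP.yRD p hp)
  by_cases haP : a ∈ P'
  · rw [(hf.py a haP).1]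
    exact hyK a haP
  · have hRA : ∃ i ∈ T, a ∈ RA G (w i) (h i) := by
      rcases AS_cases hS hP ha with h1 | h1
      · exact h1
      · exact absurd h1 haP
    by_cases hD : ∃ p ∈ P', a ∈ DP w al F' p
    · obtain ⟨p, hp, hap⟩ := hD
      have hne : a ≠ y p := fun e => ha.1 (by rw [e]; exact hyK p hp)
      rw [hf.dp p hp a hap hne]
      have hdom := dp_dom hP hp (Or.inl hap)
      have haRA : a ∈ RA G (w (al p)) (h (al p)) := by
        rcases hdom with h1 | h1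
        · exact h1
        · exact absurd (p6_RD_KS (hP.alT p hp) h1) ha.1
      have h2 : F' p a ∈ (w (al p)).D := (hP.sh p hp).wave.Am a haRA.1
      have h3 := dp_dom hP hp (Or.inl (dp_closed hS hP hp hap).2)
      rcases h3 with h3 | h3
      · obtain ⟨k', hk', hx'⟩ := h2
        exact absurd h3.1 ((hS.wave (al p)).KA k' hk' _ hx')
      · exact p6_RD_KS (hP.alT p hp) h3
    · push Not at hD
      obtain ⟨i, hi, hai⟩ := hRA
      rw [hf.rest a, hb.eq i hi a (Or.inl hai)]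
      · exact p6_RD_KS hi (RA_map (hS.wave i) hai)
      · intro q hq
        refine ⟨hD q hq, fun e => ha.1 (by rw [e]; exact hyK q hq), ?_⟩
        rintro rfl
        exact haP hq

theorem Fs_sup (hS : Sys G O U w) (hP : PConf G O U w T h P' al y F') {Fb Fs : V → V}
    (hb : BaseM G w T h Fb) (hf : FinM G w P' al y F' Fb Fs) {x : V} (hx : Fs x ≠ x) :
    x ∈ AS G w T h ∪ ⋃₀ KS G w T h := by
  have hdom : ∀ i ∈ T, x ∈ RA G (w i) (h i) ∪ RD G (w i) (h i) →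
      x ∈ AS G w T h ∪ ⋃₀ KS G w T h := by
    intro i hi h1
    rcases h1 with h1 | h1
    · exact Or.inl (RA_AS hS hi h1)
    · exact Or.inr (p6_RD_KS hi h1)
  by_cases h1 : ∀ p ∈ P', x ∉ DP w al F' p ∧ x ≠ y p ∧ x ≠ p
  · rw [hf.rest x h1] at hx
    obtain ⟨i, hi, h2⟩ := hb.sup x hx
    exact hdom i hi h2
  · push Not at h1
    obtain ⟨p, hp, h2⟩ := h1
    by_cases h3 : x ∈ DP w al F' p ∨ x = y p
    · exact hdom (al p) (hP.alT p hp) (dp_dom hP hp h3)
    · push Not at h3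
      have h4 := h2 h3.1 h3.2
      subst h4
      exact Or.inl (P_AS hS hP hp)

end Pool.Agent.H70A
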