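import Pool.Agent.Lib.H70A.B10
import Pool.Agent.Lib.H70A.C4

/-!
# H70A module R: spreading. Definitions.

`lev x` is the level of `x` (`x ∈ U (succ (lev x)) \ U (lev x)`), `e x > lev x` the stage at which a pending
item owned by `x` is treated. The state of stage `i` is `s i = (R i, nm i)`: `R i` the matching of the waves
`w i` modified by the treated item, `nm i` the matching of the virtual graph on the slab of `i`.
-/

namespace Pool.Agent.H70A

open Cardinal Order

universe u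

variable {ι : Type u} [LinearOrder ι] [WellFoundedLT ι] [SuccOrder ι] [NoMaxOrder ι] {V : Type u}

/-- The union of the chain. -/
def UU (U : ι → Set V) : Set V := {x | ∃ i, x ∈ U i}

/-- Levels and owners. -/
structure Lv (U : ι → Set V) (lev e : V → ι) : Prop where
  l1 : ∀ x ∈ UU U, x ∈ U (succ (lev x)) ∧ x ∉ U (lev x)
  l2 : ∀ x ∈ UU U, lev x < e x
  l3 : ∀ x ∈ UU U, ∀ y ∈ UU U, e x = e y → x = y

/-- The extra vertex used by `R` at stage `i`. -/
def sf (U : ι → Set V) (w : ι → Wv V) (i : ι) (R : V → V) : Set V :=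
  {x | x ∈ cov R ∧ x ∉ U i ∧ x ∉ (w i).X}

/-- `d` owns the pending pair `{d, nm d}`, treated at stage `i`. -/
def PI (G : SimpleGraph V) (U : ι → Set V) (lev e : V → ι) (s : ι → (V → V) × (V → V)) (i : ι)
    (d : V) : Prop :=
  d ∈ UU U ∧ e d = i ∧ (s (lev d)).2 d ≠ d ∧ ¬ G.Adj d ((s (lev d)).2 d) ∧
    e d < e ((s (lev d)).2 d)

/-- `d` is a pending single vertex, treated at stage `i`. -/
def SI (O : Set V) (U : ι → Set V) (w : ι → Wv V) (lev e : V → ι)
    (s : ι → (V → V) × (V → V)) (i : ι) (d : V) : Prop :=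
  d ∈ UU U ∧ e d = i ∧ (s (lev d)).2 d = d ∧ d ∉ O ∧
    d ∈ Sl U w (lev d) (succ (lev d)) (sf U w (lev d) (s (lev d)).1)

/-- The conditions on the state `p = (R i, nm i)`. -/
structure RS (G : SimpleGraph V) (O : Set V) (U : ι → Set V) (w : ι → Wv V) (lev e : V → ι)
    (i : ι) (s : ι → (V → V) × (V → V)) (p : (V → V) × (V → V)) : Prop where
  a : ∀ d, PI G U lev e s i d →
    VrtW G (w i) d ((s (lev d)).2 d) p.1 ∧ df (w i).F p.1 ⊆ U (succ i)
  b : ∀ d, SI O U w lev e s i d →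
    AugW G O (U i \ {d}) (w i).F d p.1 ∧ df (w i).F p.1 ⊆ U (succ i)
  c : (∀ d, ¬ PI G U lev e s i d ∧ ¬ SI O U w lev e s i d) → p.1 = (w i).F
  n1 : IsM (GV G O U w (succ i)) p.2
  n2 : ∀ x ∈ cov p.2, x ∈ Sl U w i (succ i) (sf U w i p.1)
  n3 : ∀ x ∈ Sl U w i (succ i) (sf U w i p.1), x ∉ OV G O U w (succ i) → x ∈ cov p.2

end Pool.Agent.H70A
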