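import Pool.Agent.Lib.H70A.R0

/-!
# H70A chunk R1: levels; recursion principle

PROOFS.
* `exists_Lv`. For `x ∈ UU U` the set of `i` with `x ∈ U (succ i)` is nonempty (`cont`); let `lev x` be its
  least element. `x ∉ U (lev x)`: otherwise `cont` gives `j < lev x` with `x ∈ U (succ j)`. `e`: `inj_of_union`
  and `inj_choice` on the subtype of `⋃ i, U i` with `Sp x = Set.Ioi (lev x)`.
* `lev_lt`: `x ∈ U i` implies `lev x < i` (otherwise `x ∈ U i ⊆ U (lev x)`). `mem_of_lev`: `lev x < i`,
  `x ∈ UU U` implies `x ∈ U (succ (lev x)) ⊆ U i`. `lev_unique`.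
* `rec_good`: well-founded recursion: `s i` := some `p` with `P i s' p`, where `s'` is the extension of the
  already defined part by a default value, if such a `p` exists (then `P i s (s i)` by `hP`); existence by
  `hex` and well-founded induction (`hex` is applied to `s'`, for which `P j s' (s' j)` for `j < i` follows
  from `P j s (s j)` by `hP`). (See also `Pool.Agent.H81C.exists_transfinite`.)
-/

namespace Pool.Agent.H70A

open Cardinal Order

universe u v

variable {ι : Type u} [LinearOrder ι] [WellFoundedLT ι] [SuccOrder ι] [NoMaxOrder ι] {V : Type u}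

theorem exists_Lv (hι : RegIdx ι) {U : ι → Set V} (hU : Chn U) : ∃ lev e : V → ι, Lv U lev e := by
  classical
  have _hne : Nonempty ι := by
    have h := hι.unc
    exact Cardinal.mk_ne_zero_iff.1 (ne_of_gt (lt_trans Cardinal.aleph0_pos h))
  have h1 : ∀ x : V, ∃ i : ι, x ∈ UU U → x ∈ U (succ i) ∧ x ∉ U i := by
    intro x
    by_cases hx : x ∈ UU U
    · obtain ⟨i, hi⟩ := hx
      have hne : {i | x ∈ U (succ i)}.Nonempty := by
        obtain ⟨j, -, hj⟩ := hU.cont i x hi
        exact ⟨j, hj⟩
      have wf : WellFounded (fun i j : ι => i < j) := wellFounded_lt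
      refine ⟨wf.min _ hne, fun _ => ⟨wf.min_mem _ hne, fun h => ?_⟩⟩
      obtain ⟨j, hj1, hj2⟩ := hU.cont _ x h
      have hj3 : j ∈ {i | x ∈ U (succ i)} := hj2
      exact wf.not_lt_min _ hj3 hj1
    · exact ⟨Classical.arbitrary ι, fun h => absurd h hx⟩
  choose lev hlev using h1
  obtain ⟨φ, hφ⟩ := inj_of_union hι hU
  obtain ⟨e, he, hS⟩ := inj_choice hι φ hφ (fun x => Set.Ioi (lev x.1)) (by
    intro x b
    refine ⟨succ (max (lev x.1) b), ?_, ?_⟩
    · exact lt_of_le_of_lt (le_max_left _ _) (lt_succ _)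
    · exact lt_of_le_of_lt (le_max_right _ _) (lt_succ _))
  have key : ∀ x, x ∈ UU U → x ∈ (⋃ i, U i : Set V) := by
    rintro x ⟨i, hi⟩
    exact Set.mem_iUnion.2 ⟨i, hi⟩
  refine ⟨lev, fun x => if h : x ∈ (⋃ i, U i : Set V) then e ⟨x, h⟩ else lev x, hlev, ?_, ?_⟩
  · intro x hx
    simp only [dif_pos (key x hx)]
    exact hS ⟨x, key x hx⟩
  · intro x hx y hy h
    simp only [dif_pos (key x hx), dif_pos (key y hy)] at h
    exact congrArg Subtype.val (he h)

theorem lev_lt {U : ι → Set V} (hU : Chn U) {lev e : V → ι} (hL : Lv U lev e) {x : V} {i : ι}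
    (hx : x ∈ U i) : lev x < i := by
  by_contra h
  exact (hL.l1 x ⟨i, hx⟩).2 (hU.mono _ _ (not_lt.1 h) hx)

theorem mem_of_lev {U : ι → Set V} (hU : Chn U) {lev e : V → ι} (hL : Lv U lev e) {x : V} {i : ι}
    (hx : x ∈ UU U) (h : lev x < i) : x ∈ U i :=
  hU.mono _ _ (succ_le_of_lt h) (hL.l1 x hx).1

theorem lev_unique {U : ι → Set V} (hU : Chn U) {lev e : V → ι} (hL : Lv U lev e) {x : V} {i : ι}
    (h1 : x ∈ U (succ i)) (h2 : x ∉ U i) : lev x = i := by
  have h3 : lev x ≤ i := lt_succ_iff.1 (lev_lt hU hL h1)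
  rcases h3.lt_or_eq with h | h
  · exact absurd (mem_of_lev hU hL ⟨_, h1⟩ h) h2
  · exact h

theorem rec_good {σ : Type v} [Inhabited σ] (P : ι → (ι → σ) → σ → Prop)
    (hP : ∀ i s s' p, (∀ j, j < i → s j = s' j) → P i s p → P i s' p)
    (hex : ∀ i s, (∀ j, j < i → P j s (s j)) → ∃ p, P i s p) : ∃ s : ι → σ, ∀ i, P i s (s i) := by
  classical
  have wf : WellFounded (fun i j : ι => i < j) := wellFounded_lt
  let ext : (i : ι) → ((j : ι) → j < i → σ) → ι → σ := fun i rec j =>
    if hj : j < i then rec j hj else default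
  let s : ι → σ := wf.fix fun i rec =>
    if h : ∃ p, P i (ext i rec) p then h.choose else default
  have hs : ∀ i, s i = if h : ∃ p, P i (ext i fun j _ => s j) p then h.choose else default :=
    fun i => wf.fix_eq _ i
  refine ⟨s, fun i => ?_⟩
  induction i using wf.induction with
  | _ i ih =>
    set s' : ι → σ := ext i fun j _ => s j with hs'
    have e1 : ∀ j, j < i → s' j = s j := by
      intro j hj
      simp only [hs', ext, dif_pos hj]
    have h1 : ∃ p, P i s' p := by
      refine hex i s' fun j hj => ?_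
      rw [e1 j hj]
      exact hP j s s' (s j) (fun k hk => (e1 k (hk.trans hj)).symm) (ih j hj)
    have h2 : s i = h1.choose := by
      rw [hs i]
      exact dif_pos h1
    refine hP i s' s (s i) e1 ?_
    rw [h2]
    exact h1.choose_spec

end Pool.Agent.H70A
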