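import Pool.Agent.Lib.H70A.R1

/-!
# H70A chunk R2: existence of the states

PROOF. `rec_good` with `P i s p = RS G O U w lev e i s p`. `hP`: in `PI`, `SI` for stage `i` the value `s (lev d)`
occurs with `e d = i`, `lev d < e d` (`l2`), so `RS` depends on `s j`, `j < i`, only (`PI_congr`).
`hex`: at most one `d ∈ UU U` has `e d = i` (`l3`), and `PI`, `SI` exclude each other. First choose `R`:
* `PI ... i d`: let `l = lev d < i`, `d' = (s l).2 d`. By `RS` at `l`: `(s l).2` is a matching of `GV (succ l)`, its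
  support is in the slab, so `d, d' ∈ U (succ l) ⊆ U i`; `GV`-adjacent and not `G`-adjacent: `Vrt G (w (succ l)) d d'`
  and one end is not in `OV (succ l)`. `rob2` (`succ l ≤ i`; `Vrt.symm` if necessary) gives `Vrt G (w i) d d'`, and
  `wit2` a witness with `df ⊆ U (succ i)`.
* `SI ... i d`: `l = lev d`: `d` is in the slab and not covered by `(s l).2`, so `d ∈ OV (succ l)` (`n3`); `d ∉ O`, so
  `Aug G O (U (succ l) \ {d}) (w (succ l)).F d`; `rob1`, `wit1` give a witness at `i`.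
* otherwise `R = (w i).F`.
`sf_facts`: in each case `sf U w i R` has at most one element, is contained in `U (succ i)`, and disjoint from
`U i ∪ (w i).X` by definition: `VrtW`: `cov R = cov (w i).F + d + d'`, `d, d' ∈ U i`: `sf = ∅`. `AugW`, first alternative:
`cov R = cov (w i).F + d + t`, so `sf ⊆ {t}`, and `t ∈ df (w i).F R ⊆ U (succ i)` (`t ∉ cov (w i).F`); second:
`sf = ∅`. `R = (w i).F`: `sf = ∅` (`supX`).
Then `bsharp` (for `i < succ i`, `S = sf U w i R`) gives `nm` with `n1`, `n2`, `n3`.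
-/

namespace Pool.Agent.H70A

open Cardinal Order

universe u

variable {ι : Type u} [LinearOrder ι] [WellFoundedLT ι] [SuccOrder ι] [NoMaxOrder ι] {V : Type u}
  {G : SimpleGraph V} {O : Set V} {U : ι → Set V} {w : ι → Wv V} {lev e : V → ι}

theorem r2_PI (hL : Lv U lev e) {i : ι} {s s' : ι → (V → V) × (V → V)}
    (h : ∀ j, j < i → s j = s' j) {d : V} (hd : PI G U lev e s' i d) :
    PI G U lev e s i d ∧ s (lev d) = s' (lev d) := by
  have h1 : s (lev d) = s' (lev d) := h _ (by rw [← hd.2.1]; exact hL.l2 d hd.1)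
  refine ⟨?_, h1⟩
  unfold PI at hd ⊢
  rw [h1]
  exact hd

theorem r2_SI (hL : Lv U lev e) {i : ι} {s s' : ι → (V → V) × (V → V)}
    (h : ∀ j, j < i → s j = s' j) {d : V} (hd : SI O U w lev e s' i d) :
    SI O U w lev e s i d := by
  have h1 : s (lev d) = s' (lev d) := h _ (by rw [← hd.2.1]; exact hL.l2 d hd.1)
  unfold SI at hd ⊢
  rw [h1]
  exact hd

theorem rs_congr (hL : Lv U lev e) {i : ι} {s s' : ι → (V → V) × (V → V)}
    (h : ∀ j, j < i → s j = s' j) {p : (V → V) × (V → V)} (hp : RS G O U w lev e i s p) :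
    RS G O U w lev e i s' p := by
  have h' : ∀ j, j < i → s' j = s j := fun j hj => (h j hj).symm
  refine ⟨fun d hd => ?_, fun d hd => ?_, fun hn => ?_, hp.n1, hp.n2, hp.n3⟩
  · obtain ⟨h1, h2⟩ := r2_PI hL h hd
    rw [← h2]
    exact hp.a d h1
  · exact hp.b d (r2_SI hL h hd)
  · exact hp.c fun d => ⟨fun hd => (hn d).1 (r2_PI hL h' hd).1, fun hd => (hn d).2 (r2_SI hL h' hd)⟩

theorem pi_vrt (hN : NSys G O U w) (hL : Lv U lev e) {s : ι → (V → V) × (V → V)} {i : ι} {d : V}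
    (hs : RS G O U w lev e (lev d) s (s (lev d))) (h : PI G U lev e s i d) :
    d ∈ U i ∧ (s (lev d)).2 d ∈ U i ∧ lev ((s (lev d)).2 d) = lev d ∧
      Vrt G (w i) d ((s (lev d)).2 d) := by
  obtain ⟨hd, he, hne, hadj, -⟩ := h
  have hU := hN.sys.chn
  have hli : succ (lev d) ≤ i := succ_le_of_lt (by rw [← he]; exact hL.l2 d hd)
  have h1 := hs.n2 d hne
  have h2 := hs.n2 _ (hs.n1.map_cov (x := d) hne)
  have h3 : (s (lev d)).2 d ∉ U (lev d) := fun h => h2.2 (Or.inl (Or.inl h))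
  refine ⟨hU.mono _ _ hli h1.1, hU.mono _ _ hli h2.1, lev_unique hU hL h2.1 h3, ?_⟩
  rcases hs.n1.adj d hne with h4 | ⟨h4, -, -, h5 | h5⟩
  · exact absurd h4 hadj
  · exact hN.rob2 _ i hli d h1.1 _ h2.1 (fun h => h5 (Or.inl h)) (fun h => h5 (Or.inr h)) h4
  · exact (hN.rob2 _ i hli _ h2.1 d h1.1 (fun h => h5 (Or.inl h)) (fun h => h5 (Or.inr h))
      h4.symm).symm

theorem si_aug (hN : NSys G O U w) (hL : Lv U lev e) {s : ι → (V → V) × (V → V)} {i : ι} {d : V}
    (hs : RS G O U w lev e (lev d) s (s (lev d))) (h : SI O U w lev e s i d) :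
    d ∈ U i ∧ Aug G O (U i \ {d}) (w i).F d := by
  obtain ⟨hd, he, hfix, hO, hsl⟩ := h
  have hU := hN.sys.chn
  have hli : succ (lev d) ≤ i := succ_le_of_lt (by rw [← he]; exact hL.l2 d hd)
  have h1 : d ∈ OV G O U w (succ (lev d)) := by
    by_contra h
    exact hs.n3 d hsl h hfix
  exact ⟨hU.mono _ _ hli hsl.1, hN.rob1 _ i hli d hsl.1 hO (h1.resolve_left hO)⟩

theorem exists_RS (hι : RegIdx ι) (hPM : PMlt V #ι) (hN : NSys G O U w) (hL : Lv U lev e) :
    ∃ s : ι → (V → V) × (V → V), ∀ i, RS G O U w lev e i s (s i) := by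
  haveI : Inhabited ((V → V) × (V → V)) := ⟨(fun x => x, fun x => x)⟩
  refine rec_good (fun i s p => RS G O U w lev e i s p)
    (fun i s s' p h hp => rs_congr hL h hp) ?_
  intro i s hs
  have hcovX : ∀ x, x ∈ cov (w i).F → x ∈ (w i).X := fun x hx => (hN.sys.wave i).supX x hx
  obtain ⟨R, ha, hb, hc, hS1, hS3⟩ : ∃ R : V → V,
      (∀ d, PI G U lev e s i d → VrtW G (w i) d ((s (lev d)).2 d) R ∧ df (w i).F R ⊆ U (succ i)) ∧
      (∀ d, SI O U w lev e s i d →
        AugW G O (U i \ {d}) (w i).F d R ∧ df (w i).F R ⊆ U (succ i)) ∧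
      ((∀ d, ¬ PI G U lev e s i d ∧ ¬ SI O U w lev e s i d) → R = (w i).F) ∧
      sf U w i R ⊆ U (succ i) ∧ (sf U w i R).Subsingleton := by
    have hlt : ∀ d, d ∈ UU U → e d = i → lev d < i := fun d hd he => by
      rw [← he]; exact hL.l2 d hd
    by_cases h1 : ∃ d, PI G U lev e s i d
    · obtain ⟨d, hd⟩ := h1
      obtain ⟨h2, h3, -, h4⟩ := pi_vrt hN hL (hs _ (hlt d hd.1 hd.2.1)) hd
      obtain ⟨R, hR, hR'⟩ := hN.wit2 i d h2 _ h3 h4
      have hsf : ∀ x, x ∉ sf U w i R := by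
        rintro x ⟨hx, hxU, hxX⟩
        rcases (hR.2.2 x).1 hx with h5 | h5 | h5
        · exact hxX (hcovX x h5)
        · exact hxU (h5 ▸ h2)
        · exact hxU (h5 ▸ h3)
      refine ⟨R, fun d' hd' => ?_, fun d' hd' => ?_, fun hn => absurd hd (hn d).1,
        fun x hx => absurd hx (hsf x), fun x hx => absurd hx (hsf x)⟩
      · have h5 : d' = d := hL.l3 d' hd'.1 d hd.1 (by rw [hd'.2.1, hd.2.1])
        rw [h5]
        exact ⟨hR, hR'⟩
      · have h5 : d' = d := hL.l3 d' hd'.1 d hd.1 (by rw [hd'.2.1, hd.2.1])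
        rw [h5] at hd'
        exact absurd hd'.2.2.1 hd.2.2.1
    · by_cases h2 : ∃ d, SI O U w lev e s i d
      · obtain ⟨d, hd⟩ := h2
        obtain ⟨h3, h4⟩ := si_aug hN hL (hs _ (hlt d hd.1 hd.2.1)) hd
        obtain ⟨R, hR, hR'⟩ := hN.wit1 i d h3 h4
        have hsf : ∀ x ∈ sf U w i R, x ∈ U (succ i) ∧ ∀ y ∈ sf U w i R, x = y := by
          obtain ⟨-, -, ⟨t, ht, htd, htc, h5⟩ | ⟨o, -, -, h5⟩⟩ := hR
          · have h6 : ∀ x ∈ sf U w i R, x = t := by
              rintro x ⟨hx, hxU, hxX⟩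
              rcases (h5 x).1 hx with h6 | h6 | h6
              · exact absurd (hcovX x h6) hxX
              · exact absurd (h6 ▸ h3) hxU
              · exact h6
            have h7 : t ∈ U (succ i) := by
              refine hR' ?_
              have h8 : t ∈ cov R := (h5 t).2 (Or.inr (Or.inr rfl))
              rw [mem_df, notMem_cov.1 htc]
              exact fun h => h8 h.symm
            intro x hx
            refine ⟨(h6 x hx).symm ▸ h7, fun y hy => (h6 x hx).trans (h6 y hy).symm⟩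
          · rintro x ⟨hx, hxU, hxX⟩
            exfalso
            rcases ((h5 x).1 hx).1 with h6 | h6
            · exact hxX (hcovX x h6)
            · exact hxU (h6 ▸ h3)
        refine ⟨R, fun d' hd' => absurd ⟨d', hd'⟩ h1, fun d' hd' => ?_,
          fun hn => absurd hd (hn d).2, fun x hx => (hsf x hx).1,
          fun x hx y hy => (hsf x hx).2 y hy⟩
        have h5 : d' = d := hL.l3 d' hd'.1 d hd.1 (by rw [hd'.2.1, hd.2.1])
        rw [h5]
        exact ⟨hR, hR'⟩
      · have hsf : ∀ x, x ∉ sf U w i (w i).F := fun x hx => hx.2.2 (hcovX x hx.1)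
        exact ⟨(w i).F, fun d' hd' => absurd ⟨d', hd'⟩ h1, fun d' hd' => absurd ⟨d', hd'⟩ h2,
          fun _ => rfl, fun x hx => absurd hx (hsf x), fun x hx => absurd hx (hsf x)⟩
  obtain ⟨nm, h1, h2, h3⟩ := bsharp hι hPM hN (lt_succ i) hS1 (fun x hx => ⟨hx.2.1, hx.2.2⟩) hS3
  exact ⟨(R, nm), ha, hb, hc, h1, h2, h3⟩

end Pool.Agent.H70A
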