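import Pool.Agent.Lib.H70A.R2

/-!
# H70A chunk R3: properties of the state matchings

Notation `R i = (s i).1`, `nm i = (s i).2`. PROOFS (case distinction as in `RS`: some `d` with `PI`, some `d`
with `SI`, none; at most one `d` by `Lv.l3`).
* `R_isM`, `R_df`: `R i` is a matching and `df (w i).F (R i)` is a finite subset of `U (succ i)`.
* `R_map`: `R i` maps `U (succ i)` to itself: for `x ∉ df`: `R i x = (w i).F x`, `ClU (w i) (U (succ i))`
  (`Sys.clo`); for `x ∈ df`: `IsM.df_right`.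
* `R_cov`: `z ∈ cov (R i)` implies `z ∈ (w i).X`, or `z ∈ sf ...`, or there is `d` with `PI i d` and
  (`z = d` or `z = nm (lev d) d`), or `SI i d` and `z = d`. (`z ∈ U i` is `d` or `d'`; `z ∉ U i ∪ (w i).X` is in `sf`.)
* `R_X`: `z ∈ (w i).X`, `z ∉ O`: `z ∈ cov (R i)` (`HF`; only an optional vertex can be exposed).
* `R_PI`, `R_SI`: owners and partners are covered by `R i`.
-/

namespace Pool.Agent.H70A

open Cardinal Order

universe u

variable {ι : Type u} [LinearOrder ι] [WellFoundedLT ι] [SuccOrder ι] [NoMaxOrder ι] {V : Type u}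
  {G : SimpleGraph V} {O : Set V} {U : ι → Set V} {w : ι → Wv V} {lev e : V → ι}
  {s : ι → (V → V) × (V → V)}

theorem r3_cases (i : ι) : (∃ d, PI G U lev e s i d) ∨ (∃ d, SI O U w lev e s i d) ∨
    ∀ d, ¬ PI G U lev e s i d ∧ ¬ SI O U w lev e s i d := by
  by_cases h1 : ∃ d, PI G U lev e s i d
  · exact Or.inl h1
  by_cases h2 : ∃ d, SI O U w lev e s i d
  · exact Or.inr (Or.inl h2)
  · exact Or.inr (Or.inr fun d => ⟨fun h => h1 ⟨d, h⟩, fun h => h2 ⟨d, h⟩⟩)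

theorem R_isM (hN : NSys G O U w) (hL : Lv U lev e) (hs : ∀ i, RS G O U w lev e i s (s i))
    (i : ι) : IsM G (s i).1 ∧ (df (w i).F (s i).1).Finite ∧ df (w i).F (s i).1 ⊆ U (succ i) := by
  rcases r3_cases (G := G) (O := O) (U := U) (w := w) (lev := lev) (e := e) (s := s) i with
    ⟨d, hd⟩ | ⟨d, hd⟩ | hn
  · obtain ⟨h1, h2⟩ := (hs i).a d hd
    exact ⟨h1.1, h1.2.1, h2⟩
  · obtain ⟨h1, h2⟩ := (hs i).b d hd
    exact ⟨h1.1, h1.2.1, h2⟩
  · rw [(hs i).c hn, df_self]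
    exact ⟨(hN.sys.wave i).isM, Set.finite_empty, Set.empty_subset _⟩

theorem R_map (hN : NSys G O U w) (hL : Lv U lev e) (hs : ∀ i, RS G O U w lev e i s (s i))
    {i : ι} {x : V} (hx : x ∈ U (succ i)) : (s i).1 x ∈ U (succ i) := by
  obtain ⟨h1, -, h3⟩ := R_isM hN hL hs i
  by_cases h : x ∈ df (w i).F (s i).1
  · exact h3 ((hN.sys.wave i).isM.df_right h1 h)
  · rw [notMem_df] at h
    rw [← h]
    exact (hN.sys.clo i (succ i) (lt_succ i)).1 x hx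

theorem R_cov (hN : NSys G O U w) (hL : Lv U lev e) (hs : ∀ i, RS G O U w lev e i s (s i))
    {i : ι} {z : V} (hz : z ∈ cov (s i).1) :
    z ∈ (w i).X ∨ z ∈ sf U w i (s i).1 ∨
      (∃ d, PI G U lev e s i d ∧ (z = d ∨ z = (s (lev d)).2 d)) ∨ SI O U w lev e s i z := by
  rcases r3_cases (G := G) (O := O) (U := U) (w := w) (lev := lev) (e := e) (s := s) i with
    ⟨d, hd⟩ | ⟨d, hd⟩ | hn
  · rcases (((hs i).a d hd).1.2.2 z).1 hz with h | h | h
    · exact Or.inl ((hN.sys.wave i).supX z h)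
    · exact Or.inr (Or.inr (Or.inl ⟨d, hd, Or.inl h⟩))
    · exact Or.inr (Or.inr (Or.inl ⟨d, hd, Or.inr h⟩))
  · obtain ⟨-, -, ⟨t, ht, htd, -, h5⟩ | ⟨o, -, -, h5⟩⟩ := ((hs i).b d hd).1
    · rcases (h5 z).1 hz with h | h | h
      · exact Or.inl ((hN.sys.wave i).supX z h)
      · exact Or.inr (Or.inr (Or.inr (h ▸ hd)))
      · by_cases hX : z ∈ (w i).X
        · exact Or.inl hX
        · exact Or.inr (Or.inl ⟨hz, fun hU => ht ⟨h ▸ hU, htd⟩, hX⟩)
    · rcases ((h5 z).1 hz).1 with h | h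
      · exact Or.inl ((hN.sys.wave i).supX z h)
      · exact Or.inr (Or.inr (Or.inr (h ▸ hd)))
  · rw [(hs i).c hn] at hz
    exact Or.inl ((hN.sys.wave i).supX z hz)

theorem R_X (hN : NSys G O U w) (hL : Lv U lev e) (hs : ∀ i, RS G O U w lev e i s (s i))
    {i : ι} {z : V} (hz : z ∈ (w i).X) (hO : z ∉ O) : z ∈ cov (s i).1 := by
  have h0 : z ∈ cov (w i).F := hN.hf i z hz
  rcases r3_cases (G := G) (O := O) (U := U) (w := w) (lev := lev) (e := e) (s := s) i with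
    ⟨d, hd⟩ | ⟨d, hd⟩ | hn
  · exact (((hs i).a d hd).1.2.2 z).2 (Or.inl h0)
  · obtain ⟨-, -, ⟨t, ht, htd, -, h5⟩ | ⟨o, ho, -, h5⟩⟩ := ((hs i).b d hd).1
    · exact (h5 z).2 (Or.inl h0)
    · exact (h5 z).2 ⟨Or.inl h0, fun e => hO (e ▸ ho)⟩
  · rw [(hs i).c hn]
    exact h0

theorem R_PI (hs : ∀ i, RS G O U w lev e i s (s i)) {i : ι} {d : V}
    (hd : PI G U lev e s i d) : d ∈ cov (s i).1 ∧ (s (lev d)).2 d ∈ cov (s i).1 := by
  have h := ((hs i).a d hd).1.2.2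
  exact ⟨(h d).2 (Or.inr (Or.inl rfl)), (h _).2 (Or.inr (Or.inr rfl))⟩

theorem R_SI (hN : NSys G O U w) (hs : ∀ i, RS G O U w lev e i s (s i)) {i : ι} {d : V}
    (hd : SI O U w lev e s i d) : d ∈ cov (s i).1 := by
  obtain ⟨-, -, ⟨t, ht, htd, -, h5⟩ | ⟨o, ho, -, h5⟩⟩ := ((hs i).b d hd).1
  · exact (h5 d).2 (Or.inr (Or.inl rfl))
  · exact (h5 d).2 ⟨Or.inr rfl, fun e => hd.2.2.2.1 (e ▸ ho)⟩

end Pool.Agent.H70A
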