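import Pool.Agent.Lib.H70A.R3
import Pool.Agent.Lib.H70A.M5

/-!
# H70A chunk R4: compatibility of the pieces

Pieces: `r i = ins (U (succ i)) (R i)`, `q i z = nm i z` if `G.Adj z (nm i z)` and `z` otherwise.
PROOFS.
* `item_facts` (`PI i d`, `z = d` or `z = nm (lev d) d`, or `SI i z`): `lev z < i`, `z` is in the slab of `lev z`
  (so `z ∉ (w (lev z)).X`, `z ∉ sf (lev z)`), and not (`nm (lev z) z ≠ z` and `G.Adj z (nm (lev z) z)`). For
  `z = nm (lev d) d`: `lev z = lev d` (`pi_vrt`), `nm (lev z) z = d` (involution).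
* `item_unique`: if `z` is in the items of stages `i` and `j`, then `i = j`: if `nm (lev z) z = z`: both are
  `SI`, `i = e z = j`; otherwise both are `PI` with owner `z` or `nm (lev z) z`, the owner being the one with the
  smaller `e`; so the owners are equal and `i = j`.
* `r_level`: `r i z ≠ z`: `z ∈ U (succ i)` and either (`lev z = i` and `z ∈ (w i).X ∪ sf i`) or `z` in the item of
  stage `i` (`R_cov`; `z ∈ (w i).X` or `sf`: `z ∉ U i`, so `lev z = i` by `lev_unique`).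
* `q_level`: `q i z ≠ z`: `lev z = i`, `z` in the slab of `i`, `nm i z ≠ z`, `G.Adj z (nm i z)`.
* `compat`: for two pieces moving `z`: `r i, r j`: if one of them has `lev z = i`, `z ∈ (w i).X ∪ sf i`, the other
  cannot be an item (slab), so `j = lev z = i`; if both are items: `item_unique`. `r i, q j`: `lev z = j`, `z` in the
  slab of `j` with a real edge: not in `(w j).X ∪ sf j`, not in an item: contradiction. `q i, q j`: `i = lev z = j`.
-/

namespace Pool.Agent.H70A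

open Cardinal Order

universe u

variable {ι : Type u} [LinearOrder ι] [WellFoundedLT ι] [SuccOrder ι] [NoMaxOrder ι] {V : Type u}
  {G : SimpleGraph V} {O : Set V} {U : ι → Set V} {w : ι → Wv V} {lev e : V → ι}
  {s : ι → (V → V) × (V → V)}

/-- `z` is in the item treated at stage `i`. -/
def Item (G : SimpleGraph V) (O : Set V) (U : ι → Set V) (w : ι → Wv V) (lev e : V → ι)
    (s : ι → (V → V) × (V → V)) (i : ι) (z : V) : Prop :=
  (∃ d, PI G U lev e s i d ∧ (z = d ∨ z = (s (lev d)).2 d)) ∨ SI O U w lev e s i z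

open Classical in
/-- The pieces of the final matching. -/
noncomputable def pc (G : SimpleGraph V) (U : ι → Set V) (s : ι → (V → V) × (V → V)) :
    ι ⊕ ι → V → V
  | Sum.inl i => ins (U (succ i)) (s i).1
  | Sum.inr i => fun z => if G.Adj z ((s i).2 z) then (s i).2 z else z

theorem r4_pos {i : ι} {z : V} (h : G.Adj z ((s i).2 z)) :
    pc G U s (Sum.inr i) z = (s i).2 z := by
  classical
  exact if_pos h

theorem r4_neg {i : ι} {z : V} (h : ¬ G.Adj z ((s i).2 z)) : pc G U s (Sum.inr i) z = z := by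
  classical
  exact if_neg h

theorem r4_partner (hN : NSys G O U w) (hL : Lv U lev e)
    (hs : ∀ i, RS G O U w lev e i s (s i)) {i : ι} {d : V} (hd : PI G U lev e s i d) :
    lev ((s (lev d)).2 d) = lev d ∧
      (s (lev ((s (lev d)).2 d))).2 ((s (lev d)).2 d) = d := by
  obtain ⟨-, -, h3, -⟩ := pi_vrt hN hL (hs (lev d)) hd
  refine ⟨h3, ?_⟩
  rw [h3, (hs (lev d)).n1.inv]

theorem r4_nf (hN : NSys G O U w) (hL : Lv U lev e)
    (hs : ∀ i, RS G O U w lev e i s (s i)) {i : ι} {z : V} (hz : Item G O U w lev e s i z) :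
    ((s (lev z)).2 z = z ∧ e z = i) ∨ ((s (lev z)).2 z ≠ z ∧
      ((e z = i ∧ e z < e ((s (lev z)).2 z)) ∨
        (e ((s (lev z)).2 z) = i ∧ e ((s (lev z)).2 z) < e z))) := by
  rcases hz with ⟨d, hd, h | h⟩ | h
  · subst h
    exact Or.inr ⟨hd.2.2.1, Or.inl ⟨hd.2.1, hd.2.2.2.2⟩⟩
  · obtain ⟨h1, h2⟩ := r4_partner hN hL hs hd
    subst h
    rw [h2]
    exact Or.inr ⟨fun h => hd.2.2.1 h.symm, Or.inr ⟨hd.2.1, hd.2.2.2.2⟩⟩
  · exact Or.inl ⟨h.2.2.1, h.2.1⟩

theorem item_facts (hN : NSys G O U w) (hL : Lv U lev e)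
    (hs : ∀ i, RS G O U w lev e i s (s i)) {i : ι} {z : V} (hz : Item G O U w lev e s i z) :
    z ∈ UU U ∧ lev z < i ∧ z ∈ Sl U w (lev z) (succ (lev z)) (sf U w (lev z) (s (lev z)).1) ∧
      ¬ (G.Adj z ((s (lev z)).2 z)) := by
  rcases hz with ⟨d, hd, h | h⟩ | h
  · subst h
    have h1 := (hs (lev z)).n2 z hd.2.2.1
    exact ⟨hd.1, by rw [← hd.2.1]; exact hL.l2 z hd.1, h1, hd.2.2.2.1⟩
  · obtain ⟨h1, h2⟩ := r4_partner hN hL hs hd
    obtain ⟨-, h3, -⟩ := pi_vrt hN hL (hs (lev d)) hd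
    have h4 := (hs (lev d)).n2 _ ((hs (lev d)).n1.map_cov (x := d) hd.2.2.1)
    subst h
    refine ⟨⟨i, h3⟩, ?_, ?_, ?_⟩
    · rw [h1, ← hd.2.1]
      exact hL.l2 d hd.1
    · rw [h1]
      exact h4
    · rw [h2]
      exact fun h => hd.2.2.2.1 h.symm
  · refine ⟨h.1, by rw [← h.2.1]; exact hL.l2 z h.1, h.2.2.2.2, ?_⟩
    rw [h.2.2.1]
    exact G.loopless.irrefl z

theorem item_unique (hN : NSys G O U w) (hL : Lv U lev e)
    (hs : ∀ i, RS G O U w lev e i s (s i)) {i j : ι} {z : V} (hz : Item G O U w lev e s i z)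
    (hz' : Item G O U w lev e s j z) : i = j := by
  rcases r4_nf hN hL hs hz with ⟨h1, h2⟩ | ⟨h1, h2⟩ <;>
    rcases r4_nf hN hL hs hz' with ⟨h3, h4⟩ | ⟨h3, h4⟩
  · exact h2.symm.trans h4
  · exact absurd h1 h3
  · exact absurd h3 h1
  · rcases h2 with ⟨h5, h6⟩ | ⟨h5, h6⟩ <;> rcases h4 with ⟨h7, h8⟩ | ⟨h7, h8⟩
    · exact h5.symm.trans h7
    · exact absurd h6 h8.asymm
    · exact absurd h6 h8.asymm
    · exact h5.symm.trans h7

theorem r_level (hN : NSys G O U w) (hL : Lv U lev e)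
    (hs : ∀ i, RS G O U w lev e i s (s i)) {i : ι} {z : V} (hz : pc G U s (Sum.inl i) z ≠ z) :
    z ∈ U (succ i) ∧ z ∈ cov (s i).1 ∧
      ((lev z = i ∧ (z ∈ (w i).X ∨ z ∈ sf U w i (s i).1)) ∨ Item G O U w lev e s i z) := by
  have h1 : z ∈ cov (ins (U (succ i)) (s i).1) := hz
  rw [mem_cov_ins] at h1
  obtain ⟨h2, -, h3⟩ := h1
  refine ⟨h2, h3, ?_⟩
  rcases R_cov hN hL hs h3 with h | h | h
  · exact Or.inl ⟨lev_unique hN.sys.chn hL h2 ((hN.sys.wave i).disjU z h), Or.inl h⟩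
  · exact Or.inl ⟨lev_unique hN.sys.chn hL h2 h.2.1, Or.inr h⟩
  · exact Or.inr h

theorem q_level (hN : NSys G O U w) (hL : Lv U lev e)
    (hs : ∀ i, RS G O U w lev e i s (s i)) {i : ι} {z : V} (hz : pc G U s (Sum.inr i) z ≠ z) :
    lev z = i ∧ z ∈ Sl U w i (succ i) (sf U w i (s i).1) ∧ G.Adj z ((s i).2 z) := by
  by_cases h : G.Adj z ((s i).2 z)
  · rw [r4_pos h] at hz
    have h1 := (hs i).n2 z hz
    exact ⟨lev_unique hN.sys.chn hL h1.1 fun h2 => h1.2 (Or.inl (Or.inl h2)), h1, h⟩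
  · exact absurd (r4_neg h) hz

theorem compat (hN : NSys G O U w) (hL : Lv U lev e)
    (hs : ∀ i, RS G O U w lev e i s (s i)) {a b : ι ⊕ ι} {z : V} (ha : pc G U s a z ≠ z)
    (hb : pc G U s b z ≠ z) : a = b := by
  have key1 : ∀ i j : ι, lev z = i → (z ∈ (w i).X ∨ z ∈ sf U w i (s i).1) →
      Item G O U w lev e s j z → False := by
    rintro i j rfl h hj
    obtain ⟨-, -, h1, -⟩ := item_facts hN hL hs hj
    rcases h with h | h
    · exact h1.2 (Or.inl (Or.inr h))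
    · exact h1.2 (Or.inr h)
  have key2 : ∀ i j : ι, pc G U s (Sum.inl i) z ≠ z → pc G U s (Sum.inr j) z ≠ z → False := by
    intro i j hi hj
    obtain ⟨h1, h2, h3⟩ := q_level hN hL hs hj
    obtain ⟨-, -, ⟨h4, h5⟩ | h4⟩ := r_level hN hL hs hi
    · have h6 : i = j := h4.symm.trans h1
      subst h6
      rcases h5 with h5 | h5
      · exact h2.2 (Or.inl (Or.inr h5))
      · exact h2.2 (Or.inr h5)
    · obtain ⟨-, -, -, h5⟩ := item_facts hN hL hs h4
      rw [h1] at h5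
      exact h5 h3
  rcases a with i | i <;> rcases b with j | j
  · obtain ⟨-, -, ⟨h1, h2⟩ | h1⟩ := r_level hN hL hs ha <;>
      obtain ⟨-, -, ⟨h3, h4⟩ | h3⟩ := r_level hN hL hs hb
    · rw [h1.symm.trans h3]
    · exact (key1 i j h1 h2 h3).elim
    · exact (key1 j i h3 h4 h1).elim
    · rw [item_unique hN hL hs h1 h3]
  · exact (key2 i j ha hb).elim
  · exact (key2 j i hb ha).elim
  · rw [(q_level hN hL hs ha).1.symm.trans (q_level hN hL hs hb).1]

theorem pc_isM (hN : NSys G O U w) (hL : Lv U lev e)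
    (hs : ∀ i, RS G O U w lev e i s (s i)) (a : ι ⊕ ι) : IsM G (pc G U s a) := by
  rcases a with i | i
  · exact ins_isM (R_isM hN hL hs i).1 _
  · have hn := (hs i).n1
    refine ⟨fun z => ?_, fun z hz => ?_⟩
    · by_cases h : G.Adj z ((s i).2 z)
      · rw [r4_pos h, r4_pos (by rw [hn.inv]; exact h.symm), hn.inv]
      · rw [r4_neg h, r4_neg h]
    · by_cases h : G.Adj z ((s i).2 z)
      · rw [r4_pos h]
        exact h
      · exact absurd (r4_neg h) hz

end Pool.Agent.H70A
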