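import Pool.Agent.Lib.H70A.R4

/-!
# H70A chunk R5: the spreading theorem

PROOF of `pc_cover`. `z ∈ UU U`, `z ∉ O`, `l = lev z`; `z ∈ U (succ l)`, `z ∉ U l`.
* `z ∈ (w l).X`: `z ∈ cov (R l)` (`R_X`), `R l z ∈ U (succ l)` (`R_map`): piece `inl l`.
* `z ∈ sf l`: the same. Otherwise `z` is in the slab of `l`.
* `nm l z ≠ z`, adjacent in `G`: piece `inr l`.
* `nm l z ≠ z`, not adjacent: `z' = nm l z` is in the slab, `z' ≠ z`, so `e z ≠ e z'` (`l3`); the one with the smaller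
  `e` is the owner: `PI (e d) d`; `z ∈ cov (R (e d))` (`R_PI`), `z ∈ U (e d) ⊆ U (succ (e d))` (`mem_of_lev`), piece
  `inl (e d)` with `R_map`.
* `nm l z = z`: `SI (e z) z`, `R_SI`.
PROOF of `pc_clo`. `h` from `diag1` for `e`. `i ∈ Cl h`, `x ∈ U i`, piece `a` moving `x`: `inl k`: by `r_level` either
`lev x = k < i`, so `succ k ≤ i` and `R k x ∈ U (succ k) ⊆ U i`; or `x` is in the item of stage `k`, whose owner `d` is `x`
or a partner with `lev d = lev x < i`, so `d ∈ U i` (`mem_of_lev`), `k = e d < i`, and again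
`R k x ∈ U (succ k) ⊆ U i`. `inr k`: `lev x = k < i`, `nm k x` is in the slab, so in `U (succ k) ⊆ U i`.
PROOF of `spread`. `union_isM` for `pc` (with `compat`); closedness for `M x ≠ x`: `M x = pc a x`.
-/

namespace Pool.Agent.H70A

open Cardinal Order

universe u

variable {ι : Type u} [LinearOrder ι] [WellFoundedLT ι] [SuccOrder ι] [NoMaxOrder ι] {V : Type u}
  {G : SimpleGraph V} {O : Set V} {U : ι → Set V} {w : ι → Wv V} {lev e : V → ι}
  {s : ι → (V → V) × (V → V)}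

theorem r5_inl (hN : NSys G O U w) (hL : Lv U lev e) (hs : ∀ i, RS G O U w lev e i s (s i))
    {i : ι} {z : V} (h1 : z ∈ cov (s i).1) (h2 : z ∈ U (succ i)) :
    pc G U s (Sum.inl i) z ≠ z := by
  have h3 : pc G U s (Sum.inl i) z = (s i).1 z := ins_apply h2 (R_map hN hL hs h2)
  rw [h3]
  exact h1

theorem r5_nm (hs : ∀ i, RS G O U w lev e i s (s i))
    {i : ι} {z : V} (h : (s i).2 z ≠ z) : (s i).2 z ∈ U (succ i) ∧ (s i).2 z ∉ U i := by
  have h1 : (s i).2 z ∈ cov (s i).2 := by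
    rw [mem_cov, (hs i).n1.inv]
    exact h.symm
  have h2 := (hs i).n2 _ h1
  exact ⟨h2.1, fun h3 => h2.2 (Or.inl (Or.inl h3))⟩

theorem pc_cover (hN : NSys G O U w) (hL : Lv U lev e)
    (hs : ∀ i, RS G O U w lev e i s (s i)) {z : V} (hz : z ∈ UU U) (hO : z ∉ O) :
    ∃ a, pc G U s a z ≠ z := by
  obtain ⟨h1, h2⟩ := hL.l1 z hz
  by_cases hc : z ∈ cov (s (lev z)).1
  · exact ⟨Sum.inl (lev z), r5_inl hN hL hs hc h1⟩
  have hX : z ∉ (w (lev z)).X := fun h => hc (R_X hN hL hs h hO)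
  have hsf : z ∉ sf U w (lev z) (s (lev z)).1 := fun h => hc h.1
  have hSl : z ∈ Sl U w (lev z) (succ (lev z)) (sf U w (lev z) (s (lev z)).1) := by
    refine ⟨h1, ?_⟩
    rintro ((h | h) | h)
    · exact h2 h
    · exact hX h
    · exact hsf h
  have hze : z ∈ U (succ (e z)) :=
    hN.sys.chn.mono _ _ (le_succ _) (mem_of_lev hN.sys.chn hL hz (hL.l2 z hz))
  by_cases hn : (s (lev z)).2 z = z
  · refine ⟨Sum.inl (e z), r5_inl hN hL hs (R_SI hN hs ⟨hz, rfl, hn, hO, hSl⟩) hze⟩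
  by_cases hadj : G.Adj z ((s (lev z)).2 z)
  · refine ⟨Sum.inr (lev z), ?_⟩
    have h3 : pc G U s (Sum.inr (lev z)) z = (s (lev z)).2 z := if_pos hadj
    rw [h3]
    exact hn
  obtain ⟨h4, h5⟩ := r5_nm hs hn
  have h6 : (s (lev z)).2 z ∈ UU U := ⟨_, h4⟩
  have h7 : lev ((s (lev z)).2 z) = lev z := lev_unique hN.sys.chn hL h4 h5
  rcases lt_trichotomy (e z) (e ((s (lev z)).2 z)) with h | h | h
  · exact ⟨Sum.inl (e z), r5_inl hN hL hs (R_PI hs ⟨hz, rfl, hn, hadj, h⟩).1 hze⟩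
  · exact absurd (hL.l3 _ hz _ h6 h).symm hn
  · have h8 : (s (lev ((s (lev z)).2 z))).2 ((s (lev z)).2 z) = z := by
      rw [h7]
      exact (hs (lev z)).n1.inv z
    have h9 : PI G U lev e s (e ((s (lev z)).2 z)) ((s (lev z)).2 z) := by
      refine ⟨h6, rfl, ?_, ?_, ?_⟩
      · rw [h8]
        exact fun h => hn h.symm
      · rw [h8]
        exact fun h => hadj h.symm
      · rw [h8]
        exact h
    have h10 := (R_PI hs h9).2
    rw [h8] at h10
    refine ⟨Sum.inl _, r5_inl hN hL hs h10 ?_⟩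
    refine hN.sys.chn.mono _ _ (le_succ _) (mem_of_lev hN.sys.chn hL hz ?_)
    exact lt_of_eq_of_lt h7.symm (hL.l2 _ h6)

theorem pc_clo (hι : RegIdx ι) (hN : NSys G O U w) (hL : Lv U lev e)
    (hs : ∀ i, RS G O U w lev e i s (s i)) :
    ∃ g : ι → ι, ∀ i ∈ Cl g, ∀ x ∈ U i, ∀ a, pc G U s a x ≠ x → pc G U s a x ∈ U i := by
  obtain ⟨g, hg⟩ := diag1 hι hN.sys.chn e
  refine ⟨g, fun i hi x hx a ha => ?_⟩
  have hlx : lev x < i := lev_lt hN.sys.chn hL hx
  rcases a with k | k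
  · obtain ⟨h1, h2, h3⟩ := r_level hN hL hs ha
    have h4 : pc G U s (Sum.inl k) x = (s k).1 x := ins_apply h1 (R_map hN hL hs h1)
    rw [h4]
    have hk : k < i := by
      rcases h3 with ⟨h5, -⟩ | ⟨d, hd, h5 | h5⟩ | h5
      · exact h5 ▸ hlx
      · have h6 := hg i hi x hx
        rw [h5, hd.2.1] at h6
        exact h6
      · have h6 := pi_vrt hN hL (hs (lev d)) hd
        have h7 : lev d < i := by
          rw [← h6.2.2.1, ← h5]
          exact hlx
        have h8 := hg i hi d (mem_of_lev hN.sys.chn hL hd.1 h7)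
        rw [hd.2.1] at h8
        exact h8
      · have h6 := hg i hi x hx
        rw [h5.2.1] at h6
        exact h6
    exact hN.sys.chn.mono _ _ (succ_le_of_lt hk) (R_map hN hL hs h1)
  · obtain ⟨h1, h2, h3⟩ := q_level hN hL hs ha
    have h4 : pc G U s (Sum.inr k) x = (s k).2 x := if_pos h3
    rw [h4]
    have h5 : (s k).2 x ≠ x := fun h => by
      rw [h] at h3
      exact G.loopless.irrefl x h3
    exact hN.sys.chn.mono _ _ (succ_le_of_lt (h1 ▸ hlx)) (r5_nm hs h5).1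

theorem spread (hι : RegIdx ι) (hPM : PMlt V #ι) (hN : NSys G O U w) :
    ∃ M : V → V, IsM G M ∧ (∀ x ∈ cov M, x ∈ UU U) ∧ (∀ x ∈ UU U, x ∉ O → x ∈ cov M) ∧
      ∃ g : ι → ι, ∀ i ∈ Cl g, ∀ x ∈ U i, M x ∈ U i := by
  obtain ⟨lev, e, hL⟩ := exists_Lv hι hN.sys.chn
  obtain ⟨s, hs⟩ := exists_RS hι hPM hN hL
  obtain ⟨M, hM, hM1, hM2⟩ := union_isM (pc G U s) (pc_isM hN hL hs) (fun a b x ha hb => by
    rw [compat hN hL hs ha hb])
  obtain ⟨g, hg⟩ := pc_clo hι hN hL hs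
  refine ⟨M, hM, ?_, ?_, g, ?_⟩
  · intro x hx
    obtain ⟨a, ha, -⟩ := hM2 x hx
    rcases a with k | k
    · exact ⟨_, (r_level hN hL hs ha).1⟩
    · exact ⟨_, (q_level hN hL hs ha).2.1.1⟩
  · intro x hx hxO
    obtain ⟨a, ha⟩ := pc_cover hN hL hs hx hxO
    rw [mem_cov, hM1 a x ha]
    exact ha
  · intro i hi x hx
    by_cases h : M x = x
    · rw [h]
      exact hx
    · obtain ⟨a, ha, h1⟩ := hM2 x h
      rw [h1]
      exact hg i hi x hx a ha

end Pool.Agent.H70A
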