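import Pool.Agent.Lib.H70A.W0
import Pool.Agent.Lib.H70A.C0
import Pool.Agent.Lib.H70A.C5

/-!
# H70A: coherent systems of maximal waves (definitions)
-/

namespace Pool.Agent.H70A

open Cardinal Order

universe u

variable {ι : Type u} [LinearOrder ι] [WellFoundedLT ι] [SuccOrder ι] [NoMaxOrder ι] {V : Type u}

/-- A coherent system: `U` a small continuous chain, `w i` a maximal wave of `G - U i`, the restriction
of `w i` to `G - U j` is extended by `w j`. -/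
structure Sys (G : SimpleGraph V) (O : Set V) (U : ι → Set V) (w : ι → Wv V) : Prop where
  chn : Chn U
  wave : ∀ i, IsWave G O (U i) (w i)
  solid : ∀ i, Solid G O (U i ∪ (w i).X)
  coh : ∀ i j, i ≤ j → Le (Res (w i) (U j)) (w j)
  clo : ∀ i j, i < j → ClU (w i) (U j)

/-- The functions under which `U (succ j)` has to be closed. -/
def Phi (w : ι → Wv V) (j : ι) : Set (V → V) := {φ | ∃ k ≤ j, φ = (w k).F ∨ φ = (w k).rho}

/-- The recursion for `U`. -/
def EqU (Ext : Set V → Wv V → Set V) (f : ι → Set V) (U : ι → Set V) (w : ι → Wv V) : Prop :=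
  ∀ i, U i = ⋃ j, ⋃ (_ : j < i), clo (Phi w j) (U j ∪ f j ∪ Ext (U j) (w j))

/-- The condition on `w i`. -/
def GoodW (G : SimpleGraph V) (O : Set V) (U : ι → Set V) (w : ι → Wv V) (i : ι) (w' : Wv V) :
    Prop :=
  IsWave G O (U i) w' ∧ Solid G O (U i ∪ w'.X) ∧ ∀ j, j < i → Le (Res (w j) (U i)) w'

/-- The extra closure conditions at one stage: `E` contains a hole and witnesses for shifts of the hole
to neighbours of vertices of `U`, and witnesses for single vertices and pairs in `U`. -/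
structure GE (G : SimpleGraph V) (O U : Set V) (w : Wv V) (E : Set V) : Prop where
  hole : (∃ h, h ∈ w.D ∧ w.F h = h) → ∃ h, h ∈ w.D ∧ w.F h = h ∧ h ∈ E ∧
    ∀ p ∈ U, (∃ y ∈ RD G w h, G.Adj p y) → ∃ y F', y ∈ RD G w h ∧ y ∈ E ∧ G.Adj p y ∧
      Shift G O U w h y F' ∧ df w.F F' ⊆ E
  opn : ∀ d ∈ U, Aug G O (U \ {d}) w.F d → ∃ N, AugW G O (U \ {d}) w.F d N ∧ df w.F N ⊆ E
  vrt : ∀ d ∈ U, ∀ d' ∈ U, Vrt G w d d' → ∃ N, VrtW G w d d' N ∧ df w.F N ⊆ E

theorem GE.mono {G : SimpleGraph V} {O U : Set V} {w : Wv V} {E E' : Set V} (h : GE G O U w E)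
    (hE : E ⊆ E') : GE G O U w E' := by
  refine ⟨fun hh => ?_, fun d hd ha => ?_, fun d hd d' hd' hv => ?_⟩
  · obtain ⟨x, h1, h2, h3, h4⟩ := h.hole hh
    refine ⟨x, h1, h2, hE h3, fun p hp hy => ?_⟩
    obtain ⟨y, F', h5, h6, h7, h8, h9⟩ := h4 p hp hy
    exact ⟨y, F', h5, hE h6, h7, h8, h9.trans hE⟩
  · obtain ⟨N, h1, h2⟩ := h.opn d hd ha
    exact ⟨N, h1, h2.trans hE⟩
  · obtain ⟨N, h1, h2⟩ := h.vrt d hd d' hd' hv
    exact ⟨N, h1, h2.trans hE⟩

end Pool.Agent.H70A
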