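import Pool.Agent.Lib.H70A.S0

/-!
# H70A chunk S1: the recursion

PROOF. `rec_exists`: `WellFounded.fix` (`wellFounded_lt.fix`) and `WellFounded.fix_eq`.
`rec_sys`: apply it with `σ = Set V × Wv V` and the step: given `i` and `s j` for `j < i`,
`Ui = ⋃ j, ⋃ (hj : j < i), clo {φ | ∃ k ≤ j, ...} ((s j).1 ∪ f j ∪ Ext (s j).1 (s j).2)` (for `k ≤ j < i`
the value `s k` is available), and the second component = a wave `w'` with `IsWave G O Ui w'`,
`Solid G O (Ui ∪ w'.X)`, `∀ j < i, Le (Res (s j).2 Ui) w'` if such a wave exists (by `choose`), and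
an arbitrary one otherwise.
-/

namespace Pool.Agent.H70A

open Cardinal Order

universe u

variable {ι : Type u} [LinearOrder ι] [WellFoundedLT ι] [SuccOrder ι] [NoMaxOrder ι] {V : Type u}

theorem rec_exists {σ : Type u} (step : ∀ i : ι, (∀ j, j < i → σ) → σ) :
    ∃ s : ι → σ, ∀ i, s i = step i (fun j _ => s j) :=
  ⟨(wellFounded_lt (α := ι)).fix step, fun i => (wellFounded_lt (α := ι)).fix_eq step i⟩

theorem rec_sys (G : SimpleGraph V) (O : Set V) (Ext : Set V → Wv V → Set V) (f : ι → Set V) :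
    ∃ (U : ι → Set V) (w : ι → Wv V), EqU Ext f U w ∧
      ∀ i, (∃ w', GoodW G O U w i w') → GoodW G O U w i (w i) := by
  classical
  let Us : ∀ i : ι, (∀ j, j < i → Set V × Wv V) → Set V := fun i r =>
    ⋃ j, ⋃ (hj : j < i), clo {φ : V → V | ∃ (k : ι) (hk : k ≤ j), φ = (r k (hk.trans_lt hj)).2.F ∨
      φ = (r k (hk.trans_lt hj)).2.rho} ((r j hj).1 ∪ f j ∪ Ext (r j hj).1 (r j hj).2)
  let P : ∀ i : ι, (∀ j, j < i → Set V × Wv V) → Wv V → Prop := fun i r w' =>
    IsWave G O (Us i r) w' ∧ Solid G O (Us i r ∪ w'.X) ∧ ∀ j (hj : j < i), Le (Res (r j hj).2 (Us i r)) w'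
  let step : ∀ i : ι, (∀ j, j < i → Set V × Wv V) → Set V × Wv V := fun i r =>
    ⟨Us i r, if h : ∃ w', P i r w' then h.choose else ⟨∅, ∅, ∅, fun x => x⟩⟩
  obtain ⟨s, hs⟩ := rec_exists step
  have hU : ∀ i, (s i).1 = Us i (fun j _ => s j) := fun i => by rw [hs i]
  have hw : ∀ i, (s i).2 = if h : ∃ w', P i (fun j _ => s j) w' then h.choose
      else ⟨∅, ∅, ∅, fun x => x⟩ := fun i => by rw [hs i]
  refine ⟨fun i => (s i).1, fun i => (s i).2, ?_, ?_⟩
  · intro i
    show (s i).1 = _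
    rw [hU i]
    ext x
    simp only [Us, Set.mem_iUnion, Phi, exists_prop]
  · rintro i ⟨w', h1, h2, h3⟩
    have hex : ∃ w', P i (fun j _ => s j) w' := by
      refine ⟨w', ?_, ?_, ?_⟩
      · rw [← hU i]; exact h1
      · rw [← hU i]; exact h2
      · intro j hj
        rw [← hU i]; exact h3 j hj
    have h4 := hex.choose_spec
    have h5 : (s i).2 = hex.choose := by rw [hw i, dif_pos hex]
    rw [← h5] at h4
    obtain ⟨h6, h7, h8⟩ := h4
    rw [← hU i] at h6 h7
    refine ⟨h6, h7, fun j hj => ?_⟩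
    have h9 := h8 j hj
    rw [← hU i] at h9
    exact h9

end Pool.Agent.H70A
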