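import Pool.Agent.Lib.H70A.M0

/-!
# Waves (helper70, H70A)

`G` a graph on `V`, `O` the set of optional vertices, `U` the set of deleted vertices.
A wave consists of a set `A`, a family `K` of bodies, a set `Q` and a matching `F` on the union `X` of
these sets.
-/

namespace Pool.Agent.H70A

open Classical

universe u

variable {V : Type u}

/-- The data of a wave. -/
structure Wv (V : Type u) where
  A : Set V
  K : Set (Set V)
  Q : Set V
  F : V → V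

/-- The union of the bodies. -/
def Wv.D (w : Wv V) : Set V := ⋃₀ w.K

/-- The vertex set of a wave. -/
def Wv.X (w : Wv V) : Set V := w.A ∪ w.Q ∪ w.D

theorem Wv.mem_D {w : Wv V} {x : V} : x ∈ w.D ↔ ∃ k ∈ w.K, x ∈ k := Iff.rfl

theorem Wv.mem_X {w : Wv V} {x : V} : x ∈ w.X ↔ x ∈ w.A ∨ x ∈ w.Q ∨ x ∈ w.D := by
  simp only [Wv.X, Set.mem_union, or_assoc]

/-- `w` is a wave of `G - U` with optional vertices `O`. -/
structure IsWave (G : SimpleGraph V) (O U : Set V) (w : Wv V) : Prop where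
  isM : IsM G w.F
  supX : ∀ x, w.F x ≠ x → x ∈ w.X
  disjU : ∀ x ∈ w.X, x ∉ U
  AQ : ∀ x ∈ w.A, x ∉ w.Q
  KA : ∀ k ∈ w.K, ∀ x ∈ k, x ∉ w.A
  KQ : ∀ k ∈ w.K, ∀ x ∈ k, x ∉ w.Q
  KK : ∀ k ∈ w.K, ∀ k' ∈ w.K, ∀ x ∈ k, x ∈ k' → k = k'
  Kadj : ∀ k ∈ w.K, ∀ x ∈ k, ∀ y, G.Adj x y → y ∈ k ∨ y ∈ w.A ∨ y ∈ U
  Qadj : ∀ x ∈ w.Q, ∀ y, G.Adj x y → y ∈ w.Q ∨ y ∈ w.A ∨ y ∈ U
  Qm : ∀ x ∈ w.Q, w.F x ∈ w.Q ∧ w.F x ≠ x
  Am : ∀ a ∈ w.A, w.F a ∈ w.D
  KO : ∀ k ∈ w.K, ∀ x ∈ k, x ∉ O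
  root : ∀ k ∈ w.K, ∃ r ∈ k, (∀ x ∈ k, x ≠ r → w.F x ∈ k ∧ w.F x ≠ x) ∧ (w.F r ∈ w.A ∨ w.F r = r)
  crit : ∀ k ∈ w.K, ∀ x ∈ k, ∃ N : V → V, IsM G N ∧ N x = x ∧ (∀ y ∈ k, y ≠ x → N y ∈ k ∧ N y ≠ y) ∧
    (∀ y, y ∉ k → N y = y) ∧ {y | y ∈ k ∧ N y ≠ w.F y}.Finite

/-- `r` is the root of the body `k`. -/
def Wv.IsRt (w : Wv V) (k : Set V) (r : V) : Prop := r ∈ k ∧ (w.F r ∉ k ∨ w.F r = r)

/-- The root of the body containing `x` (and `x` itself if `x` is in no body). -/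
noncomputable def Wv.rho (w : Wv V) (x : V) : V :=
  if h : ∃ r k, k ∈ w.K ∧ x ∈ k ∧ w.IsRt k r then h.choose else x

section API

variable {G : SimpleGraph V} {O U : Set V} {w : Wv V}

theorem IsWave.rt_of (hw : IsWave G O U w) {k : Set V} (hk : k ∈ w.K) {r : V} (hr : r ∈ k)
    (h2 : w.F r ∈ w.A ∨ w.F r = r) : w.IsRt k r := by
  refine ⟨hr, ?_⟩
  rcases h2 with h2 | h2
  · exact Or.inl fun h => hw.KA k hk _ h h2
  · exact Or.inr h2

/-- Existence of the root, with its properties. -/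
theorem IsWave.exists_rt (hw : IsWave G O U w) {k : Set V} (hk : k ∈ w.K) :
    ∃ r, w.IsRt k r ∧ (∀ x ∈ k, x ≠ r → w.F x ∈ k ∧ w.F x ≠ x) ∧ (w.F r ∈ w.A ∨ w.F r = r) := by
  obtain ⟨r, hr, h1, h2⟩ := hw.root k hk
  exact ⟨r, hw.rt_of hk hr h2, h1, h2⟩

theorem IsWave.rt_unique (hw : IsWave G O U w) {k : Set V} (hk : k ∈ w.K) {r r' : V}
    (hr : w.IsRt k r) (hr' : w.IsRt k r') : r = r' := by
  obtain ⟨s, hs, h1, h2⟩ := hw.exists_rt hk
  have key : ∀ t, w.IsRt k t → t = s := by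
    intro t ht
    by_contra hne
    obtain ⟨h3, h4⟩ := h1 t ht.1 hne
    rcases ht.2 with h | h
    · exact h h3
    · exact h4 h
  rw [key r hr, key r' hr']

theorem IsWave.rt_apply (hw : IsWave G O U w) {k : Set V} (hk : k ∈ w.K) {r : V}
    (hr : w.IsRt k r) : w.F r ∈ w.A ∨ w.F r = r := by
  obtain ⟨s, hs, h1, h2⟩ := hw.exists_rt hk
  rw [hw.rt_unique hk hr hs]
  exact h2

theorem IsWave.body_apply (hw : IsWave G O U w) {k : Set V} (hk : k ∈ w.K) {r : V}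
    (hr : w.IsRt k r) {x : V} (hx : x ∈ k) (hne : x ≠ r) : w.F x ∈ k ∧ w.F x ≠ x := by
  obtain ⟨s, hs, h1, h2⟩ := hw.exists_rt hk
  rw [hw.rt_unique hk hr hs] at hne
  exact h1 x hx hne

theorem IsWave.A_subset_X {w : Wv V} : w.A ⊆ w.X := fun _ h => Wv.mem_X.2 (Or.inl h)

theorem IsWave.Q_subset_X {w : Wv V} : w.Q ⊆ w.X := fun _ h => Wv.mem_X.2 (Or.inr (Or.inl h))

theorem IsWave.D_subset_X {w : Wv V} : w.D ⊆ w.X := fun _ h => Wv.mem_X.2 (Or.inr (Or.inr h))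

theorem IsWave.body_subset_X {w : Wv V} {k : Set V} (hk : k ∈ w.K) : k ⊆ w.X :=
  fun x hx => Wv.mem_X.2 (Or.inr (Or.inr ⟨k, hk, hx⟩))

/-- The matching edge at `a ∈ A` goes to the root of a body. -/
theorem IsWave.A_apply (hw : IsWave G O U w) {a : V} (ha : a ∈ w.A) :
    ∃ k ∈ w.K, w.IsRt k (w.F a) ∧ w.F a ≠ a := by
  obtain ⟨k, hk, h1⟩ := hw.Am a ha
  refine ⟨k, hk, hw.rt_of hk h1 (Or.inl ?_), fun h => hw.KA k hk _ h1 (by rw [h]; exact ha)⟩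
  rw [hw.isM.inv]
  exact ha

theorem IsWave.map_X (hw : IsWave G O U w) {x : V} (hx : x ∈ w.X) : w.F x ∈ w.X := by
  by_cases h : w.F x = x
  · rw [h]; exact hx
  · refine hw.supX _ ?_
    rw [hw.isM.inv]
    exact fun e => h e.symm

theorem IsWave.map_notMem_X (hw : IsWave G O U w) {x : V} (hx : x ∉ w.X) : w.F x = x := by
  by_contra h
  exact hx (hw.supX x h)

theorem IsWave.fix_U (hw : IsWave G O U w) {x : V} (hx : x ∈ U) : w.F x = x :=
  hw.map_notMem_X fun h => hw.disjU x h hx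

theorem rho_spec (hw : IsWave G O U w) {k : Set V} (hk : k ∈ w.K) {x : V} (hx : x ∈ k) :
    w.IsRt k (w.rho x) := by
  have h : ∃ r k, k ∈ w.K ∧ x ∈ k ∧ w.IsRt k r := by
    obtain ⟨r, hr, _⟩ := hw.exists_rt hk
    exact ⟨r, k, hk, hx, hr⟩
  have h1 : w.rho x = h.choose := by simp [Wv.rho, h]
  obtain ⟨k', hk', hx', hr'⟩ := h.choose_spec
  rw [h1]
  rw [hw.KK k hk k' hk' x hx hx']
  exact hr'

theorem rho_of_notMem {w : Wv V} {x : V} (hx : x ∉ w.D) : w.rho x = x := by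
  have h : ¬ ∃ r k, k ∈ w.K ∧ x ∈ k ∧ w.IsRt k r := by
    rintro ⟨_, k, hk, hxk, _⟩
    exact hx ⟨k, hk, hxk⟩
  simp [Wv.rho, h]

end API

/-! ### Order -/

/-- `w'` extends `w`. -/
structure Le (w w' : Wv V) : Prop where
  A : w.A ⊆ w'.A
  K : w.K ⊆ w'.K
  Q : w.Q ⊆ w'.Q
  F : ∀ x ∈ w.X, w'.F x = w.F x

theorem Le.refl (w : Wv V) : Le w w :=
  ⟨Set.Subset.rfl, Set.Subset.rfl, Set.Subset.rfl, fun _ _ => rfl⟩

theorem Le.X {w w' : Wv V} (h : Le w w') : w.X ⊆ w'.X := by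
  intro x hx
  rw [Wv.mem_X] at hx ⊢
  rcases hx with hx | hx | ⟨k, hk, hx⟩
  · exact Or.inl (h.A hx)
  · exact Or.inr (Or.inl (h.Q hx))
  · exact Or.inr (Or.inr ⟨k, h.K hk, hx⟩)

theorem Le.trans {w w' w'' : Wv V} (h : Le w w') (h' : Le w' w'') : Le w w'' :=
  ⟨h.A.trans h'.A, h.K.trans h'.K, h.Q.trans h'.Q, fun x hx => by rw [h'.F x (h.X hx), h.F x hx]⟩

/-- `(G, O, U)` is solid: only the empty wave. -/
def Solid (G : SimpleGraph V) (O U : Set V) : Prop := ∀ w : Wv V, IsWave G O U w → w.X = ∅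

/-- The wave has no hole. -/
def HF (w : Wv V) : Prop := ∀ x ∈ w.X, w.F x ≠ x

/-- `(G, O, U)` is neat: a coverable part and a solid rest. -/
def Neat (G : SimpleGraph V) (O U : Set V) : Prop :=
  ∃ P : Set V, Disjoint P U ∧ Cov G O P ∧ Solid G O (U ∪ P)

/-! ### Restriction of a wave to a smaller graph -/

/-- `U'` is closed under the matching and the roots of `w`. -/
def ClU (w : Wv V) (U' : Set V) : Prop := (∀ x ∈ U', w.F x ∈ U') ∧ ∀ x ∈ U', w.rho x ∈ U'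

/-- The restriction of the wave `w` to the graph without `U'`. -/
noncomputable def Res (w : Wv V) (U' : Set V) : Wv V where
  A := w.A \ U'
  K := {k | k ∈ w.K ∧ Disjoint k U'}
  Q := {x | x ∉ U' ∧ (x ∈ w.Q ∨ ∃ k ∈ w.K, x ∈ k ∧ ¬ Disjoint k U')}
  F := fun x => if x ∈ U' then x else w.F x

/-! ### Reachable bodies and shifts -/

/-- Bodies reachable from the body of the hole `h`. -/
inductive Reach (G : SimpleGraph V) (w : Wv V) (h : V) : Set V → Prop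
  | base : ∀ k, k ∈ w.K → h ∈ k → Reach G w h k
  | step : ∀ k x a k', Reach G w h k → x ∈ k → a ∈ w.A → G.Adj x a → k' ∈ w.K → w.F a ∈ k' →
      Reach G w h k'

/-- The union of the reachable bodies. -/
def RD (G : SimpleGraph V) (w : Wv V) (h : V) : Set V := {x | ∃ k, Reach G w h k ∧ x ∈ k}

/-- The vertices of `A` adjacent to reachable bodies. -/
def RA (G : SimpleGraph V) (w : Wv V) (h : V) : Set V := {a | a ∈ w.A ∧ ∃ x ∈ RD G w h, G.Adj x a}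

/-- `F'` arises from the matching of `w` by moving the hole `h` to `y`. -/
structure Shift (G : SimpleGraph V) (O U : Set V) (w : Wv V) (h y : V) (F' : V → V) : Prop where
  wave : IsWave G O U ⟨w.A, w.K, w.Q, F'⟩
  fin : (df w.F F').Finite
  cov : ∀ z, z ∈ cov F' ↔ (z ∈ cov w.F ∨ z = h) ∧ z ≠ y
  loc : df w.F F' ⊆ RD G w h ∪ RA G w h

/-- `N` is a finite modification of `M` which covers `v` in addition, using one more vertex outside `U`
(first alternative) or exposing one optional vertex (second alternative). -/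
def AugW (G : SimpleGraph V) (O U : Set V) (M : V → V) (v : V) (N : V → V) : Prop :=
  IsM G N ∧ (df M N).Finite ∧
    ((∃ s, s ∉ U ∧ s ≠ v ∧ s ∉ cov M ∧ ∀ z, z ∈ cov N ↔ z ∈ cov M ∨ z = v ∨ z = s) ∨
      ∃ o, o ∈ O ∧ o ∈ cov M ∧ ∀ z, z ∈ cov N ↔ (z ∈ cov M ∨ z = v) ∧ z ≠ o)

/-- The vertex `v` can be covered by a finite modification of `M` (see `hungarian`). -/
def Aug (G : SimpleGraph V) (O U : Set V) (M : V → V) (v : V) : Prop :=
  ∃ N : V → V, AugW G O U M v N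

/-- `N` is a finite modification of the matching of `w` covering exactly `d` and `d'` in addition. -/
def VrtW (G : SimpleGraph V) (w : Wv V) (d d' : V) (N : V → V) : Prop :=
  IsM G N ∧ (df w.F N).Finite ∧ ∀ z, z ∈ cov N ↔ z ∈ cov w.F ∨ z = d ∨ z = d'

/-- `{d, d'}` is a virtual pair for `w`. -/
def Vrt (G : SimpleGraph V) (w : Wv V) (d d' : V) : Prop := d ≠ d' ∧ ∃ N : V → V, VrtW G w d d' N

end Pool.Agent.H70A
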