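import Mathlib

/-!
# H70A chunk W1: a pigeonhole lemma

PROOF. `S₁ = {x ∈ S | φ x ≠ ψ x}` finite. `B \ φ '' (S \ S₁) = φ '' S₁` (bijectivity). `ψ '' S₁` is
contained in `B` and disjoint from `ψ '' (S \ S₁) = φ '' (S \ S₁)`, so contained in `φ '' S₁`, and has the
same finite number of elements `|S₁|`; hence `ψ '' S₁ = φ '' S₁` and `ψ '' S = B`.
-/

namespace Pool.Agent.H70A

theorem pig {α β : Type*} {S : Set α} {B : Set β} {φ ψ : α → β} (hφ : Set.BijOn φ S B)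
    (hψ : Set.InjOn ψ S) (hB : ∀ x ∈ S, ψ x ∈ B) (hf : {x | x ∈ S ∧ φ x ≠ ψ x}.Finite) :
    Set.SurjOn ψ S B := by
  set S₁ : Set α := {x | x ∈ S ∧ φ x ≠ ψ x} with hS₁
  have hsub : S₁ ⊆ S := fun x hx => hx.1
  have h1 : ψ '' S₁ ⊆ φ '' S₁ := by
    rintro _ ⟨x, hx, rfl⟩
    obtain ⟨y, hy, hyx⟩ := hφ.surjOn (hB x hx.1)
    by_cases h : φ y = ψ y
    · have : y = x := hψ hy hx.1 (by rw [← h, hyx])
      subst this
      exact absurd h hx.2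
    · exact ⟨y, ⟨hy, h⟩, hyx⟩
  have h2 : (φ '' S₁).ncard = (ψ '' S₁).ncard := by
    rw [Set.ncard_image_of_injOn (hφ.injOn.mono hsub), Set.ncard_image_of_injOn (hψ.mono hsub)]
  have h3 : ψ '' S₁ = φ '' S₁ := Set.eq_of_subset_of_ncard_le h1 h2.le (hf.image φ)
  intro b hb
  obtain ⟨y, hy, rfl⟩ := hφ.surjOn hb
  by_cases h : φ y = ψ y
  · exact ⟨y, hy, h.symm⟩
  · have h4 : φ y ∈ ψ '' S₁ := by rw [h3]; exact ⟨y, ⟨hy, h⟩, rfl⟩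
    obtain ⟨z, hz, hzy⟩ := h4
    exact ⟨z, hz.1, hzy⟩

end Pool.Agent.H70A
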