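import Pool.Agent.Lib.H70A.H8
import Pool.Agent.Lib.H70A.W6
import Pool.Agent.Lib.H70A.W10

/-!
# H70A chunk W11: one step, and countable graphs

PROOF of `l1`. Let `w₁` be a wave of `(G, O, insert v U)` with `Solid G O (insert v U ∪ w₁.X)`
(`exists_max wave_empty`). By `solid_del` it is hole-free: `cov w₁.F = w₁.X` (`supX`).
* `v ∈ O`: `Y = insert v w₁.X`, matching `w₁.F`. `U ∪ Y = insert v U ∪ w₁.X`.
* `v ∉ O`, not `Aug G O U w₁.F v`: then `HS G O U w₁.F v` and `hungarian` gives a wave of `(G, O, U)` with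
  `v` in it: contradiction.
* `Aug`, second alternative: `cov N = w₁.X + v - o`, `o ∈ O`: `Y = insert v w₁.X`, matching `N`.
* `Aug`, first alternative: `cov N = w₁.X + v + s`, `s ∉ U`, `s ≠ v`, `s ∉ w₁.X`. Let
  `U₁ = insert v U ∪ w₁.X`, solid, `s ∉ U₁`; `w₂` a wave of `(G, O, insert s U₁)` with
  `Solid G O (insert s U₁ ∪ w₂.X)`; hole-free by `solid_del`. `Y = w₁.X ∪ {v, s} ∪ w₂.X`, covered by
  `N` and `w₂.F` (`cov_union`; disjoint since `w₂.X` is disjoint from `insert s U₁`).
`U ∪ Y = insert s U₁ ∪ w₂.X` as sets.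
PROOF of `pm_countable`. If `Uᶜ` is empty: the empty matching. Let `f : ℕ → V` enumerate `Uᶜ`
(surjective onto `Uᶜ`). Recursively define `Y n` with: `Z n = ⋃_{m<n} Y m`, `Solid G O (U ∪ Z n)`,
`Y n` disjoint from `U ∪ Z n`, `Cov G O (Y n)`, `f n ∈ Z n ∪ Y n`: if `f n ∈ Z n` take `Y n = ∅`, otherwise
`l1` for `U ∪ Z n` and `f n`. Then `cov_iUnion` and `⋃ Y n = Uᶜ`.
-/

namespace Pool.Agent.H70A

universe u

variable {V : Type u} {G : SimpleGraph V} {O U : Set V}

theorem l1 (hs : Solid G O U) {v : V} (hv : v ∉ U) :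
    ∃ Y : Set V, v ∈ Y ∧ Disjoint Y U ∧ Cov G O Y ∧ Solid G O (U ∪ Y) := by
  obtain ⟨w₁, -, hw₁, hS₁⟩ := exists_max (wave_empty (G := G) (O := O) (U := insert v U))
  have hHF : HF w₁ := solid_del hs hv hw₁
  have hcov : ∀ x, x ∈ cov w₁.F ↔ x ∈ w₁.X := fun x => ⟨fun h => hw₁.supX x h, fun h => hHF x h⟩
  have hvX : v ∉ w₁.X := fun h => hw₁.disjU v h (Set.mem_insert v U)
  have hXU : ∀ x ∈ w₁.X, x ∉ U := fun x h hx => hw₁.disjU x h (Set.mem_insert_of_mem v hx)
  have hset : U ∪ insert v w₁.X = insert v U ∪ w₁.X := by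
    ext x
    simp only [Set.mem_union, Set.mem_insert_iff]
    tauto
  have hdisj : Disjoint (insert v w₁.X) U := by
    rw [Set.disjoint_left]
    intro x hx hxU
    rcases Set.mem_insert_iff.1 hx with rfl | hx
    · exact hv hxU
    · exact hXU x hx hxU
  by_cases hO : v ∈ O
  · refine ⟨insert v w₁.X, Set.mem_insert _ _, hdisj, ⟨w₁.F, hw₁.isM, ?_, ?_⟩, ?_⟩
    · intro x hx
      exact Set.mem_insert_of_mem v ((hcov x).1 hx)
    · intro x hx hxO
      rcases Set.mem_insert_iff.1 hx with rfl | hx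
      · exact absurd hO hxO
      · exact (hcov x).2 hx
    · rw [hset]
      exact hS₁
  · by_cases hA : Aug G O U w₁.F v
    · obtain ⟨N, hN, hfin, h | h⟩ := hA
      · obtain ⟨s, hsU, hsv, hsc, hz⟩ := h
        have hsX : s ∉ w₁.X := fun h => hsc ((hcov s).2 h)
        have hs' : s ∉ insert v U ∪ w₁.X := by
          simp only [Set.mem_union, Set.mem_insert_iff]
          tauto
        obtain ⟨w₂, -, hw₂, hS₂⟩ :=
          exists_max (wave_empty (G := G) (O := O) (U := insert s (insert v U ∪ w₁.X)))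
        have hHF₂ : HF w₂ := solid_del hS₁ hs' hw₂
        have hcov₂ : ∀ x, x ∈ cov w₂.F ↔ x ∈ w₂.X :=
          fun x => ⟨fun h => hw₂.supX x h, fun h => hHF₂ x h⟩
        have hd₂ : ∀ x ∈ w₂.X, x ≠ s ∧ x ≠ v ∧ x ∉ U ∧ x ∉ w₁.X := by
          intro x hx
          have := hw₂.disjU x hx
          simp only [Set.mem_union, Set.mem_insert_iff] at this
          tauto
        refine ⟨(w₁.X ∪ {v, s}) ∪ w₂.X, ?_, ?_, ?_, ?_⟩
        · simp
        · rw [Set.disjoint_left]
          intro x hx hxU
          simp only [Set.mem_union, Set.mem_insert_iff, Set.mem_singleton_iff] at hx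
          rcases hx with (hx | rfl | rfl) | hx
          · exact hXU x hx hxU
          · exact hv hxU
          · exact hsU hxU
          · exact (hd₂ x hx).2.2.1 hxU
        · refine cov_union ⟨N, hN, ?_, ?_⟩ ⟨w₂.F, hw₂.isM, ?_, ?_⟩ ?_
          · intro x hx
            have h1 := (hz x).1 hx
            rw [hcov] at h1
            simp only [Set.mem_union, Set.mem_insert_iff, Set.mem_singleton_iff]
            exact h1
          · intro x hx _
            refine (hz x).2 ?_
            rw [hcov]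
            simpa only [Set.mem_union, Set.mem_insert_iff, Set.mem_singleton_iff] using hx
          · intro x hx
            exact (hcov₂ x).1 hx
          · intro x hx _
            exact (hcov₂ x).2 hx
          · rw [Set.disjoint_left]
            intro x hx hx2
            obtain ⟨h1, h2, h3, h4⟩ := hd₂ x hx2
            simp only [Set.mem_union, Set.mem_insert_iff, Set.mem_singleton_iff] at hx
            tauto
        · have e : U ∪ ((w₁.X ∪ {v, s}) ∪ w₂.X) = insert s (insert v U ∪ w₁.X) ∪ w₂.X := by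
            ext x
            simp only [Set.mem_union, Set.mem_insert_iff, Set.mem_singleton_iff]
            tauto
          rw [e]
          exact hS₂
      · obtain ⟨o, hoO, hoc, hz⟩ := h
        refine ⟨insert v w₁.X, Set.mem_insert _ _, hdisj, ⟨N, hN, ?_, ?_⟩, ?_⟩
        · intro x hx
          have h1 := (hz x).1 hx
          rw [hcov] at h1
          rcases h1.1 with h1 | rfl
          · exact Set.mem_insert_of_mem v h1
          · exact Set.mem_insert _ _
        · intro x hx hxO
          refine (hz x).2 ⟨?_, fun e => hxO (e ▸ hoO)⟩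
          rw [hcov]
          rcases Set.mem_insert_iff.1 hx with rfl | hx
          · exact Or.inr rfl
          · exact Or.inl hx
        · rw [hset]
          exact hS₁
    · have hHS : HS G O U w₁.F v :=
        { hM := hw₁.isM
          hU := fun x hx h => hXU x ((hcov x).1 h) hx
          hvU := hv
          hvO := hO
          hv := fun h => hvX ((hcov v).1 h)
          hno := hA }
      obtain ⟨w, hw, -, -, hvD, -⟩ := hungarian hHS
      have h1 := hs w hw
      have h2 : v ∈ w.X := IsWave.D_subset_X hvD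
      rw [h1] at h2
      exact absurd h2 (Set.notMem_empty v)

theorem w11_step {Z : Set V} (hs : Solid G O (U ∪ Z)) (v : V) :
    ∃ Y : Set V, Disjoint Y (U ∪ Z) ∧ Cov G O Y ∧ Solid G O (U ∪ (Z ∪ Y)) ∧
      (v ∉ U → v ∈ Z ∪ Y) := by
  by_cases hv : v ∈ U ∪ Z
  · refine ⟨∅, Set.empty_disjoint _, ⟨fun x => x, IsM.id G, ?_, ?_⟩, ?_, ?_⟩
    · intro x hx
      exact absurd rfl hx
    · intro x hx
      exact absurd hx (Set.notMem_empty x)
    · rw [Set.union_empty]
      exact hs
    · intro h
      rw [Set.union_empty]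
      exact hv.resolve_left h
  · obtain ⟨Y, h1, h2, h3, h4⟩ := l1 hs hv
    refine ⟨Y, h2, h3, ?_, fun _ => Or.inr h1⟩
    rw [← Set.union_assoc]
    exact h4

theorem pm_countable (hs : Solid G O U) (hc : (Uᶜ : Set V).Countable) : Cov G O Uᶜ := by
  rcases Set.eq_empty_or_nonempty (Uᶜ : Set V) with he | hne
  · rw [he]
    exact ⟨fun x => x, IsM.id G, fun x hx => absurd rfl hx,
      fun x hx => absurd hx (Set.notMem_empty x)⟩
  · obtain ⟨f, hf⟩ := hc.exists_eq_range hne
    choose Y hY1 hY2 hY3 hY4 using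
      fun (Z : {Z : Set V // Solid G O (U ∪ Z)}) (v : V) => w11_step Z.2 v
    have h0 : Solid G O (U ∪ (∅ : Set V)) := by rw [Set.union_empty]; exact hs
    let Z : ℕ → {Z : Set V // Solid G O (U ∪ Z)} := fun n =>
      Nat.rec ⟨∅, h0⟩ (fun m z => ⟨z.1 ∪ Y z (f m), hY3 z (f m)⟩) n
    have hZ : ∀ n, (Z (n + 1)).1 = (Z n).1 ∪ Y (Z n) (f n) := fun n => rfl
    have hZ0 : (Z 0).1 = ∅ := rfl
    have hmono : ∀ m n, m ≤ n → (Z m).1 ⊆ (Z n).1 := by
      intro m n hmn
      induction n, hmn using Nat.le_induction with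
      | base => exact subset_rfl
      | succ n _ ih => rw [hZ]; exact ih.trans Set.subset_union_left
    have hsub : ∀ n, (Z n).1 ⊆ ⋃ m, Y (Z m) (f m) := by
      intro n
      induction n with
      | zero => rw [hZ0]; exact Set.empty_subset _
      | succ n ih =>
        rw [hZ]
        exact Set.union_subset ih (Set.subset_iUnion (fun m => Y (Z m) (f m)) n)
    have hlt : ∀ m n, m < n → ∀ x, x ∈ Y (Z m) (f m) → x ∉ Y (Z n) (f n) := by
      intro m n hmn x hx hx'
      have h1 : x ∈ (Z (m + 1)).1 := by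
        rw [hZ]
        exact Or.inr hx
      have h2 : x ∈ (Z n).1 := hmono (m + 1) n hmn h1
      exact Set.disjoint_left.1 (hY1 (Z n) (f n)) hx' (Or.inr h2)
    have hU : (⋃ m, Y (Z m) (f m)) = Uᶜ := by
      apply Set.Subset.antisymm
      · intro x hx
        obtain ⟨m, hm⟩ := Set.mem_iUnion.1 hx
        intro hxU
        exact Set.disjoint_left.1 (hY1 (Z m) (f m)) hm (Or.inl hxU)
      · intro x hx
        have hx' := hx
        rw [hf] at hx'
        obtain ⟨n, rfl⟩ := hx'
        have h1 : f n ∈ (Z (n + 1)).1 := by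
          rw [hZ]
          exact hY4 (Z n) (f n) hx
        exact hsub (n + 1) h1
    rw [← hU]
    refine cov_iUnion (fun m => Y (Z m) (f m)) (fun m => hY2 (Z m) (f m)) ?_
    intro i j x hi hj
    by_contra hne'
    rcases Nat.lt_or_gt_of_ne hne' with h | h
    · exact hlt i j h x hi hj
    · exact hlt j i h x hj hi

end Pool.Agent.H70A
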