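import Pool.Agent.Lib.H70A.W0
import Pool.Agent.Lib.H70A.M5

/-!
# H70A chunk W5: unions of chains of waves

PROOF. `w'` = unions of the `A`s, `K`s, `Q`s and the matching `F` glued by `union_isM` (if
`(w i).F x ≠ x` and `(w j).F x ≠ x`, then `x ∈ (w i).X` and `Le` in one direction gives equality). For
`x ∈ (w j).X`: `F x = (w j).F x`: if `(w j).F x ≠ x` by gluing; if `(w j).F x = x` and `F x ≠ x`, then
`F x = (w i).F x ≠ x` for some `i`, `x ∈ (w i).X`, and `Le` one way or the other gives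
`(w i).F x = (w j).F x`. All wave axioms for finitely many sets at a time hold in a common member of the
chain (for two indices take the larger one). The axioms `root`, `crit` for a body `k ∈ (w j).K` are those
of `w j` since `F = (w j).F` on `(w j).X`.
-/

namespace Pool.Agent.H70A

universe u v

variable {V : Type u} {G : SimpleGraph V} {O U : Set V}

theorem wave_empty : IsWave G O U ⟨∅, ∅, ∅, fun x => x⟩ where
  isM := IsM.id G
  supX x hx := absurd rfl hx
  disjU x hx := by
    rw [Wv.mem_X, Wv.mem_D] at hx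
    rcases hx with hx | hx | ⟨k, hk, _⟩
    · exact absurd hx (Set.notMem_empty x)
    · exact absurd hx (Set.notMem_empty x)
    · exact absurd hk (Set.notMem_empty k)
  AQ x hx := absurd hx (Set.notMem_empty x)
  KA k hk := absurd hk (Set.notMem_empty k)
  KQ k hk := absurd hk (Set.notMem_empty k)
  KK k hk := absurd hk (Set.notMem_empty k)
  Kadj k hk := absurd hk (Set.notMem_empty k)
  Qadj x hx := absurd hx (Set.notMem_empty x)
  Qm x hx := absurd hx (Set.notMem_empty x)
  Am x hx := absurd hx (Set.notMem_empty x)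
  KO k hk := absurd hk (Set.notMem_empty k)
  root k hk := absurd hk (Set.notMem_empty k)
  crit k hk := absurd hk (Set.notMem_empty k)

theorem chain_union {J : Type v} (w : J → Wv V) (hw : ∀ j, IsWave G O U (w j))
    (hc : ∀ i j, Le (w i) (w j) ∨ Le (w j) (w i)) :
    ∃ w' : Wv V, IsWave G O U w' ∧ (∀ j, Le (w j) w') ∧ ∀ x ∈ w'.X, ∃ j, x ∈ (w j).X := by
  have hagree : ∀ i j x, x ∈ (w i).X → x ∈ (w j).X → (w i).F x = (w j).F x := by
    intro i j x hi hj
    rcases hc i j with h | h
    · exact (h.F x hi).symm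
    · exact h.F x hj
  have hdir : ∀ i j, ∃ k, Le (w i) (w k) ∧ Le (w j) (w k) := by
    intro i j
    rcases hc i j with h | h
    · exact ⟨j, h, Le.refl _⟩
    · exact ⟨i, Le.refl _, h⟩
  obtain ⟨F, hF, hF1, hF2⟩ := union_isM (fun j => (w j).F) (fun j => (hw j).isM)
    (fun i j x hi hj => hagree i j x ((hw i).supX x hi) ((hw j).supX x hj))
  have hFX : ∀ j, ∀ x ∈ (w j).X, F x = (w j).F x := by
    intro j x hx
    by_cases h : (w j).F x = x
    · by_contra hne
      have h1 : F x ≠ x := fun e => hne (e.trans h.symm)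
      obtain ⟨i, hi, hi'⟩ := hF2 x h1
      exact hne (hi'.trans (hagree i j x ((hw i).supX x hi) hx))
    · exact hF1 j x h
  let w' : Wv V := ⟨⋃ j, (w j).A, ⋃ j, (w j).K, ⋃ j, (w j).Q, F⟩
  have hA : ∀ x, x ∈ w'.A ↔ ∃ j, x ∈ (w j).A := fun x => Set.mem_iUnion
  have hK : ∀ x, x ∈ w'.K ↔ ∃ j, x ∈ (w j).K := fun x => Set.mem_iUnion
  have hQ : ∀ x, x ∈ w'.Q ↔ ∃ j, x ∈ (w j).Q := fun x => Set.mem_iUnion
  have hX : ∀ x, x ∈ w'.X → ∃ j, x ∈ (w j).X := by
    intro x hx
    rw [Wv.mem_X, Wv.mem_D] at hx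
    rcases hx with hx | hx | ⟨k, hk, hxk⟩
    · obtain ⟨j, hj⟩ := (hA x).1 hx
      exact ⟨j, IsWave.A_subset_X hj⟩
    · obtain ⟨j, hj⟩ := (hQ x).1 hx
      exact ⟨j, IsWave.Q_subset_X hj⟩
    · obtain ⟨j, hj⟩ := (hK k).1 hk
      exact ⟨j, IsWave.body_subset_X hj hxk⟩
  have hLe : ∀ j, Le (w j) w' := fun j =>
    ⟨fun x hx => (hA x).2 ⟨j, hx⟩, fun x hx => (hK x).2 ⟨j, hx⟩, fun x hx => (hQ x).2 ⟨j, hx⟩,
      fun x hx => hFX j x hx⟩
  refine ⟨w', ?_, hLe, hX⟩
  exact
    { isM := hF
      supX := by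
        intro x hx
        obtain ⟨j, hj, -⟩ := hF2 x hx
        exact (hLe j).X ((hw j).supX x hj)
      disjU := by
        intro x hx
        obtain ⟨j, hj⟩ := hX x hx
        exact (hw j).disjU x hj
      AQ := by
        intro x hx hx'
        obtain ⟨i, hi⟩ := (hA x).1 hx
        obtain ⟨j, hj⟩ := (hQ x).1 hx'
        obtain ⟨k, h1, h2⟩ := hdir i j
        exact (hw k).AQ x (h1.A hi) (h2.Q hj)
      KA := by
        intro k hk x hx hx'
        obtain ⟨i, hi⟩ := (hK k).1 hk
        obtain ⟨j, hj⟩ := (hA x).1 hx'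
        obtain ⟨l, h1, h2⟩ := hdir i j
        exact (hw l).KA k (h1.K hi) x hx (h2.A hj)
      KQ := by
        intro k hk x hx hx'
        obtain ⟨i, hi⟩ := (hK k).1 hk
        obtain ⟨j, hj⟩ := (hQ x).1 hx'
        obtain ⟨l, h1, h2⟩ := hdir i j
        exact (hw l).KQ k (h1.K hi) x hx (h2.Q hj)
      KK := by
        intro k hk k' hk' x hx hx'
        obtain ⟨i, hi⟩ := (hK k).1 hk
        obtain ⟨j, hj⟩ := (hK k').1 hk'
        obtain ⟨l, h1, h2⟩ := hdir i j
        exact (hw l).KK k (h1.K hi) k' (h2.K hj) x hx hx'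
      Kadj := by
        intro k hk x hx y hy
        obtain ⟨i, hi⟩ := (hK k).1 hk
        rcases (hw i).Kadj k hi x hx y hy with h | h | h
        · exact Or.inl h
        · exact Or.inr (Or.inl ((hLe i).A h))
        · exact Or.inr (Or.inr h)
      Qadj := by
        intro x hx y hy
        obtain ⟨i, hi⟩ := (hQ x).1 hx
        rcases (hw i).Qadj x hi y hy with h | h | h
        · exact Or.inl ((hLe i).Q h)
        · exact Or.inr (Or.inl ((hLe i).A h))
        · exact Or.inr (Or.inr h)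
      Qm := by
        intro x hx
        obtain ⟨i, hi⟩ := (hQ x).1 hx
        have h1 : w'.F x = (w i).F x := hFX i x (IsWave.Q_subset_X hi)
        rw [h1]
        exact ⟨(hLe i).Q ((hw i).Qm x hi).1, ((hw i).Qm x hi).2⟩
      Am := by
        intro a ha
        obtain ⟨i, hi⟩ := (hA a).1 ha
        have h1 : w'.F a = (w i).F a := hFX i a (IsWave.A_subset_X hi)
        rw [h1]
        obtain ⟨k, hk, hk'⟩ := (hw i).Am a hi
        exact ⟨k, (hLe i).K hk, hk'⟩
      KO := by
        intro k hk x hx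
        obtain ⟨i, hi⟩ := (hK k).1 hk
        exact (hw i).KO k hi x hx
      root := by
        intro k hk
        obtain ⟨i, hi⟩ := (hK k).1 hk
        have h1 : ∀ x ∈ k, w'.F x = (w i).F x := fun x hx => hFX i x (IsWave.body_subset_X hi hx)
        obtain ⟨r, hr, h2, h3⟩ := (hw i).root k hi
        refine ⟨r, hr, fun x hx hne => ?_, ?_⟩
        · rw [h1 x hx]
          exact h2 x hx hne
        · rw [h1 r hr]
          exact h3.imp (fun h => (hLe i).A h) id
      crit := by
        intro k hk x hx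
        obtain ⟨i, hi⟩ := (hK k).1 hk
        have h1 : ∀ x ∈ k, w'.F x = (w i).F x := fun x hx => hFX i x (IsWave.body_subset_X hi hx)
        obtain ⟨N, hN, hNx, h2, h3, h4⟩ := (hw i).crit k hi x hx
        refine ⟨N, hN, hNx, h2, h3, h4.subset ?_⟩
        rintro y ⟨hy, hne⟩
        exact ⟨hy, by rw [← h1 y hy]; exact hne⟩ }

end Pool.Agent.H70A
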