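import Pool.Agent.Lib.H70A.W0

/-!
# H70A chunk W7: moving a hole inside a body

PROOF. Let `N` be given by `crit` for `k` and `y`; `F' := sw k w.F N` (`F' z = N z` for `z ∈ k`, `w.F z`
otherwise). `w.F` maps `k` to `k`: `h` is the root of `k` (`w.F h = h`), the other vertices of `k` are
mapped into `k`. `N` maps `k` to `k`. So `F'` is a matching (`sw_isM`). `cov F'`: on `k`, `w.F` covers
`k \ {h}` and `N` covers `k \ {y}`. The wave axioms: `F' = w.F` outside `k`; for `k` the root is `y`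
(`F' y = y`). `Am`: `a ∉ k`. `crit` for `k₁ = k`: the same `N`s, finite differences are preserved; for
`k₁ ≠ k`: `F' = w.F` on `k₁`.
-/

namespace Pool.Agent.H70A

universe u

variable {V : Type u} {G : SimpleGraph V} {O U : Set V} {w : Wv V}

theorem w7_crit (hw : IsWave G O U w) {F' : V → V} (hf : (df w.F F').Finite) :
    ∀ k ∈ w.K, ∀ x ∈ k, ∃ N : V → V, IsM G N ∧ N x = x ∧ (∀ y ∈ k, y ≠ x → N y ∈ k ∧ N y ≠ y) ∧
    (∀ y, y ∉ k → N y = y) ∧ {y | y ∈ k ∧ N y ≠ F' y}.Finite := by
  intro k hk x hx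
  obtain ⟨N, h1, h2, h3, h4, h5⟩ := hw.crit k hk x hx
  refine ⟨N, h1, h2, h3, h4, (h5.union hf).subset ?_⟩
  intro y hy
  by_cases h : N y = w.F y
  · right
    intro e
    exact hy.2 (by rw [h, e])
  · left
    exact ⟨hy.1, h⟩

theorem hole_move (hw : IsWave G O U w) {k : Set V} (hk : k ∈ w.K) {h : V} (hh : h ∈ k)
    (hF : w.F h = h) {y : V} (hy : y ∈ k) :
    ∃ F' : V → V, IsWave G O U ⟨w.A, w.K, w.Q, F'⟩ ∧ (df w.F F').Finite ∧
      (∀ z, z ∈ cov F' ↔ (z ∈ cov w.F ∨ z = h) ∧ z ≠ y) ∧ ∀ z, z ∉ k → F' z = w.F z := by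
  obtain ⟨N, hN, hNy, hNk, hNout, hNf⟩ := hw.crit k hk y hy
  have hrt : w.IsRt k h := hw.rt_of hk hh (Or.inr hF)
  have hwk : ∀ x ∈ k, w.F x ∈ k := by
    intro x hx
    by_cases hxh : x = h
    · rw [hxh, hF]; exact hh
    · exact (hw.body_apply hk hrt hx hxh).1
  have hNk' : ∀ x ∈ k, N x ∈ k := by
    intro x hx
    by_cases hxy : x = y
    · rw [hxy, hNy]; exact hy
    · exact (hNk x hx hxy).1
  have hF' : IsM G (sw k w.F N) := sw_isM hw.isM hN hwk hNk'
  have hdf : (df w.F (sw k w.F N)).Finite := by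
    refine hNf.subset ?_
    intro x hx
    have := df_sw_subset k w.F N hx
    exact ⟨this.1, fun e => this.2 e.symm⟩
  refine ⟨sw k w.F N, ?_, hdf, ?_, fun z hz => sw_notMem hz⟩
  · refine ⟨hF', ?_, hw.disjU, hw.AQ, hw.KA, hw.KQ, hw.KK, hw.Kadj, hw.Qadj, ?_, ?_, hw.KO, ?_,
      w7_crit hw hdf⟩
    · intro x hx
      by_cases hxk : x ∈ k
      · exact IsWave.body_subset_X hk hxk
      · have hx' : w.F x ≠ x := by
          intro e
          apply hx
          show sw k w.F N x = x
          rw [sw_notMem hxk, e]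
        exact hw.supX x hx'
    · intro x hx
      have hxk : x ∉ k := fun h => hw.KQ k hk x h hx
      show sw k w.F N x ∈ w.Q ∧ sw k w.F N x ≠ x
      rw [sw_notMem hxk]
      exact hw.Qm x hx
    · intro a ha
      have hak : a ∉ k := fun h => hw.KA k hk a h ha
      show sw k w.F N a ∈ w.D
      rw [sw_notMem hak]
      exact hw.Am a ha
    · intro k₁ hk₁
      by_cases hkk : k₁ = k
      · rw [hkk]
        refine ⟨y, hy, ?_, Or.inr ?_⟩
        · intro x hx hxy
          show sw k w.F N x ∈ k ∧ sw k w.F N x ≠ x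
          rw [sw_mem hx]
          exact hNk x hx hxy
        · show sw k w.F N y = y
          rw [sw_mem hy, hNy]
      · have hout : ∀ x ∈ k₁, x ∉ k := fun x hx hx' => hkk (hw.KK k₁ hk₁ k hk x hx hx')
        obtain ⟨r, hr, h1, h2⟩ := hw.root k₁ hk₁
        refine ⟨r, hr, ?_, ?_⟩
        · intro x hx hxr
          show sw k w.F N x ∈ k₁ ∧ sw k w.F N x ≠ x
          rw [sw_notMem (hout x hx)]
          exact h1 x hx hxr
        · show sw k w.F N r ∈ w.A ∨ sw k w.F N r = r
          rw [sw_notMem (hout r hr)]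
          exact h2
  · intro z
    by_cases hzk : z ∈ k
    · rw [mem_cov, sw_mem hzk]
      constructor
      · intro h1
        have hzy : z ≠ y := by
          rintro rfl
          exact h1 hNy
        refine ⟨?_, hzy⟩
        by_cases hzh : z = h
        · exact Or.inr hzh
        · exact Or.inl (hw.body_apply hk hrt hzk hzh).2
      · rintro ⟨-, h2⟩
        exact (hNk z hzk h2).2
    · rw [mem_cov, sw_notMem hzk]
      constructor
      · intro h1
        exact ⟨Or.inl h1, fun e => hzk (by rw [e]; exact hy)⟩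
      · rintro ⟨h1 | h1, -⟩
        · exact h1
        · exact absurd (by rw [h1]; exact hh) hzk

end Pool.Agent.H70A
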