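import Pool.Agent.Lib.H70A.W0

/-!
# H70A chunk Z1: deleting a set versus isolating it

`dl G R`: the graph `G` without the edges meeting `R`. PROOFS.
* `dl_le`, `dl_isM`: `dl G R ≤ G`; a matching of `G` with no covered vertex in `R` is a matching of `dl G R`.
* `dl_wave`: `w` is a wave of `(dl G R, O ∪ R, W)` iff it is a wave of `(G, O, R ∪ W)`. From left to right:
  `disjU`: `x ∈ w.A` or `w.Q`: `w.F x ≠ x` is adjacent in `dl`, so `x ∉ R`; `x ∈ w.D`: `KO`. `isM`, `crit`: `dl_le`.
  `Kadj`: `x ∈ k`, `G.Adj x y`: if `y ∈ R` fine; otherwise `dl`-adjacent (`x ∉ R`). `KO` clear. From right to left: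
  `isM`: `w.F x ≠ x` implies `x, w.F x ∈ w.X`, not in `R`; `KO`: `x ∈ k` is not in `R` (`disjU`); `Kadj`: a
  `dl`-neighbour is not in `R`, so in `W`; `crit`: `N` moves only vertices of `k`.
* `dl_solid`: consequence. `dl_cov`: `Cov (dl G R) (O ∪ R) Y` implies `Cov G O (Y \ R)`: the matching covers no
  vertex of `R`.
* `dl_neat`: not needed.
-/

namespace Pool.Agent.H70A

universe u

variable {V : Type u} {G : SimpleGraph V} {O : Set V}

/-- `G` without the edges meeting `R`. -/
def dl (G : SimpleGraph V) (R : Set V) : SimpleGraph V where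
  Adj x y := G.Adj x y ∧ x ∉ R ∧ y ∉ R
  symm := ⟨fun _ _ h => ⟨h.1.symm, h.2.2, h.2.1⟩⟩
  loopless := ⟨fun x h => G.loopless.irrefl x h.1⟩

theorem dl_le {R : Set V} : dl G R ≤ G := fun _ _ h => h.1

theorem dl_wave {R W : Set V} {w : Wv V} : IsWave (dl G R) (O ∪ R) W w ↔ IsWave G O (R ∪ W) w := by
  constructor
  · intro hw
    have hmR : ∀ x, w.F x ≠ x → x ∉ R := fun x hx => (hw.isM.adj x hx).2.1
    have hKR : ∀ k ∈ w.K, ∀ x ∈ k, x ∉ R := fun k hk x hx h => hw.KO k hk x hx (Or.inr h)
    exact
      { isM := hw.isM.mono dl_le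
        supX := hw.supX
        disjU := by
          rintro x hx (h | h)
          · rcases Wv.mem_X.1 hx with h1 | h1 | ⟨k, hk, h1⟩
            · obtain ⟨_, _, _, h2⟩ := hw.A_apply h1
              exact hmR x h2 h
            · exact hmR x (hw.Qm x h1).2 h
            · exact hKR k hk x h1 h
          · exact hw.disjU x hx h
        AQ := hw.AQ
        KA := hw.KA
        KQ := hw.KQ
        KK := hw.KK
        Kadj := by
          intro k hk x hx y hy
          by_cases hyR : y ∈ R
          · exact Or.inr (Or.inr (Or.inl hyR))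
          · rcases hw.Kadj k hk x hx y ⟨hy, hKR k hk x hx, hyR⟩ with h | h | h
            · exact Or.inl h
            · exact Or.inr (Or.inl h)
            · exact Or.inr (Or.inr (Or.inr h))
        Qadj := by
          intro x hx y hy
          by_cases hyR : y ∈ R
          · exact Or.inr (Or.inr (Or.inl hyR))
          · rcases hw.Qadj x hx y ⟨hy, hmR x (hw.Qm x hx).2, hyR⟩ with h | h | h
            · exact Or.inl h
            · exact Or.inr (Or.inl h)
            · exact Or.inr (Or.inr (Or.inr h))
        Qm := hw.Qm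
        Am := hw.Am
        KO := fun k hk x hx h => hw.KO k hk x hx (Or.inl h)
        root := hw.root
        crit := by
          intro k hk x hx
          obtain ⟨N, h1, h2⟩ := hw.crit k hk x hx
          exact ⟨N, h1.mono dl_le, h2⟩ }
  · intro hw
    have hXR : ∀ x ∈ w.X, x ∉ R := fun x hx h => hw.disjU x hx (Or.inl h)
    exact
      { isM := by
          refine ⟨hw.isM.inv, fun x hx => ⟨hw.isM.adj x hx, hXR x (hw.supX x hx), ?_⟩⟩
          exact hXR _ (hw.map_X (hw.supX x hx))
        supX := hw.supX
        disjU := fun x hx h => hw.disjU x hx (Or.inr h)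
        AQ := hw.AQ
        KA := hw.KA
        KQ := hw.KQ
        KK := hw.KK
        Kadj := by
          intro k hk x hx y hy
          rcases hw.Kadj k hk x hx y hy.1 with h | h | h | h
          · exact Or.inl h
          · exact Or.inr (Or.inl h)
          · exact absurd h hy.2.2
          · exact Or.inr (Or.inr h)
        Qadj := by
          intro x hx y hy
          rcases hw.Qadj x hx y hy.1 with h | h | h | h
          · exact Or.inl h
          · exact Or.inr (Or.inl h)
          · exact absurd h hy.2.2
          · exact Or.inr (Or.inr h)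
        Qm := hw.Qm
        Am := hw.Am
        KO := by
          rintro k hk x hx (h | h)
          · exact hw.KO k hk x hx h
          · exact hXR x (IsWave.body_subset_X hk hx) h
        root := hw.root
        crit := by
          intro k hk x hx
          obtain ⟨N, h1, h2, h3, h4, h5⟩ := hw.crit k hk x hx
          refine ⟨N, ⟨h1.inv, fun y hy => ?_⟩, h2, h3, h4, h5⟩
          have hyk : y ∈ k := by
            by_contra h
            exact hy (h4 y h)
          have hyx : y ≠ x := fun h => hy (by rw [h, h2])
          exact ⟨h1.adj y hy, hXR _ (IsWave.body_subset_X hk hyk),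
            hXR _ (IsWave.body_subset_X hk (h3 y hyk hyx).1)⟩ }

theorem dl_solid {R W : Set V} : Solid (dl G R) (O ∪ R) W ↔ Solid G O (R ∪ W) := by
  unfold Solid
  exact forall_congr' fun w => by rw [dl_wave]

theorem dl_fix {R : Set V} {M : V → V} (hM : IsM (dl G R) M) {x : V} (hx : x ∈ R) : M x = x := by
  by_contra h
  exact (hM.adj x h).2.1 hx

theorem dl_isM {R : Set V} {M : V → V} (hM : IsM (dl G R) M) : IsM G M := by
  exact hM.mono dl_le

theorem dl_cov {R Y : Set V} (h : Cov (dl G R) (O ∪ R) Y) : Cov G O (Y \ R) := by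
  obtain ⟨M, hM, h1, h2⟩ := h
  refine ⟨M, dl_isM hM, fun x hx => ⟨h1 x hx, fun h => hx (dl_fix hM h)⟩, fun x hx hO => ?_⟩
  exact h2 x hx.1 fun h => h.elim hO hx.2

end Pool.Agent.H70A
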