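import Pool.Agent.Lib.H70A.Z1
import Pool.Agent.Lib.H70A.R5
import Pool.Agent.Lib.H70A.N1
import Pool.Agent.Lib.H70A.C1

/-!
# H70A chunk Z2: regular cardinals

PROOFS.
* `pm_reg`. Let `ι` be the index order of cardinality `κ` (`exists_idx`; use `obtain ⟨ι, i1, i2, i3, i4, hι, hc⟩`).
  `Solid (dl G U) (O ∪ U) ∅` (`dl_solid`, `U ∪ ∅ = U`). Let `φ : ι → V` with range `Uᶜ` (`#Uᶜ = κ = #ι`) and
  `f i = {φ i}`. `exists_nsys` for `dl G U`, `spread`: `M` covers all vertices of `UU U'` not in `O ∪ U`, and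
  `Uᶜ ⊆ UU U'`. So `Cov (dl G U) (O ∪ U) (UU U')` and `Cov G O (UU U' \ U)` (`dl_cov`), `UU U' \ U = Uᶜ`.
* `safe_solid`. `ι` for `succ ν` (`isRegular_succ`), `f i = Y` for all `i`; `NSys (dl G U) (O ∪ U) U' w`, `Y ⊆ U' j₀`
  for some `j₀` (`ι` nonempty); `M`, `g` from `spread`; choose `i ∈ Cl g` with `j₀ < i` (`cl_unbdd`). `P := U' i \ U`.
  `#P ≤ #(U' i) ≤ ν` (`< succ ν`). `Cov G O P`: the matching `ins (U' i) M` of `dl G U`: `M` maps `U' i` to itself;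
  `dl_cov`. `Neat G O (U ∪ P)`: take `(w i).X`: it is disjoint from `U` (its vertices are covered by `(w i).F`, a
  matching of `dl G U`; `HF`, `dl_fix`) and from `U' i`. `Cov G O (w i).X` by `(w i).F`. Solid: from
  `Solid (dl G U) (O ∪ U) (U' i ∪ (w i).X)` and `dl_solid`: `Solid G O (U ∪ (U' i ∪ (w i).X))`, and
  `U ∪ P ∪ (w i).X` is the same set.
-/

namespace Pool.Agent.H70A

open Cardinal Order

universe u

variable {V : Type u} {G : SimpleGraph V} {O U : Set V}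

theorem pm_reg {κ : Cardinal.{u}} (hκ : κ.IsRegular) (hu : ℵ₀ < κ) (hPM : PMlt V κ)
    (hU : #(Uᶜ : Set V) = κ) (hs : Solid G O U) : Cov G O Uᶜ := by
  have hs' : Solid (dl G U) (O ∪ U) ∅ := by
    rw [dl_solid, Set.union_empty]; exact hs
  obtain ⟨ι, i1, i2, i3, i4, hι, hc⟩ := exists_idx κ hκ hu
  have he : Nonempty (ι ≃ (Uᶜ : Set V)) := Cardinal.eq.1 (hc.trans hU.symm)
  obtain ⟨e⟩ := he
  obtain ⟨U', w, hN, hf⟩ := exists_nsys hι (dl G U) (O ∪ U) hs' (fun i => {((e i : (Uᶜ : Set V)) : V)})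
    (fun i => by
      rw [mk_singleton]
      exact one_lt_aleph0.trans (hc ▸ hu))
  obtain ⟨M, h1, h2, h3, _⟩ := spread hι (hc ▸ hPM) hN
  have h4 : Cov (dl G U) (O ∪ U) (UU U') := ⟨M, h1, h2, h3⟩
  have h5 := dl_cov h4
  have h6 : UU U' \ U = Uᶜ := by
    ext x
    constructor
    · exact fun h => h.2
    · intro h
      refine ⟨?_, h⟩
      obtain ⟨j, hj⟩ := hf (e.symm ⟨x, h⟩)
      refine ⟨j, hj ?_⟩
      simp
  rw [h6] at h5
  exact h5

theorem safe_solid {ν : Cardinal.{u}} (hν : ℵ₀ ≤ ν) (hPM : PMlt V (succ ν)) (hs : Solid G O U)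
    {Y : Set V} (hY : #Y ≤ ν) :
    ∃ P : Set V, Disjoint P U ∧ Y ⊆ U ∪ P ∧ #P ≤ ν ∧ Cov G O P ∧ Neat G O (U ∪ P) := by
  have hκ : (succ ν).IsRegular := isRegular_succ hν
  have hu : ℵ₀ < succ ν := hν.trans_lt (lt_succ ν)
  have hs' : Solid (dl G U) (O ∪ U) ∅ := by
    rw [dl_solid, Set.union_empty]; exact hs
  obtain ⟨ι, i1, i2, i3, i4, hι, hc⟩ := exists_idx (succ ν) hκ hu
  obtain ⟨U', w, hN, hf⟩ := exists_nsys hι (dl G U) (O ∪ U) hs' (fun _ => Y)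
    (fun _ => by rw [hc]; exact hY.trans_lt (lt_succ ν))
  obtain ⟨M, h1, h2, h3, g, hg⟩ := spread hι (hc ▸ hPM) hN
  have hne : Nonempty ι := by
    rw [← mk_ne_zero_iff, hc]
    exact (aleph0_pos.trans hu).ne'
  obtain ⟨i0⟩ := hne
  obtain ⟨j0, hj0⟩ := hf i0
  obtain ⟨i, hi, hji⟩ := cl_unbdd hι g j0
  have hYi : Y ⊆ U' i := hj0.trans (hN.sys.chn.mono _ _ hji.le)
  refine ⟨U' i \ U, Set.disjoint_left.2 fun x hx => hx.2, ?_, ?_, ?_, (w i).X, ?_, ?_, ?_⟩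
  · intro x hx
    by_cases hxU : x ∈ U
    · exact Or.inl hxU
    · exact Or.inr ⟨hYi hx, hxU⟩
  · have h5 := hN.sys.chn.small i
    rw [hc, lt_succ_iff] at h5
    exact (mk_le_mk_of_subset Set.diff_subset).trans h5
  · refine dl_cov ⟨ins (U' i) M, ins_isM h1 _, ?_, ?_⟩
    · intro x hx
      by_contra h
      exact hx (ins_of_notMem fun h' => h h'.1)
    · intro x hx hO h
      rw [ins_apply hx (hg i hi x hx)] at h
      exact h3 x ⟨i, hx⟩ hO h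
  · refine Set.disjoint_left.2 ?_
    rintro x hx (h | h)
    · exact hN.hf i x hx (dl_fix (hN.sys.wave i).isM h)
    · exact (hN.sys.wave i).disjU x hx h.1
  · exact ⟨(w i).F, dl_isM (hN.sys.wave i).isM, fun x hx => (hN.sys.wave i).supX x hx,
      fun x hx _ => hN.hf i x hx⟩
  · have h6 := dl_solid.1 (hN.sys.solid i)
    have h7 : U ∪ U' i \ U ∪ (w i).X = U ∪ (U' i ∪ (w i).X) := by
      rw [Set.union_diff_self, Set.union_assoc]
    rw [h7]
    exact h6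

end Pool.Agent.H70A
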