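import Pool.Agent.Lib.H70A.Z2
import Pool.Agent.Lib.H70A.W11
import Pool.Agent.Lib.H81C.SingCov

/-!
# H70A chunk Z3: all cardinals

PROOFS.
* `safe_all`: let `P₀` be a coverable part, `M₀` its matching, `Solid G O (U' ∪ P₀)`. `Y₁ := (Y ∩ P₀) ∪ M₀ '' (Y ∩ P₀)`,
  `#Y₁ ≤ ν`, closed under `M₀`, contained in `P₀`. `safe_solid` for `U' ∪ P₀` and `Y`: `P₁` and
  `Neat G O (U' ∪ P₀ ∪ P₁)` with coverable part `P₂`. `P := Y₁ ∪ P₁`. `Cov G O Y₁` by `ins Y₁ M₀`; `Y₁ ⊆ P₀` is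
  disjoint from `P₁`; `cov_union`. `Neat G O (U' ∪ P)`: coverable part `(P₀ \ Y₁) ∪ P₂` (`ins (P₀ \ Y₁) M₀`,
  `cov_union`), and `U' ∪ P ∪ ((P₀ \ Y₁) ∪ P₂) = U' ∪ P₀ ∪ P₁ ∪ P₂` is solid. `Y ⊆ U' ∪ P`: `y ∈ Y` is in `Y₁` if
  `y ∈ P₀`, otherwise in `U' ∪ P₁`.
* `pm_all`: strong induction on `κ = #Uᶜ`: `PMlt V κ` holds (all `G`, `O`, `U`). `κ ≤ ℵ₀`: `pm_countable`
  (`le_aleph0_iff_set_countable`). `κ` regular, `ℵ₀ < κ`: `pm_reg`. `κ` singular: `singular_cov` with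
  `Safe G O ν` for `ℵ₀ ≤ ν < κ` (`succ ν ≤ κ`, so `PMlt V (succ ν)`), `Neat G O U` with `P = ∅`.
-/

namespace Pool.Agent.H70A

open Cardinal Order

universe u

variable {V : Type u}

theorem z3_ins {G : SimpleGraph V} {O P Y : Set V} {M : V → V} (hM : IsM G M)
    (hc : ∀ x ∈ P, x ∉ O → x ∈ cov M) (hYP : Y ⊆ P) (hcl : ∀ x ∈ Y, M x ∈ Y) : Cov G O Y := by
  refine ⟨ins Y M, ins_isM hM Y, fun x hx => ?_, fun x hx hxO => ?_⟩
  · exact (mem_cov_ins.1 hx).1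
  · exact mem_cov_ins.2 ⟨hx, hcl x hx, hc x (hYP hx) hxO⟩

theorem safe_all {G : SimpleGraph V} {O : Set V} {ν : Cardinal.{u}} (hν : ℵ₀ ≤ ν)
    (hPM : PMlt V (succ ν)) : Safe G O ν := by
  classical
  intro U' Y hN hY
  obtain ⟨P₀, hd₀, ⟨M₀, hM₀, h0a, h0b⟩, hs₀⟩ := hN
  obtain ⟨P₁, hd₁, hY₁, hc₁, hcov₁, P₂, hd₂, hcov₂, hs₂⟩ := safe_solid hν hPM hs₀ hY
  set Y₁ : Set V := (Y ∩ P₀) ∪ M₀ '' (Y ∩ P₀) with hY₁def
  have hM₀P : ∀ x ∈ P₀, M₀ x ∈ P₀ := by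
    intro x hx
    by_cases h : M₀ x = x
    · rw [h]; exact hx
    · exact h0a _ (hM₀.map_cov h)
  have hY₁P : Y₁ ⊆ P₀ := by
    rintro x (hx | ⟨y, hy, rfl⟩)
    · exact hx.2
    · exact hM₀P y hy.2
  have hY₁cl : ∀ x ∈ Y₁, M₀ x ∈ Y₁ := by
    rintro x (hx | ⟨y, hy, rfl⟩)
    · exact Or.inr ⟨x, hx, rfl⟩
    · rw [hM₀.inv]
      exact Or.inl hy
  have hdiffcl : ∀ x ∈ P₀ \ Y₁, M₀ x ∈ P₀ \ Y₁ := by
    rintro x ⟨hx, hx'⟩
    refine ⟨hM₀P x hx, fun h => hx' ?_⟩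
    have := hY₁cl _ h
    rwa [hM₀.inv] at this
  have hcY : #(Y ∩ P₀ : Set V) ≤ ν := (Cardinal.mk_le_mk_of_subset Set.inter_subset_left).trans hY
  have hcY₁ : #Y₁ ≤ ν := by
    refine (Cardinal.mk_union_le _ _).trans ?_
    refine (add_le_add hcY (Cardinal.mk_image_le.trans hcY)).trans ?_
    rw [Cardinal.add_eq_self hν]
  have hdis1 : Disjoint Y₁ P₁ := by
    rw [Set.disjoint_left]
    intro x hx hx'
    exact Set.disjoint_left.1 hd₁ hx' (Or.inr (hY₁P hx))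
  refine ⟨Y₁ ∪ P₁, ?_, ?_, ?_, ?_, (P₀ \ Y₁) ∪ P₂, ?_, ?_, ?_⟩
  · rw [Set.disjoint_left]
    rintro x (hx | hx) hxU
    · exact Set.disjoint_left.1 hd₀ (hY₁P hx) hxU
    · exact Set.disjoint_left.1 hd₁ hx (Or.inl hxU)
  · intro y hy
    rcases hY₁ hy with (h | h) | h
    · exact Or.inl h
    · exact Or.inr (Or.inl (Or.inl ⟨hy, h⟩))
    · exact Or.inr (Or.inr h)
  · refine (Cardinal.mk_union_le _ _).trans ?_
    refine (add_le_add hcY₁ hc₁).trans ?_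
    rw [Cardinal.add_eq_self hν]
  · exact cov_union (z3_ins hM₀ h0b hY₁P hY₁cl) hcov₁ hdis1
  · rw [Set.disjoint_left]
    rintro x (⟨hx, hx'⟩ | hx) hxU
    · rcases hxU with h | h | h
      · exact Set.disjoint_left.1 hd₀ hx h
      · exact hx' h
      · exact Set.disjoint_left.1 hd₁ h (Or.inr hx)
    · rcases hxU with h | h | h
      · exact Set.disjoint_left.1 hd₂ hx (Or.inl (Or.inl h))
      · exact Set.disjoint_left.1 hd₂ hx (Or.inl (Or.inr (hY₁P h)))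
      · exact Set.disjoint_left.1 hd₂ hx (Or.inr h)
  · refine cov_union (z3_ins hM₀ h0b Set.sdiff_subset hdiffcl) hcov₂ ?_
    rw [Set.disjoint_left]
    rintro x ⟨hx, _⟩ hx'
    exact Set.disjoint_left.1 hd₂ hx' (Or.inl (Or.inr hx))
  · have : U' ∪ (Y₁ ∪ P₁) ∪ (P₀ \ Y₁ ∪ P₂) = U' ∪ P₀ ∪ P₁ ∪ P₂ := by
      ext x
      simp only [Set.mem_union, Set.mem_sdiff]
      have := @hY₁P x
      tauto
    rw [this]
    exact hs₂

/-- Solid graphs of all cardinalities are coverable. -/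
theorem pm_all {G : SimpleGraph V} {O U : Set V} (hs : Solid G O U) : Cov G O Uᶜ := by
  have key : ∀ κ : Cardinal.{u}, ∀ (G : SimpleGraph V) (O U : Set V), #(Uᶜ : Set V) = κ →
      Solid G O U → Cov G O Uᶜ := by
    intro κ
    induction κ using WellFoundedLT.induction with
    | ind κ ih =>
      have hPM : PMlt V κ := fun G O U hU hs => ih _ hU G O U rfl hs
      intro G O U hU hs
      rcases le_or_gt κ ℵ₀ with hle | hlt
      · refine pm_countable hs ?_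
        rw [← Cardinal.le_aleph0_iff_set_countable, hU]
        exact hle
      · by_cases hreg : κ.IsRegular
        · exact pm_reg hreg hlt hPM hU hs
        · refine singular_cov G O U κ hlt.le hreg hU.le ?_ ?_
          · intro ν hν hν'
            refine safe_all hν' ?_
            intro G' O' U' hU' hs'
            exact hPM G' O' U' (hU'.trans_le (Order.succ_le_of_lt hν)) hs'
          · refine ⟨∅, Set.empty_disjoint _, ⟨fun x => x, IsM.id G, fun x hx => absurd rfl hx,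
              fun x hx => absurd hx (Set.notMem_empty x)⟩, ?_⟩
            rw [Set.union_empty]
            exact hs
  exact key _ G O U rfl hs

end Pool.Agent.H70A
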