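import Pool.Agent.Lib.H70A.Z3
import Pool.Agent.Lib.H70A.W3
import Pool.Agent.Lib.H70A.W6

/-!
# H70A chunk Z4: a matching without finite augmentation

PROOF. `exists_max wave_empty` for `(G, ∅, ∅)`: `w`, `Solid G ∅ (∅ ∪ w.X)`. `pm_all`: `Cov G ∅ (∅ ∪ w.X)ᶜ`, a matching
`M₂` covering exactly the complement of `w.X`. `M := sw w.X M₂ w.F` (`M₂` fixes `w.X`... both maps preserve `w.X`).
Suppose `N` augments `M` by `z, z'`. `z` is uncovered by `M`, so `z ∈ w.X` and `w.F z = z`; `z ∈ k ∈ w.K` (`A`, `Q` are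
matched), `z` is the root of `k`, all other vertices of `k` are covered by `w.F`, so `N` covers all of `k`.
`count` for `w` and `N` (`U = ∅`): `{x ∈ w.D | N x ≠ w.F x} ⊆ df M N` is finite; bodies with matched root are
completely covered by `w.F`, hence by `M` and by `N`. The second statement of `count` for `k` (`w.F z = z`) gives
`x ∈ k` with `N x = x`: contradiction.
-/

namespace Pool.Agent.H70A

universe u

variable {V : Type u}

theorem exists_noaug (G : SimpleGraph V) :
    ∃ M : V → V, IsM G M ∧ ∀ (N : V → V) (z z' : V), IsM G N → (df M N).Finite → z ≠ z' →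
      z ∉ cov M → z' ∉ cov M → (∀ x, x ∈ cov N ↔ x ∈ cov M ∨ x = z ∨ x = z') → False := by
  classical
  obtain ⟨w, -, hw, hs⟩ := exists_max (G := G) (O := ∅) (U := ∅) wave_empty
  obtain ⟨M₂, hM₂, h2a, h2b⟩ := pm_all hs
  have hfix : ∀ x ∈ w.X, M₂ x = x := by
    intro x hx
    by_contra hne
    exact h2a x hne (Or.inr hx)
  have hM : IsM G (sw w.X M₂ w.F) :=
    sw_isM hM₂ hw.isM (fun x hx => by rw [hfix x hx]; exact hx) fun x hx => hw.map_X hx
  refine ⟨sw w.X M₂ w.F, hM, ?_⟩
  intro N z z' hN hfin hne hz hz' hcov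
  -- vertices outside `w.X` are covered
  have hout : ∀ x, x ∉ w.X → x ∈ cov (sw w.X M₂ w.F) := by
    intro x hx
    rw [mem_cov, sw_notMem hx]
    exact h2b x (fun h => by
      rcases h with h | h
      · exact h
      · exact hx h) (fun h => h)
  have hzX : z ∈ w.X := by
    by_contra h
    exact hz (hout z h)
  have hFz : w.F z = z := by
    rw [notMem_cov, sw_mem hzX] at hz
    exact hz
  have hzD : z ∈ w.D := by
    rcases Wv.mem_X.1 hzX with h | h | h
    · obtain ⟨k, _, _, h2⟩ := hw.A_apply h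
      exact absurd hFz h2
    · exact absurd hFz (hw.Qm z h).2
    · exact h
  obtain ⟨k, hk, hzk⟩ := hzD
  have hrt : w.IsRt k z := hw.rt_of hk hzk (Or.inr hFz)
  have hcovX : ∀ x ∈ w.X, w.F x ≠ x → N x ≠ x := by
    intro x hx h
    have h1 : x ∈ cov (sw w.X M₂ w.F) := by
      rw [mem_cov, sw_mem hx]
      exact h
    exact (hcov x).2 (Or.inl h1)
  have hf : {x | x ∈ w.D ∧ N x ≠ w.F x}.Finite := by
    refine hfin.subset ?_
    rintro x ⟨hx, h⟩
    rw [mem_df, sw_mem (IsWave.D_subset_X hx)]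
    exact fun e => h e.symm
  obtain ⟨-, hcount⟩ := count hw hN (fun x hx => absurd hx (Set.notMem_empty x)) hf
    (by
      rintro k' hk' ⟨y, hy, hyA⟩ x hx
      have hrt' : w.IsRt k' y := hw.rt_of hk' hy (Or.inl hyA)
      refine hcovX x (IsWave.body_subset_X hk' hx) ?_
      by_cases hxy : x = y
      · subst hxy
        intro e
        rw [e] at hyA
        exact hw.KA k' hk' x hx hyA
      · exact (hw.body_apply hk' hrt' hx hxy).2)
  obtain ⟨x, hx, hNx⟩ := hcount k hk ⟨z, hzk, hFz⟩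
  by_cases hxz : x = z
  · subst hxz
    exact (hcov x).2 (Or.inr (Or.inl rfl)) hNx
  · exact hcovX x (IsWave.body_subset_X hk hx) (hw.body_apply hk hrt hx hxz).2 hNx

end Pool.Agent.H70A
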